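import Pool.Agent.H12.CV.Defs
import Pool.Agent.H12.TN.MB

/-!
DK (deck groups, basic facts).  `X` is `univ` or `ball 0 1`: open, connected, convex, nonempty, not compact.  `A g` is a translation or a Moebius map: maps `X` to `X`, holomorphic on `X`
(`mob_hasDerivAt`, `mob_ball`), bijective with inverse `A g⁻¹` (`mul`, `one`).
`coc`: `S` is compact and covered by the open sets `p '' (ball 0 n ∩ X')`, `X'` an exhaustion of `X` by relatively compact open sets (`pop`, `ps`); so one of them is everything; take its closure `C`; for `x ∈ X` there is `y ∈ C` with `p y = p x`, `fib`.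
`infinite`: if `c^n ≠ 1` for all `n ≥ 1`, then `n ↦ c^n` is injective on `ℕ` and a compact set cannot contain all `A (c^n) x`, `n ≥ 1`: `proper` for `C ∪ {x}`.
`fib_fil`-type statements are in BB.
-/

namespace CV

open Metric Set Filter Topology Function DS TN

variable {S : Type} [MetricSpace S] {X : Set ℂ} {Γ : Type} [Group Γ] {A : Γ → ℂ → ℂ} {p : ℂ → S}

theorem Deck.opn (D : Deck X A p) : IsOpen X := by
  rcases D.hX with ⟨h, -⟩ | ⟨h, -⟩
  · rw [h]; exact isOpen_univ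
  · rw [h]; exact isOpen_ball

theorem Deck.conn (D : Deck X A p) : IsConnected X := by
  rcases D.hX with ⟨h, -⟩ | ⟨h, -⟩
  · rw [h]; exact isConnected_univ
  · rw [h]
    exact ⟨⟨0, mem_ball_self one_pos⟩, (convex_ball (0 : ℂ) 1).isPreconnected⟩

theorem Deck.noncpt (D : Deck X A p) : ¬ IsCompact X := by
  rcases D.hX with ⟨h, -⟩ | ⟨h, -⟩
  · rw [h]; exact noncompact_univ ℂ
  · rw [h]
    intro hc
    have h1 := hc.isClosed.closure_eq
    rw [closure_ball (0 : ℂ) one_ne_zero] at h1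
    have h2 : (1 : ℂ) ∈ closedBall (0 : ℂ) 1 := by simp
    rw [h1] at h2
    simp at h2

theorem Deck.maps (D : Deck X A p) (g : Γ) : MapsTo (A g) X X := by
  rcases D.hX with ⟨h, -⟩ | ⟨h, hA⟩
  · rw [h]; exact mapsTo_univ _ _
  · obtain ⟨u, b, hu, hb, hx⟩ := hA g
    rw [h]
    intro x hx'
    rw [hx, mem_ball_zero_iff]
    exact mob_ball hu hb (mem_ball_zero_iff.1 hx')

theorem Deck.inv_left (D : Deck X A p) (g : Γ) {x : ℂ} (hx : x ∈ X) : A g⁻¹ (A g x) = x := by
  rw [← D.mul g⁻¹ g x hx, inv_mul_cancel, D.one x hx]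

theorem Deck.inv_right (D : Deck X A p) (g : Γ) {x : ℂ} (hx : x ∈ X) : A g (A g⁻¹ x) = x := by
  rw [← D.mul g g⁻¹ x hx, mul_inv_cancel, D.one x hx]

theorem Deck.hol (D : Deck X A p) (g : Γ) : DifferentiableOn ℂ (A g) X := by
  rcases D.hX with ⟨h, hA⟩ | ⟨h, hA⟩
  · obtain ⟨l, hl⟩ := hA g
    have : A g = fun x => x + l := funext hl
    rw [this]
    exact (differentiable_id.add_const l).differentiableOn
  · obtain ⟨u, b, hu, hb, hx⟩ := hA g
    have : A g = mob u b := funext hx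
    rw [this, h]
    intro x hx'
    exact (mob_hasDerivAt hb (mem_ball_zero_iff.1 hx').le).differentiableAt.differentiableWithinAt

theorem Deck.cont (D : Deck X A p) (g : Γ) : ContinuousOn (A g) X := (D.hol g).continuousOn

theorem Deck.inj (D : Deck X A p) (g : Γ) : InjOn (A g) X := by
  intro x hx y hy h
  rw [← D.inv_left g hx, h, D.inv_left g hy]

theorem Deck.image_mul (D : Deck X A p) (g h : Γ) {B : Set ℂ} (hB : B ⊆ X) :
    A (g * h) '' B = A g '' (A h '' B) := by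
  rw [image_image]
  exact image_congr fun x hx => D.mul g h x (hB hx)

theorem Deck.image_inv (D : Deck X A p) (g : Γ) {B : Set ℂ} (hB : B ⊆ X) :
    A g⁻¹ '' (A g '' B) = B := by
  rw [image_image, image_congr fun x hx => D.inv_left g (hB hx)]
  exact image_id' B

theorem Deck.ext (D : Deck X A p) {g h : Γ} {x : ℂ} (hx : x ∈ X) (he : A g x = A h x) : g = h := by
  by_contra hne
  have h1 : h⁻¹ * g ≠ 1 := by
    intro h2
    exact hne (inv_mul_eq_one.1 h2).symm
  refine D.free _ h1 x hx ?_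
  rw [D.mul h⁻¹ g x hx, he, D.inv_left h hx]

theorem Deck.fibre (D : Deck X A p) (g : Γ) {x : ℂ} (hx : x ∈ X) : p (A g x) = p x :=
  ((D.fib x hx _ (D.maps g hx)).2 ⟨g, rfl⟩).symm

theorem Deck.coc [CompactSpace S] (D : Deck X A p) :
    ∃ C ⊆ X, IsCompact C ∧ ∀ x ∈ X, ∃ g, A g x ∈ C := by
  have h1 : ∀ x : X, ∃ r : ℝ, 0 < r ∧ closedBall (x : ℂ) r ⊆ X := by
    intro x
    obtain ⟨r, hr, h⟩ := Metric.isOpen_iff.1 D.opn x x.2
    exact ⟨r / 2, half_pos hr, (closedBall_subset_ball (half_lt_self hr)).trans h⟩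
  choose r hr hrX using h1
  obtain ⟨t, ht⟩ := isCompact_univ.elim_finite_subcover
    (fun x : X => p '' ball (x : ℂ) (r x))
    (fun x => D.pop _ (ball_subset_closedBall.trans (hrX x)) isOpen_ball)
    (by
      intro s _
      obtain ⟨x, hx, rfl⟩ := D.ps s
      rw [mem_iUnion]
      exact ⟨⟨x, hx⟩, x, mem_ball_self (hr _), rfl⟩)
  refine ⟨⋃ x ∈ t, closedBall (x : ℂ) (r x), ?_, ?_, ?_⟩
  · exact iUnion₂_subset fun x _ => hrX x
  · exact t.isCompact_biUnion fun x _ => isCompact_closedBall _ _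
  · intro x hx
    have h2 := ht (mem_univ (p x))
    rw [mem_iUnion₂] at h2
    obtain ⟨z, hz, y, hy, hyx⟩ := h2
    have hy' : y ∈ closedBall (z : ℂ) (r z) := ball_subset_closedBall hy
    obtain ⟨g, hg⟩ := (D.fib x hx y (hrX z hy')).1 hyx.symm
    refine ⟨g, ?_⟩
    rw [hg, mem_iUnion₂]
    exact ⟨z, hz, hy'⟩

theorem Deck.infinite (D : Deck X A p) {c : Γ} (hc : ∀ n : ℕ, 0 < n → c ^ n ≠ 1) {C : Set ℂ}
    (hCX : C ⊆ X) (hC : IsCompact C) {x : ℂ} (hx : x ∈ X) : ∃ n : ℕ, 0 < n ∧ A (c ^ n) x ∉ C := by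
  by_contra hcon
  push Not at hcon
  have hfin := D.proper (C ∪ {x}) (union_subset hCX (singleton_subset_iff.2 hx))
    (hC.union isCompact_singleton)
  have hinj : Injective fun n : ℕ => c ^ (n + 1) := by
    have key : ∀ m n : ℕ, m < n → c ^ (m + 1) ≠ c ^ (n + 1) := by
      intro m n hmn he
      have h1 : c ^ (n + 1) = c ^ (m + 1) * c ^ (n - m) := by
        rw [← pow_add]; congr 1; omega
      rw [h1] at he
      exact hc (n - m) (by omega) (left_eq_mul.1 he)
    intro m n he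
    rcases lt_trichotomy m n with h | h | h
    · exact absurd he (key m n h)
    · exact h
    · exact absurd he.symm (key n m h)
  refine infinite_of_injective_forall_mem hinj (fun n => ?_) hfin
  exact ⟨x, Or.inr rfl, Or.inl (hcon (n + 1) (by omega))⟩

/-- local injectivity of the covering -/
theorem Deck.loc (D : Deck X A p) {x : ℂ} (hx : x ∈ X) : ∃ r > 0, ball x r ⊆ X ∧
    ∀ g, g ≠ 1 → Disjoint (A g '' ball x r) (ball x r) := by
  obtain ⟨R, hR, hRX⟩ := Metric.isOpen_iff.1 D.opn x hx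
  have hC : closedBall x (R / 2) ⊆ X := (closedBall_subset_ball (half_lt_self hR)).trans hRX
  have hfin := D.proper _ hC (isCompact_closedBall _ _)
  have h1 : ∀ g ∈ {g | ∃ y ∈ closedBall x (R / 2), A g y ∈ closedBall x (R / 2)},
      ∀ᶠ r in 𝓝[>] (0 : ℝ), g ≠ 1 → Disjoint (A g '' ball x r) (ball x r) := by
    intro g _
    by_cases hg : g = 1
    · exact Eventually.of_forall fun r h => absurd hg h
    · have hd : 0 < dist (A g x) x / 2 := half_pos (dist_pos.2 (D.free g hg x hx))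
      have hcont := (D.cont g).continuousAt (D.opn.mem_nhds hx)
      obtain ⟨δ, hδ, hδ'⟩ := Metric.continuousAt_iff.1 hcont _ hd
      have h2 : ∀ᶠ r in 𝓝[>] (0 : ℝ), r < min δ (dist (A g x) x / 2) :=
        nhdsWithin_le_nhds (Iio_mem_nhds (lt_min hδ hd))
      filter_upwards [h2] with r hr _
      rw [Set.disjoint_left]
      rintro y ⟨z, hz, rfl⟩ hy
      have h3 : dist (A g z) (A g x) < dist (A g x) x / 2 :=
        hδ' ((mem_ball.1 hz).trans (hr.trans_le (min_le_left _ _)))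
      have h4 : dist (A g z) x < dist (A g x) x / 2 :=
        (mem_ball.1 hy).trans (hr.trans_le (min_le_right _ _))
      have h5 := dist_triangle_left (A g x) x (A g z)
      linarith
  have h2 := (eventually_all_finite hfin).2 h1
  have h3 : ∀ᶠ r in 𝓝[>] (0 : ℝ), r < R / 2 :=
    nhdsWithin_le_nhds (Iio_mem_nhds (half_pos hR))
  obtain ⟨r, hr1, hr2, hr3⟩ := ((h2.and h3).and self_mem_nhdsWithin).exists.imp
    fun r h => (⟨h.1.1, h.1.2, h.2⟩ : _ ∧ _ ∧ _)
  have hsub : ball x r ⊆ closedBall x (R / 2) :=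
    (ball_subset_ball hr2.le).trans ball_subset_closedBall
  refine ⟨r, hr3, hsub.trans hC, fun g hg => ?_⟩
  by_cases hgF : g ∈ {g | ∃ y ∈ closedBall x (R / 2), A g y ∈ closedBall x (R / 2)}
  · exact hr1 g hgF hg
  · rw [Set.disjoint_left]
    rintro y ⟨z, hz, rfl⟩ hy
    exact hgF ⟨z, hsub hz, hsub hy⟩

variable {g gi : S → S} {G Gi : ℂ → ℂ} {θ : Γ ≃* Γ} {ρ : ℂ → ℝ}

theorem Lift.iter (L : Lift X A p g gi G Gi θ ρ) (n : ℕ) : MapsTo (G^[n]) X X ∧
    MapsTo (Gi^[n]) X X ∧ (∀ x ∈ X, Gi^[n] (G^[n] x) = x) ∧ (∀ x ∈ X, G^[n] (Gi^[n] x) = x) ∧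
    ContDiffOn ℝ 1 (G^[n]) X ∧ ContDiffOn ℝ 1 (Gi^[n]) X ∧
    (∀ c, ∀ x ∈ X, G^[n] (A c x) = A (θ^[n] c) (G^[n] x)) ∧
    ∀ x ∈ X, p (G^[n] x) = g^[n] (p x) := by
  induction n with
  | zero =>
    exact ⟨mapsTo_id X, mapsTo_id X, fun x _ => rfl, fun x _ => rfl, contDiffOn_id, contDiffOn_id,
      fun c x _ => rfl, fun x _ => rfl⟩
  | succ n ih =>
    obtain ⟨h1, h2, h3, h4, h5, h6, h7, h8⟩ := ih
    refine ⟨?_, ?_, ?_, ?_, ?_, ?_, ?_, ?_⟩
    · rw [iterate_succ']; exact L.mG.comp h1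
    · rw [iterate_succ']; exact L.mGi.comp h2
    · intro x hx
      rw [iterate_succ_apply, iterate_succ_apply', L.GiG _ (h1 hx), h3 x hx]
    · intro x hx
      rw [iterate_succ_apply, iterate_succ_apply', L.GGi _ (h2 hx), h4 x hx]
    · rw [iterate_succ']; exact L.c1.comp h5 h1
    · rw [iterate_succ']; exact L.c1i.comp h6 h2
    · intro c x hx
      rw [iterate_succ_apply', iterate_succ_apply', iterate_succ_apply', h7 c x hx,
        L.equi _ _ (h1 hx)]
    · intro x hx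
      rw [iterate_succ_apply', iterate_succ_apply', L.lift _ (h1 hx), h8 x hx]

theorem Lift.equi_inv (D : Deck X A p) (L : Lift X A p g gi G Gi θ ρ) (c : Γ) {x : ℂ}
    (hx : x ∈ X) : Gi (A (θ c) x) = A c (Gi x) := by
  have h1 := L.equi c (Gi x) (L.mGi hx)
  rw [L.GGi x hx] at h1
  rw [← h1, L.GiG _ (D.maps c (L.mGi hx))]

variable {U : Set ℂ} {N : Subgroup Γ}

theorem Dom.theta_mem (D : Deck X A p) (L : Lift X A p g gi G Gi θ ρ) (M : Dom X A p g G U N)
    (c : Γ) : θ c ∈ N ↔ c ∈ N := by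
  rw [M.mem, M.mem]
  have h1 : A (θ c) '' U = G '' (A c '' U) := by
    conv_lhs => rw [← M.inv]
    rw [image_image, image_image]
    exact image_congr fun x hx => (L.equi c x (M.sub hx)).symm
  have hinj : InjOn G X := by
    intro x hx y hy h
    rw [← L.GiG x hx, h, L.GiG y hy]
  have hsub : A c '' U ⊆ X := by
    rintro y ⟨x, hx, rfl⟩
    exact D.maps c (M.sub hx)
  rw [h1]
  constructor
  · intro h
    have h2 : G '' (A c '' U) = G '' U := by rw [h, M.inv]
    exact (hinj.image_eq_image_iff hsub M.sub).1 h2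
  · intro h
    rw [h, M.inv]

end CV
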