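import Pool.Agent.H12.CV.TB
import Pool.Agent.H12.CV.DK
import Pool.Agent.H36.DS.TB

/-!
B1, B2 (the filled set of `U`, invariance and disjointness; (0.1) of the note).  `W = fil X U`.
`fil_open`, `fil_conn`: TB.  `fil_inv`, `fil_G`: `fil_map` with `A c`, `A c⁻¹` resp. `G`, `Gi` (`G '' U = U`).
`fil_disj`: let `c ∉ N`, `U' = A c '' U`, disjoint from `U` (`M.comp`), `W' = A c '' W = fil X U'` (`fil_map`).
(a) `U'` does not meet `W`.  Otherwise (`fil_pre`) `U' ⊆ C`, `C` an island of `U`.  Claim `W' ⊆ C`: let `x ∈ W'`, `x ∉ C`.  Then `x ∉ U'`, so the component `C'` of `x` in `X \ U'` is compact.  By Kuratowski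
(`DS.compl_component` with `S = X`, `V = U`, `K = C`; maximality of the component `C`) `X \ C` is preconnected; it is contained in `X \ U'` and contains `x`, so `X \ C ⊆ C'` and `X = C ∪ C'` is compact: contradiction (`Deck.noncpt`).
So `A c '' W ⊆ C ⊆ W` (`Island.basic`), and by induction `A (c^n) '' W ⊆ C` for all `n ≥ 1`.  `c^n ≠ 1` for `n ≥ 1`, since `C` is disjoint from `U ⊆ W`.  `Deck.infinite` for a point of `U`: contradiction.
(b) `U` does not meet `W'`: (a) for `c⁻¹ ∉ N`, transported by `A c`.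
(c) Suppose `W` meets `W'`.  `W` is connected and not contained in `W'` (it contains `U`, nonempty, and (b)), `W'` is open, so `W` meets `closure W' \ W'`: a point `y ∈ W ⊆ X`.  `fil_front` for `U'`: `y ∈ closure U'`; `W` is open and contains `y`, so
`W` meets `U'`: contradiction to (a).
`fil_same`: if `x, A c x ∈ W` then `c ∈ N`.
`fil_inj`: `p` on `W`: `p x = p y` iff `y = A c x` for some `c ∈ N`.
-/

namespace CV

open Metric Set Filter Topology Function DS TN

section
variable {S : Type} [MetricSpace S] {X : Set ℂ} {Γ : Type} [Group Γ]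
  {A : Γ → ℂ → ℂ} {p : ℂ → S} {g gi : S → S} {G Gi : ℂ → ℂ} {θ : Γ ≃* Γ} {ρ : ℂ → ℝ}
  {U : Set ℂ} {N : Subgroup Γ}

theorem fil_open (D : Deck X A p) (M : Dom X A p g G U N) : IsOpen (fil X U) :=
  fil_isOpen D.opn M.opn M.sub

theorem fil_conn (D : Deck X A p) (M : Dom X A p g G U N) : IsConnected (fil X U) :=
  fil_isConnected D.opn M.opn M.conn M.sub

theorem B1_map (D : Deck X A p) (M : Dom X A p g G U N) (c : Γ) :
    A c '' fil X U = fil X (A c '' U) ∧
      ∀ Y, Island X U Y → Island X (A c '' U) (A c '' Y) :=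
  fil_map M.sub (D.cont c) (D.cont c⁻¹) (D.maps c) (D.maps c⁻¹) (fun _ hx => D.inv_left c hx)
    (fun _ hx => D.inv_right c hx) rfl

theorem fil_inv (D : Deck X A p) (M : Dom X A p g G U N) {c : Γ} (hc : c ∈ N) :
    A c '' fil X U = fil X U := by
  rw [(B1_map D M c).1, (M.mem c).1 hc]

theorem fil_G (_D : Deck X A p) (L : Lift X A p g gi G Gi θ ρ) (M : Dom X A p g G U N) :
    G '' fil X U = fil X U :=
  (fil_map M.sub L.c1.continuousOn L.c1i.continuousOn L.mG L.mGi L.GiG L.GGi M.inv).1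

theorem B1_sub (D : Deck X A p) (M : Dom X A p g G U N) (c : Γ) : A c '' U ⊆ X := by
  rintro _ ⟨x, hx, rfl⟩
  exact D.maps c (M.sub hx)

theorem B1_open (D : Deck X A p) (M : Dom X A p g G U N) (c : Γ) : IsOpen (A c '' U) := by
  have h1 : A c '' U = X ∩ A c⁻¹ ⁻¹' U := by
    ext x
    constructor
    · rintro ⟨y, hy, rfl⟩
      refine ⟨D.maps c (M.sub hy), ?_⟩
      show A c⁻¹ (A c y) ∈ U
      rw [D.inv_left c (M.sub hy)]
      exact hy
    · rintro ⟨hx, hxU⟩
      exact ⟨A c⁻¹ x, hxU, D.inv_right c hx⟩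
  rw [h1]
  exact (D.cont c⁻¹).isOpen_inter_preimage D.opn M.opn

/-- (a) -/
theorem B1_a (D : Deck X A p) (M : Dom X A p g G U N) {c : Γ} (hc : c ∉ N) :
    ∀ x, x ∈ A c '' U → x ∉ fil X U := by
  intro x hxU' hxW
  have hpre : IsPreconnected (A c '' U) :=
    M.conn.isPreconnected.image _ ((D.cont c).mono M.sub)
  have hsub : A c '' U ⊆ X \ U := fun y hy =>
    ⟨B1_sub D M c hy, fun hyU => disjoint_left.1 (M.comp c hc) hy hyU⟩
  obtain ⟨hIs, hU'K, -⟩ := fil_pre hpre hsub hxU' hxW
  set K := connectedComponentIn (X \ U) x with hK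
  have hKsub : K ⊆ X \ U := connectedComponentIn_subset _ _
  -- Kuratowski
  have hkur : IsPreconnected (X \ K) := by
    refine DS.compl_component D.conn.isPreconnected M.conn.isPreconnected M.conn.nonempty M.sub
      isPreconnected_connectedComponentIn hKsub ?_
    intro C hC hCp hCK
    exact DS.auxTB_max x C hC hCp hCK
  have hclaim : A c '' fil X U ⊆ K := by
    rw [(B1_map D M c).1]
    rintro y ⟨hyX, hy⟩
    by_contra hyK
    rcases hy with hy | hy
    · exact hyK (hU'K hy)
    · have h1 : X \ K ⊆ X \ (A c '' U) := fun z hz => ⟨hz.1, fun h => hz.2 (hU'K h)⟩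
      have h2 : X \ K ⊆ connectedComponentIn (X \ (A c '' U)) y :=
        hkur.subset_connectedComponentIn ⟨hyX, hyK⟩ h1
      have h3 : X = K ∪ connectedComponentIn (X \ (A c '' U)) y := by
        apply Subset.antisymm
        · intro z hz
          by_cases hzK : z ∈ K
          · exact Or.inl hzK
          · exact Or.inr (h2 ⟨hz, hzK⟩)
        · rintro z (hz | hz)
          · exact (hKsub hz).1
          · exact (connectedComponentIn_subset _ _ hz).1
      apply D.noncpt
      rw [h3]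
      exact hIs.cpt.union hy
  have hKW : K ⊆ fil X U := hIs.basic.2.2.1
  have hind : ∀ n : ℕ, 0 < n → ∀ w ∈ fil X U, A (c ^ n) w ∈ K := by
    intro n hn
    induction n with
    | zero => exact absurd hn (lt_irrefl _)
    | succ n ih =>
      intro w hw
      have hwX : w ∈ X := fil_sub hw
      rcases Nat.eq_zero_or_pos n with h0 | h0
      · subst h0
        rw [zero_add, pow_one]
        exact hclaim ⟨w, hw, rfl⟩
      · rw [pow_succ', D.mul _ _ w hwX]
        exact hclaim ⟨_, hKW (ih h0 w hw), rfl⟩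
  obtain ⟨u, hu⟩ := M.conn.nonempty
  have huX : u ∈ X := M.sub hu
  have huW : u ∈ fil X U := sub_fil M.sub hu
  have hne : ∀ n : ℕ, 0 < n → c ^ n ≠ 1 := by
    intro n hn h1
    have h2 := hind n hn u huW
    rw [h1, D.one u huX] at h2
    exact (hKsub h2).2 hu
  obtain ⟨n, hn, hnK⟩ := D.infinite hne (fun z hz => (hKsub hz).1) hIs.cpt huX
  exact hnK (hind n hn u huW)

theorem fil_disj (D : Deck X A p) (M : Dom X A p g G U N) {c : Γ} (hc : c ∉ N) :
    Disjoint (A c '' fil X U) (fil X U) := by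
  have ha := B1_a D M hc
  have hc' : c⁻¹ ∉ N := fun h => hc (by simpa using N.inv_mem h)
  have hb : ∀ u ∈ U, u ∉ A c '' fil X U := by
    rintro u hu ⟨w, hw, rfl⟩
    have h1 : w ∈ A c⁻¹ '' U := ⟨A c w, hu, D.inv_left c (fil_sub hw)⟩
    exact B1_a D M hc' w h1 hw
  have hW'o : IsOpen (A c '' fil X U) := by
    rw [(B1_map D M c).1]
    exact fil_isOpen D.opn (B1_open D M c) (B1_sub D M c)
  rw [disjoint_comm, disjoint_iff_inter_eq_empty]
  by_contra hne
  have hne' : (fil X U ∩ A c '' fil X U).Nonempty := nonempty_iff_ne_empty.2 hne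
  by_cases h : closure (A c '' fil X U) ∩ fil X U ⊆ A c '' fil X U
  · have h1 := (fil_conn D M).isPreconnected.subset_of_closure_inter_subset hW'o hne' h
    obtain ⟨u, hu⟩ := M.conn.nonempty
    exact hb u hu (h1 (sub_fil M.sub hu))
  · obtain ⟨y, ⟨hy1, hy2⟩, hy3⟩ := not_subset.1 h
    rw [(B1_map D M c).1] at hy1 hy3
    have h2 : y ∈ closure (A c '' U) := fil_front D.opn (fil_sub hy2) hy1 hy3
    obtain ⟨z, hz1, hz2⟩ := mem_closure_iff.1 h2 _ (fil_open D M) hy2
    exact ha z hz2 hz1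

theorem fil_same (D : Deck X A p) (M : Dom X A p g G U N) {c : Γ} {x : ℂ} (hx : x ∈ fil X U)
    (hcx : A c x ∈ fil X U) : c ∈ N := by
  by_contra hc
  exact disjoint_left.1 (fil_disj D M hc) ⟨x, hx, rfl⟩ hcx

/-- `A c ∘ G^n` and its inverse map the filled set onto itself and islands to islands -/
theorem fil_iter (D : Deck X A p) (L : Lift X A p g gi G Gi θ ρ) (M : Dom X A p g G U N) (n : ℕ)
    {c : Γ} (hc : c ∈ N) : (fun x => A c (G^[n] x)) '' fil X U = fil X U ∧
      (fun x => Gi^[n] (A c⁻¹ x)) '' fil X U = fil X U ∧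
      (∀ Y, Island X U Y → Island X U ((fun x => A c (G^[n] x)) '' Y)) ∧
      ∀ Y, Island X U Y → Island X U (A c '' Y) := by
  obtain ⟨i1, i2, i3, i4, i5, i6, -, -⟩ := L.iter n
  have hGU : ∀ k : ℕ, G^[k] '' U = U := by
    intro k
    induction k with
    | zero => simp
    | succ k ih => rw [iterate_succ, image_comp, M.inv, ih]
  have hU : (fun x => A c (G^[n] x)) '' U = U := by
    have h1 : (fun x => A c (G^[n] x)) '' U = A c '' (G^[n] '' U) := (image_image _ _ _).symm
    rw [h1, hGU, (M.mem c).1 hc]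
  have hmain := fil_map (h := fun x => A c (G^[n] x)) (hi := fun x => Gi^[n] (A c⁻¹ x))
    M.sub ((D.cont c).comp i5.continuousOn i1) (i6.continuousOn.comp (D.cont c⁻¹) (D.maps c⁻¹))
    ((D.maps c).comp i1) (i2.comp (D.maps c⁻¹))
    (fun x hx => by
      show Gi^[n] (A c⁻¹ (A c (G^[n] x))) = x
      rw [D.inv_left c (i1 hx), i3 x hx])
    (fun x hx => by
      show A c (G^[n] (Gi^[n] (A c⁻¹ x))) = x
      rw [i4 _ (D.maps c⁻¹ hx), D.inv_right c hx]) hU
  refine ⟨hmain.1, ?_, hmain.2, ?_⟩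
  · conv_lhs => rw [← hmain.1]
    rw [image_image]
    have h2 : ∀ x ∈ fil X U, Gi^[n] (A c⁻¹ (A c (G^[n] x))) = x := by
      intro x hx
      have hxX := fil_sub hx
      rw [D.inv_left c (i1 hxX), i3 x hxX]
    rw [image_congr h2, image_id']
  · have h3 := (B1_map D M c).2
    rw [(M.mem c).1 hc] at h3
    exact h3

end

end CV
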