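import Pool.Agent.H12.CV.B6
import Pool.Agent.H57.TOR.FI

/-!
B14 (the torus, (2.3) of the note; block of helper57).  Proof: Pool/Agent/H57/TOR.
-/

namespace CV

open Metric Set Filter Topology Function DS TN

variable {S : Type} [MetricSpace S] [CompactSpace S] {X : Set ℂ} {Γ : Type} [Group Γ]
  {A : Γ → ℂ → ℂ} {p : ℂ → S} {g gi : S → S} {G Gi : ℂ → ℂ} {θ : Γ ≃* Γ} {ρ : ℂ → ℝ}
  {Hyp : S → Prop} {U : Set ℂ} {N : Subgroup Γ}

theorem case_torus (D : Deck X A p) (L : Lift X A p g gi G Gi θ ρ) (C : Cond X A p g gi G Hyp)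
    (M : Dom X A p g G U N) (hW : fil X U = univ) (hper : ∃ x ∈ X, p x ∈ periodicPts g) :
    False :=
  TOR.case_torus' D L C M hW hper

end CV
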