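import Pool.Agent.H12.CV.FU
import Pool.Agent.H36.DG.FL
import Pool.Agent.H36.DG.QC

/-!
B4, B5 (extension to the closed disc; no fixed points outside the limit set; blocks of helper36).  Proofs: Pool/Agent/H36/DG.
-/

namespace CV

open Metric Set Filter Topology Function DS TN

variable {S : Type} [MetricSpace S] [CompactSpace S] {X : Set ℂ} {Γ : Type} [Group Γ]
  {A : Γ → ℂ → ℂ} {p : ℂ → S} {g gi : S → S} {G Gi : ℂ → ℂ} {θ : Γ ≃* Γ} {ρ : ℂ → ℝ}
  {Hyp : S → Prop} {U : Set ℂ} {N : Subgroup Γ} {ψ v : ℂ → ℂ} {F : Fuchs N}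

/-- B4: extension to the closed disc -/
theorem exists_lf (D : Deck X A p) (L : Lift X A p g gi G Gi θ ρ) (M : Dom X A p g G U N)
    (R : Riem (fil X U) ψ v) (hF : Act A ψ v F) {n : ℕ} (hn : 0 < n) (c : N) :
    ∃ e, Lf A G Gi θ ψ v F n c e :=
  exists_lf' D L M R hF hn c

/-- B5: no fixed point outside the limit set -/
theorem fixed_lim (D : Deck X A p) (L : Lift X A p g gi G Gi θ ρ) (C : Cond X A p g gi G Hyp)
    (M : Dom X A p g G U N) (R : Riem (fil X U) ψ v) (hF : Act A ψ v F)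
    (hI : F.Nonel → F.UC) {n : ℕ} (hn : 0 < n) {c : N} {e : Elt N}
    (he : Lf A G Gi θ ψ v F n c e) {ξ : ℂ} (hξ : ‖ξ‖ = 1) (hf : e.H ξ = ξ) : ξ ∈ F.lim :=
  fixed_lim' D L C M R hF hI hn he hξ hf

end CV
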