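import Pool.Agent.H12.CV.B1
import Pool.Agent.H36.DG.IS

/-!
B6 (index of an island, (1.1) of the note; block of helper36).  Proof: Pool/Agent/H36/DG.
-/

namespace CV

open Metric Set Filter Topology Function DS TN

variable {S : Type} [MetricSpace S] [CompactSpace S] {X : Set ℂ} {Γ : Type} [Group Γ]
  {A : Γ → ℂ → ℂ} {p : ℂ → S} {g gi : S → S} {G Gi : ℂ → ℂ} {θ : Γ ≃* Γ} {ρ : ℂ → ℝ}
  {Hyp : S → Prop} {U : Set ℂ} {N : Subgroup Γ}

/-- index of an island; `H` is `A c ∘ G^n` or its inverse -/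
theorem island_index (D : Deck X A p) (L : Lift X A p g gi G Gi θ ρ) (C : Cond X A p g gi G Hyp)
    (M : Dom X A p g G U N) {n : ℕ} (hn : 0 < n) (c : N) {Y : Set ℂ} (hY : Island X U Y)
    (hHY : (fun x => A c (G^[n] x)) '' Y = Y) {V : Set ℂ} (hV : IsOpen V) (hYV : Y ⊆ V)
    {H : ℂ → ℂ} (hH : (∀ x ∈ X, H x = A c (G^[n] x)) ∨ ∀ x ∈ X, H x = Gi^[n] (A (c : Γ)⁻¹ x)) :
    ∃ O : Set ℂ, ∃ k ∈ Y, IsOpen O ∧ Y ⊆ O ∧ closure O ⊆ V ∧ Bornology.IsBounded O ∧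
      HasLog (fun x => (H x - x) / (x - k)) (frontier O) ∧
      ∀ x ∈ closure O, x ∉ Y → H x ≠ x :=
  island_index' D L C M hn c hY hHY hV hYV hH

end CV
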