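import Pool.Agent.H12.CV.UG

/-!
B8 (uniformly conical limit set).  Proof in the header of UG (`nonel_uc`).
-/

namespace CV

open Metric Set Filter Topology Function DS TN

variable {S : Type} [MetricSpace S] [CompactSpace S] {X : Set ℂ} {Γ : Type} [Group Γ]
  {A : Γ → ℂ → ℂ} {p : ℂ → S} {g : S → S} {G : ℂ → ℂ}
  {U : Set ℂ} {N : Subgroup Γ} {ψ v : ℂ → ℂ} {F : Fuchs N}

theorem nonel_uc (D : Deck X A p) (hX : X = ball 0 1) (M : Dom X A p g G U N)
    (R : Riem (fil X U) ψ v) (hF : Act A ψ v F) (hN : F.Nonel) : F.UC := by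
  obtain ⟨F₀, hF₀, hUC⟩ := exists_fuchs0 D hX
  have hact : ∀ c, F₀.act c = A c := fun c => funext (hF₀ c)
  have hWX : fil X U ⊆ ball 0 1 := by
    rw [← hX]
    exact fil_sub
  have h1 : (F₀.sub N).UC := by
    refine sub_uc hUC (fil_open D M) (fil_conn D M) hWX ?_ (sub_nonel hN) ?_
    · intro z hz
      rw [hact]
      exact fil_inv D M hz
    · intro c hc
      rw [hact]
      exact fil_disj D M hc
  refine uc_cover (F₀.sub N) F h1 R.dψ (fun z hz => hWX (R.mψ hz)) ?_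
  intro c z hz
  rw [hF c z hz]
  have h2 : A c (ψ z) ∈ fil X U := by
    rw [← fil_inv D M c.2]
    exact ⟨ψ z, R.mψ hz, rfl⟩
  rw [R.ψv _ h2]
  exact (hF₀ c (ψ z)).symm

end CV
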