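import Pool.Agent.H12.CV.HE
import Pool.Agent.H12.TN.IX
import Pool.Agent.H12.TN.CP

/-!
CC (cyclic stabiliser, (2.2) of the note).  `W = fil X U`, `N = zpowers κ`, `AR κ P Q`.
`cyc_lim`: points of `F.lim`: norm one and limits of `F.act (κ^j) 0`, `j ∈ ℤ`; each of these has norm `< 1`, so `|j| → ∞` along a subsequence and the limit is `P` or `Q` (`AR.att`, `AR.inv`).
`cyc_free`: let `n` be even, `c ∈ N`, `x ∈ W`, `A c (G^n x) = x`.  Let `e` be given by `exists_lf`.  `e.θ` is conjugation by `c` composed with `θ^n` restricted to the infinite cyclic group `N`; `θ` maps `N` onto `N` (`theta_mem`), so `θ κ = κ^(±1)` (generator to generator; `κ` has infinite order,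
`TN.pow_inj`), `θ^n κ = κ`, and `N` is commutative: `e.θ κ = κ`.  So `e.cen = N = ⊤ = zpowers κ`.  Fixed points of `e.H` on the circle are in `F.lim`, so they are `P` or `Q`.  `index1` for the holes of `exists_holes` gives `m = 0`; but the last
statement of `exists_holes` for the fixed point `x` gives an element of `Fin m`: contradiction.
`annulus_quot`: `l > 0` with `om (act κ z) = om z + l` (CP); `E₀ z = exp (2 π i (om z) / l)` maps the disc onto the annulus `exp (-2 π²/l) < ‖w‖ < 1`; `E₀ z = E₀ z'` iff `om z' = om z + k l`, `k ∈ ℤ`, iff `z' = act (κ^k) z`.  `E₀` is continuous and open (nonconstant holomorphic, or: `om` is a homeomorphism of the disc onto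
the open strip and `exp` is open).  Compose with the radial homeomorphism `w ↦ (w/‖w‖) (1 + (‖w‖ - a)/(1 - a))`, `a = exp (-2 π²/l)`.
`case_cyc`: `B = p '' W` is open.  The maps `z ↦ p (ψ z)` (disc onto `B`) and `E` (disc onto the annulus) are continuous, open and have the same fibres (`p (ψ z) = p (ψ z')` iff `ψ z' = A c (ψ z)`, `c ∈ N` (`fib`, `fil_same`), iff `z' = F.act c z`), so `B` is homeomorphic to the annulus.
`g^2 '' B = B` (`G '' W = W`).  No periodic point: `g^n (p x) = p x`, `x ∈ W`, implies `g^(2n) (p x) = p x`, `A c (G^(2n) x) = x` for some `c`, `c ∈ N` (`fil_same`): contradiction to `cyc_free`.  `h4` with `n = 1` or `2`.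
-/

namespace CV

open Metric Set Filter Topology Function DS TN

theorem cyc_lim {Γ : Type} [Group Γ] (F : Fuchs Γ) {κ : Γ} {P Q : ℂ} (hκ : F.AR κ P Q)
    (h : ∀ c : Γ, c ∈ Subgroup.zpowers κ) {ξ : ℂ} (hξ : ξ ∈ F.lim) : ξ = P ∨ ξ = Q := by
  have h0 : (0:ℂ) ∈ closedBall (0:ℂ) 1 := by simp
  have hz : ∀ R : ℂ, ‖R‖ = 1 → (0:ℂ) ≠ R := by
    rintro R hR rfl
    rw [norm_zero] at hR
    exact zero_ne_one hR
  have h1 := (hκ.att 0 h0 (hz Q hκ.nq)).isCompact_insert_range.isClosed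
  have hκ' := AR.inv hκ
  have h2 := (hκ'.att 0 h0 (hz P hκ.np)).isCompact_insert_range.isClosed
  have h3 : (range fun g => F.act g 0) ⊆ insert P (range fun n : ℕ => F.act (κ ^ n) 0) ∪
      insert Q (range fun n : ℕ => F.act (κ⁻¹ ^ n) 0) := by
    rintro _ ⟨g, rfl⟩
    obtain ⟨k, hk⟩ := Subgroup.mem_zpowers_iff.1 (h g)
    rcases Int.eq_nat_or_neg k with ⟨n, rfl | rfl⟩
    · left
      right
      exact ⟨n, by simp only; rw [← hk, zpow_natCast]⟩
    · right
      right
      exact ⟨n, by simp only; rw [← hk, zpow_neg, zpow_natCast, inv_pow]⟩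
  have h4 := closure_minimal h3 (h1.union h2) hξ.2
  have hlt : ∀ g : Γ, ξ ≠ F.act g 0 := by
    intro g hg
    have h5 := act_lt F g (x := 0) (by simp)
    rw [← hg, hξ.1] at h5
    exact lt_irrefl _ h5
  rcases h4 with (h4 | ⟨n, hn⟩) | (h4 | ⟨n, hn⟩)
  · exact Or.inl h4
  · exact absurd hn.symm (hlt _)
  · exact Or.inr h4
  · exact absurd hn.symm (hlt _)

private theorem CC_re (a b : ℝ) : ((a : ℂ) + (b : ℂ) * Complex.I).re = a := by simp

private theorem CC_im (a b : ℝ) : ((a : ℂ) + (b : ℂ) * Complex.I).im = b := by simp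

/-- the inverse of the coordinate change of the strip -/
private noncomputable def CC_S (l : ℝ) (ζ : ℂ) : ℂ :=
  ((l / (2 * Real.pi) * ζ.im : ℝ) : ℂ) + ((Real.pi * (Real.exp ζ.re - 1) : ℝ) : ℂ) * Complex.I

/-- coordinate change of the strip -/
private noncomputable def CC_T (l : ℝ) (ω : ℂ) : ℂ :=
  ((Real.log (1 + ω.im / Real.pi) : ℝ) : ℂ) + ((2 * Real.pi / l * ω.re : ℝ) : ℂ) * Complex.I

private theorem CC_S_cont (l : ℝ) : Continuous (CC_S l) := by
  unfold CC_S
  have h1 : Continuous fun ζ : ℂ => l / (2 * Real.pi) * ζ.im :=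
    continuous_const.mul Complex.continuous_im
  have h2 : Continuous fun ζ : ℂ => Real.pi * (Real.exp ζ.re - 1) :=
    continuous_const.mul ((Real.continuous_exp.comp Complex.continuous_re).sub continuous_const)
  exact (Complex.continuous_ofReal.comp h1).add ((Complex.continuous_ofReal.comp h2).mul
    continuous_const)

private theorem CC_ST {l : ℝ} (hl : 0 < l) {ω : ℂ} (hω : 0 < ω.im) : CC_S l (CC_T l ω) = ω := by
  have hpi := Real.pi_pos
  have h1 : (CC_T l ω).re = Real.log (1 + ω.im / Real.pi) := CC_re _ _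
  have h2 : (CC_T l ω).im = 2 * Real.pi / l * ω.re := CC_im _ _
  unfold CC_S
  rw [h1, h2, Real.exp_log (by positivity)]
  have h3 : l / (2 * Real.pi) * (2 * Real.pi / l * ω.re) = ω.re := by field_simp
  have h4 : Real.pi * (1 + ω.im / Real.pi - 1) = ω.im := by field_simp; ring
  rw [h3, h4]
  exact Complex.re_add_im ω

private theorem CC_TS {l : ℝ} (hl : 0 < l) (ζ : ℂ) : CC_T l (CC_S l ζ) = ζ := by
  have hpi := Real.pi_pos
  have h1 : (CC_S l ζ).re = l / (2 * Real.pi) * ζ.im := CC_re _ _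
  have h2 : (CC_S l ζ).im = Real.pi * (Real.exp ζ.re - 1) := CC_im _ _
  unfold CC_T
  rw [h1, h2]
  have h3 : 1 + Real.pi * (Real.exp ζ.re - 1) / Real.pi = Real.exp ζ.re := by field_simp; ring
  have h4 : 2 * Real.pi / l * (l / (2 * Real.pi) * ζ.im) = ζ.im := by field_simp
  rw [h3, h4, Real.log_exp]
  exact Complex.re_add_im ζ

theorem annulus_quot {Γ : Type} [Group Γ] (F : Fuchs Γ) {κ : Γ} {P Q : ℂ} (hκ : F.AR κ P Q) :
    ∃ E : ℂ → ℂ, ContinuousOn E (ball 0 1) ∧ E '' ball 0 1 = {z : ℂ | 1 < ‖z‖ ∧ ‖z‖ < 2} ∧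
      (∀ O ⊆ ball (0:ℂ) 1, IsOpen O → IsOpen (E '' O)) ∧
      ∀ z ∈ ball (0:ℂ) 1, ∀ z' ∈ ball (0:ℂ) 1, E z = E z' ↔ ∃ k : ℤ, F.act (κ ^ k) z = z' := by
  have hpi := Real.pi_pos
  have hP := hκ.np
  have hQ := hκ.nq
  have hPQ := hκ.ne
  obtain ⟨l, hl, hact⟩ := om_act hκ
  have hB : ∀ z ∈ ball (0:ℂ) 1, z ∈ Dpq P Q := fun z hz => CP_ball_Dpq hP hQ hz
  have hstr : ∀ z ∈ ball (0:ℂ) 1, 0 < (om P Q z).im ∧ (om P Q z).im < Real.pi := fun z hz =>
    om_im_pos hP hQ hPQ (by simpa using hz)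
  have hzp := (om_act_zpow hκ (l := l) (fun x hx => (hact x (hB x hx)).2)).2
  have hTn : ∀ z ∈ ball (0:ℂ) 1, ‖Complex.exp (CC_T l (om P Q z))‖ = 1 + (om P Q z).im / Real.pi := by
    intro z hz
    have h1 := (hstr z hz).1
    rw [Complex.norm_exp]
    have h2 : (CC_T l (om P Q z)).re = Real.log (1 + (om P Q z).im / Real.pi) := CC_re _ _
    rw [h2, Real.exp_log (by positivity)]
  have homopen : ∀ O ⊆ ball (0:ℂ) 1, IsOpen O → IsOpen (om P Q '' O) := by
    intro O hO hOo
    have h1 : IsOpen {ω : ℂ | 0 < ω.im ∧ ω.im < Real.pi} :=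
      (isOpen_lt continuous_const Complex.continuous_im).inter
        (isOpen_lt Complex.continuous_im continuous_const)
    have h2 : ContinuousOn (omi P Q) {ω : ℂ | 0 < ω.im ∧ ω.im < Real.pi} :=
      (omi_cont hP hQ hPQ).mono fun ω hω => ⟨hω.1.le, hω.2.le⟩
    have h3 : om P Q '' O = {ω : ℂ | 0 < ω.im ∧ ω.im < Real.pi} ∩ omi P Q ⁻¹' O := by
      ext ω
      constructor
      · rintro ⟨z, hz, rfl⟩
        refine ⟨hstr z (hO hz), ?_⟩
        rw [mem_preimage, omi_om hP hQ hPQ (hB z (hO hz))]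
        exact hz
      · rintro ⟨h4, h5⟩
        exact ⟨omi P Q ω, h5, om_omi hP hQ hPQ ⟨h4.1.le, h4.2.le⟩⟩
    rw [h3]
    exact h2.isOpen_inter_preimage h1 hOo
  refine ⟨fun z => Complex.exp (CC_T l (om P Q z)), ?_, ?_, ?_, ?_⟩
  · refine Complex.continuous_exp.comp_continuousOn ?_
    have h1 : ContinuousOn (om P Q) (ball 0 1) := (om_cont hP hQ hPQ).mono hB
    have h2 : ContinuousOn (fun z => Real.log (1 + (om P Q z).im / Real.pi)) (ball 0 1) := by
      refine ContinuousOn.log (continuousOn_const.add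
        ((Complex.continuous_im.comp_continuousOn h1).div_const _)) ?_
      intro z hz
      have h3 := (hstr z hz).1
      positivity
    have h3 : ContinuousOn (fun z => 2 * Real.pi / l * (om P Q z).re) (ball 0 1) :=
      continuousOn_const.mul (Complex.continuous_re.comp_continuousOn h1)
    exact (Complex.continuous_ofReal.comp_continuousOn h2).add
      ((Complex.continuous_ofReal.comp_continuousOn h3).mul continuousOn_const)
  · ext w
    constructor
    · rintro ⟨z, hz, rfl⟩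
      have h1 := hstr z hz
      have h2 : 0 < (om P Q z).im / Real.pi := div_pos h1.1 hpi
      have h3 : (om P Q z).im / Real.pi < 1 := (div_lt_one hpi).2 h1.2
      simp only [mem_ofPred_eq]
      rw [hTn z hz]
      constructor <;> linarith
    · rintro ⟨h1, h2⟩
      have hw : w ≠ 0 := by
        rintro rfl
        rw [norm_zero] at h1
        linarith
      set ζ := Complex.log w with hζ
      have h3 : Real.exp ζ.re = ‖w‖ := by
        rw [hζ, Complex.log_re, Real.exp_log (by linarith)]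
      have h4 : (CC_S l ζ).im = Real.pi * (‖w‖ - 1) := by
        rw [← h3]
        exact CC_im _ _
      have h5 : 0 < (CC_S l ζ).im := by
        rw [h4]
        exact mul_pos hpi (by linarith)
      have h6 : (CC_S l ζ).im < Real.pi := by
        rw [h4]
        nlinarith
      refine ⟨omi P Q (CC_S l ζ), ?_, ?_⟩
      · rw [mem_ball_zero_iff]
        exact omi_ball hP hQ hPQ h5 h6
      · simp only
        rw [om_omi hP hQ hPQ ⟨h5.le, h6.le⟩, CC_TS hl, hζ, Complex.exp_log hw]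
  · intro O hO hOo
    have h1 : (fun z => Complex.exp (CC_T l (om P Q z))) '' O =
        Complex.exp '' (CC_S l ⁻¹' (om P Q '' O)) := by
      ext w
      constructor
      · rintro ⟨z, hz, rfl⟩
        refine ⟨CC_T l (om P Q z), ?_, rfl⟩
        rw [mem_preimage, CC_ST hl (hstr z (hO hz)).1]
        exact ⟨z, hz, rfl⟩
      · rintro ⟨ζ, ⟨z, hz, hz2⟩, rfl⟩
        refine ⟨z, hz, ?_⟩
        simp only
        rw [hz2, CC_TS hl]
    rw [h1]
    exact Complex.isOpenMap_exp _ ((homopen O hO hOo).preimage (CC_S_cont l))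
  · intro z hz z' hz'
    have h1 := (hstr z hz).1
    have h2 := (hstr z' hz').1
    have hre : ∀ ω : ℂ, (CC_T l ω).re = Real.log (1 + ω.im / Real.pi) := fun ω => CC_re _ _
    have him : ∀ ω : ℂ, (CC_T l ω).im = 2 * Real.pi / l * ω.re := fun ω => CC_im _ _
    simp only
    rw [Complex.exp_eq_exp_iff_exists_int]
    have hnm : ∀ n : ℤ, (n * (2 * Real.pi * Complex.I) : ℂ).re = 0 := by
      intro n
      have h3 : (n * (2 * Real.pi * Complex.I) : ℂ) = ((n * (2 * Real.pi) : ℝ) : ℂ) * Complex.I := by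
        push_cast
        ring
      rw [h3]
      simp
    have hnm2 : ∀ n : ℤ, (n * (2 * Real.pi * Complex.I) : ℂ).im = n * (2 * Real.pi) := by
      intro n
      have h3 : (n * (2 * Real.pi * Complex.I) : ℂ) =
          ((0 : ℝ) : ℂ) + ((n * (2 * Real.pi) : ℝ) : ℂ) * Complex.I := by
        push_cast
        ring
      rw [h3]
      exact CC_im _ _
    constructor
    · rintro ⟨n, hn⟩
      have h3 := congrArg Complex.re hn
      have h4 := congrArg Complex.im hn
      rw [Complex.add_re, hnm, hre, hre, add_zero] at h3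
      rw [Complex.add_im, hnm2, him, him] at h4
      have h5 : (om P Q z).im = (om P Q z').im := by
        have h6 := Real.log_injOn_pos (show 0 < 1 + (om P Q z).im / Real.pi by positivity)
          (show 0 < 1 + (om P Q z').im / Real.pi by positivity) h3
        field_simp at h6
        linarith
      have h7 : (om P Q z).re = (om P Q z').re + n * l := by
        field_simp at h4
        linarith
      refine ⟨-n, ?_⟩
      obtain ⟨q1, q2⟩ := hzp (-n) z (hB z hz)
      rw [← omi_om hP hQ hPQ q1, ← omi_om hP hQ hPQ (hB z' hz'), q2]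
      congr 1
      apply Complex.ext
      · push_cast
        simp only [Complex.add_re, Complex.mul_re, Complex.neg_re, Complex.intCast_re,
          Complex.ofReal_re, Complex.neg_im, Complex.intCast_im, Complex.ofReal_im]
        rw [h7]
        ring
      · simp [h5]
    · rintro ⟨k, hk⟩
      obtain ⟨q1, q2⟩ := hzp k z (hB z hz)
      rw [hk] at q2
      refine ⟨-k, ?_⟩
      apply Complex.ext
      · rw [Complex.add_re, hnm, hre, hre, add_zero, q2]
        simp
      · rw [Complex.add_im, hnm2, him, him, q2]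
        simp only [Complex.add_re, Complex.mul_re, Complex.intCast_re,
          Complex.ofReal_re, Complex.intCast_im, Complex.ofReal_im]
        push_cast
        field_simp
        ring

/-- two open quotients with the same fibres are homeomorphic -/
private theorem CC_homeo {Y1 Y2 : Type} [TopologicalSpace Y1] [TopologicalSpace Y2]
    {f1 : ℂ → Y1} {f2 : ℂ → Y2} {B : Set ℂ} (hB : IsOpen B) (hc1 : ContinuousOn f1 B)
    (hc2 : ContinuousOn f2 B) (ho1 : ∀ O ⊆ B, IsOpen O → IsOpen (f1 '' O))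
    (ho2 : ∀ O ⊆ B, IsOpen O → IsOpen (f2 '' O))
    (hf : ∀ z ∈ B, ∀ z' ∈ B, f1 z = f1 z' ↔ f2 z = f2 z') : Nonempty (f1 '' B ≃ₜ f2 '' B) := by
  have key : ∀ {Y : Type} [TopologicalSpace Y] {f : ℂ → Y}, ContinuousOn f B →
      (∀ O ⊆ B, IsOpen O → IsOpen (f '' O)) →
      ∃ Φ : C(B, f '' B), (∀ z, (Φ z : Y) = f z) ∧ IsQuotientMap Φ := by
    intro Y _ f hc ho
    refine ⟨⟨fun z : B => (⟨f z, mem_image_of_mem f z.2⟩ : f '' B),
      Continuous.subtype_mk (continuousOn_iff_continuous_domRestrict.1 hc) _⟩, fun _ => rfl, ?_⟩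
    refine IsOpenMap.isQuotientMap ?_ ?_ ?_
    · intro V hV
      obtain ⟨O, hO, rfl⟩ := isOpen_induced_iff.1 hV
      refine isOpen_induced_iff.2 ⟨f '' (B ∩ O), ho _ inter_subset_left (hB.inter hO), ?_⟩
      ext ⟨y, hy⟩
      constructor
      · rintro ⟨z, hz, hzy⟩
        exact ⟨⟨z, hz.1⟩, hz.2, Subtype.ext hzy⟩
      · rintro ⟨z, hz, hzy⟩
        exact ⟨z, ⟨z.2, hz⟩, congrArg Subtype.val hzy⟩
    · exact Continuous.subtype_mk (continuousOn_iff_continuous_domRestrict.1 hc) _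
    · rintro ⟨y, z, hz, rfl⟩
      exact ⟨⟨z, hz⟩, rfl⟩
  obtain ⟨Φ1, e1, q1⟩ := key hc1 ho1
  obtain ⟨Φ2, e2, q2⟩ := key hc2 ho2
  have hk : Setoid.ker Φ1 = Setoid.ker Φ2 := by
    ext z z'
    rw [Setoid.ker_def, Setoid.ker_def, ← Subtype.coe_inj, ← Subtype.coe_inj, e1, e1, e2, e2]
    exact hf z z.2 z' z'.2
  have h1 := q1.homeomorph
  rw [hk] at h1
  exact ⟨h1.symm.trans q2.homeomorph⟩

variable {S : Type} [MetricSpace S] [CompactSpace S] {X : Set ℂ} {Γ : Type} [Group Γ]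
  {A : Γ → ℂ → ℂ} {p : ℂ → S} {g gi : S → S} {G Gi : ℂ → ℂ} {θ : Γ ≃* Γ} {ρ : ℂ → ℝ}
  {Hyp : S → Prop} {U : Set ℂ} {N : Subgroup Γ} {ψ v : ℂ → ℂ} {F : Fuchs N}

omit [CompactSpace S] in
/-- an automorphism which preserves an infinite cyclic subgroup squares to the identity there -/
private theorem CC_theta (D : Deck X A p) (L : Lift X A p g gi G Gi θ ρ)
    (M : Dom X A p g G U N) {κ : N} {P Q : ℂ} (hκ : F.AR κ P Q)
    (h : ∀ c : N, c ∈ Subgroup.zpowers κ) {n : ℕ} (h2 : Even n) : θ^[n] (κ : Γ) = κ := by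
  have hmem := Dom.theta_mem D L M
  obtain ⟨a, ha⟩ := Subgroup.mem_zpowers_iff.1 (h ⟨θ κ, (hmem κ).2 κ.2⟩)
  have ha' : (κ : Γ) ^ a = θ κ := congrArg Subtype.val ha
  have hs : θ.symm (κ : Γ) ∈ N := by
    rw [← hmem, MulEquiv.apply_symm_apply]
    exact κ.2
  obtain ⟨b, hb⟩ := Subgroup.mem_zpowers_iff.1 (h ⟨θ.symm κ, hs⟩)
  have hb' : (κ : Γ) ^ b = θ.symm κ := congrArg Subtype.val hb
  have h3 : (κ : Γ) ^ (a * b) = (κ : Γ) ^ (1 : ℤ) := by
    rw [zpow_mul, ha', ← map_zpow, hb', MulEquiv.apply_symm_apply, zpow_one]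
  have h4 : κ ^ (a * b) = κ ^ (1 : ℤ) := Subtype.ext (by
    rw [Subgroup.coe_zpow, Subgroup.coe_zpow]
    exact h3)
  have h5 : a * b = 1 := pow_inj F (AR.ne_one hκ) h4
  have h6 : a * a = 1 := by
    rcases Int.mul_eq_one_iff_eq_one_or_neg_one.1 h5 with ⟨h, _⟩ | ⟨h, _⟩ <;> rw [h] <;> norm_num
  have h7 : θ (θ (κ : Γ)) = κ := by
    rw [← ha', map_zpow, ← ha', ← zpow_mul, h6, zpow_one]
  obtain ⟨m, rfl⟩ := h2
  have h8 : ∀ m : ℕ, θ^[m + m] (κ : Γ) = κ := by
    intro m
    induction m with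
    | zero => rfl
    | succ m ih =>
      have : m + 1 + (m + 1) = (m + m) + 1 + 1 := by ring
      rw [this, iterate_succ_apply', iterate_succ_apply', ih, h7]
  exact h8 m

theorem cyc_free (D : Deck X A p) (L : Lift X A p g gi G Gi θ ρ) (C : Cond X A p g gi G Hyp)
    (M : Dom X A p g G U N) (R : Riem (fil X U) ψ v) (hF : Act A ψ v F) {κ : N} {P Q : ℂ}
    (hκ : F.AR κ P Q) (h : ∀ c : N, c ∈ Subgroup.zpowers κ) {n : ℕ} (hn : 0 < n) (h2 : Even n)
    {c : Γ} {x : ℂ} (hx : x ∈ fil X U) : A c (G^[n] x) ≠ x := by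
  intro hfx
  have hGx : G^[n] x ∈ fil X U := by
    have h3 := (fil_iter D L M n N.one_mem).1
    have h4 : A 1 (G^[n] x) ∈ fil X U := h3 ▸ mem_image_of_mem _ hx
    rwa [D.one _ ((Lift.iter L n).1 hx.1)] at h4
  have hc : c ∈ N := fil_same D M hGx (by rw [hfx]; exact hx)
  obtain ⟨e, he⟩ := exists_lf D L M R hF hn ⟨c, hc⟩
  obtain ⟨m, Y, _, _, ⟨O, k, ho, _⟩, _, hfix⟩ := exists_holes D L C M R hF hn he
  have hθ := CC_theta D L M hκ h h2
  have heκ : e.θ κ = κ := by
    apply Subtype.ext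
    rw [he.th, hθ]
    obtain ⟨j, hj⟩ := Subgroup.mem_zpowers_iff.1 (h ⟨c, hc⟩)
    have hj' : (κ : Γ) ^ j = c := congrArg Subtype.val hj
    simp only
    rw [← hj', ((Commute.refl (κ : Γ)).zpow_left j).eq, mul_inv_cancel_right]
  have hcen : e.cen = Subgroup.zpowers κ := by
    ext d
    refine ⟨fun _ => h d, fun hd => ?_⟩
    obtain ⟨j, rfl⟩ := Subgroup.mem_zpowers_iff.1 hd
    show e.θ (κ ^ j) = κ ^ j
    rw [map_zpow, heκ]
  rw [hcen] at ho
  have hnon : F.Nonel → F.UC := by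
    rintro ⟨a, b, _, _, hab⟩
    exfalso
    have hP : ∀ a : N, F.act a P = P := by
      intro a
      obtain ⟨j, rfl⟩ := Subgroup.mem_zpowers_iff.1 (h a)
      have hnat : ∀ (κ : N), F.act κ P = P → ∀ i : ℕ, F.act (κ ^ i) P = P := by
        intro κ hκ0 i
        induction i with
        | zero => rw [pow_zero, act_one F hκ.np.le]
        | succ i ih => rw [pow_succ, act_mul F _ _ hκ.np.le, hκ0, ih]
      rcases Int.eq_nat_or_neg j with ⟨i, rfl | rfl⟩
      · rw [zpow_natCast]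
        exact hnat κ hκ.fp i
      · rw [zpow_neg, zpow_natCast, ← inv_pow]
        exact hnat κ⁻¹ (AR.inv hκ).fq i
    exact hab P hκ.np (hP a) (hP b)
  have hm := (index1 F he.norm hκ heκ ho (fun ξ hξ h3 h4 h5 => by
    rcases cyc_lim F hκ h (fixed_lim D L C M R hF hnon hn he hξ h5) with h6 | h6
    · exact absurd h6 h3
    · exact absurd h6 h4)).1
  subst hm
  obtain ⟨_, _, i, _⟩ := hfix x hx hfx
  exact i.elim0

theorem case_cyc (D : Deck X A p) (L : Lift X A p g gi G Gi θ ρ) (C : Cond X A p g gi G Hyp)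
    (M : Dom X A p g G U N) (R : Riem (fil X U) ψ v) (hF : Act A ψ v F) {κ : N} {P Q : ℂ}
    (hκ : F.AR κ P Q) (h : ∀ c : N, c ∈ Subgroup.zpowers κ) (h4 : NoAnn g) : False := by
  obtain ⟨E, hEc, hEi, hEo, hEf⟩ := annulus_quot F hκ
  have hWo := fil_open D M
  have hWX : fil X U ⊆ X := fil_sub
  have hψi : ψ '' ball 0 1 = fil X U := by
    ext w
    constructor
    · rintro ⟨z, hz, rfl⟩
      exact R.mψ hz
    · intro hw
      exact ⟨v w, R.mv hw, R.ψv w hw⟩
  have hψo : ∀ O ⊆ ball (0:ℂ) 1, IsOpen O → IsOpen (ψ '' O) := by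
    intro O hO hOo
    have h1 : ψ '' O = fil X U ∩ v ⁻¹' O := by
      ext w
      constructor
      · rintro ⟨z, hz, rfl⟩
        refine ⟨R.mψ (hO hz), ?_⟩
        rw [mem_preimage, R.vψ z (hO hz)]
        exact hz
      · rintro ⟨hw, hw2⟩
        exact ⟨v w, hw2, R.ψv w hw⟩
    rw [h1]
    exact R.dv.continuousOn.isOpen_inter_preimage hWo hOo
  have hi : (fun z => p (ψ z)) '' ball 0 1 = p '' fil X U := by
    rw [← hψi, image_image]
  have hfib : ∀ z ∈ ball (0:ℂ) 1, ∀ z' ∈ ball (0:ℂ) 1, p (ψ z) = p (ψ z') ↔ E z = E z' := by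
    intro z hz z' hz'
    rw [hEf z hz z' hz', D.fib _ (hWX (R.mψ hz)) _ (hWX (R.mψ hz'))]
    constructor
    · rintro ⟨c, hc⟩
      have hcN : c ∈ N := fil_same D M (R.mψ hz) (by rw [hc]; exact R.mψ hz')
      obtain ⟨k, hk⟩ := Subgroup.mem_zpowers_iff.1 (h ⟨c, hcN⟩)
      refine ⟨k, ?_⟩
      rw [hk, hF ⟨c, hcN⟩ z hz]
      simp only
      rw [hc, R.vψ z' hz']
    · rintro ⟨k, hk⟩
      refine ⟨((κ ^ k : N) : Γ), ?_⟩
      rw [hF (κ ^ k) z hz] at hk
      have hW : A ((κ ^ k : N) : Γ) (ψ z) ∈ fil X U := by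
        rw [← fil_inv D M (κ ^ k : N).2]
        exact mem_image_of_mem _ (R.mψ hz)
      rw [← R.ψv _ hW, hk]
  have hhom : Nonempty ((fun z => p (ψ z)) '' ball 0 1 ≃ₜ E '' ball 0 1) := by
    refine CC_homeo isOpen_ball ?_ hEc ?_ hEo hfib
    · exact D.pc.comp R.dψ.continuousOn fun z hz => hWX (R.mψ hz)
    · intro O hO hOo
      have h1 : (fun z => p (ψ z)) '' O = p '' (ψ '' O) := by rw [image_image]
      rw [h1]
      refine D.pop _ ?_ (hψo O hO hOo)
      rintro _ ⟨z, hz, rfl⟩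
      exact hWX (R.mψ (hO hz))
  rw [hi, hEi] at hhom
  refine h4 1 one_pos (p '' fil X U) ⟨D.pop _ hWX hWo, ?_, hhom, ?_⟩
  · have h1 : p '' (G '' fil X U) = g '' (p '' fil X U) := by
      rw [image_image, image_image]
      exact image_congr fun x hx => L.lift x (hWX hx)
    rw [iterate_one, ← h1, fil_G D L M]
  · rintro _ ⟨x, hx, rfl⟩ hper
    obtain ⟨n, hn, hnp⟩ := mem_periodicPts.1 hper
    have h1 : g^[2 * n] (p x) = p x := (hnp.const_mul 2)
    rw [← (Lift.iter L (2 * n)).2.2.2.2.2.2.2 x (hWX hx)] at h1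
    obtain ⟨c, hc⟩ := (D.fib _ ((Lift.iter L (2 * n)).1 (hWX hx)) _ (hWX hx)).1 h1
    exact cyc_free D L C M R hF hκ h (by omega) (even_two_mul n) hx hc

end CV
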