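import Pool.Agent.H12.CV.FU

/-!
EG (existence of a gap).  Suppose every point of the circle is in `F.lim`.  (UC): there is `r₀ < 1` such that every `z = r ξ` in the disc is moved into `closedBall 0 r₀` by some `F.act c`.  So `W = fil X U` is the union of the
`A c '' (ψ '' closedBall 0 r₀)`, `c ∈ N` (`Act`), and `p '' W = p '' (ψ '' closedBall 0 r₀)` is compact (`ψ`, `p` continuous), hence closed, and open (`pop`); `S` is connected (image of the connected `X` under `p`), so `p '' W = univ`.  Hence for `x ∈ X` there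
is `y ∈ W` with `p y = p x`, `x = A c y`.  So `X = W ∪ ⋃ c ∉ N, A c '' W` (`fil_inv`), a disjoint union of two open sets (`fil_disj`; `A c` is a homeomorphism of `X`), `X` is connected, `W` nonempty: `X = W`, contradiction.
-/

namespace CV

open Metric Set Filter Topology Function DS TN

variable {S : Type} [MetricSpace S] [CompactSpace S] {X : Set ℂ} {Γ : Type} [Group Γ]
  {A : Γ → ℂ → ℂ} {p : ℂ → S} {g : S → S} {G : ℂ → ℂ}
  {U : Set ℂ} {N : Subgroup Γ} {ψ v : ℂ → ℂ} {F : Fuchs N}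

omit [CompactSpace S] in
theorem EG_open (D : Deck X A p) {W : Set ℂ} (hW : IsOpen W) (hWX : W ⊆ X) (c : Γ) :
    IsOpen (A c '' W) := by
  have h1 : A c '' W = X ∩ A c⁻¹ ⁻¹' W := by
    ext x
    constructor
    · rintro ⟨y, hy, rfl⟩
      refine ⟨D.maps c (hWX hy), ?_⟩
      show A c⁻¹ (A c y) ∈ W
      rw [D.inv_left c (hWX hy)]
      exact hy
    · rintro ⟨hx, hxU⟩
      exact ⟨A c⁻¹ x, hxU, D.inv_right c hx⟩
  rw [h1]
  exact (D.cont c⁻¹).isOpen_inter_preimage D.opn hW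

theorem exists_gap (D : Deck X A p) (M : Dom X A p g G U N)
    (R : Riem (fil X U) ψ v) (hF : Act A ψ v F) (hU : F.UC) (hW : fil X U ≠ X) :
    ∃ ξ : ℂ, ‖ξ‖ = 1 ∧ ξ ∉ F.lim := by
  by_contra hcon
  push Not at hcon
  obtain ⟨ρ, hρ, hUC⟩ := hU
  set W := fil X U with hWdef
  have hWX : W ⊆ X := fil_sub
  have hWo : IsOpen W := fil_open D M
  have hWc : IsConnected W := fil_conn D M
  have hinv : ∀ c : N, ∀ x ∈ W, A c x ∈ W := by
    intro c x hx
    have h1 := fil_inv D M c.2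
    rw [← hWdef] at h1
    rw [← h1]
    exact ⟨x, hx, rfl⟩
  have hr1 : max ρ 0 < 1 := max_lt hρ one_pos
  -- every point of the disc is moved into a compact disc
  have hcl : ∀ z ∈ ball (0:ℂ) 1, ∃ c : N, ‖F.act c z‖ ≤ max ρ 0 := by
    intro z hz
    by_cases h0 : z = 0
    · refine ⟨1, ?_⟩
      rw [h0, act_one F (by simp), norm_zero]
      exact le_max_right _ _
    · have hz0 : ‖z‖ ≠ 0 := norm_ne_zero_iff.2 h0
      have hn : ‖z / (‖z‖ : ℂ)‖ = 1 := by
        rw [norm_div, Complex.norm_real, norm_norm, div_self hz0]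
      obtain ⟨c, hc⟩ := hUC (z / (‖z‖ : ℂ)) (hcon _ hn) ‖z‖ (norm_nonneg _) (mem_ball_zero_iff.1 hz)
      refine ⟨c, ?_⟩
      have e : (‖z‖ : ℂ) * (z / (‖z‖ : ℂ)) = z := by
        rw [mul_div_assoc', mul_div_cancel_left₀ _ (Complex.ofReal_ne_zero.2 hz0)]
      rw [e] at hc
      exact hc.trans (le_max_left _ _)
  have hKb : closedBall (0:ℂ) (max ρ 0) ⊆ ball 0 1 := closedBall_subset_ball hr1
  have himg : p '' W = p '' (ψ '' closedBall (0:ℂ) (max ρ 0)) := by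
    apply Subset.antisymm
    · rintro _ ⟨w, hw, rfl⟩
      obtain ⟨c, hc⟩ := hcl (v w) (R.mv hw)
      rw [hF c _ (R.mv hw), R.ψv w hw] at hc
      refine ⟨A c w, ⟨v (A c w), mem_closedBall_zero_iff.2 hc, R.ψv _ (hinv c w hw)⟩, ?_⟩
      exact D.fibre c (hWX hw)
    · rintro _ ⟨_, ⟨z, hz, rfl⟩, rfl⟩
      exact ⟨ψ z, R.mψ (hKb hz), rfl⟩
  have hcpt : IsCompact (p '' W) := by
    rw [himg]
    refine IsCompact.image_of_continuousOn ?_ (D.pc.mono ?_)
    · exact (isCompact_closedBall _ _).image_of_continuousOn (R.dψ.continuousOn.mono hKb)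
    · rintro _ ⟨z, hz, rfl⟩
      exact hWX (R.mψ (hKb hz))
  have hclopen : IsClopen (p '' W) := ⟨hcpt.isClosed, D.pop W hWX hWo⟩
  have hSc : IsPreconnected (p '' X) := D.conn.isPreconnected.image _ D.pc
  obtain ⟨w0, hw0⟩ := hWc.nonempty
  have hall : p '' X ⊆ p '' W :=
    hSc.subset_isClopen hclopen ⟨p w0, ⟨w0, hWX hw0, rfl⟩, ⟨w0, hw0, rfl⟩⟩
  set V : Set ℂ := ⋃ c ∈ {c : Γ | c ∉ N}, A c '' W with hV
  have hVo : IsOpen V := isOpen_biUnion fun c _ => EG_open D hWo hWX c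
  have hcov : X ⊆ W ∪ V := by
    intro x hx
    obtain ⟨y, hy, hyx⟩ := hall ⟨x, hx, rfl⟩
    obtain ⟨c, hc⟩ := (D.fib y (hWX hy) x hx).1 hyx
    by_cases hcN : c ∈ N
    · left
      rw [← hc]
      exact hinv ⟨c, hcN⟩ y hy
    · right
      rw [hV, mem_iUnion₂]
      exact ⟨c, hcN, y, hy, hc⟩
  have hdis : ∀ x, x ∈ W → x ∉ V := by
    intro x hx hxV
    rw [hV, mem_iUnion₂] at hxV
    obtain ⟨c, hc, hxc⟩ := hxV
    exact disjoint_left.1 (fil_disj D M hc) hxc hx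
  apply hW
  apply Subset.antisymm hWX
  intro x hx
  by_contra hxW
  have hxV : x ∈ V := (hcov hx).resolve_left hxW
  obtain ⟨y, -, hy1, hy2⟩ := D.conn.isPreconnected W V hWo hVo hcov ⟨w0, hWX hw0, hw0⟩ ⟨x, hx, hxV⟩
  exact hdis y hy1 hy2

end CV
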