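import Pool.Agent.H12.CV.CT
import Pool.Agent.H12.CV.CC
import Pool.Agent.H12.CV.EG
import Pool.Agent.H12.CV.B8
import Pool.Agent.H12.CV.B14
import Pool.Agent.H12.TN.NC

/-!
Final assembly of the covering part: blocks B1 B2 (fil), RM FU (Riemann map, group), B5 (helper36), B6 (helper36), HD HE (holes, family), CT CC EG, B8 (helper70), B14 (helper57).
-/

namespace CV

open Metric Set Filter Topology Function DS TN

section
variable {S : Type} [MetricSpace S] [CompactSpace S] {X : Set ℂ} {Γ : Type} [Group Γ]
  {A : Γ → ℂ → ℂ} {p : ℂ → S} {g gi : S → S} {G Gi : ℂ → ℂ} {θ : Γ ≃* Γ} {ρ : ℂ → ℝ}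
  {Hyp : S → Prop} {U : Set ℂ} {N : Subgroup Γ} {ψ v : ℂ → ℂ} {F : Fuchs N}

/-- the assembly -/
theorem core (D : Deck X A p) (L : Lift X A p g gi G Gi θ ρ) (C : Cond X A p g gi G Hyp)
    (M : Dom X A p g G U N) (h4 : NoAnn g) (hper : ∃ x ∈ X, p x ∈ periodicPts g) : False := by
  by_cases hW : fil X U = univ
  · exact case_torus D L C M hW hper
  obtain ⟨ψ, v, R⟩ := exists_riem D M hW
  obtain ⟨F, hF⟩ := exists_fuchs D M R
  rcases elem F with h | ⟨κ, P, Q, hκ, h⟩ | hN
  · exact case_triv D L C M R hF h h4
  · exact case_cyc D L C M R hF hκ h h4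
  · rcases D.hX with ⟨hX, -⟩ | ⟨hX, -⟩
    · exact flat_elem D hX hN
    · have hU : F.UC := nonel_uc D hX M R hF hN
      refine no_family F hN hU (fam D L C M R hF fun _ => hU) ?_
      by_cases hWX : fil X U = X
      · left
        obtain ⟨x, hx, hpx⟩ := hper
        obtain ⟨n, hn, hpn⟩ := hpx
        have h1 : p (G^[n] x) = g^[n] (p x) := by
          clear hpn hn
          induction n with
          | zero => rfl
          | succ n ih =>
            have hmem : G^[n] x ∈ X := by
              clear ih
              induction n with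
              | zero => exact hx
              | succ n ih => rw [iterate_succ_apply']; exact L.mG ih
            rw [iterate_succ_apply', iterate_succ_apply', L.lift _ hmem, ih]
        have hGx : G^[n] x ∈ X := by
          clear h1 hpn hn
          induction n with
          | zero => exact hx
          | succ n ih => rw [iterate_succ_apply']; exact L.mG ih
        have h2 : p (G^[n] x) = p x := h1.trans hpn
        obtain ⟨c, hc⟩ := (D.fib _ hGx _ hx).1 h2
        have hcN : c ∈ N := by
          by_contra hcN
          have h3 := fil_disj D M hcN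
          rw [hWX] at h3
          exact disjoint_left.1 h3 ⟨_, hGx, hc⟩ hx
        obtain ⟨e, he⟩ := exists_lf D L M R hF hn ⟨c, hcN⟩
        have hx' : x ∈ fil X U := by rw [hWX]; exact hx
        refine ⟨e, ⟨n, hn, _, he⟩, v x, R.mv hx', ?_⟩
        rw [he.H _ (R.mv hx'), R.ψv _ hx']
        exact congrArg v hc
      · exact Or.inr (exists_gap D M R hF hU hWX)

end

end CV
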