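import Pool.Agent.H12.CV.HE
import Pool.Agent.H12.TN.IX
import Pool.Agent.H36.DS.NA
import Pool.Agent.H36.DS.IE

/-!
CT (trivial stabiliser, (2.1) of the note).  `W = fil X U`, all `c ∈ N` are `1`.
`triv_island`: `F.lim = ∅` (its points have norm one and are in the closure of `{F.act 1 0} = {0}`), so by `fixed_lim` no `e.H` (`Lf ... n 1 e`) has a fixed point on the circle.  For each `n ≥ 1` let `e_n` be given by `exists_lf` (with `c = 1`) and
`m`, `Y` by `exists_holes`; `e_n.cen = ⊥` as `N` is trivial; `index0` gives `m + #A = 1` with `A = ∅` (a point of `A` would be a fixed point on the circle: `SA` contains `H ξ = ξ`), so `m = 1`: one island `Y_n` with `G^n '' Y_n = Y_n`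
(`A 1 x = x`), containing all `x ∈ W` with `G^n x = x`.  By `DS.no_nonvanishing` (H36/DS/IE) applied to `e_1.H z - z` on the hole (index one) there is a zero `z` of `e_1.H z - z` in `closure (O 0)`, not on the frontier (the function has a logarithm there), so
`x₀ = ψ z ∈ W` is fixed by `G`; `x₀ ∈ Y_1` and `x₀ ∈ Y_n` for all `n`, so `Y_n = Y_1` (`Island.basic`).  `Y₀ = Y_1`.
If `A c (G^n x) = x` with `x ∈ W`, `c : Γ`: `G^n x ∈ W` (`fil_iter`), so `c ∈ N` (`fil_same`), `c = 1`.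
`minus_island`: `W \ Y₀` is homeomorphic to the annulus.  The disc is homeomorphic to the plane (`z ↦ z/(1 - ‖z‖)`), so there are `h : W → ℂ`, a homeomorphism onto `ℂ` (from `v`).  `K = h '' Y₀` is compact connected, `Kᶜ = h '' (W \ Y₀)` is connected: `W \ Y₀` is connected
by Kuratowski (`DS.compl_component` with `S = W`, `V = U`, `K = Y₀`: maximality because `Y₀` is a component of `X \ U`).  `DS.plane_annulus`.
`case_triv`: `B = p '' (W \ Y₀)`; `p` is injective on `W` (`Deck.fib`, `fil_same`, `N` trivial), continuous and open: `B` is open and homeomorphic to `W \ Y₀`.  `g '' B = B` because `G '' W = W`, `G '' Y₀ = Y₀`.  No periodic point: `g^n (p x) = p x`, `x ∈ W \ Y₀`, `n ≥ 1`, gives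
`A c (G^n x) = x`, so `x ∈ Y₀`.  `h4` with `n = 1`.
-/

namespace CV

open Metric Set Filter Topology Function DS TN

variable {S : Type} [MetricSpace S] [CompactSpace S] {X : Set ℂ} {Γ : Type} [Group Γ]
  {A : Γ → ℂ → ℂ} {p : ℂ → S} {g gi : S → S} {G Gi : ℂ → ℂ} {θ : Γ ≃* Γ} {ρ : ℂ → ℝ}
  {Hyp : S → Prop} {U : Set ℂ} {N : Subgroup Γ} {ψ v : ℂ → ℂ} {F : Fuchs N}

theorem CV_CT_per (D : Deck X A p) (L : Lift X A p g gi G Gi θ ρ) (C : Cond X A p g gi G Hyp)
    (M : Dom X A p g G U N) (R : Riem (fil X U) ψ v) (hF : Act A ψ v F) (h : ∀ c : N, c = 1)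
    {n : ℕ} (hn : 0 < n) :
    ∃ Y, Island X U Y ∧ (fun x => G^[n] x) '' Y = Y ∧ (∃ x ∈ fil X U, G^[n] x = x) ∧
      ∀ x ∈ fil X U, G^[n] x = x → x ∈ Y := by
  have hsub : Subsingleton N := ⟨fun a b => (h a).trans (h b).symm⟩
  have hlim : ∀ ξ, ξ ∉ F.lim := by
    rintro ξ ⟨h1, h2⟩
    have h3 : range (fun g => F.act g 0) ⊆ {0} := by
      rintro _ ⟨c, rfl⟩
      rw [h c, mem_singleton_iff]
      exact F.one 0 (by simp)
    have h4 := closure_mono h3 h2
    rw [closure_singleton, mem_singleton_iff] at h4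
    rw [h4, norm_zero] at h1
    exact zero_ne_one h1
  have hI : F.Nonel → F.UC := by
    rintro ⟨a, b, ha, -, -⟩
    exact absurd (h a) ha
  have hAone : ∀ x ∈ X, A ((1 : N) : Γ) x = x := fun x hx => D.one x hx
  obtain ⟨e, he⟩ := exists_lf D L M R hF hn (1 : N)
  obtain ⟨m, Y, hY, hGY, ⟨O, k, hO, -⟩, -, hfix⟩ := exists_holes D L C M R hF hn he
  have hbd : ∀ ξ : ℂ, ‖ξ‖ = 1 → e.H ξ ≠ ξ := fun ξ hξ hf =>
    hlim ξ (fixed_lim D L C M R hF hI hn he hξ hf)
  have hcen : e.cen = ⊥ := Subgroup.eq_bot_of_subsingleton _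
  have hO' := hO
  rw [hcen] at hO'
  obtain ⟨B, hB, hm⟩ := index0 F he.norm hO' (fun ξ hξ hf => absurd hf (hbd ξ hξ))
  have hB0 : B = ∅ := by
    rw [Finset.eq_empty_iff_forall_notMem]
    intro ξ hξ
    obtain ⟨h1, h2⟩ := (hB ξ).1 hξ
    exact hbd ξ h1 h2.1
  rw [hB0, Finset.card_empty, add_zero] at hm
  subst hm
  have himg := (fil_iter D L M n (c := 1) N.one_mem).1
  refine ⟨Y 0, hY 0, ?_, ?_, ?_⟩
  · have h1 := hGY 0
    have h2 : Y 0 ⊆ X := fun x hx => ((hY 0).basic.2.1 hx).1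
    conv_rhs => rw [← h1]
    apply image_congr
    intro x hx
    exact (hAone _ ((L.iter n).1 (h2 hx))).symm
  · by_contra hno
    push Not at hno
    have hcl : closure (O 0) ⊆ ball 0 1 := hO.sub 0
    refine no_nonvanishing (hO.opn 0) ((isBounded_ball (x := (0:ℂ)) (r := 1)).subset
      (subset_closure.trans hcl)) (hO.mem 0) (f := fun z => e.H z - z) ?_ ?_ (hO.log 0)
    · exact (he.norm.cont.mono (hcl.trans ball_subset_closedBall)).sub continuousOn_id
    · intro z hz h0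
      have hz1 := hcl hz
      have h1 : e.H z = z := sub_eq_zero.1 h0
      rw [he.H z hz1] at h1
      have hw := R.mψ hz1
      have hw2 : A ((1 : N) : Γ) (G^[n] (ψ z)) ∈ fil X U := by
        rw [← himg]
        exact ⟨ψ z, hw, rfl⟩
      have h2 := congrArg ψ h1
      rw [R.ψv _ hw2] at h2
      refine hno (ψ z) hw ?_
      rw [hAone _ ((L.iter n).1 hw.1)] at h2
      exact h2
  · intro x hx hfx
    obtain ⟨d, -, i, hi⟩ := hfix x hx (by rw [hfx]; exact hAone x hx.1)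
    rw [h d, hAone x hx.1] at hi
    rwa [Subsingleton.elim i 0] at hi

theorem triv_island (D : Deck X A p) (L : Lift X A p g gi G Gi θ ρ) (C : Cond X A p g gi G Hyp)
    (M : Dom X A p g G U N) (R : Riem (fil X U) ψ v) (hF : Act A ψ v F) (h : ∀ c : N, c = 1) :
    ∃ Y₀, Island X U Y₀ ∧ G '' Y₀ = Y₀ ∧
      ∀ x ∈ fil X U, ∀ n, 0 < n → ∀ c, A c (G^[n] x) = x → x ∈ Y₀ := by
  obtain ⟨Y₀, hY₀, hGY, ⟨x₀, hx₀, hfx₀⟩, hall⟩ := CV_CT_per D L C M R hF h one_pos
  simp only [iterate_one] at hGY hfx₀ hall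
  have hx₀Y := hall x₀ hx₀ hfx₀
  refine ⟨Y₀, hY₀, hGY, ?_⟩
  intro x hx n hn c hc
  have h1 : G^[n] x ∈ fil X U := by
    have himg := (fil_iter D L M n (c := 1) N.one_mem).1
    rw [← himg]
    exact ⟨x, hx, D.one _ ((L.iter n).1 hx.1)⟩
  have h2 : c ∈ N := fil_same D M h1 (by rw [hc]; exact hx)
  have h3 : c = 1 := congrArg Subtype.val (h ⟨c, h2⟩)
  rw [h3, D.one _ h1.1] at hc
  obtain ⟨Y, hY, -, -, hall'⟩ := CV_CT_per D L C M R hF h hn
  have h4 : G^[n] x₀ = x₀ := iterate_fixed hfx₀ n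
  have h5 := hall' x₀ hx₀ h4
  have h6 := hY₀.basic.2.2.2 Y hY ⟨x₀, hx₀Y, h5⟩
  rw [h6]
  exact hall' x hx hc

theorem CV_CT_d1 {t : ℂ} (ht : ‖t‖ < 1) :
    (t / ((1 - ‖t‖ : ℝ) : ℂ)) / ((1 + ‖t / ((1 - ‖t‖ : ℝ) : ℂ)‖ : ℝ) : ℂ) = t := by
  have h1 : (0:ℝ) < 1 - ‖t‖ := by linarith
  have h2 : ‖t / ((1 - ‖t‖ : ℝ) : ℂ)‖ = ‖t‖ / (1 - ‖t‖) := by
    rw [norm_div, Complex.norm_real, Real.norm_eq_abs, abs_of_pos h1]
  have h3 : 1 + ‖t‖ / (1 - ‖t‖) = (1 - ‖t‖)⁻¹ := by field_simp; ring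
  rw [h2, h3, Complex.ofReal_inv, div_inv_eq_mul, div_mul_cancel₀]
  rw [Ne, Complex.ofReal_eq_zero]
  exact h1.ne'

theorem CV_CT_d2 (z : ℂ) : ‖z / ((1 + ‖z‖ : ℝ) : ℂ)‖ < 1 ∧
    (z / ((1 + ‖z‖ : ℝ) : ℂ)) / ((1 - ‖z / ((1 + ‖z‖ : ℝ) : ℂ)‖ : ℝ) : ℂ) = z := by
  have h1 : (0:ℝ) < 1 + ‖z‖ := by positivity
  have h2 : ‖z / ((1 + ‖z‖ : ℝ) : ℂ)‖ = ‖z‖ / (1 + ‖z‖) := by
    rw [norm_div, Complex.norm_real, Real.norm_eq_abs, abs_of_pos h1]
  have h3 : 1 - ‖z‖ / (1 + ‖z‖) = (1 + ‖z‖)⁻¹ := by field_simp; ring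
  constructor
  · rw [h2, div_lt_one h1]
    linarith
  · rw [h2, h3, Complex.ofReal_inv, div_inv_eq_mul, div_mul_cancel₀]
    rw [Ne, Complex.ofReal_eq_zero]
    exact h1.ne'

theorem minus_island (D : Deck X A p) (M : Dom X A p g G U N) (R : Riem (fil X U) ψ v)
    {Y₀ : Set ℂ} (hY : Island X U Y₀) :
    Nonempty ((fil X U \ Y₀ : Set ℂ) ≃ₜ {z : ℂ | 1 < ‖z‖ ∧ ‖z‖ < 2}) := by
  set W : Set ℂ := fil X U with hW
  obtain ⟨hYc, hYs, hYW, -⟩ := hY.basic
  set h : ℂ → ℂ := fun x => v x / ((1 - ‖v x‖ : ℝ) : ℂ) with hh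
  set hi : ℂ → ℂ := fun z => ψ (z / ((1 + ‖z‖ : ℝ) : ℂ)) with hhi
  have hv1 : ∀ x ∈ W, ‖v x‖ < 1 := fun x hx => mem_ball_zero_iff.1 (R.mv hx)
  have hhc : ContinuousOn h W := by
    refine R.dv.continuousOn.div (Complex.continuous_ofReal.comp_continuousOn
      (continuousOn_const.sub R.dv.continuousOn.norm)) fun x hx => ?_
    rw [Ne, Complex.ofReal_eq_zero]
    have := hv1 x hx
    linarith
  have hbm : ∀ z : ℂ, z / ((1 + ‖z‖ : ℝ) : ℂ) ∈ ball (0:ℂ) 1 := fun z =>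
    mem_ball_zero_iff.2 (CV_CT_d2 z).1
  have hhic : Continuous hi := by
    refine R.dψ.continuousOn.comp_continuous ?_ hbm
    refine continuous_id.div (Complex.continuous_ofReal.comp
      (continuous_const.add continuous_norm)) fun z => ?_
    rw [Ne, Complex.ofReal_eq_zero]
    have := norm_nonneg z
    positivity
  have hiW : ∀ z, hi z ∈ W := fun z => R.mψ (hbm z)
  have hih : ∀ x ∈ W, hi (h x) = x := by
    intro x hx
    simp only [hh, hhi]
    rw [CV_CT_d1 (hv1 x hx), R.ψv x hx]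
  have hhi' : ∀ z, h (hi z) = z := by
    intro z
    simp only [hh, hhi]
    rw [R.vψ _ (hbm z), (CV_CT_d2 z).2]
  have hKc : (h '' Y₀)ᶜ = h '' (W \ Y₀) := by
    ext z
    constructor
    · intro hz
      refine ⟨hi z, ⟨hiW z, fun hz' => hz ⟨hi z, hz', hhi' z⟩⟩, hhi' z⟩
    · rintro ⟨x, ⟨hx, hxY⟩, rfl⟩ ⟨y, hy, hyx⟩
      apply hxY
      rw [← hih x hx, ← hyx, hih y (hYW hy)]
      exact hy
  have hUW : U ⊆ W := sub_fil M.sub
  have hcon : IsConnected (W \ Y₀) := by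
    refine ⟨?_, ?_⟩
    · obtain ⟨x, hx⟩ := M.conn.nonempty
      exact ⟨x, hUW hx, fun hxY => (hYs hxY).2 hx⟩
    · refine compl_component (fil_conn D M).isPreconnected M.conn.isPreconnected M.conn.nonempty hUW
        hYc.isPreconnected (fun x hx => ⟨hYW hx, (hYs hx).2⟩) ?_
      intro C hC hCp hCY
      obtain ⟨x, -, hx⟩ := hY.comp
      rw [hx] at hCY ⊢
      exact auxTB_max x C (fun y hy => ⟨(hC hy).1.1, (hC hy).2⟩) hCp hCY
  have hann := plane_annulus (hY.cpt.image_of_continuousOn (hhc.mono hYW))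
    (hYc.image h (hhc.mono hYW)) (by
      rw [hKc]
      exact hcon.image h (hhc.mono sdiff_subset))
  obtain ⟨Φ⟩ := hann
  refine ⟨Homeomorph.trans ?_ Φ⟩
  refine
    { toFun := fun x => ⟨h x, by rw [hKc]; exact ⟨x, x.2, rfl⟩⟩
      invFun := fun z => ⟨hi z, hiW z, fun hz => z.2 ⟨hi z, hz, hhi' z⟩⟩
      left_inv := fun x => Subtype.ext (hih x x.2.1)
      right_inv := fun z => Subtype.ext (hhi' z)
      continuous_toFun := ?_
      continuous_invFun := ?_ }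
  · refine Continuous.subtype_mk ?_ _
    exact (hhc.mono sdiff_subset).comp_continuous continuous_subtype_val fun x => x.2
  · exact (hhic.comp continuous_subtype_val).subtype_mk _

theorem case_triv (D : Deck X A p) (L : Lift X A p g gi G Gi θ ρ) (C : Cond X A p g gi G Hyp)
    (M : Dom X A p g G U N) (R : Riem (fil X U) ψ v) (hF : Act A ψ v F)
    (h : ∀ c : N, c = 1) (h4 : NoAnn g) : False := by
  obtain ⟨Y₀, hY, hGY, hall⟩ := triv_island D L C M R hF h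
  obtain ⟨Φ⟩ := minus_island D M R hY
  obtain ⟨hYc, hYs, hYW, -⟩ := hY.basic
  have hWo := fil_open D M
  have hVo : IsOpen (fil X U \ Y₀) := hWo.sdiff hY.cpt.isClosed
  have hVX : fil X U \ Y₀ ⊆ X := fun x hx => hx.1.1
  have hGW := fil_G D L M
  have hinj : InjOn p (fil X U) := by
    intro x hx y hy hxy
    obtain ⟨c, hc⟩ := (D.fib x hx.1 y hy.1).1 hxy
    have h2 : c ∈ N := fil_same D M hx (by rw [hc]; exact hy)
    have h3 : c = 1 := congrArg Subtype.val (h ⟨c, h2⟩)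
    rw [h3, D.one x hx.1] at hc
    exact hc
  have hGinj : InjOn G X := by
    intro x hx y hy hxy
    rw [← L.GiG x hx, hxy, L.GiG y hy]
  refine h4 1 one_pos (p '' (fil X U \ Y₀)) ⟨D.pop _ hVX hVo, ?_, ?_, ?_⟩
  · rw [iterate_one]
    have hGV : G '' (fil X U \ Y₀) = fil X U \ Y₀ := by
      ext y
      constructor
      · rintro ⟨x, ⟨hx, hxY⟩, rfl⟩
        refine ⟨by rw [← hGW]; exact ⟨x, hx, rfl⟩, fun hy => hxY ?_⟩
        rw [← hGY] at hy
        obtain ⟨x', hx', he⟩ := hy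
        rw [← hGinj (hYW hx').1 hx.1 he]
        exact hx'
      · rintro ⟨hy, hyY⟩
        rw [← hGW] at hy
        obtain ⟨x, hx, rfl⟩ := hy
        exact ⟨x, ⟨hx, fun hxY => hyY (by rw [← hGY]; exact ⟨x, hxY, rfl⟩)⟩, rfl⟩
    conv_rhs => rw [← hGV]
    rw [image_image, image_image]
    apply image_congr
    intro x hx
    exact (L.lift x hx.1.1).symm
  · let f : (fil X U \ Y₀ : Set ℂ) → S := fun x => p x
    have hfc : Continuous f := (D.pc.mono hVX).comp_continuous continuous_subtype_val fun x => x.2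
    have hfi : Function.Injective f := fun x y hxy => Subtype.ext (hinj x.2.1 y.2.1 hxy)
    have hfo : IsOpenMap f := by
      intro O hO
      have h1 : f '' O = p '' (Subtype.val '' O) := by rw [image_image]
      rw [h1]
      refine D.pop _ ?_ (hVo.isOpenMap_subtype_val O hO)
      rintro _ ⟨x, -, rfl⟩
      exact hVX x.2
    have hfe := Topology.IsOpenEmbedding.of_continuous_injective_isOpenMap hfc hfi hfo
    have hr : range f = p '' (fil X U \ Y₀) := by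
      ext s
      constructor
      · rintro ⟨x, rfl⟩
        exact ⟨x, x.2, rfl⟩
      · rintro ⟨x, hx, rfl⟩
        exact ⟨⟨x, hx⟩, rfl⟩
    exact ⟨((Homeomorph.setCongr hr.symm).trans hfe.isEmbedding.toHomeomorph.symm).trans Φ⟩
  · rintro P ⟨x, ⟨hx, hxY⟩, rfl⟩ ⟨n, hn, hper⟩
    apply hxY
    have h1 : p (G^[n] x) = p x := by
      rw [(L.iter n).2.2.2.2.2.2.2 x hx.1]
      exact hper
    obtain ⟨c, hc⟩ := (D.fib _ ((L.iter n).1 hx.1) x hx.1).1 h1
    exact hall x hx n hn c hc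

end CV
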