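import Pool.Agent.H12.TN.Defs

/-!
Project MP_8a27c0_CV (helper12, helper36): the covering part of `/team-store/H12_8a27c0_general.md` (sections 0, 1, 2, 4).
Common definitions.  `X` is the plane or the open unit disc (a subset of `ℂ`), `p : X → S` the universal covering,
`Γ` the deck group acting by `A`.
-/

namespace CV

open Metric Set Filter Topology Function DS TN

/-- the deck group of the universal covering `p : X → S` -/
structure Deck {S : Type} [MetricSpace S] (X : Set ℂ) {Γ : Type} [Group Γ] (A : Γ → ℂ → ℂ)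
    (p : ℂ → S) : Prop where
  hX : (X = univ ∧ ∀ g, ∃ l : ℂ, ∀ x, A g x = x + l) ∨
    (X = ball 0 1 ∧ ∀ g, ∃ u b : ℂ, ‖u‖ = 1 ∧ ‖b‖ < 1 ∧ ∀ x, A g x = mob u b x)
  one : ∀ x ∈ X, A 1 x = x
  mul : ∀ g h, ∀ x ∈ X, A (g * h) x = A g (A h x)
  free : ∀ g, g ≠ 1 → ∀ x ∈ X, A g x ≠ x
  proper : ∀ C ⊆ X, IsCompact C → {g | ∃ x ∈ C, A g x ∈ C}.Finite
  pc : ContinuousOn p X
  pop : ∀ O ⊆ X, IsOpen O → IsOpen (p '' O)
  ps : ∀ s, ∃ x ∈ X, p x = s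
  fib : ∀ x ∈ X, ∀ y ∈ X, p x = p y ↔ ∃ g, A g x = y

/-- `G` (inverse `Gi`) is a lift of the homeomorphism `g` (inverse `gi`) of `S` to `X`, of class `C¹`, preserving the
invariant density `ρ` -/
structure Lift {S : Type} [MetricSpace S] (X : Set ℂ) {Γ : Type} [Group Γ] (A : Γ → ℂ → ℂ)
    (p : ℂ → S) (g gi : S → S) (G Gi : ℂ → ℂ) (θ : Γ ≃* Γ) (ρ : ℂ → ℝ) : Prop where
  cg : Continuous g
  cgi : Continuous gi
  ggi : ∀ s, g (gi s) = s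
  gig : ∀ s, gi (g s) = s
  mG : MapsTo G X X
  mGi : MapsTo Gi X X
  GiG : ∀ x ∈ X, Gi (G x) = x
  GGi : ∀ x ∈ X, G (Gi x) = x
  c1 : ContDiffOn ℝ 1 G X
  c1i : ContDiffOn ℝ 1 Gi X
  equi : ∀ c, ∀ x ∈ X, G (A c x) = A (θ c) (G x)
  lift : ∀ x ∈ X, p (G x) = g (p x)
  ρc : ContinuousOn ρ X
  ρpos : ∀ x ∈ X, 0 < ρ x
  ρinv : ∀ c, ∀ x ∈ X, ρ (A c x) * ‖deriv (A c) x‖ ^ 2 = ρ x
  area : ∀ x ∈ X, ρ (G x) * (fderiv ℝ G x).det = ρ x

/-- the lift to `X` of the stable set of `p P` -/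
def StabX {S : Type} [MetricSpace S] (X : Set ℂ) (p : ℂ → S) (g : S → S) (P : ℂ) : Set ℂ :=
  {x ∈ X | Tendsto (fun n : ℕ => dist (g^[n] (p x)) (g^[n] (p P))) atTop (𝓝 0)}

/-- `v` is the velocity at `x` of a regular `C¹` curve through `x` contained in `W` -/
def TanX (W : Set ℂ) (x v : ℂ) : Prop :=
  v ≠ 0 ∧ ∃ α : ℝ → ℂ, ContDiffOn ℝ 1 α (Ioo (-1) 1) ∧ (∀ t ∈ Ioo (-1:ℝ) 1, α t ∈ W) ∧ α 0 = x ∧
    deriv α 0 = v

/-- conditions 1 and 2 in terms of the covering; `Hyp s` means that `s` is a hyperbolic periodic point of `g` -/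
structure Cond {S : Type} [MetricSpace S] (X : Set ℂ) {Γ : Type} [Group Γ] (A : Γ → ℂ → ℂ)
    (p : ℂ → S) (g gi : S → S) (G : ℂ → ℂ) (Hyp : S → Prop) : Prop where
  per : ∀ s, Hyp s → s ∈ periodicPts g
  inv : ∀ s, Hyp s → Hyp (gi s)
  tri : ∀ n, 0 < n → ∀ c, ∀ P ∈ X, A c (G^[n] P) = P →
    |LinearMap.trace ℝ ℂ (fderiv ℝ (fun x => A c (G^[n] x)) P : ℂ →ₗ[ℝ] ℂ)| < 2 ∨
      (Hyp (p P) ∧
        2 < |LinearMap.trace ℝ ℂ (fderiv ℝ (fun x => A c (G^[n] x)) P : ℂ →ₗ[ℝ] ℂ)|)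
  c2 : ∀ P ∈ X, ∀ Q ∈ X, Hyp (p P) → Hyp (p Q) → ∀ x v w, TanX (StabX X p g P) x v →
    TanX (StabX X p gi Q) x w → LinearIndependent ℝ ![v, w]

/-- `U` is a component of the preimage of a component, invariant under `g`, of the complement of the closure of
the union of the stable sets; `G` is the lift with `G U = U`, `N` the stabiliser of `U` -/
structure Dom {S : Type} [MetricSpace S] (X : Set ℂ) {Γ : Type} [Group Γ] (A : Γ → ℂ → ℂ)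
    (p : ℂ → S) (g : S → S) (G : ℂ → ℂ) (U : Set ℂ) (N : Subgroup Γ) : Prop where
  opn : IsOpen U
  conn : IsConnected U
  sub : U ⊆ X
  inv : G '' U = U
  mem : ∀ c, c ∈ N ↔ A c '' U = U
  comp : ∀ c, c ∉ N → Disjoint (A c '' U) U
  stab : ∀ P ∈ X, p P ∈ periodicPts g → Disjoint U (StabX X p g P)

/-- the filled set: `U` together with the compact components (islands) of `X \ U` -/
def fil (X U : Set ℂ) : Set ℂ := {x ∈ X | x ∈ U ∨ IsCompact (connectedComponentIn (X \ U) x)}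

/-- an island of `U` -/
structure Island (X U Y : Set ℂ) : Prop where
  cpt : IsCompact Y
  comp : ∃ x ∈ X \ U, Y = connectedComponentIn (X \ U) x

/-- a Riemann map of the domain `W` (inverse `v`) -/
structure Riem (W : Set ℂ) (ψ v : ℂ → ℂ) : Prop where
  dψ : DifferentiableOn ℂ ψ (ball 0 1)
  dv : DifferentiableOn ℂ v W
  mψ : MapsTo ψ (ball 0 1) W
  mv : MapsTo v W (ball 0 1)
  vψ : ∀ z ∈ ball (0:ℂ) 1, v (ψ z) = z
  ψv : ∀ w ∈ W, ψ (v w) = w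

/-- the action of the stabiliser `N` in the coordinate of the Riemann map -/
def Act {Γ : Type} [Group Γ] {N : Subgroup Γ} (A : Γ → ℂ → ℂ) (ψ v : ℂ → ℂ) (F : Fuchs N) : Prop :=
  ∀ c : N, ∀ z ∈ ball (0:ℂ) 1, F.act c z = v (A c (ψ z))

/-- the maps `A c ∘ G^n`, `n ≥ 1`, `c ∈ N`, in the coordinate of the Riemann map, extended to the closed disc -/
structure Lf {Γ : Type} [Group Γ] {N : Subgroup Γ} (A : Γ → ℂ → ℂ) (G Gi : ℂ → ℂ) (θ : Γ ≃* Γ)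
    (ψ v : ℂ → ℂ) (F : Fuchs N) (n : ℕ) (c : N) (e : Elt N) : Prop where
  norm : Norm F e
  H : ∀ z ∈ ball (0:ℂ) 1, e.H z = v (A c (G^[n] (ψ z)))
  Hi : ∀ z ∈ ball (0:ℂ) 1, e.Hi z = v (Gi^[n] (A (c : Γ)⁻¹ (ψ z)))
  th : ∀ d : N, ((e.θ d : N) : Γ) = c * (θ^[n] d) * (c : Γ)⁻¹

/-- the family of all these maps -/
def FamH {Γ : Type} [Group Γ] {N : Subgroup Γ} (A : Γ → ℂ → ℂ) (G Gi : ℂ → ℂ) (θ : Γ ≃* Γ)
    (ψ v : ℂ → ℂ) (F : Fuchs N) : Set (Elt N) :=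
  {e | ∃ n, 0 < n ∧ ∃ c : N, Lf A G Gi θ ψ v F n c e}

/-- condition 4: no iterate of `g` has an annular rotation domain -/
def NoAnn {S : Type} [MetricSpace S] (g : S → S) : Prop :=
  ∀ n, 0 < n → ∀ B : Set S, ¬ (IsOpen B ∧ g^[n] '' B = B ∧
    Nonempty (B ≃ₜ {z : ℂ | 1 < ‖z‖ ∧ ‖z‖ < 2}) ∧ ∀ P ∈ B, P ∉ periodicPts g)

end CV
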