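import Pool.Agent.H12.TN.MB

/-!
MM (automorphisms of the disc, Schwarz-Pick, classification of Moebius maps).
`auto_mob`: `T` is a holomorphic automorphism of the disc (inverse `Ti`).  Let `b = Ti 0`, `R w = T (mob 1 (-b) w)` (`mob 1 (-b) 0 = b`), so `R 0 = 0`; `R` and its inverse map the disc to itself and fix `0`, so by the Schwarz lemma
(`Complex.norm_le_norm_of_mapsTo_ball`) `‖R w‖ = ‖w‖`, and by the equality case (`R w / w` is holomorphic (dslope) of modulus one, so constant; e.g. `Complex.affine_of_mapsTo_ball_of_norm_deriv_eq_div'` or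
maximum modulus) `R w = u w`, `‖u‖ = 1`.  Then `T z = u * mob 1 b z = mob u b z`.
`schwarz_pick`: for `ψ : ball → ball` holomorphic: apply the Schwarz lemma to `w ↦ mob 1 (ψ y) (ψ (mob 1 (-y) w))`, `w = mob 1 y x`; `‖mob 1 y x‖ = pd y x` (`pd` symmetric).
`mob_unique`: `mob u b = mob u' b'` on the disc implies `b = b'` (zero) and `u = u'`.
`classify`: `mob u b` has no fixed point in the open disc.  Then `b ≠ 0` (`mob u 0 0 = 0`).  For `z` in the closed disc `mob u b z - z = (conj b z² - (1 - u) z - u b)/(1 - conj b z)`.  The quadratic polynomial `conj b z² - (1-u) z - u b` has two roots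
(with multiplicity) with product `- u b / conj b`, of modulus one; none is in the open disc, so (as the product has modulus one) both are on the circle.  If they are distinct: first alternative.
If `P` is a double root, `mob u b z - z = conj b (z - P)²/(1 - conj b z)`; for `z = r P`: `‖mob u b z - z‖ ≤ ‖b‖ (1-r)²/(1 - ‖b‖)` and `‖1 - conj z * mob u b z‖ ≥ 1 - r`, so `pd z (mob u b z) ≤ (1 - r)/(1-‖b‖)`: second alternative.
-/

namespace CV

open Metric Set Filter Topology DS TN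

theorem MM_inv {b x : ℂ} (hb : ‖b‖ < 1) (hx : ‖x‖ ≤ 1) :
    mob 1 (-b) (mob 1 b x) = x ∧ mob 1 b (mob 1 (-b) x) = x := by
  have h := mob_comp_inv (u := 1) (b := b) (x := x) norm_one hb hx
  rw [map_one, one_mul] at h
  exact h

theorem MM_mapsTo {b : ℂ} (hb : ‖b‖ < 1) : MapsTo (mob 1 b) (ball 0 1) (ball 0 1) := by
  intro x hx
  rw [mem_ball_zero_iff] at hx ⊢
  exact mob_ball norm_one hb hx

theorem MM_diff {u b : ℂ} (hb : ‖b‖ < 1) : DifferentiableOn ℂ (mob u b) (ball 0 1) := by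
  intro x hx
  exact (mob_hasDerivAt hb (mem_ball_zero_iff.1 hx).le).differentiableAt.differentiableWithinAt

theorem MM_zero (b : ℂ) : mob 1 (-b) 0 = b := by
  simp [mob]

theorem MM_self (b : ℂ) : mob 1 b b = 0 := by
  simp [mob]

theorem auto_mob {T Ti : ℂ → ℂ} (hT : DifferentiableOn ℂ T (ball 0 1))
    (hTi : DifferentiableOn ℂ Ti (ball 0 1)) (m : MapsTo T (ball 0 1) (ball 0 1))
    (mi : MapsTo Ti (ball 0 1) (ball 0 1)) (h1 : ∀ z ∈ ball (0:ℂ) 1, Ti (T z) = z)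
    (h2 : ∀ z ∈ ball (0:ℂ) 1, T (Ti z) = z) :
    ∃ u b : ℂ, ‖u‖ = 1 ∧ ‖b‖ < 1 ∧ ∀ z ∈ ball (0:ℂ) 1, T z = mob u b z := by
  have h0 : (0:ℂ) ∈ ball (0:ℂ) 1 := mem_ball_self one_pos
  set b := Ti 0 with hbdef
  have hb : ‖b‖ < 1 := mem_ball_zero_iff.1 (mi h0)
  have hb' : ‖-b‖ < 1 := by rwa [norm_neg]
  set R : ℂ → ℂ := fun w => T (mob 1 (-b) w) with hR
  have hR0 : R 0 = 0 := by
    simp only [hR, MM_zero]
    exact h2 0 h0
  have hRd : DifferentiableOn ℂ R (ball 0 1) := hT.comp (MM_diff hb') (MM_mapsTo hb')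
  have hRm : MapsTo R (ball 0 1) (ball 0 1) := m.comp (MM_mapsTo hb')
  set Q : ℂ → ℂ := fun w => mob 1 b (Ti w) with hQ
  have hQ0 : Q 0 = 0 := by
    simp only [hQ]
    exact MM_self b
  have hQd : DifferentiableOn ℂ Q (ball 0 1) := (MM_diff hb).comp hTi mi
  have hQm : MapsTo Q (ball 0 1) (ball 0 1) := (MM_mapsTo hb).comp mi
  have hQR : ∀ w ∈ ball (0:ℂ) 1, Q (R w) = w := by
    intro w hw
    simp only [hQ, hR]
    rw [h1 _ (MM_mapsTo hb' hw)]
    exact (MM_inv hb (mem_ball_zero_iff.1 hw).le).2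
  have hn : ∀ w ∈ ball (0:ℂ) 1, ‖R w‖ = ‖w‖ := by
    intro w hw
    have hw' := mem_ball_zero_iff.1 hw
    have e1 : ‖R w‖ ≤ ‖w‖ :=
      Complex.norm_le_norm_of_mapsTo_ball hRd (hRm.mono_right ball_subset_closedBall) hR0 hw'
    have e2 : ‖Q (R w)‖ ≤ ‖R w‖ :=
      Complex.norm_le_norm_of_mapsTo_ball hQd (hQm.mono_right ball_subset_closedBall) hQ0
        (mem_ball_zero_iff.1 (hRm hw))
    rw [hQR w hw] at e2
    exact le_antisymm e1 e2
  have hh : (2⁻¹ : ℂ) ∈ ball (0:ℂ) 1 := by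
    rw [mem_ball_zero_iff]
    norm_num
  obtain ⟨u, hu, hE⟩ := Complex.affine_of_mapsTo_ball_of_exists_norm_dslope_eq_div' (R₂ := 1) hRd
    (by rw [hR0]; exact hRm.mono_right ball_subset_closedBall)
    ⟨2⁻¹, hh, by
      rw [dslope_of_ne _ (by norm_num), slope_def_module, hR0, sub_zero, sub_zero, norm_smul,
        hn _ hh, norm_inv, div_one, inv_mul_cancel₀]
      norm_num⟩
  rw [div_one] at hu
  refine ⟨u, b, hu, hb, fun z hz => ?_⟩
  have e3 := hE (MM_mapsTo hb hz)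
  simp only [hR, MM_zero, sub_zero, smul_eq_mul] at e3
  rw [(MM_inv hb (mem_ball_zero_iff.1 hz).le).1, h2 0 h0, zero_add] at e3
  rw [e3, mob, mob]
  ring

theorem MM_pd (x y : ℂ) : ‖mob 1 y x‖ = pd x y := by
  rw [← MB_pd_eq, pd_symm]

theorem schwarz_pick {ψ : ℂ → ℂ} (hψ : DifferentiableOn ℂ ψ (ball 0 1))
    (m : MapsTo ψ (ball 0 1) (ball 0 1)) {x y : ℂ} (hx : x ∈ ball (0:ℂ) 1)
    (hy : y ∈ ball (0:ℂ) 1) : pd (ψ x) (ψ y) ≤ pd x y := by
  have hy' : ‖y‖ < 1 := mem_ball_zero_iff.1 hy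
  have hyn : ‖-y‖ < 1 := by rwa [norm_neg]
  have hpy : ‖ψ y‖ < 1 := mem_ball_zero_iff.1 (m hy)
  have hd : DifferentiableOn ℂ (fun w => mob 1 (ψ y) (ψ (mob 1 (-y) w))) (ball 0 1) :=
    (MM_diff hpy).comp (hψ.comp (MM_diff hyn) (MM_mapsTo hyn)) (m.comp (MM_mapsTo hyn))
  have hm : MapsTo (fun w => mob 1 (ψ y) (ψ (mob 1 (-y) w))) (ball 0 1) (ball 0 1) :=
    (MM_mapsTo hpy).comp (m.comp (MM_mapsTo hyn))
  have h := Complex.norm_le_norm_of_mapsTo_ball hd (hm.mono_right ball_subset_closedBall)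
    (by simp only [MM_zero, MM_self]) (mem_ball_zero_iff.1 (MM_mapsTo hy' hx))
  rw [(MM_inv hy' (mem_ball_zero_iff.1 hx).le).1, MM_pd, MM_pd] at h
  exact h

theorem mob_unique {u b u' b' : ℂ} (hu : ‖u‖ = 1) (hb : ‖b‖ < 1) (hu' : ‖u'‖ = 1) (hb' : ‖b'‖ < 1)
    (h : ∀ z ∈ ball (0:ℂ) 1, mob u b z = mob u' b' z) : u = u' ∧ b = b' := by
  have hbb : b = b' := by
    have h1 := h b (mem_ball_zero_iff.2 hb)
    have h2 : mob u b b = 0 := by simp [mob]
    rw [h2, mob] at h1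
    have h3 := (div_eq_zero_iff.1 h1.symm).resolve_right (den_ne hb' hb.le)
    have h4 := (mul_eq_zero.1 h3).resolve_left (MB_u_ne hu')
    exact sub_eq_zero.1 h4
  refine ⟨?_, hbb⟩
  subst hbb
  by_cases hb0 : b = 0
  · subst hb0
    have h1 := h 2⁻¹ (by rw [mem_ball_zero_iff]; norm_num)
    simp only [mob, map_zero, zero_mul, sub_zero, div_one] at h1
    exact mul_right_cancel₀ (by norm_num) h1
  · have h1 := h 0 (mem_ball_self one_pos)
    simp only [mob, mul_zero, sub_zero, div_one, zero_sub] at h1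
    exact mul_right_cancel₀ (neg_ne_zero.2 hb0) h1

theorem MM_formula {u b z : ℂ} (hb : ‖b‖ < 1) (hz : ‖z‖ ≤ 1) :
    mob u b z - z = ((starRingEnd ℂ) b * z ^ 2 - (1 - u) * z - u * b) /
      (1 - (starRingEnd ℂ) b * z) := by
  have h := den_ne hb hz
  rw [mob, eq_div_iff h, sub_mul, div_mul_cancel₀ _ h]
  ring

theorem classify {u b : ℂ} (hu : ‖u‖ = 1) (hb : ‖b‖ < 1)
    (h : ∀ z ∈ ball (0:ℂ) 1, mob u b z ≠ z) :
    (∃ p q : ℂ, ‖p‖ = 1 ∧ ‖q‖ = 1 ∧ p ≠ q ∧ mob u b p = p ∧ mob u b q = q) ∨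
      ∃ P : ℂ, ‖P‖ = 1 ∧ b ≠ 0 ∧ (∀ z : ℂ, ‖z‖ ≤ 1 →
        mob u b z - z = (starRingEnd ℂ) b * (z - P) ^ 2 / (1 - (starRingEnd ℂ) b * z)) ∧
        ∀ ε > 0, ∃ z ∈ ball (0:ℂ) 1, pd z (mob u b z) < ε := by
  have hb0 : b ≠ 0 := by
    rintro rfl
    exact h 0 (mem_ball_self one_pos) (by simp [mob])
  set B := (starRingEnd ℂ) b with hB
  have hB0 : B ≠ 0 := by
    rw [hB]
    exact (map_ne_zero _).2 hb0
  obtain ⟨s, hs⟩ := IsSquare.exists_sq (a := (1 - u) ^ 2 + 4 * B * u * b)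
    (by
      obtain ⟨t, ht⟩ := IsAlgClosed.exists_pow_nat_eq ((1 - u) ^ 2 + 4 * B * u * b)
        (n := 2) (by norm_num)
      exact ⟨t, by rw [← ht]; ring⟩)
  set p := ((1 - u) + s) / (2 * B) with hp
  set q := ((1 - u) - s) / (2 * B) with hq
  have hsum : B * (p + q) = 1 - u := by
    rw [hp, hq]
    field_simp
    ring
  have hprod : B * (p * q) = -(u * b) := by
    rw [hp, hq]
    field_simp
    linear_combination hs
  have hfac : ∀ z : ℂ, B * z ^ 2 - (1 - u) * z - u * b = B * ((z - p) * (z - q)) := by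
    intro z
    linear_combination z * hsum - hprod
  have hnpq : ‖p‖ * ‖q‖ = 1 := by
    have h1 := congrArg norm hprod
    rw [norm_mul, norm_mul, norm_neg, norm_mul, hu, one_mul, hB, RCLike.norm_conj] at h1
    have h2 : ‖b‖ ≠ 0 := norm_ne_zero_iff.2 hb0
    exact mul_left_cancel₀ h2 (by rw [h1, mul_one])
  have hfix : ∀ z : ℂ, ‖z‖ ≤ 1 → (z - p) * (z - q) = 0 → mob u b z = z := by
    intro z hz h1
    have h2 := MM_formula (u := u) hb hz
    rw [hfac, h1, mul_zero, zero_div] at h2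
    exact sub_eq_zero.1 h2
  have hp1 : 1 ≤ ‖p‖ := by
    by_contra hlt
    push Not at hlt
    exact h p (mem_ball_zero_iff.2 hlt) (hfix p hlt.le (by rw [sub_self, zero_mul]))
  have hq1 : 1 ≤ ‖q‖ := by
    by_contra hlt
    push Not at hlt
    exact h q (mem_ball_zero_iff.2 hlt) (hfix q hlt.le (by rw [sub_self, mul_zero]))
  have hpn : ‖p‖ = 1 := by nlinarith
  have hqn : ‖q‖ = 1 := by nlinarith
  by_cases hpq : p = q
  · right
    have hform : ∀ z : ℂ, ‖z‖ ≤ 1 →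
        mob u b z - z = B * (z - p) ^ 2 / (1 - B * z) := by
      intro z hz
      rw [MM_formula hb hz, hfac, ← hpq]
      ring
    refine ⟨p, hpn, hb0, hform, fun ε hε => ?_⟩
    have hb1 : 0 < 1 - ‖b‖ := by linarith
    set δ := min (1 / 2) (ε * (1 - ‖b‖) / 2) with hδ
    have hδ0 : 0 < δ := lt_min (by norm_num) (by positivity)
    have hδ1 : δ ≤ 1 / 2 := min_le_left _ _
    have hδ2 : δ ≤ ε * (1 - ‖b‖) / 2 := min_le_right _ _
    set z : ℂ := ((1 - δ : ℝ) : ℂ) * p with hz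
    have hzn : ‖z‖ = 1 - δ := by
      rw [hz, norm_mul, hpn, mul_one, Complex.norm_real, Real.norm_eq_abs, abs_of_pos (by linarith)]
    have hz1 : ‖z‖ < 1 := by rw [hzn]; linarith
    refine ⟨z, mem_ball_zero_iff.2 hz1, ?_⟩
    have hzp : ‖z - p‖ = δ := by
      have e1 : z - p = -((δ : ℂ) * p) := by
        rw [hz]
        push_cast
        ring
      rw [e1, norm_neg, norm_mul, hpn, mul_one, Complex.norm_real, Real.norm_eq_abs,
        abs_of_pos hδ0]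
    have hBn : ‖B‖ = ‖b‖ := by rw [hB, RCLike.norm_conj]
    have hden : 1 - ‖b‖ ≤ ‖1 - B * z‖ := by
      have h2 : ‖(1:ℂ)‖ - ‖B * z‖ ≤ ‖1 - B * z‖ := norm_sub_norm_le _ _
      rw [norm_one, norm_mul, hBn] at h2
      have h3 : ‖b‖ * ‖z‖ ≤ ‖b‖ * 1 := mul_le_mul_of_nonneg_left hz1.le (norm_nonneg _)
      linarith
    have hnum : ‖z - mob u b z‖ ≤ δ ^ 2 / (1 - ‖b‖) := by
      rw [norm_sub_rev, hform z hz1.le, norm_div, norm_mul, norm_pow, hzp, hBn,
        div_le_div_iff₀ (by linarith) hb1]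
      have h4 : ‖b‖ * δ ^ 2 ≤ 1 * δ ^ 2 := mul_le_mul_of_nonneg_right hb.le (by positivity)
      have h5 : ‖b‖ * δ ^ 2 * (1 - ‖b‖) ≤ δ ^ 2 * (1 - ‖b‖) := by
        nlinarith
      have h6 : δ ^ 2 * (1 - ‖b‖) ≤ δ ^ 2 * ‖1 - B * z‖ :=
        mul_le_mul_of_nonneg_left hden (by positivity)
      linarith
    have hden2 : δ ≤ ‖1 - (starRingEnd ℂ) z * mob u b z‖ := by
      have h2 : ‖(1:ℂ)‖ - ‖(starRingEnd ℂ) z * mob u b z‖ ≤ ‖1 - (starRingEnd ℂ) z * mob u b z‖ :=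
        norm_sub_norm_le _ _
      rw [norm_one, norm_mul, RCLike.norm_conj, hzn] at h2
      have h3 : (1 - δ) * ‖mob u b z‖ ≤ (1 - δ) * 1 :=
        mul_le_mul_of_nonneg_left (mob_ball hu hb hz1).le (by linarith)
      linarith
    have hpd : pd z (mob u b z) ≤ δ ^ 2 / (1 - ‖b‖) / δ := by
      rw [pd]
      exact div_le_div₀ (by positivity) hnum hδ0 hden2
    have he : δ ^ 2 / (1 - ‖b‖) / δ = δ / (1 - ‖b‖) := by
      field_simp
    rw [he] at hpd
    refine lt_of_le_of_lt hpd ?_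
    rw [div_lt_iff₀ hb1]
    have : 0 < ε * (1 - ‖b‖) := by positivity
    linarith
  · left
    exact ⟨p, q, hpn, hqn, hpq, hfix p hpn.le (by rw [sub_self, zero_mul]),
      hfix q hqn.le (by rw [sub_self, mul_zero])⟩

end CV
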