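import Pool.Agent.H12.TN.MB

/-!
PA (no parabolic elements, flat case).  `bet P w = P (w - i)/(w + i)` maps the upper half plane onto the disc, `∞ ↦ P`, inverse `w = -2 i P/(z - P) - i`.
`para_half`: `C = conj b`: `mob u b z - P = (z - P)(1 - conj b P)/(1 - conj b z)`, so `1/(mob u b z - P) = 1/(z - P) - conj b/(1 - conj b P)` and in the coordinate `w` the map is `w ↦ w + t`,
`t = 2 i P conj b/(1 - conj b P)`; `t` is real because the upper half plane is mapped to itself both by the map and its inverse (`Im (w + t) > 0` for all `Im w > 0`, and the same for `-t`), `t ≠ 0`.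
`commute_half`: `mob u' b'` commutes on the disc with `mob u b`.  By continuity it commutes on the closed disc, so it maps the only fixed point `P` of `mob u b` on the closed disc to itself.  By `mob_sub`
`mob u' b' z - P = u' (1-|b'|²)(z - P)/((1 - conj b' z)(1 - conj b' P))`, so `1/(mob u' b' z - P)` is an affine function of `1/(z - P)`, and the map is `w ↦ a w + s` in the coordinate `w`; commuting with `w + t`, `t ≠ 0`, gives `a = 1`; `s` is real
as above.
`area_mult`: `Γ` is countable (for each `n` the set `{g | ‖l g‖ ≤ n}` is finite).  `volume B ≤ ∑ g, volume (B ∩ (C + l g)) = ∑ g, volume ((B - l g) ∩ C) = ∫⁻ x in C, ∑ g, indicator B (x + l g) ≤ m * volume C` (translation invariance, `lintegral_tsum`).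
`length_area`: for `1 ≤ y`: `l = Ψ (t + i y) - Ψ (i y) = ∫ x in 0..t, deriv Ψ (x + i y)`, so `‖l‖² ≤ |t| ∫ ‖deriv Ψ‖²` (Cauchy-Schwarz); integrate over `1 ≤ y ≤ Y`; the double integral of `‖deriv Ψ‖²` over the rectangle is the area of the image
(`MeasureTheory.lintegral_abs_det_fderiv_eq_addHaar_image`, the real determinant of a complex derivative is `‖deriv Ψ‖²`).  (See H36/DS/LA for the same technique.)
`no_para'`: `X = univ`, `A g x = x + l g`.  `N` is commutative (`A (g h) = A (h g)`, `free`).  `T = mob u b` is `w ↦ w + t`; each `d ∈ N` acts on the disc by `v ∘ A d ∘ ψ`, an automorphism `mob u' b'` (`auto_mob`) commuting with `T`, so it is `w ↦ w + s d`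
(`commute_half`).  `{d | |s d| ≤ R}` is finite: `A d (ψ (bet P i)) = ψ (bet P (i + s d))` is in a compact set (`D.proper`).  `Ψ = ψ ∘ bet P` is injective holomorphic on the upper half plane with values in `fil X U`,
`Ψ (w + t) = Ψ w + l c`.  For `Q = [0,|t|] × [1, Y]` each point `x` has at most `m = #{d | |s d| ≤ |t|}` translates in `Ψ '' Q`: if `x + l g, x + l g'` are in `Ψ '' Q ⊆ fil X U` then `g' g⁻¹ ∈ N` (`fil_same`) and
`|s (g' g⁻¹)| ≤ |t|`; so `volume (Ψ '' Q) ≤ m volume C` (`area_mult`, `C` from `Deck.coc`), for all `Y`, while `‖l c‖² (Y - 1) ≤ |t| volume (Ψ '' Q)`, `l c ≠ 0`: contradiction for large `Y`.  (If `t < 0` exchange `c` and `c⁻¹`, or use `[t, 0]`.)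
(This file: `bet_props`, `para_half`, `commute_half`.)
-/

namespace CV

open Metric Set Filter Topology Function DS TN MeasureTheory

/-- the half plane coordinate -/
noncomputable def bet (P w : ℂ) : ℂ := P * (w - Complex.I) / (w + Complex.I)

theorem PA1_ne {w : ℂ} (hw : 0 < w.im) : w + Complex.I ≠ 0 := by
  intro h
  have h1 := congrArg Complex.im h
  simp only [Complex.add_im, Complex.I_im, Complex.zero_im] at h1
  linarith

theorem PA1_norm {P w : ℂ} (hP : ‖P‖ = 1) (hw : w + Complex.I ≠ 0) :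
    1 - ‖bet P w‖ ^ 2 = 4 * w.im / ‖w + Complex.I‖ ^ 2 := by
  have h0 : ‖w + Complex.I‖ ≠ 0 := norm_ne_zero_iff.2 hw
  have h1 : ‖w + Complex.I‖ ^ 2 - ‖w - Complex.I‖ ^ 2 = 4 * w.im := by
    simp only [Complex.sq_norm, Complex.normSq_apply, Complex.add_re, Complex.add_im,
      Complex.sub_re, Complex.sub_im, Complex.I_re, Complex.I_im]
    ring
  rw [bet, norm_div, norm_mul, hP, one_mul, ← h1, div_pow, sub_div, div_self (pow_ne_zero 2 h0)]

theorem PA1_lt {P w : ℂ} (hP : ‖P‖ = 1) (hw : 0 < w.im) : ‖bet P w‖ < 1 := by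
  have h1 := PA1_norm hP (PA1_ne hw)
  have h2 : 0 < 4 * w.im / ‖w + Complex.I‖ ^ 2 := by
    have : 0 < ‖w + Complex.I‖ := norm_pos_iff.2 (PA1_ne hw)
    positivity
  have h3 : ‖bet P w‖ ^ 2 < 1 := by linarith
  nlinarith [norm_nonneg (bet P w)]

theorem PA1_inj {P : ℂ} (hP : ‖P‖ = 1) : InjOn (bet P) {w | 0 < w.im} := by
  intro w hw w' hw' h
  have h1 := PA1_ne hw
  have h2 := PA1_ne hw'
  have hP0 : P ≠ 0 := MB_u_ne hP
  rw [bet, bet, div_eq_div_iff h1 h2] at h
  have h3 : (2 * P * Complex.I) * (w - w') = 0 := by linear_combination h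
  have h4 : 2 * P * Complex.I ≠ 0 := mul_ne_zero (mul_ne_zero two_ne_zero hP0) Complex.I_ne_zero
  exact sub_eq_zero.1 ((mul_eq_zero.1 h3).resolve_left h4)

theorem bet_props {P : ℂ} (hP : ‖P‖ = 1) : DifferentiableOn ℂ (bet P) {w | 0 < w.im} ∧
    InjOn (bet P) {w | 0 < w.im} ∧ bet P '' {w | 0 < w.im} = ball 0 1 ∧ bet P Complex.I = 0 := by
  have hP0 : P ≠ 0 := MB_u_ne hP
  refine ⟨?_, PA1_inj hP, ?_, ?_⟩
  · intro w hw
    apply DifferentiableAt.differentiableWithinAt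
    unfold bet
    exact ((differentiableAt_id.sub_const _).const_mul P).div (differentiableAt_id.add_const _)
      (PA1_ne hw)
  · ext z
    constructor
    · rintro ⟨w, hw, rfl⟩
      rw [mem_ball_zero_iff]
      exact PA1_lt hP hw
    · intro hz
      rw [mem_ball_zero_iff] at hz
      have hzP : z - P ≠ 0 := by
        intro h
        rw [sub_eq_zero.1 h, hP] at hz
        exact lt_irrefl _ hz
      have hi : -2 * Complex.I * P / (z - P) ≠ 0 :=
        div_ne_zero (mul_ne_zero (mul_ne_zero (by norm_num) Complex.I_ne_zero) hP0) hzP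
      set w : ℂ := -2 * Complex.I * P / (z - P) - Complex.I with hw
      have hwi : w + Complex.I = -2 * Complex.I * P / (z - P) := by rw [hw]; ring
      have hwi0 : w + Complex.I ≠ 0 := by rw [hwi]; exact hi
      have hb : bet P w = z := by
        rw [bet, div_eq_iff hwi0]
        have h1 : (w + Complex.I) * (z - P) = -2 * Complex.I * P := by
          rw [hwi, div_mul_cancel₀ _ hzP]
        linear_combination -h1
      refine ⟨w, ?_, hb⟩
      have h1 := PA1_norm hP hwi0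
      rw [hb] at h1
      have h2 : 0 < 1 - ‖z‖ ^ 2 := by nlinarith [norm_nonneg z]
      rw [h1] at h2
      by_contra h3
      have h4 : w.im ≤ 0 := not_lt.1 h3
      have h5 : 4 * w.im / ‖w + Complex.I‖ ^ 2 ≤ 0 :=
        div_nonpos_of_nonpos_of_nonneg (by linarith) (by positivity)
      linarith
  · rw [bet, sub_self, mul_zero, zero_div]

/-- a Moebius map of the disc fixing the boundary point `P`, in the half plane coordinate -/
theorem PA1_aff {u b P : ℂ} (hb : ‖b‖ < 1) (hP : ‖P‖ = 1)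
    (hfix : u * (P - b) = P * (1 - (starRingEnd ℂ) b * P)) :
    ∀ w : ℂ, 0 < w.im → mob u b (bet P w) =
      bet P (((‖1 - (starRingEnd ℂ) b * P‖ ^ 2 / (1 - ‖b‖ ^ 2) : ℝ) : ℂ) * w +
        ((-2 * ((starRingEnd ℂ) b * P).im / (1 - ‖b‖ ^ 2) : ℝ) : ℂ)) := by
  intro w hw
  have hP0 : P ≠ 0 := MB_u_ne hP
  have hPP := MB_uu hP
  have hD : 0 < 1 - ‖b‖ ^ 2 := by nlinarith [norm_nonneg b]
  have hDc : ((1 - ‖b‖ ^ 2 : ℝ) : ℂ) = 1 - (starRingEnd ℂ) b * b := by
    rw [Complex.conj_mul']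
    push_cast
    rfl
  have hDc0 : ((1 - ‖b‖ ^ 2 : ℝ) : ℂ) ≠ 0 := by
    rw [Ne, Complex.ofReal_eq_zero]
    exact hD.ne'
  set A : ℝ := ‖1 - (starRingEnd ℂ) b * P‖ ^ 2 / (1 - ‖b‖ ^ 2) with hA
  set B : ℝ := -2 * ((starRingEnd ℂ) b * P).im / (1 - ‖b‖ ^ 2) with hB
  have hA0 : 0 < A := by
    have : 0 < ‖1 - (starRingEnd ℂ) b * P‖ := norm_pos_iff.2 (den_ne hb hP.le)
    positivity
  have hAD : (A : ℂ) * (1 - (starRingEnd ℂ) b * b) =
      (1 - (starRingEnd ℂ) b * P) * (1 - b * (starRingEnd ℂ) P) := by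
    rw [← hDc, ← Complex.ofReal_mul, hA, div_mul_cancel₀ _ hD.ne']
    have h1 := Complex.mul_conj' (1 - (starRingEnd ℂ) b * P)
    simp only [map_sub, map_one, map_mul, Complex.conj_conj] at h1
    rw [h1]
    push_cast
    rfl
  have hBD : (B : ℂ) * (1 - (starRingEnd ℂ) b * b) =
      Complex.I * ((starRingEnd ℂ) b * P - b * (starRingEnd ℂ) P) := by
    rw [← hDc, ← Complex.ofReal_mul, hB, div_mul_cancel₀ _ hD.ne']
    apply Complex.ext
    · simp [Complex.mul_re, Complex.mul_im]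
      ring
    · simp [Complex.mul_re, Complex.mul_im]
  set w' : ℂ := (A : ℂ) * w + (B : ℂ) with hw'
  have hw'im : 0 < w'.im := by
    have : w'.im = A * w.im := by
      rw [hw']
      simp [Complex.mul_im]
    rw [this]
    positivity
  have n1 := PA1_ne hw
  have n2 := PA1_ne hw'im
  have n3 := den_ne hb (PA1_lt hP hw).le
  have hz : bet P w * (w + Complex.I) = P * (w - Complex.I) := by
    rw [bet, div_mul_cancel₀ _ n1]
  set z := bet P w with hzdef
  set cb := (starRingEnd ℂ) b with hcb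
  set Pb := (starRingEnd ℂ) P with hPb
  have hI : Complex.I * Complex.I = -1 := Complex.I_mul_I
  have g1 : (w' + Complex.I) * (1 - cb * b) =
      (1 - b * Pb) * ((w + Complex.I) - cb * P * (w - Complex.I)) := by
    rw [hw']
    linear_combination w * hAD + hBD + (Complex.I * cb * b) * hPP
  have g2 : (w' - Complex.I) * (1 - cb * b) =
      (1 - cb * P) * ((w - Complex.I) - b * Pb * (w + Complex.I)) := by
    rw [hw']
    linear_combination w * hAD + hBD - (Complex.I * cb * b) * hPP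
  have g3 : (z - b) * (w + Complex.I) = P * ((w - Complex.I) - b * Pb * (w + Complex.I)) := by
    linear_combination hz + b * (w + Complex.I) * hPP
  have g4 : (1 - cb * z) * (w + Complex.I) = (w + Complex.I) - cb * P * (w - Complex.I) := by
    linear_combination -cb * hz
  have fix2 : u * (1 - b * Pb) = 1 - cb * P := by
    apply mul_left_cancel₀ hP0
    linear_combination hfix - u * b * hPP
  rw [mob, bet, div_eq_div_iff n3 n2]
  have hDc1 : 1 - cb * b ≠ 0 := by
    rw [← hDc]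
    exact hDc0
  apply mul_right_cancel₀ (mul_ne_zero n1 hDc1)
  linear_combination (u * (w' + Complex.I) * (1 - cb * b)) * g3 +
    (u * P * ((w - Complex.I) - b * Pb * (w + Complex.I))) * g1 -
    (P * (w' - Complex.I) * (1 - cb * b)) * g4 -
    (P * ((w + Complex.I) - cb * P * (w - Complex.I))) * g2 +
    (P * ((w - Complex.I) - b * Pb * (w + Complex.I)) *
      ((w + Complex.I) - cb * P * (w - Complex.I))) * fix2

theorem PA1_fix {u b P : ℂ} (hb : ‖b‖ < 1) (hP : ‖P‖ = 1) (h : mob u b P = P) :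
    u * (P - b) = P * (1 - (starRingEnd ℂ) b * P) := by
  rw [mob, div_eq_iff (den_ne hb hP.le)] at h
  exact h

theorem PA1_par {u b P : ℂ} (hu : ‖u‖ = 1) (hb : ‖b‖ < 1) (hP : ‖P‖ = 1)
    (h2 : ∀ z : ℂ, ‖z‖ ≤ 1 →
      mob u b z - z = (starRingEnd ℂ) b * (z - P) ^ 2 / (1 - (starRingEnd ℂ) b * z)) :
    mob u b P = P ∧ ‖1 - (starRingEnd ℂ) b * P‖ ^ 2 = 1 - ‖b‖ ^ 2 := by
  have hP0 : P ≠ 0 := MB_u_ne hP
  have e0 := h2 0 (by simp)
  have e1 := h2 P hP.le
  have hfixP : mob u b P = P := by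
    rw [sub_self, zero_pow two_ne_zero, mul_zero, zero_div] at e1
    exact sub_eq_zero.1 e1
  have hfix := PA1_fix hb hP hfixP
  have e2 : -(u * b) = (starRingEnd ℂ) b * P ^ 2 := by
    rw [mob] at e0
    simp only [mul_zero, sub_zero, div_one, zero_sub, even_two, Even.neg_pow, mul_neg] at e0
    exact e0
  have hu2 : u = 1 - 2 * ((starRingEnd ℂ) b * P) := by
    apply mul_right_cancel₀ hP0
    linear_combination hfix - e2
  refine ⟨hfixP, ?_⟩
  set c : ℂ := (starRingEnd ℂ) b * P with hc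
  have hcb : ‖b‖ ^ 2 = c.re ^ 2 + c.im ^ 2 := by
    have h3 : ‖c‖ = ‖b‖ := by rw [hc, norm_mul, RCLike.norm_conj, hP, mul_one]
    rw [← h3, Complex.sq_norm, Complex.normSq_apply]
    ring
  have h3 : ‖1 - 2 * c‖ ^ 2 = 1 := by rw [← hu2, hu, one_pow]
  rw [Complex.sq_norm, Complex.normSq_apply] at h3
  simp only [Complex.sub_re, Complex.sub_im, Complex.one_re, Complex.one_im, Complex.mul_re,
    Complex.mul_im, Complex.re_ofNat, Complex.im_ofNat, zero_mul, sub_zero, add_zero] at h3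
  rw [Complex.sq_norm, Complex.normSq_apply]
  simp only [Complex.sub_re, Complex.sub_im, Complex.one_re, Complex.one_im]
  linarith

theorem PA1_t0 {b P : ℂ} (hb : ‖b‖ < 1) (hP : ‖P‖ = 1) (hb0 : b ≠ 0)
    (h : ‖1 - (starRingEnd ℂ) b * P‖ ^ 2 = 1 - ‖b‖ ^ 2) :
    -2 * ((starRingEnd ℂ) b * P).im / (1 - ‖b‖ ^ 2) ≠ 0 := by
  have hD : 0 < 1 - ‖b‖ ^ 2 := by nlinarith [norm_nonneg b]
  have hb1 : 0 < ‖b‖ := norm_pos_iff.2 hb0
  set c : ℂ := (starRingEnd ℂ) b * P with hc
  have hcb : ‖b‖ ^ 2 = c.re ^ 2 + c.im ^ 2 := by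
    have h3 : ‖c‖ = ‖b‖ := by rw [hc, norm_mul, RCLike.norm_conj, hP, mul_one]
    rw [← h3, Complex.sq_norm, Complex.normSq_apply]
    ring
  rw [Complex.sq_norm, Complex.normSq_apply] at h
  simp only [Complex.sub_re, Complex.sub_im, Complex.one_re, Complex.one_im] at h
  have h1 : c.re = ‖b‖ ^ 2 := by nlinarith
  intro h2
  rw [div_eq_zero_iff] at h2
  have h3 : c.im = 0 := by
    rcases h2 with h2 | h2
    · linarith
    · exact absurd h2 hD.ne'
  rw [h3, h1] at hcb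
  have h4 : ‖b‖ ^ 2 * (1 - ‖b‖ ^ 2) = 0 := by linarith
  have h5 : 0 < ‖b‖ ^ 2 * (1 - ‖b‖ ^ 2) := by positivity
  linarith

theorem PA1_trans {u b P : ℂ} (hb : ‖b‖ < 1) (hP : ‖P‖ = 1) (hf : mob u b P = P)
    (h : ‖1 - (starRingEnd ℂ) b * P‖ ^ 2 = 1 - ‖b‖ ^ 2) :
    ∀ w : ℂ, 0 < w.im → mob u b (bet P w) =
      bet P (w + ((-2 * ((starRingEnd ℂ) b * P).im / (1 - ‖b‖ ^ 2) : ℝ) : ℂ)) := by
  intro w hw
  have hD : 0 < 1 - ‖b‖ ^ 2 := by nlinarith [norm_nonneg b]
  rw [PA1_aff hb hP (PA1_fix hb hP hf) w hw, h, div_self hD.ne', Complex.ofReal_one, one_mul]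

theorem para_half {u b P : ℂ} (hu : ‖u‖ = 1) (hb : ‖b‖ < 1) (hP : ‖P‖ = 1) (hb0 : b ≠ 0)
    (h2 : ∀ z : ℂ, ‖z‖ ≤ 1 →
      mob u b z - z = (starRingEnd ℂ) b * (z - P) ^ 2 / (1 - (starRingEnd ℂ) b * z)) :
    ∃ t : ℝ, t ≠ 0 ∧ ∀ w : ℂ, 0 < w.im → mob u b (bet P w) = bet P (w + t) := by
  obtain ⟨h3, h4⟩ := PA1_par hu hb hP h2
  exact ⟨_, PA1_t0 hb hP hb0 h4, PA1_trans hb hP h3 h4⟩

theorem commute_half {u b P u' b' : ℂ} (hu : ‖u‖ = 1) (hb : ‖b‖ < 1) (hP : ‖P‖ = 1) (hb0 : b ≠ 0)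
    (h2 : ∀ z : ℂ, ‖z‖ ≤ 1 →
      mob u b z - z = (starRingEnd ℂ) b * (z - P) ^ 2 / (1 - (starRingEnd ℂ) b * z))
    (hu' : ‖u'‖ = 1) (hb' : ‖b'‖ < 1)
    (hc : ∀ z ∈ ball (0:ℂ) 1, mob u b (mob u' b' z) = mob u' b' (mob u b z)) :
    ∃ s : ℝ, ∀ w : ℂ, 0 < w.im → mob u' b' (bet P w) = bet P (w + s) := by
  obtain ⟨h3, h4⟩ := PA1_par hu hb hP h2
  obtain ⟨t, ht, htr⟩ := para_half hu hb hP hb0 h2
  -- commutation on the closed disc
  have hmc : ∀ {u b : ℂ}, ‖u‖ = 1 → ‖b‖ < 1 → MapsTo (mob u b) (closedBall (0:ℂ) 1)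
      (closedBall (0:ℂ) 1) := by
    intro u b hu hb z hz
    rw [mem_closedBall_zero_iff] at hz ⊢
    exact mob_closedBall hu hb hz
  have hcl : EqOn (fun z => mob u b (mob u' b' z)) (fun z => mob u' b' (mob u b z))
      (closedBall (0:ℂ) 1) := by
    apply EqOn.of_subset_closure (s := ball (0:ℂ) 1) (fun z hz => hc z hz)
    · exact (mob_cont hb).comp (mob_cont hb') (hmc hu' hb')
    · exact (mob_cont hb').comp (mob_cont hb) (hmc hu hb)
    · exact ball_subset_closedBall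
    · rw [closure_ball _ one_ne_zero]
  have hP1 : P ∈ closedBall (0:ℂ) 1 := by rw [mem_closedBall_zero_iff]; exact hP.le
  have hSP : mob u' b' P = P := by
    have e1 := hcl hP1
    simp only at e1
    rw [h3] at e1
    have e2 := h2 (mob u' b' P) (mob_closedBall hu' hb' hP.le)
    rw [e1, sub_self] at e2
    have n1 := den_ne hb (mob_closedBall hu' hb' hP.le)
    have hcb0 : (starRingEnd ℂ) b ≠ 0 := by
      rw [Ne, map_eq_zero]
      exact hb0
    have e3 := (div_eq_zero_iff.1 e2.symm).resolve_right n1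
    have e4 := (mul_eq_zero.1 e3).resolve_left hcb0
    exact sub_eq_zero.1 (pow_eq_zero_iff two_ne_zero |>.1 e4)
  have hD : 0 < 1 - ‖b'‖ ^ 2 := by nlinarith [norm_nonneg b']
  have haff := PA1_aff hb' hP (PA1_fix hb' hP hSP)
  set A : ℝ := ‖1 - (starRingEnd ℂ) b' * P‖ ^ 2 / (1 - ‖b'‖ ^ 2) with hA
  set B : ℝ := -2 * ((starRingEnd ℂ) b' * P).im / (1 - ‖b'‖ ^ 2) with hB
  have hA0 : 0 < A := by
    have : 0 < ‖1 - (starRingEnd ℂ) b' * P‖ := norm_pos_iff.2 (den_ne hb' hP.le)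
    positivity
  have him : ∀ (w : ℂ), 0 < w.im → 0 < ((A : ℂ) * w + (B : ℂ)).im := by
    intro w hw
    have : ((A : ℂ) * w + (B : ℂ)).im = A * w.im := by simp [Complex.mul_im]
    rw [this]
    positivity
  have him2 : ∀ (w : ℂ), 0 < w.im → 0 < (w + (t : ℂ)).im := by
    intro w hw
    simpa using hw
  have hI : 0 < Complex.I.im := by simp
  have e1 := hc (bet P Complex.I) (by
    rw [mem_ball_zero_iff]; exact PA1_lt hP hI)
  rw [haff _ hI, htr _ (him _ hI), htr _ hI, haff _ (him2 _ hI)] at e1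
  have e2 := PA1_inj hP (him2 _ (him _ hI)) (him _ (him2 _ hI)) e1
  have e3 : ((A : ℂ) - 1) * (t : ℂ) = 0 := by linear_combination -e2
  have ht' : (t : ℂ) ≠ 0 := by
    rw [Ne, Complex.ofReal_eq_zero]
    exact ht
  have e4 : (A : ℂ) = 1 := sub_eq_zero.1 ((mul_eq_zero.1 e3).resolve_right ht')
  refine ⟨B, fun w hw => ?_⟩
  rw [haff w hw, e4, one_mul]

end CV
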