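import Mathlib

/-!
PA (no parabolic elements, flat case).  `bet P w = P (w - i)/(w + i)` maps the upper half plane onto the disc, `∞ ↦ P`, inverse `w = -2 i P/(z - P) - i`.
`para_half`: `C = conj b`: `mob u b z - P = (z - P)(1 - conj b P)/(1 - conj b z)`, so `1/(mob u b z - P) = 1/(z - P) - conj b/(1 - conj b P)` and in the coordinate `w` the map is `w ↦ w + t`,
`t = 2 i P conj b/(1 - conj b P)`; `t` is real because the upper half plane is mapped to itself both by the map and its inverse (`Im (w + t) > 0` for all `Im w > 0`, and the same for `-t`), `t ≠ 0`.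
`commute_half`: `mob u' b'` commutes on the disc with `mob u b`.  By continuity it commutes on the closed disc, so it maps the only fixed point `P` of `mob u b` on the closed disc to itself.  By `mob_sub`
`mob u' b' z - P = u' (1-|b'|²)(z - P)/((1 - conj b' z)(1 - conj b' P))`, so `1/(mob u' b' z - P)` is an affine function of `1/(z - P)`, and the map is `w ↦ a w + s` in the coordinate `w`; commuting with `w + t`, `t ≠ 0`, gives `a = 1`; `s` is real
as above.
`area_mult`: `Γ` is countable (for each `n` the set `{g | ‖l g‖ ≤ n}` is finite).  `volume B ≤ ∑ g, volume (B ∩ (C + l g)) = ∑ g, volume ((B - l g) ∩ C) = ∫⁻ x in C, ∑ g, indicator B (x + l g) ≤ m * volume C` (translation invariance, `lintegral_tsum`).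
`length_area`: for `1 ≤ y`: `l = Ψ (t + i y) - Ψ (i y) = ∫ x in 0..t, deriv Ψ (x + i y)`, so `‖l‖² ≤ |t| ∫ ‖deriv Ψ‖²` (Cauchy-Schwarz); integrate over `1 ≤ y ≤ Y`; the double integral of `‖deriv Ψ‖²` over the rectangle is the area of the image
(`MeasureTheory.lintegral_abs_det_fderiv_eq_addHaar_image`, the real determinant of a complex derivative is `‖deriv Ψ‖²`).  (See H36/DS/LA for the same technique.)
`no_para'`: `X = univ`, `A g x = x + l g`.  `N` is commutative (`A (g h) = A (h g)`, `free`).  `T = mob u b` is `w ↦ w + t`; each `d ∈ N` acts on the disc by `v ∘ A d ∘ ψ`, an automorphism `mob u' b'` (`auto_mob`) commuting with `T`, so it is `w ↦ w + s d`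
(`commute_half`).  `{d | |s d| ≤ R}` is finite: `A d (ψ (bet P i)) = ψ (bet P (i + s d))` is in a compact set (`D.proper`).  `Ψ = ψ ∘ bet P` is injective holomorphic on the upper half plane with values in `fil X U`,
`Ψ (w + t) = Ψ w + l c`.  For `Q = [0,|t|] × [1, Y]` each point `x` has at most `m = #{d | |s d| ≤ |t|}` translates in `Ψ '' Q`: if `x + l g, x + l g'` are in `Ψ '' Q ⊆ fil X U` then `g' g⁻¹ ∈ N` (`fil_same`) and
`|s (g' g⁻¹)| ≤ |t|`; so `volume (Ψ '' Q) ≤ m volume C` (`area_mult`, `C` from `Deck.coc`), for all `Y`, while `‖l c‖² (Y - 1) ≤ |t| volume (Ψ '' Q)`, `l c ≠ 0`: contradiction for large `Y`.  (If `t < 0` exchange `c` and `c⁻¹`, or use `[t, 0]`.)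
(This file: `area_mult`.)
-/

namespace CV

open Metric Set Filter Topology Function MeasureTheory

theorem area_mult {Γ : Type} {l : Γ → ℂ} (hl : ∀ r : ℝ, {g | ‖l g‖ ≤ r}.Finite) {C : Set ℂ}
    (hC : IsCompact C) (hcov : ∀ x, ∃ g, x + l g ∈ C) (hneg : ∀ g, ∃ g', l g' = - l g) {B : Set ℂ}
    (hB : MeasurableSet B) {m : ℕ} (hm : ∀ x, {g | x + l g ∈ B}.encard ≤ m) :
    volume B ≤ m * volume C := by
  classical
  -- `Γ` is countable
  have hcount : Countable Γ := by
    rw [← Set.countable_univ_iff]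
    have h1 : (Set.univ : Set Γ) = ⋃ n : ℕ, {g | ‖l g‖ ≤ (n : ℝ)} := by
      ext g
      simp only [Set.mem_univ, Set.mem_iUnion, true_iff]
      obtain ⟨n, hn⟩ := exists_nat_ge ‖l g‖
      exact ⟨n, hn⟩
    rw [h1]
    exact Set.countable_iUnion fun n => (hl n).countable
  set V : Set ℂ := range l with hV
  have hVc : Countable V := (Set.countable_range l).to_subtype
  have hchoose : ∀ v : V, ∃ g, l g = -(v : ℂ) := by
    rintro ⟨_, g, rfl⟩
    exact hneg g
  choose γ hγ using hchoose
  have hγi : Function.Injective γ := by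
    intro v w hvw
    have h1 := hγ v
    rw [hvw, hγ w] at h1
    exact Subtype.ext (neg_injective h1.symm)
  -- the counting bound
  have hcnt : ∀ y : ℂ, ∑' v : V, ({z : ℂ | z - (v : ℂ) ∈ B}).indicator (1 : ℂ → ENNReal) y ≤ m := by
    intro y
    rw [ENNReal.tsum_eq_iSup_sum]
    refine iSup_le fun s => ?_
    have h1 : ∑ v ∈ s, ({z : ℂ | z - (v : ℂ) ∈ B}).indicator (1 : ℂ → ENNReal) y =
        ((s.filter fun v : V => y - (v : ℂ) ∈ B).card : ENNReal) := by
      rw [← Finset.sum_boole]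
      refine Finset.sum_congr rfl fun v _ => ?_
      by_cases h2 : y - (v : ℂ) ∈ B
      · have h3 : y ∈ {z : ℂ | z - (v : ℂ) ∈ B} := h2
        rw [if_pos h2, Set.indicator_of_mem h3]
        rfl
      · have h3 : y ∉ {z : ℂ | z - (v : ℂ) ∈ B} := h2
        rw [if_neg h2, Set.indicator_of_notMem h3]
    rw [h1]
    have h2 : (((s.filter fun v : V => y - (v : ℂ) ∈ B).image γ : Finset Γ) : Set Γ) ⊆
        {g | y + l g ∈ B} := by
      intro g hg
      rw [Finset.mem_coe, Finset.mem_image] at hg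
      obtain ⟨v, hv, rfl⟩ := hg
      have h3 := (Finset.mem_filter.1 hv).2
      show y + l (γ v) ∈ B
      rw [hγ v, ← sub_eq_add_neg]
      exact h3
    have h4 := (Set.encard_le_encard h2).trans (hm y)
    rw [Set.encard_coe_eq_coe_finsetCard, Finset.card_image_of_injective _ hγi] at h4
    have h5 : (s.filter fun v : V => y - (v : ℂ) ∈ B).card ≤ m := by exact_mod_cast h4
    exact_mod_cast h5
  have hmeas : ∀ v : V, MeasurableSet {z : ℂ | z - (v : ℂ) ∈ B} := fun v =>
    (measurable_id.sub_const (v : ℂ)) hB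
  -- one translate
  have hone : ∀ v : V, volume (B ∩ {x | x + (v : ℂ) ∈ C}) =
      ∫⁻ y in C, ({z : ℂ | z - (v : ℂ) ∈ B}).indicator (1 : ℂ → ENNReal) y := by
    intro v
    rw [lintegral_indicator_one (hmeas v), Measure.restrict_apply (hmeas v)]
    rw [← measure_preimage_add_right volume (v : ℂ) ({z : ℂ | z - (v : ℂ) ∈ B} ∩ C)]
    congr 1
    ext x
    show (x ∈ B ∧ x + (v : ℂ) ∈ C) ↔ (x + (v : ℂ) - (v : ℂ) ∈ B ∧ x + (v : ℂ) ∈ C)
    rw [add_sub_cancel_right]
  have hsub : B ⊆ ⋃ v : V, (B ∩ {x | x + (v : ℂ) ∈ C}) := by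
    intro x hx
    obtain ⟨g, hg⟩ := hcov x
    exact Set.mem_iUnion.2 ⟨⟨l g, g, rfl⟩, hx, hg⟩
  calc volume B ≤ volume (⋃ v : V, (B ∩ {x | x + (v : ℂ) ∈ C})) := measure_mono hsub
    _ ≤ ∑' v : V, volume (B ∩ {x | x + (v : ℂ) ∈ C}) := measure_iUnion_le _
    _ = ∑' v : V, ∫⁻ y in C, ({z : ℂ | z - (v : ℂ) ∈ B}).indicator (1 : ℂ → ENNReal) y :=
        tsum_congr hone
    _ = ∫⁻ y in C, ∑' v : V, ({z : ℂ | z - (v : ℂ) ∈ B}).indicator (1 : ℂ → ENNReal) y :=
        (lintegral_tsum fun v => ((measurable_one.indicator (hmeas v)).aemeasurable)).symm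
    _ ≤ ∫⁻ _ in C, (m : ENNReal) := lintegral_mono hcnt
    _ = m * volume C := by
        rw [lintegral_const, Measure.restrict_apply MeasurableSet.univ, Set.univ_inter]

end CV
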