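import Mathlib

/-!
PA (no parabolic elements, flat case).  `bet P w = P (w - i)/(w + i)` maps the upper half plane onto the disc, `∞ ↦ P`, inverse `w = -2 i P/(z - P) - i`.
`para_half`: `C = conj b`: `mob u b z - P = (z - P)(1 - conj b P)/(1 - conj b z)`, so `1/(mob u b z - P) = 1/(z - P) - conj b/(1 - conj b P)` and in the coordinate `w` the map is `w ↦ w + t`,
`t = 2 i P conj b/(1 - conj b P)`; `t` is real because the upper half plane is mapped to itself both by the map and its inverse (`Im (w + t) > 0` for all `Im w > 0`, and the same for `-t`), `t ≠ 0`.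
`commute_half`: `mob u' b'` commutes on the disc with `mob u b`.  By continuity it commutes on the closed disc, so it maps the only fixed point `P` of `mob u b` on the closed disc to itself.  By `mob_sub`
`mob u' b' z - P = u' (1-|b'|²)(z - P)/((1 - conj b' z)(1 - conj b' P))`, so `1/(mob u' b' z - P)` is an affine function of `1/(z - P)`, and the map is `w ↦ a w + s` in the coordinate `w`; commuting with `w + t`, `t ≠ 0`, gives `a = 1`; `s` is real
as above.
`area_mult`: `Γ` is countable (for each `n` the set `{g | ‖l g‖ ≤ n}` is finite).  `volume B ≤ ∑ g, volume (B ∩ (C + l g)) = ∑ g, volume ((B - l g) ∩ C) = ∫⁻ x in C, ∑ g, indicator B (x + l g) ≤ m * volume C` (translation invariance, `lintegral_tsum`).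
`length_area`: for `1 ≤ y`: `l = Ψ (t + i y) - Ψ (i y) = ∫ x in 0..t, deriv Ψ (x + i y)`, so `‖l‖² ≤ |t| ∫ ‖deriv Ψ‖²` (Cauchy-Schwarz); integrate over `1 ≤ y ≤ Y`; the double integral of `‖deriv Ψ‖²` over the rectangle is the area of the image
(`MeasureTheory.lintegral_abs_det_fderiv_eq_addHaar_image`, the real determinant of a complex derivative is `‖deriv Ψ‖²`).  (See H36/DS/LA for the same technique.)
`no_para'`: `X = univ`, `A g x = x + l g`.  `N` is commutative (`A (g h) = A (h g)`, `free`).  `T = mob u b` is `w ↦ w + t`; each `d ∈ N` acts on the disc by `v ∘ A d ∘ ψ`, an automorphism `mob u' b'` (`auto_mob`) commuting with `T`, so it is `w ↦ w + s d`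
(`commute_half`).  `{d | |s d| ≤ R}` is finite: `A d (ψ (bet P i)) = ψ (bet P (i + s d))` is in a compact set (`D.proper`).  `Ψ = ψ ∘ bet P` is injective holomorphic on the upper half plane with values in `fil X U`,
`Ψ (w + t) = Ψ w + l c`.  For `Q = [0,|t|] × [1, Y]` each point `x` has at most `m = #{d | |s d| ≤ |t|}` translates in `Ψ '' Q`: if `x + l g, x + l g'` are in `Ψ '' Q ⊆ fil X U` then `g' g⁻¹ ∈ N` (`fil_same`) and
`|s (g' g⁻¹)| ≤ |t|`; so `volume (Ψ '' Q) ≤ m volume C` (`area_mult`, `C` from `Deck.coc`), for all `Y`, while `‖l c‖² (Y - 1) ≤ |t| volume (Ψ '' Q)`, `l c ≠ 0`: contradiction for large `Y`.  (If `t < 0` exchange `c` and `c⁻¹`, or use `[t, 0]`.)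
(This file: `length_area`.)
-/

namespace CV

open Metric Set Filter Topology Function MeasureTheory

/-- the real determinant of a complex derivative -/
private theorem PA3_det (c : ℂ) :
    ((ContinuousLinearMap.toSpanSingleton ℂ c).restrictScalars ℝ : ℂ →L[ℝ] ℂ).det = ‖c‖ ^ 2 := by
  have h1 : (((ContinuousLinearMap.toSpanSingleton ℂ c).restrictScalars ℝ : ℂ →L[ℝ] ℂ) :
      ℂ →ₗ[ℝ] ℂ) = LinearMap.mulLeft ℝ c := by
    ext x
    simp [mul_comm]
  rw [ContinuousLinearMap.det, h1]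
  have h2 := Algebra.norm_complex_apply c
  rw [Algebra.norm_apply] at h2
  rw [Complex.sq_norm, ← h2]
  rfl

/-- area formula for injective holomorphic functions -/
private theorem PA3_area {Ω R : Set ℂ} (hΩ : IsOpen Ω) (hR : MeasurableSet R) (hRΩ : R ⊆ Ω)
    {G : ℂ → ℂ} (hG : DifferentiableOn ℂ G Ω) (hi : InjOn G Ω) :
    ∫⁻ x in R, ENNReal.ofReal (‖deriv G x‖ ^ 2) = volume (G '' R) := by
  rw [← lintegral_abs_det_fderiv_eq_addHaar_image volume hR
    (f' := fun x => ((ContinuousLinearMap.toSpanSingleton ℂ (deriv G x)).restrictScalars ℝ))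
    _ (hi.mono hRΩ)]
  · apply lintegral_congr
    intro x
    rw [PA3_det, abs_of_nonneg (sq_nonneg _)]
  · intro x hx
    have h1 : HasDerivAt G (deriv G x) x :=
      (hG.differentiableAt (hΩ.mem_nhds (hRΩ hx))).hasDerivAt
    exact (h1.hasFDerivAt.restrictScalars ℝ).hasFDerivWithinAt

private theorem PA3_cs {t : ℝ} (ht : 0 < t) {h : ℝ → ℝ} (hh : Continuous h) :
    (∫ x in (0:ℝ)..t, h x) ^ 2 ≤ t * ∫ x in (0:ℝ)..t, h x ^ 2 := by
  set I : ℝ := ∫ x in (0:ℝ)..t, h x with hI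
  set m : ℝ := I / t with hm
  have h1 : 0 ≤ ∫ x in (0:ℝ)..t, (h x - m) ^ 2 :=
    intervalIntegral.integral_nonneg ht.le fun x _ => sq_nonneg _
  have h2 : ∫ x in (0:ℝ)..t, (h x - m) ^ 2 =
      (∫ x in (0:ℝ)..t, h x ^ 2) - 2 * m * I + m ^ 2 * t := by
    have e1 : ∀ x, (h x - m) ^ 2 = (h x ^ 2 - 2 * m * h x) + m ^ 2 := fun x => by ring
    simp only [e1]
    rw [intervalIntegral.integral_add, intervalIntegral.integral_sub,
      intervalIntegral.integral_const_mul, intervalIntegral.integral_const]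
    · rw [sub_zero, smul_eq_mul, ← hI]
      ring
    · exact (hh.pow 2).intervalIntegrable _ _
    · exact (hh.const_mul _).intervalIntegrable _ _
    · exact ((hh.pow 2).sub (hh.const_mul _)).intervalIntegrable _ _
    · exact continuous_const.intervalIntegrable _ _
  rw [h2] at h1
  have h3 : m * t = I := by rw [hm]; field_simp
  have h4 : 0 ≤ t * ((∫ x in (0:ℝ)..t, h x ^ 2) - 2 * m * I + m ^ 2 * t) :=
    mul_nonneg ht.le h1
  have h5 : t * ((∫ x in (0:ℝ)..t, h x ^ 2) - 2 * m * I + m ^ 2 * t) =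
      t * (∫ x in (0:ℝ)..t, h x ^ 2) - 2 * (m * t) * I + (m * t) ^ 2 := by ring
  rw [h5, h3] at h4
  linarith

private theorem PA3_line {Ψ : ℂ → ℂ} (hΨ : DifferentiableOn ℂ Ψ {w | 0 < w.im})
    {t : ℝ} (ht : 0 < t) {l : ℂ} (hp : ∀ w : ℂ, 0 < w.im → Ψ (w + t) = Ψ w + l) {y : ℝ}
    (hy : 0 < y) :
    ENNReal.ofReal (‖l‖ ^ 2) ≤ ENNReal.ofReal t *
      ∫⁻ x in Icc (0:ℝ) t, ENNReal.ofReal (‖deriv Ψ ((x:ℂ) + y * Complex.I)‖ ^ 2) := by
  have hopen : IsOpen {w : ℂ | 0 < w.im} := isOpen_lt continuous_const Complex.continuous_im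
  have him : ∀ x : ℝ, (x : ℂ) + y * Complex.I ∈ {w : ℂ | 0 < w.im} := by
    intro x
    show 0 < ((x:ℂ) + y * Complex.I).im
    simpa using hy
  have hγ : Continuous fun x : ℝ => (x : ℂ) + y * Complex.I := by fun_prop
  have hdc : Continuous fun x : ℝ => deriv Ψ ((x:ℂ) + y * Complex.I) :=
    ContinuousOn.comp_continuous (hΨ.deriv hopen).continuousOn hγ him
  have hder : ∀ x : ℝ, HasDerivAt (fun x : ℝ => Ψ ((x:ℂ) + y * Complex.I))
      (deriv Ψ ((x:ℂ) + y * Complex.I)) x := by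
    intro x
    have h1 : HasDerivAt Ψ (deriv Ψ ((x:ℂ) + y * Complex.I)) ((x:ℂ) + y * Complex.I) :=
      (hΨ.differentiableAt (hopen.mem_nhds (him x))).hasDerivAt
    have h2 : HasDerivAt (fun x : ℝ => (x:ℂ) + y * Complex.I) 1 x := by
      simpa using (Complex.ofRealCLM.hasDerivAt (x := x)).add_const ((y:ℂ) * Complex.I)
    have h3 := HasDerivAt.scomp x h1 h2
    rw [one_smul] at h3
    exact h3
  have hint : ∫ x in (0:ℝ)..t, deriv Ψ ((x:ℂ) + y * Complex.I) = l := by
    rw [intervalIntegral.integral_eq_sub_of_hasDerivAt (fun x _ => hder x)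
      (hdc.intervalIntegrable _ _)]
    have h1 := hp ((0:ℝ) + y * Complex.I) (him 0)
    have h2 : ((0:ℝ):ℂ) + y * Complex.I + t = (t:ℂ) + y * Complex.I := by push_cast; ring
    rw [h2] at h1
    rw [h1]
    ring
  have hl : ‖l‖ ≤ ∫ x in (0:ℝ)..t, ‖deriv Ψ ((x:ℂ) + y * Complex.I)‖ := by
    rw [← hint]
    exact intervalIntegral.norm_integral_le_integral_norm ht.le
  have h1 : ‖l‖ ^ 2 ≤ t * ∫ x in (0:ℝ)..t, ‖deriv Ψ ((x:ℂ) + y * Complex.I)‖ ^ 2 := by
    refine le_trans ?_ (PA3_cs ht hdc.norm)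
    exact pow_le_pow_left₀ (norm_nonneg _) hl 2
  refine (ENNReal.ofReal_le_ofReal h1).trans ?_
  rw [ENNReal.ofReal_mul ht.le]
  apply le_of_eq
  congr 1
  rw [intervalIntegral.integral_of_le ht.le, ← integral_Icc_eq_integral_Ioc,
    ofReal_integral_eq_lintegral_ofReal]
  · exact ((hdc.norm.pow 2).continuousOn).integrableOn_Icc
  · exact Filter.Eventually.of_forall fun x => sq_nonneg _

theorem length_area {Ψ : ℂ → ℂ} (hΨ : DifferentiableOn ℂ Ψ {w | 0 < w.im})
    (hi : InjOn Ψ {w | 0 < w.im}) {t : ℝ} (ht : 0 < t) {l : ℂ}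
    (hp : ∀ w : ℂ, 0 < w.im → Ψ (w + t) = Ψ w + l) {Y : ℝ} (hY : 1 < Y) :
    ENNReal.ofReal (‖l‖ ^ 2 * (Y - 1)) ≤
      ENNReal.ofReal t * volume (Ψ '' {w | 0 ≤ w.re ∧ w.re ≤ t ∧ 1 ≤ w.im ∧ w.im ≤ Y}) := by
  have hopen : IsOpen {w : ℂ | 0 < w.im} := isOpen_lt continuous_const Complex.continuous_im
  set R : Set ℂ := {w | 0 ≤ w.re ∧ w.re ≤ t ∧ 1 ≤ w.im ∧ w.im ≤ Y} with hRdef
  have hRm : MeasurableSet R := by
    apply MeasurableSet.inter (measurableSet_le measurable_const Complex.measurable_re)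
    apply MeasurableSet.inter (measurableSet_le Complex.measurable_re measurable_const)
    apply MeasurableSet.inter (measurableSet_le measurable_const Complex.measurable_im)
    exact measurableSet_le Complex.measurable_im measurable_const
  have hRs : R ⊆ {w : ℂ | 0 < w.im} := by
    intro w hw
    have h1 : 1 ≤ w.im := hw.2.2.1
    show 0 < w.im
    linarith
  rw [← PA3_area hopen hRm hRs hΨ hi]
  set f : ℂ → ENNReal := fun w => ENNReal.ofReal (‖deriv Ψ w‖ ^ 2) with hf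
  have hfm : Measurable f := ((measurable_deriv Ψ).norm.pow_const 2).ennreal_ofReal
  have h1 : ∫⁻ w in R, f w =
      ∫⁻ y in Icc (1:ℝ) Y, ∫⁻ x in Icc (0:ℝ) t, f ((x:ℂ) + y * Complex.I) := by
    have hRp : R = Complex.measurableEquivRealProd ⁻¹' (Icc (0:ℝ) t ×ˢ Icc (1:ℝ) Y) := by
      ext w
      rw [mem_preimage, Complex.measurableEquivRealProd_apply, mem_prod]
      show (0 ≤ w.re ∧ w.re ≤ t ∧ 1 ≤ w.im ∧ w.im ≤ Y) ↔
        (0 ≤ w.re ∧ w.re ≤ t) ∧ (1 ≤ w.im ∧ w.im ≤ Y)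
      tauto
    have h2 : ∀ w : ℂ, f w = (fun p : ℝ × ℝ => f ((p.1:ℂ) + p.2 * Complex.I))
        (Complex.measurableEquivRealProd w) := by
      intro w
      simp only [Complex.measurableEquivRealProd_apply, Complex.re_add_im]
    have hgm : Measurable fun p : ℝ × ℝ => f ((p.1:ℂ) + p.2 * Complex.I) := by
      apply hfm.comp
      fun_prop
    have h3 := Complex.volume_preserving_equiv_real_prod.setLIntegral_comp_preimage_emb
      Complex.measurableEquivRealProd.measurableEmbedding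
      (fun p : ℝ × ℝ => f ((p.1:ℂ) + p.2 * Complex.I)) (Icc (0:ℝ) t ×ˢ Icc (1:ℝ) Y)
    rw [lintegral_congr h2, hRp]
    refine h3.trans ?_
    rw [Measure.volume_eq_prod,
      ← Measure.prod_restrict, lintegral_prod_symm _ hgm.aemeasurable]
  rw [h1]
  calc ENNReal.ofReal (‖l‖ ^ 2 * (Y - 1)) = ∫⁻ _ in Icc (1:ℝ) Y, ENNReal.ofReal (‖l‖ ^ 2) := by
        rw [setLIntegral_const, Real.volume_Icc, ← ENNReal.ofReal_mul (sq_nonneg _)]
    _ ≤ ∫⁻ y in Icc (1:ℝ) Y, ENNReal.ofReal t *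
        ∫⁻ x in Icc (0:ℝ) t, f ((x:ℂ) + y * Complex.I) := by
        refine setLIntegral_mono' measurableSet_Icc fun y hy => ?_
        exact PA3_line hΨ ht hp (lt_of_lt_of_le one_pos hy.1)
    _ = _ := by
        rw [lintegral_const_mul' _ _ ENNReal.ofReal_ne_top]

end CV
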