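import Pool.Agent.H12.CV.RM
import Pool.Agent.H12.CV.MM
import Pool.Agent.H12.CV.PA1
import Pool.Agent.H12.CV.PA2
import Pool.Agent.H12.CV.PA3

/-!
PA (no parabolic elements, flat case).  `bet P w = P (w - i)/(w + i)` maps the upper half plane onto the disc, `∞ ↦ P`, inverse `w = -2 i P/(z - P) - i`.
`para_half`: `C = conj b`: `mob u b z - P = (z - P)(1 - conj b P)/(1 - conj b z)`, so `1/(mob u b z - P) = 1/(z - P) - conj b/(1 - conj b P)` and in the coordinate `w` the map is `w ↦ w + t`,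
`t = 2 i P conj b/(1 - conj b P)`; `t` is real because the upper half plane is mapped to itself both by the map and its inverse (`Im (w + t) > 0` for all `Im w > 0`, and the same for `-t`), `t ≠ 0`.
`commute_half`: `mob u' b'` commutes on the disc with `mob u b`.  By continuity it commutes on the closed disc, so it maps the only fixed point `P` of `mob u b` on the closed disc to itself.  By `mob_sub`
`mob u' b' z - P = u' (1-|b'|²)(z - P)/((1 - conj b' z)(1 - conj b' P))`, so `1/(mob u' b' z - P)` is an affine function of `1/(z - P)`, and the map is `w ↦ a w + s` in the coordinate `w`; commuting with `w + t`, `t ≠ 0`, gives `a = 1`; `s` is real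
as above.
`area_mult`: `Γ` is countable (for each `n` the set `{g | ‖l g‖ ≤ n}` is finite).  `volume B ≤ ∑ g, volume (B ∩ (C + l g)) = ∑ g, volume ((B - l g) ∩ C) = ∫⁻ x in C, ∑ g, indicator B (x + l g) ≤ m * volume C` (translation invariance, `lintegral_tsum`).
`length_area`: for `1 ≤ y`: `l = Ψ (t + i y) - Ψ (i y) = ∫ x in 0..t, deriv Ψ (x + i y)`, so `‖l‖² ≤ |t| ∫ ‖deriv Ψ‖²` (Cauchy-Schwarz); integrate over `1 ≤ y ≤ Y`; the double integral of `‖deriv Ψ‖²` over the rectangle is the area of the image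
(`MeasureTheory.lintegral_abs_det_fderiv_eq_addHaar_image`, the real determinant of a complex derivative is `‖deriv Ψ‖²`).  (See H36/DS/LA for the same technique.)
`no_para'`: `X = univ`, `A g x = x + l g`.  `N` is commutative (`A (g h) = A (h g)`, `free`).  `T = mob u b` is `w ↦ w + t`; each `d ∈ N` acts on the disc by `v ∘ A d ∘ ψ`, an automorphism `mob u' b'` (`auto_mob`) commuting with `T`, so it is `w ↦ w + s d`
(`commute_half`).  `{d | |s d| ≤ R}` is finite: `A d (ψ (bet P i)) = ψ (bet P (i + s d))` is in a compact set (`D.proper`).  `Ψ = ψ ∘ bet P` is injective holomorphic on the upper half plane with values in `fil X U`,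
`Ψ (w + t) = Ψ w + l c`.  For `Q = [0,|t|] × [1, Y]` each point `x` has at most `m = #{d | |s d| ≤ |t|}` translates in `Ψ '' Q`: if `x + l g, x + l g'` are in `Ψ '' Q ⊆ fil X U` then `g' g⁻¹ ∈ N` (`fil_same`) and
`|s (g' g⁻¹)| ≤ |t|`; so `volume (Ψ '' Q) ≤ m volume C` (`area_mult`, `C` from `Deck.coc`), for all `Y`, while `‖l c‖² (Y - 1) ≤ |t| volume (Ψ '' Q)`, `l c ≠ 0`: contradiction for large `Y`.  (If `t < 0` exchange `c` and `c⁻¹`, or use `[t, 0]`.)
(This file: `no_para'`.)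
-/

namespace CV

open Metric Set Filter Topology Function DS TN MeasureTheory

variable {S : Type} [MetricSpace S] [CompactSpace S] {X : Set ℂ} {Γ : Type} [Group Γ]
  {A : Γ → ℂ → ℂ} {p : ℂ → S} {g : S → S} {G : ℂ → ℂ}
  {U : Set ℂ} {N : Subgroup Γ} {ψ v : ℂ → ℂ}

omit [CompactSpace S] in
/-- flat case: `A g x = x + l g` with a homomorphism `l` -/
theorem PA_flat (D : Deck X A p) (hX : X = univ) : ∃ l : Γ → ℂ, (∀ g x, A g x = x + l g) ∧
    (∀ g h, l (g * h) = l g + l h) ∧ l 1 = 0 ∧ (∀ g, l g⁻¹ = - l g) ∧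
    (∀ g, g ≠ 1 → l g ≠ 0) ∧ ∀ r : ℝ, {g | ‖l g‖ ≤ r}.Finite := by
  have h1 : ∀ g, ∃ l : ℂ, ∀ x, A g x = x + l := by
    rcases D.hX with ⟨-, h⟩ | ⟨h, -⟩
    · exact h
    · exfalso
      rw [hX] at h
      have h2 : (1 : ℂ) ∈ ball (0 : ℂ) 1 := h ▸ mem_univ _
      simp at h2
  choose l hl using h1
  have hmem : ∀ x, x ∈ X := fun x => hX ▸ mem_univ x
  have hone : l 1 = 0 := by
    have := D.one 0 (hmem 0)
    rw [hl, zero_add] at this
    exact this
  have hmul : ∀ g h, l (g * h) = l g + l h := by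
    intro g h
    have h2 := D.mul g h 0 (hmem 0)
    rw [hl, hl, hl] at h2
    linear_combination h2
  refine ⟨l, hl, hmul, hone, ?_, ?_, ?_⟩
  · intro g
    have h2 := hmul g⁻¹ g
    rw [inv_mul_cancel, hone] at h2
    linear_combination -h2
  · intro g hg h0
    apply D.free g hg 0 (hmem 0)
    rw [hl, h0, add_zero]
  · intro r
    rcases lt_or_ge r 0 with hr | hr
    · have : {g | ‖l g‖ ≤ r} = ∅ := by
        ext g
        simp only [mem_ofPred_eq, mem_empty_iff_false, iff_false, not_le]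
        exact lt_of_lt_of_le hr (norm_nonneg _)
      rw [this]
      exact finite_empty
    · refine (D.proper (closedBall 0 r) (fun x _ => hmem x) (isCompact_closedBall _ _)).subset ?_
      intro g hg
      refine ⟨0, mem_closedBall_self hr, ?_⟩
      rw [hl, zero_add, mem_closedBall_zero_iff]
      exact hg

omit [CompactSpace S] in
theorem PA_fil (D : Deck X A p) (M : Dom X A p g G U N) (d : N) {x : ℂ} (hx : x ∈ fil X U) :
    A d x ∈ fil X U := by
  rw [← fil_inv D M d.2]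
  exact mem_image_of_mem _ hx

omit [CompactSpace S] in
/-- the automorphisms of the disc -/
theorem PA_auto (D : Deck X A p) (M : Dom X A p g G U N) (R : Riem (fil X U) ψ v) (d : N) :
    ∃ u b : ℂ, ‖u‖ = 1 ∧ ‖b‖ < 1 ∧ ∀ z ∈ ball (0:ℂ) 1, v (A d (ψ z)) = mob u b z := by
  have hsub : fil X U ⊆ X := fun x hx => hx.1
  have hd : ∀ d : N, DifferentiableOn ℂ (fun z => v (A d (ψ z))) (ball 0 1) := by
    intro d
    refine R.dv.comp ((D.hol d).comp R.dψ (fun z hz => hsub (R.mψ hz))) ?_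
    intro z hz
    exact PA_fil D M d (R.mψ hz)
  have hm : ∀ d : N, MapsTo (fun z => v (A d (ψ z))) (ball 0 1) (ball 0 1) := fun d z hz =>
    R.mv (PA_fil D M d (R.mψ hz))
  refine auto_mob (hd d) (hd d⁻¹) (hm d) (hm d⁻¹) ?_ ?_
  · intro z hz
    show v (A ((d⁻¹ : N) : Γ) (ψ (v (A d (ψ z))))) = z
    rw [R.ψv _ (PA_fil D M d (R.mψ hz)), Subgroup.coe_inv, D.inv_left _ (hsub (R.mψ hz)),
      R.vψ z hz]
  · intro z hz
    show v (A d (ψ (v (A ((d⁻¹ : N) : Γ) (ψ z))))) = z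
    rw [R.ψv _ (PA_fil D M d⁻¹ (R.mψ hz)), Subgroup.coe_inv, D.inv_right _ (hsub (R.mψ hz)),
      R.vψ z hz]

theorem no_para' (D : Deck X A p) (hX : X = univ) (M : Dom X A p g G U N)
    (R : Riem (fil X U) ψ v) {c : N} (hc : c ≠ 1) {u b : ℂ} (hu : ‖u‖ = 1) (hb : ‖b‖ < 1)
    (h : ∀ z ∈ ball (0:ℂ) 1, v (A c (ψ z)) = mob u b z) {P : ℂ} (hP : ‖P‖ = 1) (hb0 : b ≠ 0)
    (h2 : ∀ z : ℂ, ‖z‖ ≤ 1 →
      mob u b z - z = (starRingEnd ℂ) b * (z - P) ^ 2 / (1 - (starRingEnd ℂ) b * z)) :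
    False := by
  obtain ⟨l, hl, lmul, l1, linv, lne, lfin⟩ := PA_flat D hX
  have hmem : ∀ x, x ∈ X := fun x => hX ▸ mem_univ x
  obtain ⟨hbd, hbi, hbim, hbI⟩ := bet_props hP
  set HP : Set ℂ := {w : ℂ | 0 < w.im} with hHP
  have hbm : ∀ w ∈ HP, bet P w ∈ ball (0 : ℂ) 1 := by
    intro w hw
    rw [← hbim]
    exact mem_image_of_mem _ hw
  -- the functional equations
  obtain ⟨t, ht0, ht⟩ := para_half hu hb hP hb0 h2
  have hcomm : ∀ g h : Γ, g * h = h * g := by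
    intro g h
    refine D.ext (hmem 0) ?_
    rw [hl, hl, lmul, lmul]
    ring
  choose uu bb huu hbb hT using fun d : N => PA_auto D M R d
  have hcom : ∀ d : N, ∀ z ∈ ball (0:ℂ) 1,
      mob u b (mob (uu d) (bb d) z) = mob (uu d) (bb d) (mob u b z) := by
    intro d z hz
    have hz1 : v (A d (ψ z)) ∈ ball (0:ℂ) 1 := R.mv (PA_fil D M d (R.mψ hz))
    have hz2 : v (A c (ψ z)) ∈ ball (0:ℂ) 1 := R.mv (PA_fil D M c (R.mψ hz))
    rw [← hT d z hz, ← h z hz, ← h _ hz1, ← hT d _ hz2, R.ψv _ (PA_fil D M d (R.mψ hz)),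
      R.ψv _ (PA_fil D M c (R.mψ hz)), ← D.mul _ _ _ (hmem _), ← D.mul _ _ _ (hmem _),
      hcomm (c : Γ) d]
  choose s hs using fun d : N => commute_half hu hb hP hb0 h2 (huu d) (hbb d) (hcom d)
  set Ψ : ℂ → ℂ := fun w => ψ (bet P w) with hΨ
  have hfil : ∀ w ∈ HP, Ψ w ∈ fil X U := fun w hw => R.mψ (hbm w hw)
  have hΨs : ∀ d : N, ∀ w ∈ HP, Ψ (w + s d) = Ψ w + l d := by
    intro d w hw
    have e1 : Ψ (w + s d) = ψ (v (A d (ψ (bet P w)))) := by
      show ψ (bet P (w + s d)) = _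
      rw [← hs d w hw, ← hT d _ (hbm w hw)]
    rw [e1, R.ψv _ (PA_fil D M d (R.mψ (hbm w hw))), hl]
  have hΨt : ∀ w ∈ HP, Ψ (w + t) = Ψ w + l c := by
    intro w hw
    have e1 : Ψ (w + t) = ψ (v (A c (ψ (bet P w)))) := by
      show ψ (bet P (w + t)) = _
      rw [← ht w hw, ← h _ (hbm w hw)]
    rw [e1, R.ψv _ (PA_fil D M c (R.mψ (hbm w hw))), hl]
  have hcΓ : (c : Γ) ≠ 1 := fun h0 => hc (Subtype.ext h0)
  have hlc : l c ≠ 0 := lne _ hcΓ
  -- positive translation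
  obtain ⟨τ, l', hτ, hl', hΨτ⟩ : ∃ (τ : ℝ) (l' : ℂ), 0 < τ ∧ l' ≠ 0 ∧
      ∀ w ∈ HP, Ψ (w + τ) = Ψ w + l' := by
    rcases lt_or_gt_of_ne ht0 with h0 | h0
    · refine ⟨-t, - l c, by linarith, neg_ne_zero.2 hlc, fun w hw => ?_⟩
      have hw' : w + ((-t : ℝ) : ℂ) ∈ HP := by
        simp only [hHP, mem_ofPred_eq, Complex.add_im, Complex.ofReal_im, add_zero]
        exact hw
      have h3 := hΨt _ hw'
      have h4 : w + ((-t : ℝ) : ℂ) + (t : ℂ) = w := by push_cast; ring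
      rw [h4] at h3
      rw [h3]
      ring
    · exact ⟨t, l c, h0, hlc, hΨt⟩
  have hΨd : DifferentiableOn ℂ Ψ HP := R.dψ.comp hbd fun w hw => hbm w hw
  have hΨi : InjOn Ψ HP := by
    intro w hw w' hw' he
    apply hbi hw hw'
    have he' : ψ (bet P w) = ψ (bet P w') := he
    rw [← R.vψ _ (hbm w hw), he', R.vψ _ (hbm w' hw')]
  -- finitely many small translations
  have hI : ∀ x : ℝ, Complex.I + (x : ℂ) ∈ HP := by
    intro x
    simp [hHP]
  have hF : {d : N | |s d| ≤ τ}.Finite := by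
    set K : Set ℂ := Ψ '' ((fun x : ℝ => Complex.I + (x : ℂ)) '' Icc (-τ) τ) with hK
    have hKc : IsCompact K := by
      refine (isCompact_Icc.image (continuous_const.add Complex.continuous_ofReal)).image_of_continuousOn ?_
      refine hΨd.continuousOn.mono ?_
      rintro _ ⟨x, -, rfl⟩
      exact hI x
    have h3 := D.proper K (fun x _ => hmem x) hKc
    have h4 : {d : N | |s d| ≤ τ} ⊆ Subtype.val ⁻¹' {g : Γ | ∃ x ∈ K, A g x ∈ K} := by
      intro d hd
      have hd' : -τ ≤ s d ∧ s d ≤ τ := abs_le.1 (by simpa using hd)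
      refine ⟨Ψ (Complex.I + ((0 : ℝ) : ℂ)),
        ⟨_, ⟨0, ⟨by linarith, hτ.le⟩, rfl⟩, rfl⟩, ?_⟩
      rw [hl, ← hΨs d _ (hI 0)]
      refine ⟨_, ⟨s d, ⟨hd'.1, hd'.2⟩, rfl⟩, ?_⟩
      congr 1
      simp
    exact (h3.preimage Subtype.val_injective.injOn).subset h4
  obtain ⟨m, hm⟩ : ∃ m : ℕ, {d : N | |s d| ≤ τ}.encard = m := by
    obtain ⟨m, hm⟩ := ENat.ne_top_iff_exists.1 hF.encard_lt_top.ne
    exact ⟨m, hm.symm⟩
  obtain ⟨C, -, hCc, hCcov⟩ := D.coc
  -- the area of the images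
  have harea : ∀ Y : ℝ, 1 < Y →
      volume (Ψ '' {w | 0 ≤ w.re ∧ w.re ≤ τ ∧ 1 ≤ w.im ∧ w.im ≤ Y}) ≤ m * volume C := by
    intro Y hY
    set Q : Set ℂ := {w | 0 ≤ w.re ∧ w.re ≤ τ ∧ 1 ≤ w.im ∧ w.im ≤ Y} with hQ
    have hQH : Q ⊆ HP := fun w hw => lt_of_lt_of_le one_pos hw.2.2.1
    have hQc : IsCompact Q := by
      have h3 : Q = (fun x : ℝ × ℝ => (⟨x.1, x.2⟩ : ℂ)) '' (Icc 0 τ ×ˢ Icc 1 Y) := by
        ext w
        constructor
        · rintro ⟨a, b, c, d⟩
          exact ⟨(w.re, w.im), ⟨⟨a, b⟩, ⟨c, d⟩⟩, rfl⟩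
        · rintro ⟨x, ⟨⟨a, b⟩, ⟨c, d⟩⟩, rfl⟩
          exact ⟨a, b, c, d⟩
      rw [h3]
      refine (isCompact_Icc.prod isCompact_Icc).image ?_
      exact Complex.equivRealProdCLM.symm.continuous
    have hBm : MeasurableSet (Ψ '' Q) :=
      (hQc.image_of_continuousOn (hΨd.continuousOn.mono hQH)).isClosed.measurableSet
    refine area_mult lfin hCc (fun x => ?_) (fun g => ⟨g⁻¹, linv g⟩) hBm (fun x => ?_)
    · obtain ⟨g, hg⟩ := hCcov x (hmem x)
      exact ⟨g, by rw [← hl]; exact hg⟩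
    · rcases eq_empty_or_nonempty {g | x + l g ∈ Ψ '' Q} with he | ⟨g₀, w₀, hw₀, hxw₀⟩
      · rw [he, encard_empty]
        exact zero_le
      · have hmaps : MapsTo (fun g : Γ => g * g₀⁻¹) {g | x + l g ∈ Ψ '' Q}
            (Subtype.val '' {d : N | |s d| ≤ τ}) := by
          rintro g ⟨w, hw, hxw⟩
          have h3 : A (g * g₀⁻¹) (Ψ w₀) = Ψ w := by
            rw [hl, lmul, linv, hxw, hxw₀]
            ring
          have hN : g * g₀⁻¹ ∈ N := by
            refine fil_same D M (hfil w₀ (hQH hw₀)) ?_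
            rw [h3]
            exact hfil w (hQH hw)
          refine ⟨⟨g * g₀⁻¹, hN⟩, ?_, rfl⟩
          have h4 := hΨs ⟨g * g₀⁻¹, hN⟩ w₀ (hQH hw₀)
          rw [← hl, h3] at h4
          have h5 : w₀ + (s ⟨g * g₀⁻¹, hN⟩ : ℂ) ∈ HP := by
            simp only [hHP, mem_ofPred_eq, Complex.add_im, Complex.ofReal_im, add_zero]
            exact hQH hw₀
          have h6 := congrArg Complex.re (hΨi h5 (hQH hw) h4)
          simp only [Complex.add_re, Complex.ofReal_re] at h6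
          show |s ⟨g * g₀⁻¹, hN⟩| ≤ τ
          rw [abs_le]
          constructor <;> linarith [hw.1, hw.2.1, hw₀.1, hw₀.2.1]
        have h3 := encard_le_encard_of_injOn hmaps
          (fun g _ g' _ he => mul_right_cancel he)
        rw [Subtype.val_injective.encard_image, hm] at h3
        exact h3
  -- the contradiction
  have hfin : ENNReal.ofReal τ * (m * volume C) ≠ ⊤ :=
    ENNReal.mul_ne_top ENNReal.ofReal_ne_top
      (ENNReal.mul_ne_top (ENNReal.natCast_ne_top m) hCc.measure_lt_top.ne)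
  set L := (ENNReal.ofReal τ * (m * volume C)).toReal with hL
  have hLpos : 0 ≤ L := ENNReal.toReal_nonneg
  have hl'2 : 0 < ‖l'‖ ^ 2 := pow_pos (norm_pos_iff.2 hl') 2
  set Y : ℝ := 2 + L / ‖l'‖ ^ 2 with hYdef
  have hY1 : 1 < Y := by
    have : 0 ≤ L / ‖l'‖ ^ 2 := div_nonneg hLpos hl'2.le
    linarith
  have h3 := length_area hΨd hΨi hτ hΨτ hY1
  have h4 := h3.trans (mul_le_mul_right (harea Y hY1) (ENNReal.ofReal τ))
  rw [← ENNReal.ofReal_toReal hfin, ← hL,
    ENNReal.ofReal_le_ofReal_iff hLpos] at h4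
  have h5 : ‖l'‖ ^ 2 * (Y - 1) = ‖l'‖ ^ 2 + L := by
    rw [hYdef]
    field_simp
    ring
  rw [h5] at h4
  linarith

end CV
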