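import Pool.Agent.H12.CV.RM
import Pool.Agent.H12.CV.PA
import Pool.Agent.H12.TN.FA
import Pool.Agent.H12.TN.FC

/-!
FU (the group on the disc of the Riemann map).
`disc_gap`: `X = ball 0 1`: there is `c₀ > 0` with `c₀ ≤ pd x (A c x)` for all `x` in the disc, `c ≠ 1`.  `Deck.coc`: `C` compact, every `x` is moved into `C` by some `A d`; `pd` is invariant under `A d` (`mob_pd`), and
`A d (A c x) = A (d c d⁻¹) (A d x)`, so we may assume `x ∈ C`.  If `pd x (A c x) < 1/2` then `A c x` is in a compact subset `C'` of the disc depending only on `C` (`norm_le_of_pd`), so by `proper` `c` is in a finite set; for each such `c ≠ 1` the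
continuous function `pd x (A c x)` is positive on `C` (`free`), take the minimum.
`exists_fuchs`: for `c ∈ N` the map `T z = v (A c (ψ z))` with inverse `v (A c⁻¹ (ψ z))` (`fil_inv`) is a holomorphic automorphism of the disc; `auto_mob` gives `u c`, `b c` (choice).
`one`, `mul` on the open disc by computation, on the closed disc by continuity (`mob_cont`, density of the open disc).
`fin`: `‖b c‖ ≤ r < 1`: `act c 0 = - u b` has norm `≤ r`, so `A c (ψ 0) = ψ (act c 0)` is in the compact set `ψ '' closedBall 0 r ⊆ X`, which contains `ψ 0` if `0 ≤ r`: `proper` (restricted to `N`; `Subtype.val` injective).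
`free`: from `D.free`.  `hyp`: `classify`; the second alternative is impossible: if `X = ball 0 1` by `disc_gap` and `schwarz_pick` for `ψ` (`ψ : ball → fil X U ⊆ ball`): `c₀ ≤ pd (ψ z) (A c (ψ z)) ≤ pd z (T z)`;
if `X = univ`: `no_para` of the file PA.
-/

namespace CV

open Metric Set Filter Topology Function DS TN

section
variable {S : Type} [MetricSpace S] [CompactSpace S] {X : Set ℂ} {Γ : Type} [Group Γ]
  {A : Γ → ℂ → ℂ} {p : ℂ → S} {g gi : S → S} {G Gi : ℂ → ℂ} {θ : Γ ≃* Γ} {ρ : ℂ → ℝ}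
  {U : Set ℂ} {N : Subgroup Γ} {ψ v : ℂ → ℂ}

omit [CompactSpace S] in
/-- the deck group of the disc acts by Moebius maps -/
theorem FU_mob (D : Deck X A p) (hX : X = ball 0 1) (c : Γ) :
    ∃ u b : ℂ, ‖u‖ = 1 ∧ ‖b‖ < 1 ∧ ∀ x, A c x = mob u b x := by
  rcases D.hX with ⟨h, -⟩ | ⟨-, h⟩
  · exfalso
    rw [hX] at h
    have h1 : (2 : ℂ) ∈ ball (0 : ℂ) 1 := by rw [h]; trivial
    rw [mem_ball_zero_iff] at h1
    norm_num at h1
  · exact h c

theorem FU_pd (D : Deck X A p) (hX : X = ball 0 1) (c : Γ) {x y : ℂ} (hx : ‖x‖ < 1)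
    (hy : ‖y‖ < 1) : pd (A c x) (A c y) = pd x y := by
  obtain ⟨u, b, hu, hb, h⟩ := FU_mob D hX c
  rw [h, h]
  exact mob_pd hu hb hx.le hy

theorem disc_gap (D : Deck X A p) (hX : X = ball 0 1) :
    ∃ c₀ > 0, ∀ c, c ≠ 1 → ∀ x ∈ ball (0:ℂ) 1, c₀ ≤ pd x (A c x) := by
  have hmem : ∀ x, x ∈ X ↔ ‖x‖ < 1 := fun x => by rw [hX, mem_ball_zero_iff]
  obtain ⟨C, hCX, hC, hcov⟩ := D.coc
  have hCne : C.Nonempty := by
    obtain ⟨d, hd⟩ := hcov 0 ((hmem 0).2 (by simp))
    exact ⟨_, hd⟩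
  obtain ⟨x₀, hx₀, hmax⟩ := hC.exists_isMaxOn hCne continuous_norm.continuousOn
  have hρ : ‖x₀‖ < 1 := (hmem _).1 (hCX hx₀)
  obtain ⟨s, hs, H⟩ := norm_le_of_pd (ρ := ‖x₀‖) (r := 1 / 2) hρ (by norm_num)
  have hC'X : closedBall (0:ℂ) (max ‖x₀‖ s) ⊆ X := by
    intro x hx
    rw [hmem]
    exact lt_of_le_of_lt (mem_closedBall_zero_iff.1 hx) (max_lt hρ hs)
  have hfin := D.proper _ hC'X (isCompact_closedBall _ _)
  -- the minimum for one element
  have hm : ∀ c : Γ, ∃ m : ℝ, 0 < m ∧ (c ≠ 1 → ∀ x ∈ C, m ≤ pd x (A c x)) := by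
    intro c
    by_cases hc : c = 1
    · exact ⟨1, one_pos, fun h => absurd hc h⟩
    · have hcont : ContinuousOn (fun x => pd x (A c x)) C := by
        unfold pd
        have h1 := (D.cont c).mono hCX
        refine ContinuousOn.div ?_ ?_ ?_
        · exact (continuousOn_id.sub h1).norm
        · exact (continuousOn_const.sub
            ((Complex.continuous_conj.comp_continuousOn continuousOn_id).mul h1)).norm
        · intro x hx
          have h2 := (hmem x).1 (hCX hx)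
          have h3 := (hmem _).1 (D.maps c (hCX hx))
          exact norm_ne_zero_iff.2 (den_ne h2 h3.le)
      obtain ⟨y, hy, hmin⟩ := hC.exists_isMinOn hCne hcont
      refine ⟨pd y (A c y), ?_, fun _ x hx => hmin hx⟩
      have h2 := (hmem y).1 (hCX hy)
      have h3 := (hmem _).1 (D.maps c (hCX hy))
      unfold pd
      apply div_pos
      · rw [norm_pos_iff, sub_ne_zero]
        exact (D.free c hc y (hCX hy)).symm
      · exact norm_pos_iff.2 (den_ne h2 h3.le)
  choose m hm0 hm using hm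
  have hev : ∀ᶠ r in 𝓝[>] (0:ℝ), ∀ c ∈ {g | ∃ x ∈ closedBall (0:ℂ) (max ‖x₀‖ s),
      A g x ∈ closedBall (0:ℂ) (max ‖x₀‖ s)}, r ≤ m c :=
    (eventually_all_finite hfin).2 fun c _ => nhdsWithin_le_nhds (Iic_mem_nhds (hm0 c))
  have hev2 : ∀ᶠ r in 𝓝[>] (0:ℝ), r ≤ 1 / 2 :=
    nhdsWithin_le_nhds (Iic_mem_nhds (by norm_num))
  have hev3 : ∀ᶠ r in 𝓝[>] (0:ℝ), 0 < r := self_mem_nhdsWithin
  obtain ⟨c₀, ⟨h1, h2⟩, h3⟩ := ((hev.and hev2).and hev3).exists
  refine ⟨c₀, h3, fun c hc x hx => ?_⟩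
  have hxX : x ∈ X := by rw [hX]; exact hx
  obtain ⟨d, hd⟩ := hcov x hxX
  have e1 : A (d * c * d⁻¹) (A d x) = A d (A c x) := by
    rw [D.mul _ _ _ (D.maps d hxX), D.inv_left d hxX, D.mul _ _ _ hxX]
  have e2 : pd (A d x) (A (d * c * d⁻¹) (A d x)) = pd x (A c x) := by
    rw [e1]
    exact FU_pd D hX d ((hmem _).1 hxX) ((hmem _).1 (D.maps c hxX))
  rw [← e2]
  have hne : d * c * d⁻¹ ≠ 1 := by
    intro h
    apply hc
    have := congrArg (fun t => d⁻¹ * t * d) h
    simpa [mul_assoc] using this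
  by_cases h4 : pd (A d x) (A (d * c * d⁻¹) (A d x)) ≤ 1 / 2
  · have h5 : ‖A (d * c * d⁻¹) (A d x)‖ ≤ s :=
      H _ _ (hmax hd) ((hmem _).1 (D.maps _ (D.maps _ hxX))) h4
    refine (h1 _ ⟨A d x, ?_, ?_⟩).trans (hm _ hne _ hd)
    · rw [mem_closedBall_zero_iff]
      exact (hmax hd : ‖A d x‖ ≤ ‖x₀‖).trans (le_max_left _ _)
    · rw [mem_closedBall_zero_iff]
      exact h5.trans (le_max_right _ _)
  · push Not at h4
    linarith

/-- no parabolic elements, flat case: see the file PA -/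
theorem no_para (D : Deck X A p) (hX : X = univ) (M : Dom X A p g G U N) (R : Riem (fil X U) ψ v)
    {c : N} (hc : c ≠ 1) {u b : ℂ} (hu : ‖u‖ = 1) (hb : ‖b‖ < 1)
    (h : ∀ z ∈ ball (0:ℂ) 1, v (A c (ψ z)) = mob u b z) {P : ℂ} (hP : ‖P‖ = 1) (hb0 : b ≠ 0)
    (h2 : ∀ z : ℂ, ‖z‖ ≤ 1 →
      mob u b z - z = (starRingEnd ℂ) b * (z - P) ^ 2 / (1 - (starRingEnd ℂ) b * z)) :
    False :=
  no_para' D hX M R hc hu hb h hP hb0 h2

theorem FU_ext {f h : ℂ → ℂ} (hf : ContinuousOn f (closedBall 0 1))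
    (hh : ContinuousOn h (closedBall 0 1)) (e : ∀ x ∈ ball (0:ℂ) 1, f x = h x) :
    ∀ x ∈ closedBall (0:ℂ) 1, f x = h x := by
  have : EqOn f h (closedBall 0 1) := by
    refine EqOn.of_subset_closure (s := ball 0 1) e hf hh ball_subset_closedBall ?_
    rw [closure_ball (0:ℂ) one_ne_zero]
  exact this

theorem exists_fuchs (D : Deck X A p) (M : Dom X A p g G U N) (R : Riem (fil X U) ψ v) :
    ∃ F : Fuchs N, Act A ψ v F := by
  have hsub : fil X U ⊆ X := fil_sub
  have hψX : ∀ z ∈ ball (0:ℂ) 1, ψ z ∈ X := fun z hz => hsub (R.mψ hz)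
  have hinv : ∀ c : N, ∀ x ∈ fil X U, A c x ∈ fil X U := by
    intro c x hx
    rw [← fil_inv D M c.2]
    exact ⟨x, hx, rfl⟩
  have hTm : ∀ c : N, MapsTo (fun z => v (A c (ψ z))) (ball 0 1) (ball 0 1) := fun c z hz =>
    R.mv (hinv c _ (R.mψ hz))
  have hTd : ∀ c : N, DifferentiableOn ℂ (fun z => v (A c (ψ z))) (ball 0 1) := by
    intro c
    have h1 : DifferentiableOn ℂ (A c) (fil X U) := (D.hol c).mono hsub
    have h2 : MapsTo (A c) (fil X U) (fil X U) := hinv c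
    exact R.dv.comp (h1.comp R.dψ R.mψ) (h2.comp R.mψ)
  have hTT : ∀ c d : N, ∀ z ∈ ball (0:ℂ) 1,
      v (A (c * d : N) (ψ z)) = v (A c (ψ (v (A d (ψ z))))) := by
    intro c d z hz
    rw [R.ψv _ (hinv d _ (R.mψ hz)), Subgroup.coe_mul, D.mul _ _ _ (hψX z hz)]
  have hT1 : ∀ z ∈ ball (0:ℂ) 1, v (A (1 : N) (ψ z)) = z := by
    intro z hz
    rw [Subgroup.coe_one, D.one _ (hψX z hz), R.vψ z hz]
  have hex : ∀ c : N, ∃ u b : ℂ, ‖u‖ = 1 ∧ ‖b‖ < 1 ∧
      ∀ z ∈ ball (0:ℂ) 1, v (A c (ψ z)) = mob u b z := by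
    intro c
    refine auto_mob (Ti := fun z => v (A (c⁻¹ : N) (ψ z))) (hTd c) (hTd c⁻¹) (hTm c) (hTm c⁻¹) ?_ ?_
    · intro z hz
      rw [← hTT _ _ z hz, inv_mul_cancel]
      exact hT1 z hz
    · intro z hz
      rw [← hTT _ _ z hz, mul_inv_cancel]
      exact hT1 z hz
  choose u b hu hb hT using hex
  have hfree : ∀ c : N, c ≠ 1 → ∀ x ∈ ball (0:ℂ) 1, mob (u c) (b c) x ≠ x := by
    intro c hc x hx h
    rw [← hT c x hx] at h
    have h1 : A c (ψ x) = ψ x := by
      have h2 := R.ψv _ (hinv c _ (R.mψ hx))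
      rw [h] at h2
      exact h2.symm
    exact D.free c (fun h => hc (Subtype.ext h)) _ (hψX x hx) h1
  refine ⟨⟨u, b, hu, hb, ?_, ?_, ?_, hfree, ?_⟩, fun c z hz => (hT c z hz).symm⟩
  · -- one
    refine FU_ext (mob_cont (hb 1)) continuousOn_id fun x hx => ?_
    rw [← hT 1 x hx]
    exact hT1 x hx
  · -- mul
    intro c d
    refine FU_ext (mob_cont (hb _)) ((mob_cont (hb c)).comp (mob_cont (hb d)) ?_) fun x hx => ?_
    · intro x hx
      rw [mem_closedBall_zero_iff] at hx ⊢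
      exact mob_closedBall (hu d) (hb d) hx
    · show mob (u (c * d)) (b (c * d)) x = mob (u c) (b c) (mob (u d) (b d) x)
      rw [← hT _ x hx, ← hT d x hx, ← hT c _ (hTm d hx)]
      exact hTT c d x hx
  · -- fin
    intro r hr
    have hK : IsCompact (ψ '' closedBall (0:ℂ) (max r 0)) := by
      refine (isCompact_closedBall _ _).image_of_continuousOn (R.dψ.continuousOn.mono ?_)
      exact closedBall_subset_ball (max_lt hr one_pos)
    have hKX : ψ '' closedBall (0:ℂ) (max r 0) ⊆ X := by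
      rintro _ ⟨z, hz, rfl⟩
      exact hψX z (closedBall_subset_ball (max_lt hr one_pos) hz)
    have hfin := D.proper _ hKX hK
    refine (hfin.preimage (Subtype.val_injective.injOn (s := _))).subset ?_
    intro c hc
    have h0 : (0:ℂ) ∈ ball (0:ℂ) 1 := mem_ball_self one_pos
    refine ⟨ψ 0, ⟨0, ?_, rfl⟩, ?_⟩
    · rw [mem_closedBall_zero_iff, norm_zero]
      exact le_max_right _ _
    · refine ⟨v (A c (ψ 0)), ?_, R.ψv _ (hinv c _ (R.mψ h0))⟩
      rw [mem_closedBall_zero_iff, hT c 0 h0]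
      have h1 : ‖mob (u c) (b c) 0‖ = ‖b c‖ := by
        unfold mob
        rw [mul_zero, sub_zero, div_one, zero_sub, norm_mul, hu, one_mul, norm_neg]
      rw [h1]
      exact (hc : ‖b c‖ ≤ r).trans (le_max_left _ _)
  · -- hyp
    intro c hc
    rcases classify (hu c) (hb c) (hfree c hc) with h | ⟨P, hP, hb0, h2, h3⟩
    · exact h
    · exfalso
      rcases D.hX with ⟨hX, -⟩ | ⟨hX, -⟩
      · exact no_para D hX M R hc (hu c) (hb c) (hT c) hP hb0 h2
      · obtain ⟨c₀, hc₀, hgap⟩ := disc_gap D hX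
        obtain ⟨z, hz, hlt⟩ := h3 c₀ hc₀
        have hm : MapsTo ψ (ball 0 1) (ball 0 1) := by
          intro x hx
          have := hψX x hx
          rwa [hX] at this
        have hTz : mob (u c) (b c) z ∈ ball (0:ℂ) 1 := by
          rw [← hT c z hz]; exact hTm c hz
        have h4 := schwarz_pick R.dψ hm hz hTz
        have h5 : ψ (mob (u c) (b c) z) = A c (ψ z) := by
          rw [← hT c z hz]
          exact R.ψv _ (hinv c _ (R.mψ hz))
        rw [h5] at h4
        have h6 := hgap c (fun h => hc (Subtype.ext h)) (ψ z) (hm hz)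
        linarith

/-- translations commute, so a nonelementary group is impossible in the plane -/
theorem flat_elem (D : Deck X A p) (hX : X = univ) {F : Fuchs N} (hN : F.Nonel) : False := by
  have hcomm : ∀ a b : Γ, a * b = b * a := by
    intro a b
    rcases D.hX with ⟨-, h⟩ | ⟨h, -⟩
    · obtain ⟨l, hl⟩ := h a
      obtain ⟨l', hl'⟩ := h b
      have h0 : (0:ℂ) ∈ X := by rw [hX]; trivial
      apply D.ext h0
      rw [D.mul _ _ _ h0, D.mul _ _ _ h0, hl', hl, hl, hl']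
      ring
    · exfalso
      have h1 : (2 : ℂ) ∈ X := by rw [hX]; trivial
      rw [h, mem_ball_zero_iff] at h1
      norm_num at h1
  obtain ⟨a, b, ha, hb, h⟩ := hN
  obtain ⟨P, Q, hPQ⟩ := exists_AR F ha
  have h1 := AR.conj hPQ b
  have h2 : b * a * b⁻¹ = a := by
    apply Subtype.ext
    simp only [Subgroup.coe_mul, InvMemClass.coe_inv]
    rw [hcomm (b : Γ) a, mul_inv_cancel_right]
  rw [h2] at h1
  have h3 := (AR.unique h1 hPQ).1
  exact h P hPQ.np hPQ.fp h3

end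

end CV
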