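import Pool.Agent.H12.CV.B1

/-!
HA (fixed points of the lifts).
`isolated`: for `H = A c ∘ G^n`, `H P = P`, `P ∈ X`: the derivative `B = fderiv ℝ H P` (H is `C¹` on the open set `X`) has determinant `1`: `ρ (H x) det (fderiv H x) = ρ x`: `ρ` is `G`-invariant (`L.area` iterated) and `A c`-invariant
(`L.ρinv`, the real determinant of the derivative of the holomorphic map `A c` is `‖deriv‖²`), and `H P = P`, `ρ P ≠ 0`.  By `C.tri` the trace is not `2`, so `det (B - 1) = 1 - tr + 1 ≠ 0`, `B - 1` is injective, `‖(B - 1) v‖ ≥ c ‖v‖`, and `H x ≠ x` for `x ≠ P` near `P`.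
`fin_cpt`: fixed points of `H` in a compact subset of `X` are a closed discrete set, finite.
`fin_mod`: the fixed points of all `A d ∘ G^n` (`d ∈ Γ`, fixed `n`) in the compact set `C` of `Deck.coc` are finite in number: `A d (G^n x) = x`, `x ∈ C`, then `d` is in a finite set (`proper` for the compact set `C ∪ G^n '' C`).
So there is a finite `T ⊆ C` such that every fixed point `x` of any `A d ∘ G^n` in `X` is `A a t` for some `t ∈ T`, `a ∈ Γ`.
`cen_fix`: `H = A c ∘ G^n`, `H x = x`, and `H (A d x) = A d x` where `x, A d x ∈ fil X U`: then `d ∈ N` (`fil_same`) and `c * θ^n d * c⁻¹ = d`: `H (A d x) = A (c θ^n(d) c⁻¹) (H x)`, `Deck.ext`.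
-/

namespace CV

open Metric Set Filter Topology Function DS TN

variable {S : Type} [MetricSpace S] {X : Set ℂ} {Γ : Type} [Group Γ]
  {A : Γ → ℂ → ℂ} {p : ℂ → S} {g gi : S → S} {G Gi : ℂ → ℂ} {θ : Γ ≃* Γ} {ρ : ℂ → ℝ}
  {Hyp : S → Prop} {U : Set ℂ} {N : Subgroup Γ} {ψ v : ℂ → ℂ}

theorem Hcomm (D : Deck X A p) (L : Lift X A p g gi G Gi θ ρ) (n : ℕ) (c d : Γ) {x : ℂ}
    (hx : x ∈ X) : A c (G^[n] (A d x)) = A (c * θ^[n] d * c⁻¹) (A c (G^[n] x)) := by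
  obtain ⟨i1, -, -, -, -, -, i7, -⟩ := L.iter n
  have hy : G^[n] x ∈ X := i1 hx
  rw [i7 d x hx, ← D.mul _ _ _ hy, ← D.mul _ _ _ hy]
  congr 1
  group

theorem CV_HA_det {f : ℂ → ℂ} {y : ℂ} (_hf : DifferentiableAt ℂ f y) :
    ((fderiv ℂ f y).restrictScalars ℝ).det = ‖deriv f y‖ ^ 2 := by
  have h1 : (((fderiv ℂ f y).restrictScalars ℝ : ℂ →L[ℝ] ℂ) : ℂ →ₗ[ℝ] ℂ) =
      Algebra.lmul ℝ ℂ (deriv f y) := by
    apply LinearMap.ext
    intro z
    show fderiv ℂ f y z = deriv f y * z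
    rw [fderiv_eq_smul_deriv, smul_eq_mul, mul_comm]
  show LinearMap.det (((fderiv ℂ f y).restrictScalars ℝ : ℂ →L[ℝ] ℂ) : ℂ →ₗ[ℝ] ℂ) = _
  rw [h1, ← Algebra.norm_apply, Algebra.norm_complex_apply, Complex.normSq_eq_norm_sq]

theorem CV_HA_area (D : Deck X A p) (L : Lift X A p g gi G Gi θ ρ) (n : ℕ) {x : ℂ} (hx : x ∈ X) :
    ρ (G^[n] x) * (fderiv ℝ (G^[n]) x).det = ρ x := by
  induction n with
  | zero =>
    have h1 : (fderiv ℝ (G^[0]) x).det = 1 := by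
      rw [iterate_zero, fderiv_id]
      exact LinearMap.det_id
    rw [h1, mul_one]
    rfl
  | succ n ih =>
    obtain ⟨i1, -, -, -, i5, -, -, -⟩ := L.iter n
    have hy : G^[n] x ∈ X := i1 hx
    have hG : HasFDerivAt (G^[n]) (fderiv ℝ (G^[n]) x) x :=
      ((i5.contDiffAt (D.opn.mem_nhds hx)).differentiableAt (by norm_num)).hasFDerivAt
    have hG1 : HasFDerivAt G (fderiv ℝ G (G^[n] x)) (G^[n] x) :=
      ((L.c1.contDiffAt (D.opn.mem_nhds hy)).differentiableAt (by norm_num)).hasFDerivAt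
    have h1 := hG1.comp x hG
    rw [← iterate_succ'] at h1
    rw [h1.fderiv]
    have hdet : ((fderiv ℝ G (G^[n] x)).comp (fderiv ℝ (G^[n]) x)).det =
        (fderiv ℝ G (G^[n] x)).det * (fderiv ℝ (G^[n]) x).det := LinearMap.det_comp _ _
    rw [hdet, ← mul_assoc, iterate_succ_apply', L.area _ hy, ih]

theorem CV_HA_inj (B : ℂ →L[ℝ] ℂ) (hdet : B.det = 1) (htr : LinearMap.trace ℝ ℂ (B : ℂ →ₗ[ℝ] ℂ) ≠ 2) :
    ∃ K : NNReal, AntilipschitzWith K (B - ContinuousLinearMap.id ℝ ℂ : ℂ →L[ℝ] ℂ) := by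
  set b := Complex.basisOneI with hb
  set M := LinearMap.toMatrix b b (B : ℂ →ₗ[ℝ] ℂ) with hM
  have h1 : M.det = 1 := by rw [hM, LinearMap.det_toMatrix]; exact hdet
  have h2 : M.trace ≠ 2 := by
    rw [hM, ← LinearMap.trace_eq_matrix_trace ℝ b]
    exact htr
  set T : ℂ →ₗ[ℝ] ℂ := (B : ℂ →ₗ[ℝ] ℂ) - LinearMap.id with hT
  have h3 : LinearMap.det T ≠ 0 := by
    have h4 : LinearMap.toMatrix b b T = M - 1 := by
      rw [hT, map_sub, LinearMap.toMatrix_id]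
    rw [← LinearMap.det_toMatrix b, h4, Matrix.det_fin_two]
    rw [Matrix.det_fin_two] at h1
    rw [Matrix.trace_fin_two] at h2
    simp only [Matrix.sub_apply, Matrix.one_apply_eq, ne_eq]
    rw [Matrix.one_apply_ne (by decide), Matrix.one_apply_ne (by decide)]
    intro h5
    apply h2
    linarith
  have hker : LinearMap.ker T = ⊥ := by
    by_contra hne
    apply h3
    exact LinearMap.det_eq_zero_iff_ker_ne_bot.2 hne
  obtain ⟨K, -, hK⟩ := (LinearMap.injective_iff_antilipschitz T).1 (LinearMap.ker_eq_bot.1 hker)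
  exact ⟨K, hK⟩

theorem deriv_fix (D : Deck X A p) (L : Lift X A p g gi G Gi θ ρ) {n : ℕ}
    {c : Γ} {P : ℂ} (hP : P ∈ X) (hf : A c (G^[n] P) = P) :
    HasFDerivAt (fun x => A c (G^[n] x)) (fderiv ℝ (fun x => A c (G^[n] x)) P) P ∧
      (fderiv ℝ (fun x => A c (G^[n] x)) P).det = 1 := by
  obtain ⟨i1, -, -, -, i5, -, -, -⟩ := L.iter n
  have hy : G^[n] P ∈ X := i1 hP
  have hA := (D.hol c).differentiableAt (D.opn.mem_nhds hy)
  have hAR : HasFDerivAt (A c) ((fderiv ℂ (A c) (G^[n] P)).restrictScalars ℝ) (G^[n] P) :=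
    hA.hasFDerivAt.restrictScalars ℝ
  have hG : HasFDerivAt (G^[n]) (fderiv ℝ (G^[n]) P) P :=
    ((i5.contDiffAt (D.opn.mem_nhds hP)).differentiableAt (by norm_num)).hasFDerivAt
  have hH := hAR.comp P hG
  have hH' : HasFDerivAt (fun x => A c (G^[n] x)) (((fderiv ℂ (A c) (G^[n] P)).restrictScalars ℝ).comp
    (fderiv ℝ (G^[n]) P)) P := hH
  refine ⟨hH'.differentiableAt.hasFDerivAt, ?_⟩
  rw [hH'.fderiv]
  have hdet : (((fderiv ℂ (A c) (G^[n] P)).restrictScalars ℝ).comp (fderiv ℝ (G^[n]) P)).det =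
      ((fderiv ℂ (A c) (G^[n] P)).restrictScalars ℝ).det * (fderiv ℝ (G^[n]) P).det :=
    LinearMap.det_comp _ _
  rw [hdet, CV_HA_det hA]
  have h1 := CV_HA_area D L n hP
  have h2 := L.ρinv c _ hy
  rw [hf] at h2
  have h3 := L.ρpos P hP
  have h4 : ρ P * (‖deriv (A c) (G^[n] P)‖ ^ 2 * (fderiv ℝ (G^[n]) P).det) = ρ P * 1 := by
    rw [← mul_assoc, h2, h1, mul_one]
  exact mul_left_cancel₀ h3.ne' h4

theorem isolated (D : Deck X A p) (L : Lift X A p g gi G Gi θ ρ) (C : Cond X A p g gi G Hyp)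
    {n : ℕ} (hn : 0 < n) {c : Γ} {P : ℂ} (hP : P ∈ X) (hf : A c (G^[n] P) = P) :
    ∀ᶠ x in 𝓝 P, A c (G^[n] x) = x → x = P := by
  obtain ⟨h1, h2⟩ := deriv_fix D L hP hf
  have htr : LinearMap.trace ℝ ℂ (fderiv ℝ (fun x => A c (G^[n] x)) P : ℂ →ₗ[ℝ] ℂ) ≠ 2 := by
    intro h
    rcases C.tri n hn c P hP hf with h3 | ⟨-, h3⟩
    · rw [h, abs_of_pos (by norm_num : (0:ℝ) < 2)] at h3
      exact lt_irrefl _ h3
    · rw [h, abs_of_pos (by norm_num : (0:ℝ) < 2)] at h3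
      exact lt_irrefl _ h3
  have h4 : HasFDerivAt (fun x => A c (G^[n] x) - x)
      (fderiv ℝ (fun x => A c (G^[n] x)) P - ContinuousLinearMap.id ℝ ℂ) P :=
    h1.sub (hasFDerivAt_id P)
  have h5 := h4.eventually_ne (c := 0) (CV_HA_inj _ h2 htr)
  rw [eventually_nhdsWithin_iff] at h5
  filter_upwards [h5] with x hx hfx
  by_contra hne
  exact hx hne (sub_eq_zero.2 hfx)

theorem fin_cpt (D : Deck X A p) (L : Lift X A p g gi G Gi θ ρ) (C : Cond X A p g gi G Hyp)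
    {n : ℕ} (hn : 0 < n) (c : Γ) {B : Set ℂ} (hBX : B ⊆ X) (hB : IsCompact B) :
    {x ∈ B | A c (G^[n] x) = x}.Finite := by
  have hcont : ContinuousOn (fun x => A c (G^[n] x)) X := by
    obtain ⟨i1, -, -, -, i5, -, -, -⟩ := L.iter n
    exact (D.cont c).comp i5.continuousOn i1
  have hex : ∀ x ∈ B, ∃ V ∈ 𝓝 x, ∀ y ∈ V, A c (G^[n] y) = y → y = x := by
    intro x hx
    by_cases hfx : A c (G^[n] x) = x
    · exact ⟨_, isolated D L C hn (hBX hx) hfx, fun y hy => hy⟩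
    · have h1 : ContinuousAt (fun x => A c (G^[n] x)) x :=
        hcont.continuousAt (D.opn.mem_nhds (hBX hx))
      have h2 : ∀ᶠ y in 𝓝 x, A c (G^[n] y) ≠ y := by
        have h3 := (h1.sub continuousAt_id).eventually_ne (sub_ne_zero.2 hfx)
        filter_upwards [h3] with y hy hy'
        exact hy (sub_eq_zero.2 hy')
      exact ⟨_, h2, fun y hy h => absurd h hy⟩
  choose! V hV hV' using hex
  obtain ⟨t, ht, htB⟩ := hB.elim_nhds_subcover V hV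
  refine t.finite_toSet.subset ?_
  rintro x ⟨hxB, hx⟩
  obtain ⟨y, hy, hxy⟩ := mem_iUnion₂.1 (htB hxB)
  rw [hV' y (ht y hy) x hxy hx]
  exact hy

theorem fin_mod [CompactSpace S] (D : Deck X A p) (L : Lift X A p g gi G Gi θ ρ)
    (C : Cond X A p g gi G Hyp) {n : ℕ} (hn : 0 < n) :
    ∃ T : Set ℂ, T.Finite ∧ T ⊆ X ∧ ∀ x ∈ X, ∀ d, A d (G^[n] x) = x → ∃ t ∈ T, ∃ a, A a t = x := by
  obtain ⟨i1, -, -, -, i5, -, i7, -⟩ := L.iter n
  obtain ⟨K, hKX, hK, hcoc⟩ := D.coc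
  have hKG : IsCompact (G^[n] '' K) := hK.image_of_continuousOn (i5.continuousOn.mono hKX)
  have hKGX : G^[n] '' K ⊆ X := by
    rintro _ ⟨x, hx, rfl⟩
    exact i1 (hKX hx)
  have hfin := D.proper (K ∪ G^[n] '' K) (union_subset hKX hKGX) (hK.union hKG)
  refine ⟨⋃ d ∈ {g | ∃ x ∈ K ∪ G^[n] '' K, A g x ∈ K ∪ G^[n] '' K}, {x ∈ K | A d (G^[n] x) = x},
    hfin.biUnion fun d _ => fin_cpt D L C hn d hKX hK, ?_, ?_⟩
  · intro x hx
    obtain ⟨d, -, hxd⟩ := mem_iUnion₂.1 hx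
    exact hKX hxd.1
  · intro x hx d hd
    obtain ⟨a, ha⟩ := hcoc x hx
    have hGx : G^[n] x ∈ X := i1 hx
    have h1 : A (a * d * (θ^[n] a)⁻¹) (G^[n] (A a x)) = A a x := by
      rw [i7 a x hx, ← D.mul _ _ _ hGx]
      have h2 : a * d * (θ^[n] a)⁻¹ * θ^[n] a = a * d := by group
      rw [h2, D.mul _ _ _ hGx, hd]
    refine ⟨A a x, ?_, a⁻¹, D.inv_left a hx⟩
    rw [mem_iUnion₂]
    refine ⟨a * d * (θ^[n] a)⁻¹, ⟨G^[n] (A a x), Or.inr ⟨_, ha, rfl⟩, ?_⟩, ha, h1⟩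
    rw [h1]
    exact Or.inl ha

theorem cen_fix (D : Deck X A p) (L : Lift X A p g gi G Gi θ ρ) (M : Dom X A p g G U N) {n : ℕ}
    {c d : Γ} {x : ℂ} (hx : x ∈ fil X U) (hdx : A d x ∈ fil X U) (hf : A c (G^[n] x) = x)
    (hdf : A c (G^[n] (A d x)) = A d x) : d ∈ N ∧ c * θ^[n] d * c⁻¹ = d := by
  have hxX : x ∈ X := fil_sub hx
  have h1 := Hcomm D L n c d hxX
  rw [hdf, hf] at h1
  exact ⟨fil_same D M hx hdx, (D.ext hxX h1).symm⟩

/-- representatives of the fixed points in the filled set modulo the centraliser -/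
theorem fin_cen [CompactSpace S] (D : Deck X A p) (L : Lift X A p g gi G Gi θ ρ)
    (C : Cond X A p g gi G Hyp) (M : Dom X A p g G U N) {n : ℕ} (hn : 0 < n) (c : N) :
    ∃ T : Set ℂ, T.Finite ∧ T ⊆ fil X U ∧ (∀ t ∈ T, A c (G^[n] t) = t) ∧
      ∀ x ∈ fil X U, A c (G^[n] x) = x → ∃ t ∈ T, ∃ d ∈ N, c * θ^[n] d * (c : Γ)⁻¹ = d ∧ A d t = x := by
  obtain ⟨T', hT'f, hT'X, hT'⟩ := fin_mod D L C hn
  classical
  let good : ℂ → Prop := fun t => ∃ x, x ∈ fil X U ∧ A c (G^[n] x) = x ∧ ∃ a, A a t = x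
  let rep : ℂ → ℂ := fun t => if h : good t then h.choose else 0
  have hrep : ∀ t, good t → rep t ∈ fil X U ∧ A c (G^[n] (rep t)) = rep t ∧ ∃ a, A a t = rep t := by
    intro t ht
    have h1 : rep t = ht.choose := by simp only [rep, dif_pos ht]
    rw [h1]
    exact ht.choose_spec
  refine ⟨rep '' {t ∈ T' | good t}, (hT'f.subset (sep_subset _ _)).image _, ?_, ?_, ?_⟩
  · rintro _ ⟨t, ⟨-, ht⟩, rfl⟩
    exact (hrep t ht).1
  · rintro _ ⟨t, ⟨-, ht⟩, rfl⟩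
    exact (hrep t ht).2.1
  · intro x hx hfx
    obtain ⟨t, htT, a, ha⟩ := hT' x (fil_sub hx) c hfx
    have hgood : good t := ⟨x, hx, hfx, a, ha⟩
    obtain ⟨r1, r2, b, hb⟩ := hrep t hgood
    have htX : t ∈ X := hT'X htT
    have h1 : A (a * b⁻¹) (rep t) = x := by
      rw [← hb, ← D.mul _ _ _ htX]
      have h2 : a * b⁻¹ * b = a := by group
      rw [h2, ha]
    have h2 := cen_fix D L M (n := n) (c := c) (d := a * b⁻¹) r1 (by rw [h1]; exact hx) r2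
      (by rw [h1]; exact hfx)
    exact ⟨rep t, ⟨t, ⟨htT, hgood⟩, rfl⟩, a * b⁻¹, h2.1, h2.2, h1⟩

end CV
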