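import Pool.Agent.H12.CV.HA

/-!
HB (islands containing fixed points).  `H x = A c (G^n x)`, `c ∈ N`.
`island_free`: `A d '' Y` is an island (`fil_iter` with `n = 0`), so it is `Y` or disjoint from `Y`; if `A d '' Y = Y` then `A (d^n) '' Y = Y` for all `n`, contradiction to `Deck.infinite` for a point `x ∈ Y` (all `A (d^n) x ∈ Y`).
`not_mem_U`: `H x = x` implies `p x ∈ periodicPts g` (`Lift.iter`, `Deck.fibre`: `p x = p (G^n x) = g^n (p x)`), and `x ∈ StabX X p g x`, so `x ∉ U` by `M.stab`.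
`choose_islands`: `fin_cen` gives the finite set `T` of fixed points.  For `t ∈ T` let `Y_t = connectedComponentIn (X \ U) t`, an island (`t ∈ fil X U`, `t ∉ U`), `H '' Y_t = Y_t` (it is an island by `fil_iter`, containing `t`).  Let `Z = {d ∈ N | c θ^n(d) c⁻¹ = d}`, a
subgroup (kernel type condition).  `t ~ t'` iff `A d '' Y_t = Y_t'` for some `d ∈ Z`: an equivalence relation; choose one representative in each class and enumerate them by `Fin m`.  Different representatives: `A d '' Y_i` and `Y_j` are islands, not equal, so disjoint.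
Last statement: `x = A d t`, `d ∈ Z`, `t ~ t_i`, `A d' '' Y_t = Y_i`: `A (d' d⁻¹) x = A d' t ∈ Y_i`.
`separate`: `W` open contained in `X`; choose compact neighbourhoods `K_i ⊆ W` of `Y_i`.  The set of `d` with `A d '' K_i ∩ K_j ≠ ∅` for some `i, j` is finite (`proper` for the union of the `K_i`).  For each of the finitely many triples `(i, j, d)` with
`d ∈ Z`, `d ≠ 1` or `i ≠ j`, the compact sets `A d '' Y_i`, `Y_j` are disjoint, so there are open neighbourhoods of `Y_i` and `Y_j` (inside the interiors of `K_i`, `K_j`) whose closures have this property; `V_i` = finite intersections.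
-/

namespace CV

open Metric Set Filter Topology Function DS TN

variable {S : Type} [MetricSpace S] {X : Set ℂ} {Γ : Type} [Group Γ]
  {A : Γ → ℂ → ℂ} {p : ℂ → S} {g gi : S → S} {G Gi : ℂ → ℂ} {θ : Γ ≃* Γ} {ρ : ℂ → ℝ}
  {Hyp : S → Prop} {U : Set ℂ} {N : Subgroup Γ} {ψ v : ℂ → ℂ}

theorem island_free (D : Deck X A p) (L : Lift X A p g gi G Gi θ ρ) (M : Dom X A p g G U N)
    {Y : Set ℂ} (hY : Island X U Y) {d : Γ} (hd : d ∈ N) (tf : ∀ n : ℕ, 0 < n → d ^ n ≠ 1) :
    Disjoint (A d '' Y) Y := by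
  by_contra hcon
  have hI : Island X U (A d '' Y) := (fil_iter D L M 0 hd).2.2.2 Y hY
  obtain ⟨hYc, hYX, -, hYe⟩ := hY.basic
  have hYX' : Y ⊆ X := fun x hx => (hYX hx).1
  have heq : Y = A d '' Y := by
    refine hYe _ hI ?_
    rw [Set.disjoint_iff_inter_eq_empty, ← Set.not_nonempty_iff_eq_empty, not_not,
      Set.inter_comm] at hcon
    exact hcon
  have hall : ∀ n : ℕ, A (d ^ n) '' Y = Y := by
    intro n
    induction n with
    | zero =>
      rw [pow_zero]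
      rw [Set.image_congr (fun x hx => D.one x (hYX' hx))]
      exact Set.image_id' Y
    | succ n ih => rw [pow_succ, D.image_mul _ _ hYX', ← heq, ih]
  obtain ⟨x, hx⟩ := hYc.nonempty
  obtain ⟨n, -, hn⟩ := D.infinite tf hYX' hY.cpt (hYX' hx)
  apply hn
  rw [← hall n]
  exact ⟨x, hx, rfl⟩

theorem not_mem_U (D : Deck X A p) (L : Lift X A p g gi G Gi θ ρ) (M : Dom X A p g G U N) {n : ℕ}
    (hn : 0 < n) {c : Γ} {x : ℂ} (hx : x ∈ X) (hf : A c (G^[n] x) = x) :
    x ∉ U ∧ p x ∈ periodicPts g := by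
  obtain ⟨i1, -, -, -, -, -, -, i8⟩ := L.iter n
  have h1 : g^[n] (p x) = p x := by
    have h2 := D.fibre c (i1 hx)
    rw [hf, i8 x hx] at h2
    exact h2.symm
  have hper : p x ∈ periodicPts g := mk_mem_periodicPts hn h1
  refine ⟨fun hxU => ?_, hper⟩
  refine disjoint_left.1 (M.stab x hx hper) hxU ⟨hx, ?_⟩
  simp only [dist_self]
  exact tendsto_const_nhds

/-- a maximal set of pairwise unrelated elements -/
theorem CV_HB_reps {α : Type*} [DecidableEq α] (r : α → α → Prop) (hrefl : ∀ a, r a a)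
    (hsymm : ∀ a b, r a b → r b a) (T : Finset α) : ∃ R : Finset α, R ⊆ T ∧
      (∀ a ∈ R, ∀ b ∈ R, a ≠ b → ¬ r a b) ∧ ∀ t ∈ T, ∃ a ∈ R, r t a := by
  induction T using Finset.induction_on with
  | empty =>
    exact ⟨∅, Finset.Subset.refl _, fun a ha => absurd ha (Finset.notMem_empty a),
      fun a ha => absurd ha (Finset.notMem_empty a)⟩
  | insert t T _ ih =>
    obtain ⟨R, hRT, hR, hT⟩ := ih
    by_cases h : ∃ a ∈ R, r t a
    · refine ⟨R, hRT.trans (Finset.subset_insert _ _), hR, fun s hs => ?_⟩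
      rcases Finset.mem_insert.1 hs with rfl | hs
      · exact h
      · exact hT s hs
    · push Not at h
      refine ⟨insert t R, Finset.insert_subset_insert _ hRT, ?_, ?_⟩
      · intro a ha b hb hab
        rcases Finset.mem_insert.1 ha with rfl | ha'
        · rcases Finset.mem_insert.1 hb with rfl | hb'
          · exact absurd rfl hab
          · exact h b hb'
        · rcases Finset.mem_insert.1 hb with rfl | hb'
          · exact fun hr => h a ha' (hsymm _ _ hr)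
          · exact hR a ha' b hb' hab
      · intro s hs
        rcases Finset.mem_insert.1 hs with rfl | hs
        · exact ⟨s, Finset.mem_insert_self _ _, hrefl s⟩
        · obtain ⟨a, ha, hra⟩ := hT s hs
          exact ⟨a, Finset.mem_insert_of_mem ha, hra⟩

theorem CV_HB_inv {n : ℕ} {c d : Γ} (h : c * θ^[n] d * c⁻¹ = d) :
    c * θ^[n] d⁻¹ * c⁻¹ = d⁻¹ := by
  have h1 : θ^[n] d⁻¹ = (θ^[n] d)⁻¹ := by
    apply eq_inv_of_mul_eq_one_left
    rw [← iterate_map_mul θ n, inv_mul_cancel, iterate_map_one]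
  rw [h1]
  calc c * (θ^[n] d)⁻¹ * c⁻¹ = (c * θ^[n] d * c⁻¹)⁻¹ := by group
    _ = d⁻¹ := by rw [h]

theorem CV_HB_mul {n : ℕ} {c d e : Γ} (h : c * θ^[n] d * c⁻¹ = d) (h' : c * θ^[n] e * c⁻¹ = e) :
    c * θ^[n] (d * e) * c⁻¹ = d * e := by
  have h1 : θ^[n] (d * e) = θ^[n] d * θ^[n] e := iterate_map_mul θ n d e
  rw [h1]
  calc c * (θ^[n] d * θ^[n] e) * c⁻¹ = (c * θ^[n] d * c⁻¹) * (c * θ^[n] e * c⁻¹) := by group
    _ = d * e := by rw [h, h']

theorem choose_islands [CompactSpace S] (D : Deck X A p) (L : Lift X A p g gi G Gi θ ρ)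
    (C : Cond X A p g gi G Hyp) (M : Dom X A p g G U N) {n : ℕ} (hn : 0 < n) (c : N) :
    ∃ (m : ℕ) (Y : Fin m → Set ℂ), (∀ i, Island X U (Y i)) ∧
      (∀ i, (fun x => A c (G^[n] x)) '' Y i = Y i) ∧
      (∀ i j, ∀ d ∈ N, c * θ^[n] d * (c : Γ)⁻¹ = d → i ≠ j → Disjoint (A d '' Y i) (Y j)) ∧
      ∀ x ∈ fil X U, A c (G^[n] x) = x →
        ∃ d ∈ N, c * θ^[n] d * (c : Γ)⁻¹ = d ∧ ∃ i, A d x ∈ Y i := by
  classical
  obtain ⟨T, hTf, hTU, hTfix, hT⟩ := fin_cen D L C M hn c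
  set I : ℂ → Set ℂ := fun t => connectedComponentIn (X \ U) t with hI
  have hTX : ∀ t ∈ T, t ∈ X \ U := fun t ht =>
    ⟨fil_sub (hTU ht), (not_mem_U D L M hn (fil_sub (hTU ht)) (hTfix t ht)).1⟩
  have hIsl : ∀ t ∈ T, Island X U (I t) := fun t ht =>
    ⟨(TB_iff (hTX t ht)).1 (hTU ht), t, hTX t ht, rfl⟩
  have hIX : ∀ t, I t ⊆ X := fun t x hx => (connectedComponentIn_subset _ _ hx).1
  have hmem : ∀ t ∈ T, t ∈ I t := fun t ht => mem_connectedComponentIn (hTX t ht)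
  have hinv : ∀ t ∈ T, (fun x => A c (G^[n] x)) '' I t = I t := by
    intro t ht
    have h1 := (fil_iter D L M n c.2).2.2.1 _ (hIsl t ht)
    refine ((hIsl t ht).basic.2.2.2 _ h1 ⟨t, hmem t ht, t, hmem t ht, hTfix t ht⟩).symm
  let r : ℂ → ℂ → Prop := fun t s => ∃ d ∈ N, c * θ^[n] d * (c : Γ)⁻¹ = d ∧ A d '' I t = I s
  have hrefl : ∀ t, r t t := by
    intro t
    refine ⟨1, N.one_mem, ?_, ?_⟩
    · rw [iterate_map_one θ n]; group
    · rw [Set.image_congr (fun x hx => D.one x (hIX t hx))]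
      exact Set.image_id' _
  have hsymm : ∀ t s, r t s → r s t := by
    rintro t s ⟨d, hd, hcd, hds⟩
    refine ⟨d⁻¹, N.inv_mem hd, CV_HB_inv hcd, ?_⟩
    rw [← hds, D.image_inv _ (hIX t)]
  obtain ⟨R, hRT, hR, hR'⟩ := CV_HB_reps r hrefl hsymm hTf.toFinset
  have hRT' : ∀ t ∈ R, t ∈ T := fun t ht => hTf.mem_toFinset.1 (hRT ht)
  let e := R.equivFin
  have he : ∀ i, ((e.symm i : R) : ℂ) ∈ T := fun i => hRT' _ (e.symm i).2
  refine ⟨R.card, fun i => I (e.symm i : R), fun i => hIsl _ (he i), fun i => hinv _ (he i), ?_, ?_⟩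
  · intro i j d hd hcd hij
    by_contra hcon
    have hI1 : Island X U (A d '' I (e.symm i : R)) := (fil_iter D L M 0 hd).2.2.2 _ (hIsl _ (he i))
    rw [Set.disjoint_iff_inter_eq_empty, ← Set.not_nonempty_iff_eq_empty, not_not] at hcon
    have heq := hI1.basic.2.2.2 _ (hIsl _ (he j)) hcon
    refine hR _ (e.symm i).2 _ (e.symm j).2 ?_ ⟨d, hd, hcd, heq⟩
    intro h
    exact hij (e.symm.injective (Subtype.ext h))
  · intro x hx hfx
    obtain ⟨t, ht, d, hd, hcd, rfl⟩ := hT x hx hfx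
    obtain ⟨s, hs, d', hd', hcd', hts⟩ := hR' t (hTf.mem_toFinset.2 ht)
    refine ⟨d' * d⁻¹, N.mul_mem hd' (N.inv_mem hd), CV_HB_mul hcd' (CV_HB_inv hcd), e ⟨s, hs⟩, ?_⟩
    have htX : t ∈ X := (hTX t ht).1
    rw [D.mul _ _ _ (D.maps d htX), D.inv_left d htX]
    change A d' t ∈ I (e.symm (e ⟨s, hs⟩) : R)
    rw [Equiv.symm_apply_apply, ← hts]
    exact ⟨t, hmem t ht, rfl⟩

theorem separate (D : Deck X A p) {W : Set ℂ} (hW : IsOpen W) (hWX : W ⊆ X) {m : ℕ}
    {Y : Fin m → Set ℂ} (hY : ∀ i, IsCompact (Y i)) (hYW : ∀ i, Y i ⊆ W) {Z : Set Γ}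
    (hd : ∀ i j, ∀ d ∈ Z, (d ≠ 1 ∨ i ≠ j) → Disjoint (A d '' Y i) (Y j)) :
    ∃ V : Fin m → Set ℂ, (∀ i, IsOpen (V i) ∧ Y i ⊆ V i ∧ closure (V i) ⊆ W ∧
      IsCompact (closure (V i))) ∧
      ∀ i j, ∀ d ∈ Z, (d ≠ 1 ∨ i ≠ j) → Disjoint (A d '' closure (V i)) (closure (V j)) := by
  have h1 : ∀ i, ∃ δ : ℝ, 0 < δ ∧ cthickening δ (Y i) ⊆ W := fun i =>
    (hY i).exists_cthickening_subset_open hW (hYW i)
  choose δ hδ hδW using h1
  set K : Set ℂ := ⋃ i, cthickening (δ i) (Y i) with hK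
  have hKc : IsCompact K := isCompact_iUnion fun i => (hY i).cthickening
  have hKW : K ⊆ W := iUnion_subset hδW
  have hfin := D.proper K (hKW.trans hWX) hKc
  -- eventually small thickenings are good
  have h2 : ∀ i, ∀ᶠ r in 𝓝[>] (0 : ℝ), r < δ i := fun i =>
    nhdsWithin_le_nhds (Iio_mem_nhds (hδ i))
  have h3 : ∀ d ∈ {g | ∃ y ∈ K, A g y ∈ K}, ∀ᶠ r in 𝓝[>] (0 : ℝ), ∀ i j, d ∈ Z →
      (d ≠ 1 ∨ i ≠ j) → Disjoint (A d '' cthickening r (Y i)) (cthickening r (Y j)) := by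
    intro d _
    rw [eventually_all]
    intro i
    rw [eventually_all]
    intro j
    by_cases hdZ : d ∈ Z
    · by_cases hij : d ≠ 1 ∨ i ≠ j
      · have hcpt : IsCompact (A d '' Y i) :=
          (hY i).image_of_continuousOn ((D.cont d).mono ((hYW i).trans hWX))
        obtain ⟨O₁, O₂, hO₁, hO₂, hs₁, hs₂, hdis⟩ :=
          SeparatedNhds.of_isCompact_isCompact hcpt (hY j) (hd i j d hdZ hij)
        have hO : IsOpen (X ∩ A d ⁻¹' O₁) := (D.cont d).isOpen_inter_preimage D.opn hO₁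
        obtain ⟨a, ha, haO⟩ := (hY i).exists_cthickening_subset_open hO
          (fun x hx => ⟨hWX (hYW i hx), hs₁ ⟨x, hx, rfl⟩⟩)
        obtain ⟨b, hb, hbO⟩ := (hY j).exists_cthickening_subset_open hO₂ hs₂
        have h4 : ∀ᶠ r in 𝓝[>] (0 : ℝ), r < min a b :=
          nhdsWithin_le_nhds (Iio_mem_nhds (lt_min ha hb))
        filter_upwards [h4] with r hr _ _
        refine Set.disjoint_of_subset ?_ ?_ hdis
        · rintro _ ⟨x, hx, rfl⟩
          exact (haO (cthickening_mono (hr.le.trans (min_le_left _ _)) _ hx)).2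
        · exact (cthickening_mono (hr.le.trans (min_le_right _ _)) _).trans hbO
      · exact Eventually.of_forall fun r _ h => absurd h hij
    · exact Eventually.of_forall fun r h => absurd h hdZ
  have h4 := (eventually_all_finite hfin).2 h3
  have h5 := eventually_all.2 h2
  obtain ⟨r, hr1, hr2, hr3⟩ := ((h4.and h5).and self_mem_nhdsWithin).exists.imp
    fun r h => (⟨h.1.1, h.1.2, h.2⟩ : _ ∧ _ ∧ _)
  have hsub : ∀ i, closure (thickening r (Y i)) ⊆ cthickening r (Y i) := fun i =>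
    closure_thickening_subset_cthickening r (Y i)
  have hsub2 : ∀ i, cthickening r (Y i) ⊆ cthickening (δ i) (Y i) := fun i =>
    cthickening_mono (hr2 i).le _
  refine ⟨fun i => thickening r (Y i), fun i => ⟨isOpen_thickening,
    self_subset_thickening hr3 _, (hsub i).trans ((hsub2 i).trans (hδW i)),
    (hY i).cthickening.of_isClosed_subset isClosed_closure (hsub i)⟩, ?_⟩
  intro i j d hdZ hij
  by_cases hdF : d ∈ {g | ∃ y ∈ K, A g y ∈ K}
  · exact Set.disjoint_of_subset (Set.image_mono (hsub i)) (hsub j) (hr1 d hdF i j hdZ hij)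
  · rw [Set.disjoint_left]
    rintro _ ⟨x, hx, rfl⟩ hy
    exact hdF ⟨x, mem_iUnion.2 ⟨i, hsub2 i (hsub i hx)⟩, mem_iUnion.2 ⟨j, hsub2 j (hsub j hy)⟩⟩

end CV
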