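import Pool.Agent.H12.CV.RM

/-!
HC (transport of a hole by the Riemann map).  `v` is a homeomorphism of `W` onto the disc.  `closure O ⊆ W` is compact: so `v '' O` is open, `v '' closure O` is compact, `closure (v '' O) = v '' closure O` (one inclusion: compact is closed; the other:
continuity on `closure O`), and `frontier (v '' O) = v '' frontier O` (`v` injective on `W`).  For `z = v x`, `x ∈ frontier O`: `ψ z = x`, `e z - z = v (H x) - v x = (H x - x) exp (Λ (H x) x)` and `z - v k = v x - v k = (x - k) exp (Λ x k)` (`riem_quot`), so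
`(e z - z)/(z - v k) = (H x - x)/(x - k) * exp (Λ (H x) x - Λ x k)`, with the logarithm `ℓ (ψ z) + Λ (H (ψ z)) (ψ z) - Λ (ψ z) k`, `ℓ` the given logarithm.
-/

namespace CV

open Metric Set Filter Topology Function DS TN

theorem transport {W : Set ℂ} (hW : IsOpen W) {ψ v : ℂ → ℂ} (R : Riem W ψ v) {H : ℂ → ℂ}
    (hc : ContinuousOn H W) (hm : MapsTo H W W) {O : Set ℂ} {k : ℂ} (hO : IsOpen O) (hk : k ∈ O)
    (hOW : closure O ⊆ W) (hOc : IsCompact (closure O))
    (hl : HasLog (fun x => (H x - x) / (x - k)) (frontier O)) {e : ℂ → ℂ}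
    (he : ∀ z ∈ ball (0:ℂ) 1, e z = v (H (ψ z))) :
    IsOpen (v '' O) ∧ closure (v '' O) = v '' closure O ∧ v k ∈ v '' O ∧
      closure (v '' O) ⊆ ball 0 1 ∧ HasLog (fun z => (e z - z) / (z - v k)) (frontier (v '' O)) := by
  have hOW' : O ⊆ W := subset_closure.trans hOW
  have hv : v '' O = ball (0:ℂ) 1 ∩ ψ ⁻¹' O := by
    ext z
    constructor
    · rintro ⟨x, hx, rfl⟩
      refine ⟨R.mv (hOW' hx), ?_⟩
      rw [mem_preimage, R.ψv x (hOW' hx)]
      exact hx
    · rintro ⟨hz, hz2⟩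
      exact ⟨ψ z, hz2, R.vψ z hz⟩
  have hop : IsOpen (v '' O) := by
    rw [hv]
    exact R.dψ.continuousOn.isOpen_inter_preimage isOpen_ball hO
  have hvc : ContinuousOn v (closure O) := R.dv.continuousOn.mono hOW
  have hcl : closure (v '' O) = v '' closure O := by
    apply Subset.antisymm
    · exact closure_minimal (image_mono subset_closure) (hOc.image_of_continuousOn hvc).isClosed
    · exact hvc.image_closure
  have hcb : closure (v '' O) ⊆ ball 0 1 := by
    rw [hcl]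
    rintro _ ⟨x, hx, rfl⟩
    exact R.mv (hOW hx)
  refine ⟨hop, hcl, mem_image_of_mem v hk, hcb, ?_⟩
  have hfr : ∀ z ∈ frontier (v '' O), z ∈ ball (0:ℂ) 1 ∧ ψ z ∈ frontier O := by
    intro z hz
    rw [hop.frontier_eq] at hz
    obtain ⟨hz1, hz2⟩ := hz
    refine ⟨hcb hz1, ?_⟩
    rw [hcl] at hz1
    obtain ⟨x, hx, rfl⟩ := hz1
    rw [R.ψv x (hOW hx), hO.frontier_eq]
    exact ⟨hx, fun h => hz2 (mem_image_of_mem v h)⟩
  obtain ⟨Λ, hΛc, hΛ⟩ := riem_quot hW R
  obtain ⟨l, hlc, hle⟩ := hl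
  have hfW : frontier O ⊆ W := frontier_subset_closure.trans hOW
  have hkW : k ∈ W := hOW' hk
  have hψc : ContinuousOn ψ (frontier (v '' O)) :=
    R.dψ.continuousOn.mono fun z hz => (hfr z hz).1
  have hψm : MapsTo ψ (frontier (v '' O)) (frontier O) := fun z hz => (hfr z hz).2
  have hψW : MapsTo ψ (frontier (v '' O)) W := fun z hz => hfW (hψm hz)
  have hHψ : ContinuousOn (fun z => H (ψ z)) (frontier (v '' O)) := hc.comp hψc hψW
  refine ⟨fun z => l (ψ z) + Λ (H (ψ z)) (ψ z) - Λ (ψ z) k, ?_, ?_⟩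
  · refine ContinuousOn.sub (ContinuousOn.add (hlc.comp hψc hψm) ?_) ?_
    · exact hΛc.comp (hHψ.prodMk hψc) fun z hz => ⟨hm (hψW hz), hψW hz⟩
    · exact hΛc.comp (hψc.prodMk continuousOn_const) fun z hz => ⟨hψW hz, hkW⟩
  · intro z hz
    obtain ⟨hzb, hzf⟩ := hfr z hz
    have hxW : ψ z ∈ W := hfW hzf
    have e1 : e z - z = (H (ψ z) - ψ z) * Complex.exp (Λ (H (ψ z)) (ψ z)) := by
      rw [← hΛ _ (hm hxW) _ hxW, he z hzb, R.vψ z hzb]
    have e2 : z - v k = (ψ z - k) * Complex.exp (Λ (ψ z) k) := by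
      rw [← hΛ _ hxW _ hkW, R.vψ z hzb]
    have e3 := hle (ψ z) hzf
    show (e z - z) / (z - v k) = _
    rw [e1, e2, mul_div_mul_comm, ← Complex.exp_sub, show (H (ψ z) - ψ z) / (ψ z - k) =
      Complex.exp (l (ψ z)) from e3, ← Complex.exp_add]
    congr 1
    ring

end CV
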