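import Pool.Agent.H12.CV.B5
import Pool.Agent.H12.CV.B6
import Pool.Agent.H12.CV.HB
import Pool.Agent.H12.CV.HC
import Pool.Agent.H12.TN.FC

/-!
HD (holes).  `exists_holes`: `choose_islands` gives `m`, `Y`.  Let `Z = {d ∈ N | c θ^n(d) c⁻¹ = d}`: by `Lf.th` `d ∈ e.cen` iff `(d : Γ) ∈ Z`.  For `d ∈ Z`, `d ≠ 1`: `A d '' Y i` is disjoint from `Y i` (`island_free`; `d^n ≠ 1` by `TN.inf_order F`).
So `separate` (with `W = fil X U`) gives `V i`.  `island_index` with `V i` and `H = A c ∘ G^n` gives `O i`, `k i` (`closure (O i) ⊆ V i`, compact as a closed subset of `closure (V i)`).  `transport` gives the holes `v '' O i`, `v (k i)` for `e.H` (`Lf.H`).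
`Holes.disj`: `F.act d '' closure (v '' O i) = v '' (A d '' closure (O i))` (`Act`), `v` injective on `fil X U`.  `Holes.fix`: `z` in the disc, `e.H z = z`: `x = ψ z` satisfies `A c (G^n x) = x` (`v` injective), so `A d x ∈ Y i`, `d ∈ Z`, and
`z = F.act d⁻¹ (F.act d z)`, `F.act d z = v (A d x) ∈ v '' O i`; `d⁻¹ ∈ e.cen`.  The same for `e.Hi` with the second form of `H` (`e.Hi z = z` iff `e.H z = z` in the disc; `Lf.Hi`).
`lf_comp`: `c'' = c * θ^n c'` is in `N` (`Dom.theta_mem`), `A c (G^n (A c' (G^n' x))) = A c'' (G^(n+n') x)` (`Lift.iter`), `v (ψ ..)` cancel; `Hi`: `Gi^n' (A c'⁻¹ (Gi^n (A c⁻¹ x))) = Gi^(n+n') (A c''⁻¹ x)` (`Lift.equi_inv`); `norm`: `Norm.comp`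
(TN/FN); `th` by computation.  `lf_lmul`: `(d * c)`, `Norm.lmul`.
`fam`: `ne`: `exists_lf` with `n = 1`, `c = 1`; `norm`; `comp`, `lmul`; `bd` = `fixed_lim`; `holes`, `holesi` from `exists_holes`.
-/

namespace CV

open Metric Set Filter Topology Function DS TN

variable {S : Type} [MetricSpace S] [CompactSpace S] {X : Set ℂ} {Γ : Type} [Group Γ]
  {A : Γ → ℂ → ℂ} {p : ℂ → S} {g gi : S → S} {G Gi : ℂ → ℂ} {θ : Γ ≃* Γ} {ρ : ℂ → ℝ}
  {Hyp : S → Prop} {U : Set ℂ} {N : Subgroup Γ} {ψ v : ℂ → ℂ} {F : Fuchs N}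

theorem HD_cen {n : ℕ} {c : N} {e : Elt N} (he : Lf A G Gi θ ψ v F n c e) (d : N) :
    d ∈ e.cen ↔ (c : Γ) * θ^[n] (d : Γ) * (c : Γ)⁻¹ = d := by
  have h : d ∈ e.cen ↔ e.θ d = d := Iff.rfl
  rw [h, ← he.th d]
  constructor
  · intro h1; rw [h1]
  · intro h1; exact Subtype.ext h1

theorem HD_sub {Y : Set ℂ} (hY : Island X U Y) : Y ⊆ fil X U := by
  obtain ⟨x, hx, rfl⟩ := hY.comp
  intro y hy
  have hyX : y ∈ X \ U := connectedComponentIn_subset _ _ hy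
  refine ⟨hyX.1, Or.inr ?_⟩
  rw [← connectedComponentIn_eq hy]
  exact hY.cpt

/-- the holes for one of the two maps -/
theorem HD_one (D : Deck X A p) (L : Lift X A p g gi G Gi θ ρ) (C : Cond X A p g gi G Hyp)
    (M : Dom X A p g G U N) (R : Riem (fil X U) ψ v) (hF : Act A ψ v F) {n : ℕ} (hn : 0 < n)
    {c : N} {m : ℕ} {Y : Fin m → Set ℂ} (hYI : ∀ i, Island X U (Y i))
    (hYH : ∀ i, (fun x => A c (G^[n] x)) '' Y i = Y i) {Z : Subgroup N} {V : Fin m → Set ℂ}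
    (hV : ∀ i, IsOpen (V i) ∧ Y i ⊆ V i ∧ closure (V i) ⊆ fil X U ∧ IsCompact (closure (V i)))
    (hVd : ∀ i j, ∀ d ∈ Z, (d ≠ 1 ∨ i ≠ j) →
      Disjoint (A (d : Γ) '' closure (V i)) (closure (V j)))
    (hYf : ∀ x ∈ fil X U, A c (G^[n] x) = x → ∃ d ∈ Z, ∃ i, A (d : Γ) x ∈ Y i)
    {H : ℂ → ℂ} (hH : (∀ x ∈ X, H x = A c (G^[n] x)) ∨ ∀ x ∈ X, H x = Gi^[n] (A (c : Γ)⁻¹ x))
    (hc : ContinuousOn H (fil X U)) (hm : MapsTo H (fil X U) (fil X U))
    (hfix : ∀ x ∈ fil X U, H x = x → A c (G^[n] x) = x) {e : ℂ → ℂ}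
    (he : ∀ z ∈ ball (0:ℂ) 1, e z = v (H (ψ z))) :
    ∃ O k, Holes F e Z m O k ∧ ∀ i, v '' Y i ⊆ O i := by
  have hW : IsOpen (fil X U) := fil_open D M
  have h1 : ∀ i, ∃ O : Set ℂ, ∃ k ∈ Y i, IsOpen O ∧ Y i ⊆ O ∧ closure O ⊆ V i ∧
      Bornology.IsBounded O ∧ HasLog (fun x => (H x - x) / (x - k)) (frontier O) := by
    intro i
    obtain ⟨O, k, hk, h2, h3, h4, h5, h6, -⟩ := island_index D L C M hn c (hYI i) (hYH i)
      (hV i).1 (hV i).2.1 hH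
    exact ⟨O, k, hk, h2, h3, h4, h5, h6⟩
  choose O k hk hO hYO hOV hOb hOl using h1
  have hOW : ∀ i, closure (O i) ⊆ fil X U := fun i =>
    (hOV i).trans (subset_closure.trans (hV i).2.2.1)
  have hOc : ∀ i, IsCompact (closure (O i)) := fun i =>
    Metric.isCompact_of_isClosed_isBounded isClosed_closure (hOb i).closure
  have hT := fun i => transport hW R hc hm (hO i) (hYO i (hk i)) (hOW i) (hOc i) (hOl i) he
  have hact : ∀ (d : N), ∀ x ∈ fil X U, F.act d (v x) = v (A (d : Γ) x) := by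
    intro d x hx
    rw [hF d (v x) (R.mv hx), R.ψv x hx]
  have hinv : ∀ (d : N), ∀ x ∈ fil X U, A (d : Γ) x ∈ fil X U := by
    intro d x hx
    rw [← fil_inv D M d.2]
    exact ⟨x, hx, rfl⟩
  refine ⟨fun i => v '' O i, fun i => v (k i), ⟨fun i => (hT i).1, fun i => (hT i).2.2.1,
    fun i => (hT i).2.2.2.1, ?_, ?_, fun i => (hT i).2.2.2.2⟩, fun i => image_mono (hYO i)⟩
  · intro i j d hd hij
    rw [(hT i).2.1, (hT j).2.1, disjoint_left]
    rintro _ ⟨_, ⟨x, hx, rfl⟩, rfl⟩ ⟨y, hy, hxy⟩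
    rw [hact d x (hOW i hx)] at hxy
    have h2 : y = A (d : Γ) x := by
      rw [← R.ψv y (hOW j hy), hxy, R.ψv _ (hinv d x (hOW i hx))]
    refine disjoint_left.1 (hVd i j d hd hij) ⟨x, subset_closure (hOV i hx), rfl⟩ ?_
    rw [← h2]
    exact subset_closure (hOV j hy)
  · intro z hz hez
    have hzW : ψ z ∈ fil X U := R.mψ hz
    have h2 : H (ψ z) = ψ z := by
      rw [he z hz] at hez
      rw [← R.ψv _ (hm hzW), hez]
    obtain ⟨d, hd, i, hi⟩ := hYf _ hzW (hfix _ hzW h2)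
    have hz1 : ‖z‖ ≤ 1 := (mem_ball_zero_iff.1 hz).le
    refine ⟨d⁻¹, Z.inv_mem hd, i, F.act d z, ?_, act_inv_act F d hz1⟩
    rw [hF d z hz]
    exact ⟨_, hYO i hi, rfl⟩

theorem exists_holes (D : Deck X A p) (L : Lift X A p g gi G Gi θ ρ) (C : Cond X A p g gi G Hyp)
    (M : Dom X A p g G U N) (R : Riem (fil X U) ψ v) (hF : Act A ψ v F) {n : ℕ} (hn : 0 < n)
    {c : N} {e : Elt N} (he : Lf A G Gi θ ψ v F n c e) :
    ∃ (m : ℕ) (Y : Fin m → Set ℂ), (∀ i, Island X U (Y i)) ∧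
      (∀ i, (fun x => A c (G^[n] x)) '' Y i = Y i) ∧
      (∃ O k, Holes F e.H e.cen m O k ∧ ∀ i, v '' Y i ⊆ O i) ∧
      (∃ O k, Holes F e.Hi e.cen m O k ∧ ∀ i, v '' Y i ⊆ O i) ∧
      ∀ x ∈ fil X U, A c (G^[n] x) = x → ∃ d ∈ e.cen, ∃ i, A (d : N) x ∈ Y i := by
  obtain ⟨m, Y, hYI, hYH, hYd, hYf⟩ := choose_islands D L C M hn c
  have hW : IsOpen (fil X U) := fil_open D M
  obtain ⟨i1, i2, i3, i4, i5, i6, -, -⟩ := L.iter n
  obtain ⟨V, hV, hVd⟩ := separate D hW fil_sub (fun i => (hYI i).cpt) (fun i => HD_sub (hYI i))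
    (Z := {d | d ∈ N ∧ (c : Γ) * θ^[n] d * (c : Γ)⁻¹ = d}) (by
      rintro i j d ⟨hdN, hdc⟩ hij
      by_cases h : i = j
      · subst h
        have hd1 : d ≠ 1 := by
          rcases hij with h | h
          · exact h
          · exact absurd rfl h
        refine island_free D L M (hYI i) hdN fun r hr h2 => ?_
        have h3 : (⟨d, hdN⟩ : N) ≠ 1 := fun h4 => hd1 (by
          have := congrArg Subtype.val h4
          simpa using this)
        exact inf_order F h3 hr.ne' (Subtype.ext (by simpa using h2))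
      · exact hYd i j d hdN hdc h)
  have hVd' : ∀ i j, ∀ d ∈ e.cen, (d ≠ 1 ∨ i ≠ j) →
      Disjoint (A (d : N) '' closure (V i)) (closure (V j)) := by
    intro i j d hd hij
    refine hVd i j d ⟨d.2, (HD_cen he d).1 hd⟩ ?_
    rcases hij with h | h
    · exact Or.inl fun h1 => h (Subtype.ext (by simpa using h1))
    · exact Or.inr h
  have hYf' : ∀ x ∈ fil X U, A c (G^[n] x) = x → ∃ d ∈ e.cen, ∃ i, A (d : N) x ∈ Y i := by
    intro x hx hfx
    obtain ⟨d, hdN, hdc, i, hi⟩ := hYf x hx hfx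
    exact ⟨⟨d, hdN⟩, (HD_cen he _).2 hdc, i, hi⟩
  obtain ⟨f1, f2, -, -⟩ := fil_iter D L M n c.2
  refine ⟨m, Y, hYI, hYH, ?_, ?_, hYf'⟩
  · refine HD_one D L C M R hF hn hYI hYH hV hVd' hYf' (H := fun x => A c (G^[n] x))
      (Or.inl fun x _ => rfl) ?_ ?_ (fun x _ h => h) he.H
    · exact ((D.cont c).comp i5.continuousOn i1).mono fil_sub
    · intro x hx
      rw [← f1]
      exact ⟨x, hx, rfl⟩
  · refine HD_one D L C M R hF hn hYI hYH hV hVd' hYf' (H := fun x => Gi^[n] (A (c : Γ)⁻¹ x))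
      (Or.inr fun x _ => rfl) ?_ ?_ ?_ he.Hi
    · exact (i6.continuousOn.comp (D.cont (c : Γ)⁻¹) (D.maps (c : Γ)⁻¹)).mono fil_sub
    · intro x hx
      rw [← f2]
      exact ⟨x, hx, rfl⟩
    · intro x hx hfx
      have hxX := fil_sub hx
      conv_lhs => rw [← hfx]
      rw [i4 _ (D.maps _ hxX), D.inv_right _ hxX]

end CV
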