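import Pool.Agent.H12.CV.HD
import Pool.Agent.H12.TN.FN

/-!
HE: the family satisfies the hypotheses of Theorem N.  Proofs in the header of HD (`lf_comp`, `lf_lmul`, `fam`).
-/

namespace CV

open Metric Set Filter Topology Function DS TN

variable {S : Type} [MetricSpace S] [CompactSpace S] {X : Set ℂ} {Γ : Type} [Group Γ]
  {A : Γ → ℂ → ℂ} {p : ℂ → S} {g gi : S → S} {G Gi : ℂ → ℂ} {θ : Γ ≃* Γ} {ρ : ℂ → ℝ}
  {Hyp : S → Prop} {U : Set ℂ} {N : Subgroup Γ} {ψ v : ℂ → ℂ} {F : Fuchs N}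

omit [CompactSpace S] in
theorem CV_HE_mem (D : Deck X A p) (L : Lift X A p g gi G Gi θ ρ) (M : Dom X A p g G U N)
    (n : ℕ) {c : Γ} (hc : c ∈ N) : θ^[n] c ∈ N := by
  induction n with
  | zero => exact hc
  | succ n ih =>
    rw [iterate_succ_apply']
    exact (Dom.theta_mem D L M _).2 ih

omit [CompactSpace S] in
theorem CV_HE_equi (D : Deck X A p) (L : Lift X A p g gi G Gi θ ρ) (n : ℕ) (d : Γ) {x : ℂ}
    (hx : x ∈ X) : Gi^[n] (A (θ^[n] d) x) = A d (Gi^[n] x) := by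
  obtain ⟨i1, i2, i3, i4, -, -, i7, -⟩ := L.iter n
  have h1 := i7 d (Gi^[n] x) (i2 hx)
  rw [i4 x hx] at h1
  rw [← h1, i3 _ (D.maps d (i2 hx))]

omit [CompactSpace S] in
theorem CV_HE_map (D : Deck X A p) (L : Lift X A p g gi G Gi θ ρ) (M : Dom X A p g G U N)
    (n : ℕ) {c : Γ} (hc : c ∈ N) {x : ℂ} (hx : x ∈ fil X U) :
    A c (G^[n] x) ∈ fil X U ∧ Gi^[n] (A c⁻¹ x) ∈ fil X U := by
  obtain ⟨h1, h2, -, -⟩ := fil_iter D L M n hc
  constructor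
  · rw [← h1]; exact ⟨x, hx, rfl⟩
  · rw [← h2]; exact ⟨x, hx, rfl⟩

theorem lf_comp (D : Deck X A p) (L : Lift X A p g gi G Gi θ ρ) (M : Dom X A p g G U N)
    (R : Riem (fil X U) ψ v) (hF : Act A ψ v F) {n n' : ℕ} {c c' : N} {e e' : Elt N}
    (he : Lf A G Gi θ ψ v F n c e) (he' : Lf A G Gi θ ψ v F n' c' e') :
    ∃ c'', Lf A G Gi θ ψ v F (n + n') c'' (e.comp e') := by
  refine ⟨⟨c * θ^[n] c', N.mul_mem c.2 (CV_HE_mem D L M n c'.2)⟩, he.norm.comp he'.norm, ?_, ?_, ?_⟩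
  · intro z hz
    have hx : ψ z ∈ fil X U := R.mψ hz
    have hxX : ψ z ∈ X := fil_sub hx
    obtain ⟨j1, -, -, -, -, -, -, -⟩ := L.iter n'
    obtain ⟨i1, -, -, -, -, -, i7, -⟩ := L.iter n
    have hw := (CV_HE_map D L M n' c'.2 hx).1
    show e.H (e'.H z) = v (A ((c : Γ) * θ^[n] c') (G^[n + n'] (ψ z)))
    rw [he'.H z hz, he.H _ (R.mv hw), R.ψv _ hw, i7 _ _ (j1 hxX), ← D.mul _ _ _ (i1 (j1 hxX)),
      iterate_add_apply]
  · intro z hz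
    have hx : ψ z ∈ fil X U := R.mψ hz
    have hxX : ψ z ∈ X := fil_sub hx
    have hw := (CV_HE_map D L M n c.2 hx).2
    have hy : A (c : Γ)⁻¹ (ψ z) ∈ X := D.maps _ hxX
    show e'.Hi (e.Hi z) = v (Gi^[n + n'] (A ((c : Γ) * θ^[n] c')⁻¹ (ψ z)))
    rw [he.Hi z hz, he'.Hi _ (R.mv hw), R.ψv _ hw, mul_inv_rev, D.mul _ _ _ hxX,
      ← iterate_map_inv, add_comm n n', iterate_add_apply, CV_HE_equi D L n _ hy]
  · intro d
    show ((e.θ (e'.θ d) : N) : Γ) = (c : Γ) * θ^[n] c' * (θ^[n + n'] d) * ((c : Γ) * θ^[n] c')⁻¹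
    rw [he.th, he'.th, iterate_map_mul, iterate_map_mul, iterate_map_inv, iterate_add_apply]
    group

theorem lf_lmul (D : Deck X A p) (L : Lift X A p g gi G Gi θ ρ) (M : Dom X A p g G U N)
    (R : Riem (fil X U) ψ v) (hF : Act A ψ v F) {n : ℕ} {c : N} {e : Elt N}
    (he : Lf A G Gi θ ψ v F n c e) (d : N) :
    Lf A G Gi θ ψ v F n (d * c) (e.lmul F d) := by
  refine ⟨he.norm.lmul d, ?_, ?_, ?_⟩
  · intro z hz
    have hx : ψ z ∈ fil X U := R.mψ hz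
    have hxX : ψ z ∈ X := fil_sub hx
    obtain ⟨i1, -, -, -, -, -, -, -⟩ := L.iter n
    have hw := (CV_HE_map D L M n c.2 hx).1
    show F.act d (e.H z) = v (A ((d : Γ) * c) (G^[n] (ψ z)))
    rw [he.H z hz, hF d _ (R.mv hw), R.ψv _ hw, D.mul _ _ _ (i1 hxX)]
  · intro z hz
    have hx : ψ z ∈ fil X U := R.mψ hz
    have hxX : ψ z ∈ X := fil_sub hx
    have hw : A (d : Γ)⁻¹ (ψ z) ∈ fil X U := by
      have := (CV_HE_map D L M 0 d.2 hx).2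
      exact this
    show e.Hi (F.act d⁻¹ z) = v (Gi^[n] (A ((d : Γ) * c)⁻¹ (ψ z)))
    rw [hF d⁻¹ z hz, Subgroup.coe_inv, he.Hi _ (R.mv hw), R.ψv _ hw, mul_inv_rev, D.mul _ _ _ hxX]
  · intro a
    show ((d * e.θ a * d⁻¹ : N) : Γ) = (d : Γ) * c * (θ^[n] a) * ((d : Γ) * c)⁻¹
    rw [Subgroup.coe_mul, Subgroup.coe_mul, Subgroup.coe_inv, he.th]
    group

theorem fam (D : Deck X A p) (L : Lift X A p g gi G Gi θ ρ) (C : Cond X A p g gi G Hyp)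
    (M : Dom X A p g G U N) (R : Riem (fil X U) ψ v) (hF : Act A ψ v F) (hI : F.Nonel → F.UC) :
    Fam F (FamH A G Gi θ ψ v F) where
  ne := by
    obtain ⟨e, he⟩ := exists_lf D L M R hF one_pos (1 : N)
    exact ⟨e, 1, one_pos, 1, he⟩
  norm := by
    rintro e ⟨n, -, c, he⟩
    exact he.norm
  comp := by
    rintro e ⟨n, hn, c, he⟩ e' ⟨n', -, c', he'⟩
    obtain ⟨c'', h⟩ := lf_comp D L M R hF he he'
    exact ⟨n + n', by omega, c'', h⟩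
  lmul := by
    rintro e ⟨n, hn, c, he⟩ d
    exact ⟨n, hn, d * c, lf_lmul D L M R hF he d⟩
  bd := by
    rintro e ⟨n, hn, c, he⟩ ξ hξ hf
    exact fixed_lim D L C M R hF hI hn he hξ hf
  holes := by
    rintro e ⟨n, hn, c, he⟩
    obtain ⟨m, Y, -, -, ⟨O, k, h, -⟩, -, -⟩ := exists_holes D L C M R hF hn he
    exact ⟨m, O, k, h⟩
  holesi := by
    rintro e ⟨n, hn, c, he⟩
    obtain ⟨m, Y, -, -, -, ⟨O, k, h, -⟩, -⟩ := exists_holes D L C M R hF hn he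
    exact ⟨m, O, k, h⟩

end CV
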