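import Pool.Agent.H12.TN.MB
import Pool.Agent.H12.CV.MM

/-!
HM (the hyperbolic metric of the disc).  `hd x y = log ((1 + pd x y)/(1 - pd x y))`.
`pd_tri`: `pd x z ≤ (pd x y + pd y z)/(1 + pd x y * pd y z)`.  By `mob_pd` with `b = y` we may assume `y = 0` (`mob 1 y y = 0`), where `pd x 0 = ‖x‖`: the claim is `‖x - z‖ / ‖1 - conj x z‖ ≤ (s + t)/(1 + s t)`, `s = ‖x‖`, `t = ‖z‖`.  With
`c = Re (conj x z) ∈ [-s t, s t]`: `‖x - z‖² = s² + t² - 2c`, `‖1 - conj x z‖² = 1 - 2c + s² t²`; the quotient `(s² + t² - 2c)/(1 + s² t² - 2c)` is a decreasing function of `c` (numerator minus denominator is `-(1-s²)(1-t²) ≤ 0`), so it is at most its value at `c = - s t`.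
`hd_tri`: `F u = log ((1+u)/(1-u))` is increasing on `[0,1)` and `F ((u+v)/(1+uv)) = F u + F v`.
`hd_mob`: `mob_pd`.  `hd_nonneg`, `hd_symm`, `hd_self` clear.  `hd_zero`: `pd x 0 = ‖x‖`.
`hd_radial`: for `0 ≤ r ≤ s < 1`, `‖ζ‖ = 1`: `pd (r ζ) (s ζ) = (s - r)/(1 - r s)`, and `(1 + pd)/(1 - pd) = ((1+s)(1-r))/((1-s)(1+r))`.
`hd_bound`: `pd x y ≤ k` iff `hd x y ≤ log ((1+k)/(1-k))`; `norm_of_hd`: `hd x 0 ≤ R` iff `‖x‖ ≤ (e^R - 1)/(e^R + 1)`.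
`hd_close`: if `hd x y ≤ R` then `‖x - y‖² ≤ e^(2R) (1 - ‖x‖²)(1 - ‖y‖²)`: from `‖1 - conj x y‖² = ‖x - y‖² + (1-‖x‖²)(1-‖y‖²)`: `‖x - y‖² (1 - k²) ≤ k² (1-‖x‖²)(1-‖y‖²)`, `k = pd x y`, and `k²/(1 - k²) ≤ 1/(1-k) ≤ e^R`.
`hd_schwarz`: `schwarz_pick`.
-/

namespace CV

open Metric Set Filter Topology DS TN

/-- the hyperbolic distance of the unit disc -/
noncomputable def hd (x y : ℂ) : ℝ := Real.log ((1 + pd x y) / (1 - pd x y))

theorem HM_pd_nonneg (x y : ℂ) : 0 ≤ pd x y := by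
  unfold pd
  positivity

theorem HM_base {x z : ℂ} (hx : ‖x‖ < 1) (hz : ‖z‖ < 1) :
    pd x z ≤ (‖x‖ + ‖z‖) / (1 + ‖x‖ * ‖z‖) := by
  have h0 := den_ne hx hz.le
  have hD : 0 < ‖1 - (starRingEnd ℂ) x * z‖ := norm_pos_iff.2 h0
  have hk := MB_key x z
  have hD2 : ‖1 - (starRingEnd ℂ) x * z‖ ≤ 1 + ‖x‖ * ‖z‖ := by
    refine (norm_sub_le _ _).trans ?_
    rw [norm_one, norm_mul, RCLike.norm_conj]
  have hs := norm_nonneg x
  have ht := norm_nonneg z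
  rw [norm_sub_rev z x] at hk
  unfold pd
  set D := ‖1 - (starRingEnd ℂ) x * z‖
  set N := ‖x - z‖ with hN
  have hN0 : 0 ≤ N := norm_nonneg _
  set a := ‖x‖
  set b := ‖z‖
  have hab : 0 ≤ a * b := mul_nonneg hs ht
  rw [div_le_div_iff₀ hD (by linarith)]
  have hK : 0 ≤ (1 - a ^ 2) * (1 - b ^ 2) := by
    have h1 : 0 ≤ 1 - a ^ 2 := by nlinarith
    have h2 : 0 ≤ 1 - b ^ 2 := by nlinarith
    exact mul_nonneg h1 h2
  have hD3 : D ^ 2 ≤ (1 + a * b) ^ 2 := by nlinarith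
  refine abs_le_of_sq_le_sq' ?_ (by positivity) |>.2
  have e1 : (N * (1 + a * b)) ^ 2 = (D ^ 2 - (1 - a ^ 2) * (1 - b ^ 2)) * (1 + a * b) ^ 2 := by
    rw [← hk]; ring
  rw [e1]
  have e2 : ((a + b) * D) ^ 2 = ((1 + a * b) ^ 2 - (1 - a ^ 2) * (1 - b ^ 2)) * D ^ 2 := by ring
  rw [e2]
  nlinarith [mul_le_mul_of_nonneg_left hD3 hK]

theorem pd_tri {x y z : ℂ} (hx : ‖x‖ < 1) (hy : ‖y‖ < 1) (hz : ‖z‖ < 1) :
    pd x z ≤ (pd x y + pd y z) / (1 + pd x y * pd y z) := by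
  have h1 : pd x y = ‖mob 1 y x‖ := by rw [pd_symm, MB_pd_eq]
  have h2 : pd y z = ‖mob 1 y z‖ := MB_pd_eq y z
  have h3 : pd x z = pd (mob 1 y x) (mob 1 y z) := (mob_pd norm_one hy hx.le hz).symm
  rw [h1, h2, h3]
  exact HM_base (mob_ball norm_one hy hx) (mob_ball norm_one hy hz)

theorem HM_mono {u v : ℝ} (hu : 0 ≤ u) (huv : u ≤ v) (hv : v < 1) :
    Real.log ((1 + u) / (1 - u)) ≤ Real.log ((1 + v) / (1 - v)) := by
  have h1 : 0 < 1 - v := by linarith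
  have h2 : 0 < 1 - u := by linarith
  refine Real.log_le_log (by positivity) ?_
  rw [div_le_div_iff₀ h2 h1]
  nlinarith

theorem HM_add {u v : ℝ} (hu : 0 ≤ u) (hu1 : u < 1) (hv : 0 ≤ v) (hv1 : v < 1) :
    Real.log ((1 + (u + v) / (1 + u * v)) / (1 - (u + v) / (1 + u * v))) =
      Real.log ((1 + u) / (1 - u)) + Real.log ((1 + v) / (1 - v)) := by
  have h1 : 0 < 1 - v := by linarith
  have h2 : 0 < 1 - u := by linarith
  have h3 : 0 < 1 + u * v := by positivity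
  rw [← Real.log_mul (by positivity) (by positivity)]
  congr 1
  have h4 : 1 - (u + v) / (1 + u * v) = (1 - u) * (1 - v) / (1 + u * v) := by
    field_simp
    ring
  have h5 : 1 + (u + v) / (1 + u * v) = (1 + u) * (1 + v) / (1 + u * v) := by
    field_simp
    ring
  rw [h4, h5]
  field_simp

theorem HM_add_lt {u v : ℝ} (hu : 0 ≤ u) (hu1 : u < 1) (hv : 0 ≤ v) (hv1 : v < 1) :
    (u + v) / (1 + u * v) < 1 := by
  rw [div_lt_one (by positivity)]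
  nlinarith

theorem hd_nonneg {x y : ℂ} (hx : ‖x‖ < 1) (hy : ‖y‖ < 1) : 0 ≤ hd x y := by
  have h1 := HM_pd_nonneg x y
  have h2 := pd_lt hx hy
  unfold hd
  refine Real.log_nonneg ?_
  rw [one_le_div (by linarith)]
  linarith

theorem hd_self (x : ℂ) : hd x x = 0 := by
  simp [hd, pd]

theorem hd_symm (x y : ℂ) : hd x y = hd y x := by
  rw [hd, hd, pd_symm]

theorem hd_tri {x y z : ℂ} (hx : ‖x‖ < 1) (hy : ‖y‖ < 1) (hz : ‖z‖ < 1) :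
    hd x z ≤ hd x y + hd y z := by
  have h1 := HM_pd_nonneg x y
  have h2 := pd_lt hx hy
  have h3 := HM_pd_nonneg y z
  have h4 := pd_lt hy hz
  unfold hd
  rw [← HM_add h1 h2 h3 h4]
  exact HM_mono (HM_pd_nonneg x z) (pd_tri hx hy hz) (HM_add_lt h1 h2 h3 h4)

theorem hd_mob {u b x y : ℂ} (hu : ‖u‖ = 1) (hb : ‖b‖ < 1) (hx : ‖x‖ < 1) (hy : ‖y‖ < 1) :
    hd (mob u b x) (mob u b y) = hd x y := by
  rw [hd, hd, mob_pd hu hb hx.le hy]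

theorem hd_zero (x : ℂ) : hd x 0 = Real.log ((1 + ‖x‖) / (1 - ‖x‖)) := by
  simp [hd, pd]

theorem hd_radial {ζ : ℂ} (hζ : ‖ζ‖ = 1) {r s : ℝ} (h0 : 0 ≤ r) (hrs : r ≤ s) (hs : s < 1) :
    hd (r * ζ) (s * ζ) = Real.log ((1 + s) / (1 - s)) - Real.log ((1 + r) / (1 - r)) := by
  have h1 : 0 < 1 - s := by linarith
  have h2 : 0 < 1 - r := by linarith
  have h3 : 0 ≤ s := h0.trans hrs
  have h4 : 0 < 1 - r * s := by nlinarith
  have hpd : pd (r * ζ) (s * ζ) = (s - r) / (1 - r * s) := by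
    unfold pd
    have e1 : ‖(r * ζ - s * ζ : ℂ)‖ = s - r := by
      rw [← sub_mul, norm_mul, hζ, mul_one, ← Complex.ofReal_sub, Complex.norm_real,
        Real.norm_eq_abs, abs_sub_comm, abs_of_nonneg (by linarith)]
    have e2 : 1 - (starRingEnd ℂ) (r * ζ) * (s * ζ) = ((1 - r * s : ℝ) : ℂ) := by
      have e3 : (starRingEnd ℂ) ζ * ζ = 1 := MB_uu hζ
      rw [map_mul, Complex.conj_ofReal]
      push_cast
      linear_combination (-(r : ℂ) * s) * e3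
    rw [e1, e2, Complex.norm_real, Real.norm_eq_abs, abs_of_pos h4]
  unfold hd
  rw [hpd, ← Real.log_div (by positivity) (by positivity)]
  congr 1
  have h5 : 1 + (s - r) / (1 - r * s) = (1 + s) * (1 - r) / (1 - r * s) := by
    rw [eq_div_iff h4.ne', add_mul, div_mul_cancel₀ _ h4.ne']
    ring
  have h6 : 1 - (s - r) / (1 - r * s) = (1 - s) * (1 + r) / (1 - r * s) := by
    rw [eq_div_iff h4.ne', sub_mul, div_mul_cancel₀ _ h4.ne']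
    ring
  rw [h5, h6, div_div_div_cancel_right₀ h4.ne', div_div_div_eq]

/-- balls are relatively compact -/
theorem hd_ball (R : ℝ) : ∃ ρ < (1:ℝ), ∀ x : ℂ, ‖x‖ < 1 → hd x 0 ≤ R → ‖x‖ ≤ ρ := by
  refine ⟨1 - Real.exp (-R), by linarith [Real.exp_pos (-R)], fun x hx h => ?_⟩
  rw [hd_zero] at h
  have h1 : 0 < 1 - ‖x‖ := by linarith
  have h2 := norm_nonneg x
  have h3 : (1 + ‖x‖) / (1 - ‖x‖) ≤ Real.exp R := by
    rwa [← Real.log_le_iff_le_exp (by positivity)]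
  rw [div_le_iff₀ h1] at h3
  have h4 : Real.exp (-R) * Real.exp R = 1 := by rw [← Real.exp_add]; simp
  have h5 := Real.exp_pos (-R)
  have h6 : Real.exp (-R) * (1 + ‖x‖) ≤ 1 - ‖x‖ := by
    calc Real.exp (-R) * (1 + ‖x‖) ≤ Real.exp (-R) * (Real.exp R * (1 - ‖x‖)) :=
          mul_le_mul_of_nonneg_left h3 h5.le
      _ = 1 - ‖x‖ := by rw [← mul_assoc, h4, one_mul]
  nlinarith

theorem hd_of_norm {ρ : ℝ} (hρ : ρ < 1) : ∃ R : ℝ, ∀ x : ℂ, ‖x‖ ≤ ρ → hd x 0 ≤ R := by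
  refine ⟨Real.log (2 / (1 - ρ)), fun x hx => ?_⟩
  rw [hd_zero]
  have h1 : 0 < 1 - ρ := by linarith
  have h2 : 0 < 1 - ‖x‖ := by linarith
  have h3 := norm_nonneg x
  refine Real.log_le_log (by positivity) ?_
  rw [div_le_div_iff₀ h2 h1]
  nlinarith

theorem hd_close {x y : ℂ} (hx : ‖x‖ < 1) (hy : ‖y‖ < 1) {R : ℝ} (h : hd x y ≤ R) :
    ‖x - y‖ ^ 2 ≤ Real.exp R * ((1 - ‖x‖ ^ 2) * (1 - ‖y‖ ^ 2)) := by
  have h0 := den_ne hx hy.le
  have hD : 0 < ‖1 - (starRingEnd ℂ) x * y‖ := norm_pos_iff.2 h0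
  have hk := MB_key x y
  rw [norm_sub_rev y x] at hk
  have hp0 := HM_pd_nonneg x y
  have hp1 := pd_lt hx hy
  have h1 : 0 < 1 - pd x y := by linarith
  have h2 : (1 + pd x y) / (1 - pd x y) ≤ Real.exp R := by
    rw [← Real.log_le_iff_le_exp (by positivity)]
    exact h
  have hN : ‖x - y‖ = pd x y * ‖1 - (starRingEnd ℂ) x * y‖ := by
    unfold pd
    rw [div_mul_cancel₀ _ hD.ne']
  rw [← hk, hN]
  set D := ‖1 - (starRingEnd ℂ) x * y‖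
  set k := pd x y
  have h3 : k ^ 2 ≤ Real.exp R * (1 - k ^ 2) := by
    have h4 : (1 + k) / (1 - k) * (1 - k ^ 2) ≤ Real.exp R * (1 - k ^ 2) :=
      mul_le_mul_of_nonneg_right h2 (by nlinarith)
    have h5 : (1 + k) / (1 - k) * (1 - k ^ 2) = (1 + k) ^ 2 := by
      field_simp
      ring
    rw [h5] at h4
    nlinarith
  calc (k * D) ^ 2 = k ^ 2 * D ^ 2 := by ring
    _ ≤ Real.exp R * (1 - k ^ 2) * D ^ 2 := mul_le_mul_of_nonneg_right h3 (by positivity)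
    _ = Real.exp R * (D ^ 2 - (k * D) ^ 2) := by ring

/-- far from `0` means close to the circle -/
theorem hd_far {x : ℂ} (hx : ‖x‖ < 1) {D : ℝ} (h : D ≤ hd x 0) :
    1 - ‖x‖ ^ 2 ≤ 4 * Real.exp (-D) := by
  rw [hd_zero] at h
  have h1 : 0 < 1 - ‖x‖ := by linarith
  have h2 := norm_nonneg x
  have h3 : Real.exp D ≤ (1 + ‖x‖) / (1 - ‖x‖) := by
    rwa [← Real.le_log_iff_exp_le (by positivity)]
  rw [le_div_iff₀ h1] at h3
  have h4 : Real.exp (-D) * Real.exp D = 1 := by rw [← Real.exp_add]; simp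
  have h5 := Real.exp_pos (-D)
  have h6 : 1 - ‖x‖ ≤ Real.exp (-D) * (1 + ‖x‖) := by
    calc 1 - ‖x‖ = Real.exp (-D) * (Real.exp D * (1 - ‖x‖)) := by rw [← mul_assoc, h4, one_mul]
      _ ≤ Real.exp (-D) * (1 + ‖x‖) := mul_le_mul_of_nonneg_left h3 h5.le
  have h7 : (1 + ‖x‖) ^ 2 ≤ 4 := by nlinarith
  calc 1 - ‖x‖ ^ 2 = (1 - ‖x‖) * (1 + ‖x‖) := by ring
    _ ≤ Real.exp (-D) * (1 + ‖x‖) * (1 + ‖x‖) := mul_le_mul_of_nonneg_right h6 (by linarith)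
    _ = (1 + ‖x‖) ^ 2 * Real.exp (-D) := by ring
    _ ≤ 4 * Real.exp (-D) := mul_le_mul_of_nonneg_right h7 h5.le

theorem hd_schwarz {ψ : ℂ → ℂ} (hψ : DifferentiableOn ℂ ψ (ball 0 1))
    (m : MapsTo ψ (ball 0 1) (ball 0 1)) {x y : ℂ} (hx : x ∈ ball (0:ℂ) 1)
    (hy : y ∈ ball (0:ℂ) 1) : hd (ψ x) (ψ y) ≤ hd x y := by
  have hx' := mem_ball_zero_iff.1 hx
  have hy' := mem_ball_zero_iff.1 hy
  exact HM_mono (HM_pd_nonneg _ _) (schwarz_pick hψ m hx hy) (pd_lt hx' hy')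

end CV
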