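import Pool.Agent.H12.CV.HM

/-!
MO (discrete Morse lemma in the disc).  `q : ℕ → ℂ` is a chain in the disc with `q 0 = 0`, `hd (q i) (q (i+1)) ≤ C`, `hd (q i) (q j) ≥ |i - j| - C` for `i, j ≤ n`; let `y = q n`.  Claim: every point `x = t y`, `t ∈ [0,1]`, of the radial segment is at `hd`-distance `≤ R` from some
`q i`, `i ≤ n`, with `R` depending only on `C`.
Proof.  We may assume `C ≥ 1`.  Let `ℓ = hd y 0`; parametrise the segment by `hd`-length: `γ(τ)`, `0 ≤ τ ≤ ℓ`, `hd (γ τ) (γ τ') = |τ - τ'|` (`hd_radial`).  Let `D = max_τ min_i hd (γ τ) (q i)` (compactness), attained at `x = γ τ₀`.  Let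
`τ₁ = max (τ₀ - 2D) 0`, `τ₂ = min (τ₀ + 2D) ℓ`, `y₁ = γ τ₁`, `y₂ = γ τ₂`; there are `a, b ≤ n` with `hd y₁ (q a) ≤ D`, `hd y₂ (q b) ≤ D`; if `τ₁ = 0` take `a = 0` (`y₁ = q 0`), if `τ₂ = ℓ` take `b = n` (`y₂ = q n`); then `hd y₁ (q a) = 0`.
`|a - b| ≤ hd (q a) (q b) + C ≤ 2D + 4D + C`.  All `q i` satisfy `hd x (q i) ≥ D`.
Move `x` to `0` by the Moebius map `m = mob 1 x` (an isometry for `hd`); put `w_i = m (q i)`, `hd w_i 0 ≥ D`, so `1 - ‖w_i‖² ≤ 4 e^(-D)` (`hd_far`), and `‖w_i - w_(i+1)‖² ≤ e^C 16 e^(-2D)` (`hd_close`), `‖w_i - w_(i+1)‖ ≤ 4 e^(C/2) e^(-D)`.  So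
`‖w_a - w_b‖ ≤ (6D + C) 4 e^(C/2) e^(-D)`.  Ends: if `τ₁ = τ₀ - 2D > 0` then `hd y₁ x = 2D`, `hd y₁ (q a) ≤ D`; the Euclidean distance of `m y₁` and `w_a`: along the segment from `y₁` to `q a` (radial after moving) all points are at distance `≥ D` from `x`; use instead one step:
choose intermediate points `y₁ = z_0, z_1, .., z_k = q a` with steps `≤ 1`, `k ≤ D + 1`, on the geodesic from `y₁` to `q a` (i.e. the image of a radial segment under a Moebius map), `hd x z_j ≥ 2D - D = D`; so `‖m y₁ - w_a‖ ≤ (D + 1) 4 e^(1/2) e^(-D)`.  Same for `y₂`.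
On the other hand `m y₁` and `m y₂` are on the diameter through `0 = m x`, on opposite sides of `0`, (m maps the diameter through `x` to itself: `x = t y` and `m` has real coefficients in the coordinate `z conj(y)/‖y‖`), each at `hd`-distance `≥ D` from `0` (if `τ₁ = 0`: `hd x (q 0) ≥ D`), so if `D ≥ 2`,
`‖m y_i‖ ≥ (e^D - 1)/(e^D + 1) ≥ 1/2` and `‖m y₁ - m y₂‖ ≥ 1`.  Hence `1 ≤ (6D + C + 2D + 2) 4 e^(C/2 + 1) e^(-D)`, which bounds `D` (`D e^(-D) ≤ 2 e^(-D/2)`).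
-/

namespace CV

open Metric Set Filter Topology DS TN

/-- the radius at distance `τ` from `0` -/
noncomputable def MO_G (τ : ℝ) : ℝ := (Real.exp τ - 1) / (Real.exp τ + 1)

theorem MO_one_sub (τ : ℝ) : 1 - MO_G τ = 2 / (Real.exp τ + 1) := by
  have h := Real.exp_pos τ
  rw [MO_G]; field_simp; ring

theorem MO_one_add (τ : ℝ) : 1 + MO_G τ = 2 * Real.exp τ / (Real.exp τ + 1) := by
  have h := Real.exp_pos τ
  rw [MO_G]; field_simp; ring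

theorem MO_lt (τ : ℝ) : MO_G τ < 1 := by
  have h := MO_one_sub τ
  have h1 : 0 < 2 / (Real.exp τ + 1) := by positivity
  linarith

theorem MO_nonneg {τ : ℝ} (h : 0 ≤ τ) : 0 ≤ MO_G τ := by
  rw [MO_G]
  have := Real.one_le_exp h
  exact div_nonneg (by linarith) (by positivity)

theorem MO_mono {τ τ' : ℝ} (h : τ ≤ τ') : MO_G τ ≤ MO_G τ' := by
  have h1 := MO_one_sub τ
  have h2 := MO_one_sub τ'
  have h3 : 2 / (Real.exp τ' + 1) ≤ 2 / (Real.exp τ + 1) := by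
    have := Real.exp_le_exp.2 h
    exact div_le_div_of_nonneg_left (by norm_num) (by positivity) (by linarith)
  linarith

theorem MO_FG (τ : ℝ) : Real.log ((1 + MO_G τ) / (1 - MO_G τ)) = τ := by
  rw [MO_one_add, MO_one_sub]
  have h0 := Real.exp_pos τ
  have : 2 * Real.exp τ / (Real.exp τ + 1) / (2 / (Real.exp τ + 1)) = Real.exp τ := by
    field_simp
  rw [this, Real.log_exp]

theorem MO_GF {u : ℝ} (h0 : 0 ≤ u) (h1 : u < 1) : MO_G (Real.log ((1 + u) / (1 - u))) = u := by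
  have h2 : 0 < 1 - u := by linarith
  have h3 : 0 < (1 + u) / (1 - u) := by positivity
  rw [MO_G, Real.exp_log h3]
  have h4 : (1 + u) / (1 - u) - 1 = 2 * u / (1 - u) := by field_simp; ring
  have h5 : (1 + u) / (1 - u) + 1 = 2 / (1 - u) := by field_simp; ring
  rw [h4, h5]
  field_simp

theorem MO_hd {ζ : ℂ} (hζ : ‖ζ‖ = 1) {τ τ' : ℝ} (h0 : 0 ≤ τ) (h : τ ≤ τ') :
    hd (MO_G τ * ζ) (MO_G τ' * ζ) = τ' - τ := by
  rw [hd_radial hζ (MO_nonneg h0) (MO_mono h) (MO_lt _), MO_FG, MO_FG]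

theorem MO_mob {ζ : ℂ} (hζ : ‖ζ‖ = 1) (r s : ℝ) :
    mob 1 (r * ζ) (s * ζ) = ((s - r) / (1 - r * s) : ℝ) * ζ := by
  have h1 : (starRingEnd ℂ) ζ * ζ = 1 := by rw [Complex.conj_mul', hζ]; simp
  have h2 : (starRingEnd ℂ) (r * ζ) * (s * ζ) = r * s := by
    rw [map_mul, Complex.conj_ofReal]
    linear_combination (r * s : ℂ) * h1
  rw [mob, h2]
  push_cast
  ring

theorem MO_to0 {x w : ℂ} (hx : ‖x‖ < 1) (hw : ‖w‖ < 1) : hd (mob 1 x w) 0 = hd w x := by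
  have h := hd_mob (u := 1) norm_one hx hw hx
  have hx0 : mob 1 x x = 0 := by simp [mob]
  rwa [hx0] at h

theorem MO_close {x w w' : ℂ} (hx : ‖x‖ < 1) (hw : ‖w‖ < 1) (hw' : ‖w'‖ < 1) {K d d' f : ℝ}
    (h : hd w w' ≤ K) (h1 : d ≤ hd w x) (h2 : d' ≤ hd w' x) (h3 : K - d - d' ≤ 2 * f) :
    ‖mob 1 x w - mob 1 x w'‖ ≤ 4 * Real.exp f := by
  have hu : ‖(1:ℂ)‖ = 1 := norm_one
  have m1 := mob_ball hu hx hw
  have m2 := mob_ball hu hx hw'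
  have b1 := hd_far m1 (D := d) (by rw [MO_to0 hx hw]; exact h1)
  have b2 := hd_far m2 (D := d') (by rw [MO_to0 hx hw']; exact h2)
  have c1 := hd_close m1 m2 (R := K) (by rw [hd_mob hu hx hw hw']; exact h)
  have e1 : 0 ≤ 1 - ‖mob 1 x w'‖ ^ 2 := by nlinarith [norm_nonneg (mob 1 x w')]
  have e2 : ‖mob 1 x w - mob 1 x w'‖ ^ 2 ≤ (4 * Real.exp f) ^ 2 := by
    calc ‖mob 1 x w - mob 1 x w'‖ ^ 2
        ≤ Real.exp K * ((1 - ‖mob 1 x w‖ ^ 2) * (1 - ‖mob 1 x w'‖ ^ 2)) := c1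
      _ ≤ Real.exp K * ((4 * Real.exp (-d)) * (4 * Real.exp (-d'))) :=
          mul_le_mul_of_nonneg_left (mul_le_mul b1 b2 e1 (by positivity)) (Real.exp_pos _).le
      _ = 16 * Real.exp (K - d - d') := by
          rw [sub_eq_add_neg, sub_eq_add_neg, Real.exp_add, Real.exp_add]; ring
      _ ≤ 16 * Real.exp (2 * f) := by
          have := Real.exp_le_exp.2 h3
          linarith
      _ = (4 * Real.exp f) ^ 2 := by
          rw [two_mul, Real.exp_add]; ring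
  exact (pow_le_pow_iff_left₀ (norm_nonneg _) (by positivity) two_ne_zero).1 e2

theorem MO_chain {w : ℕ → ℂ} {s : ℝ} {a b : ℕ} (hab : a ≤ b)
    (h : ∀ i, a ≤ i → i < b → ‖w i - w (i + 1)‖ ≤ s) : ‖w a - w b‖ ≤ ((b : ℝ) - a) * s := by
  induction b, hab using Nat.le_induction with
  | base => simp
  | succ b hb ih =>
    have h1 := ih fun i h2 h3 => h i h2 (by omega)
    have h4 := h b hb (by omega)
    have h5 : w a - w (b + 1) = (w a - w b) + (w b - w (b + 1)) := by ring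
    rw [h5]
    refine (norm_add_le _ _).trans ?_
    push_cast
    linarith

/-- the estimate at a nearly farthest point -/
theorem MO_main {C : ℝ} {n : ℕ} {q : ℕ → ℂ} (hq : ∀ i ≤ n, ‖q i‖ < 1)
    (hC : ∀ i < n, hd (q i) (q (i + 1)) ≤ C)
    (hqq : ∀ i ≤ n, ∀ j ≤ n, i ≤ j → (j - i : ℝ) - C ≤ hd (q i) (q j)) {ζ : ℂ} (hζ : ‖ζ‖ = 1)
    {ℓ : ℝ} (hγ0 : (MO_G 0 * ζ : ℂ) = q 0) (hγℓ : (MO_G ℓ * ζ : ℂ) = q n) {d τ₀ : ℝ}
    (hτ₀ : τ₀ ∈ Icc (0:ℝ) ℓ) (hfar : ∀ i ≤ n, d ≤ hd (MO_G τ₀ * ζ) (q i))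
    (hnear : ∀ τ ∈ Icc (0:ℝ) ℓ, ∃ i ≤ n, hd (MO_G τ * ζ) (q i) ≤ d + 1)
    (hbig : 16 + 8 * Real.exp (C / 2) * (12 + |C|) < d) : False := by
  obtain ⟨A, hA⟩ : ∃ A, A = Real.exp (C / 2) := ⟨_, rfl⟩
  have hA0 : 0 < A := by rw [hA]; exact Real.exp_pos _
  rw [← hA] at hbig
  have hd16 : 16 < d := by
    have : 0 ≤ 8 * A * (12 + |C|) := by positivity
    linarith
  have hexp : 1 + d + d ^ 2 / 2 ≤ Real.exp d := Real.quadratic_le_exp_of_nonneg (by linarith)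
  have hγn : ∀ τ : ℝ, 0 ≤ τ → ‖(MO_G τ * ζ : ℂ)‖ < 1 := by
    intro τ hτ
    rw [norm_mul, hζ, mul_one, Complex.norm_real, Real.norm_eq_abs, abs_of_nonneg (MO_nonneg hτ)]
    exact MO_lt τ
  have hx := hγn _ hτ₀.1
  have hL : ∃ a ≤ n, ∃ τ₁ : ℝ, 0 ≤ τ₁ ∧ τ₁ ≤ τ₀ ∧ d ≤ τ₀ - τ₁ ∧ τ₀ - τ₁ ≤ 2 * (d + 1) ∧
      hd (MO_G τ₁ * ζ) (q a) ≤ d + 1 ∧
      ‖mob 1 (MO_G τ₀ * ζ) (MO_G τ₁ * ζ) - mob 1 (MO_G τ₀ * ζ) (q a)‖ ≤ 4 * Real.exp (-d) := by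
    rcases le_total (2 * (d + 1)) τ₀ with h | h
    · have hτ₁ : τ₀ - 2 * (d + 1) ∈ Icc (0:ℝ) ℓ := ⟨by linarith, by linarith [hτ₀.2]⟩
      obtain ⟨a, ha, h4⟩ := hnear _ hτ₁
      refine ⟨a, ha, τ₀ - 2 * (d + 1), hτ₁.1, by linarith, by linarith, by linarith, h4, ?_⟩
      have e1 : hd (MO_G (τ₀ - 2 * (d + 1)) * ζ) (MO_G τ₀ * ζ) = 2 * (d + 1) := by
        rw [MO_hd hζ hτ₁.1 (by linarith)]; ring
      have e2 := hd_tri (hγn _ hτ₁.1) (hq a ha) hx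
      exact MO_close hx (hγn _ hτ₁.1) (hq a ha) h4 (d := 2 * (d + 1)) (d' := d + 1) e1.ge
        (by linarith) (by linarith)
    · have e3 := hfar 0 (Nat.zero_le _)
      rw [hd_symm, ← hγ0, MO_hd hζ le_rfl hτ₀.1] at e3
      refine ⟨0, Nat.zero_le _, 0, le_rfl, hτ₀.1, e3, by linarith, ?_, ?_⟩
      · rw [← hγ0, hd_self]; linarith
      · rw [← hγ0, sub_self, norm_zero]; positivity
  have hR : ∃ b ≤ n, ∃ τ₂ : ℝ, τ₀ ≤ τ₂ ∧ d ≤ τ₂ - τ₀ ∧ τ₂ - τ₀ ≤ 2 * (d + 1) ∧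
      hd (MO_G τ₂ * ζ) (q b) ≤ d + 1 ∧
      ‖mob 1 (MO_G τ₀ * ζ) (MO_G τ₂ * ζ) - mob 1 (MO_G τ₀ * ζ) (q b)‖ ≤ 4 * Real.exp (-d) := by
    rcases le_total (τ₀ + 2 * (d + 1)) ℓ with h | h
    · have hτ₂ : τ₀ + 2 * (d + 1) ∈ Icc (0:ℝ) ℓ := ⟨by linarith [hτ₀.1], h⟩
      obtain ⟨b, hb, h4⟩ := hnear _ hτ₂
      refine ⟨b, hb, τ₀ + 2 * (d + 1), by linarith, by linarith, by linarith, h4, ?_⟩
      have e1 : hd (MO_G (τ₀ + 2 * (d + 1)) * ζ) (MO_G τ₀ * ζ) = 2 * (d + 1) := by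
        rw [hd_symm, MO_hd hζ hτ₀.1 (by linarith)]; ring
      have e2 := hd_tri (hγn _ hτ₂.1) (hq b hb) hx
      exact MO_close hx (hγn _ hτ₂.1) (hq b hb) h4 (d := 2 * (d + 1)) (d' := d + 1) e1.ge
        (by linarith) (by linarith)
    · have e3 := hfar n le_rfl
      rw [← hγℓ, MO_hd hζ hτ₀.1 hτ₀.2] at e3
      refine ⟨n, le_rfl, ℓ, hτ₀.2, e3, by linarith, ?_, ?_⟩
      · rw [← hγℓ, hd_self]; linarith
      · rw [← hγℓ, sub_self, norm_zero]; positivity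
  obtain ⟨a, ha, τ₁, h10, h1a, h1b, h1c, h1d, h1e⟩ := hL
  obtain ⟨b, hb, τ₂, h2a, h2b, h2c, h2d, h2e⟩ := hR
  have h20 : 0 ≤ τ₂ := hτ₀.1.trans h2a
  -- the number of steps
  have hab : hd (q a) (q b) ≤ 6 * (d + 1) := by
    have t1 := hd_tri (hq a ha) (hγn _ h10) (hq b hb)
    have t2 := hd_tri (hγn _ h10) (hγn _ h20) (hq b hb)
    have t3 := MO_hd hζ h10 (h1a.trans h2a)
    have t4 := hd_symm (q a) (MO_G τ₁ * ζ)
    linarith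
  have hstep : ∀ i < n, ‖mob 1 (MO_G τ₀ * ζ) (q i) - mob 1 (MO_G τ₀ * ζ) (q (i + 1))‖ ≤
      4 * Real.exp (C / 2 - d) := by
    intro i hi
    refine MO_close hx (hq i hi.le) (hq (i + 1) hi) (hC i hi) (d := d) (d' := d) ?_ ?_ (by linarith)
    · rw [hd_symm]; exact hfar i hi.le
    · rw [hd_symm]; exact hfar (i + 1) hi
  have hs : 4 * Real.exp (C / 2 - d) = 4 * A * Real.exp (-d) := by
    rw [sub_eq_add_neg, Real.exp_add, hA]; ring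
  have hE : 0 < Real.exp (-d) := Real.exp_pos _
  have hmid : ‖mob 1 (MO_G τ₀ * ζ) (q a) - mob 1 (MO_G τ₀ * ζ) (q b)‖ ≤
      (6 * (d + 1) + |C|) * (4 * A * Real.exp (-d)) := by
    rw [← hs]
    have hs0 : 0 ≤ 4 * Real.exp (C / 2 - d) := by positivity
    have hCa := le_abs_self C
    rcases le_total a b with h | h
    · have h6 := MO_chain (w := fun i => mob 1 (MO_G τ₀ * ζ) (q i)) h
        fun i _ h8 => hstep i (h8.trans_le hb)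
      have h7 := hqq a ha b hb h
      refine h6.trans (mul_le_mul_of_nonneg_right ?_ hs0)
      linarith
    · have h6 := MO_chain (w := fun i => mob 1 (MO_G τ₀ * ζ) (q i)) h
        fun i _ h8 => hstep i (h8.trans_le ha)
      have h7 := hqq b hb a ha h
      rw [hd_symm] at h7
      rw [norm_sub_rev]
      refine h6.trans (mul_le_mul_of_nonneg_right ?_ hs0)
      linarith
  -- the norms of the end points
  have hsmall : 4 * Real.exp (-d) ≤ 3 / 4 := by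
    rw [Real.exp_neg]
    have h8 : 16 / 3 ≤ Real.exp d := by nlinarith
    have h9 : (Real.exp d)⁻¹ ≤ (16 / 3)⁻¹ := inv_anti₀ (by norm_num) h8
    linarith
  have hhalf : ∀ w : ℂ, ‖w‖ < 1 → d ≤ hd w (MO_G τ₀ * ζ) →
      1 / 2 ≤ ‖mob 1 (MO_G τ₀ * ζ) w‖ := by
    intro w hw h8
    have h9 := hd_far (mob_ball norm_one hx hw) (D := d) (by rw [MO_to0 hx hw]; exact h8)
    by_contra hc
    push Not at hc
    nlinarith [norm_nonneg (mob 1 (MO_G τ₀ * ζ) w)]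
  have n1 := hhalf _ (hγn _ h10) (by rw [MO_hd hζ h10 h1a]; exact h1b)
  have n2 := hhalf _ (hγn _ h20) (by rw [hd_symm, MO_hd hζ hτ₀.1 h2a]; exact h2b)
  have hden : ∀ τ : ℝ, 0 ≤ τ → 0 < 1 - MO_G τ₀ * MO_G τ := by
    intro τ hτ
    have p1 := MO_lt τ₀
    have p2 := MO_lt τ
    have p3 := MO_nonneg hτ
    have p4 := MO_nonneg hτ₀.1
    nlinarith
  have hone : 1 ≤ ‖mob 1 (MO_G τ₀ * ζ) (MO_G τ₁ * ζ) - mob 1 (MO_G τ₀ * ζ) (MO_G τ₂ * ζ)‖ := by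
    rw [MO_mob hζ, norm_mul, hζ, mul_one, Complex.norm_real, Real.norm_eq_abs] at n1 n2
    rw [MO_mob hζ, MO_mob hζ, ← sub_mul, norm_mul, hζ, mul_one, ← Complex.ofReal_sub,
      Complex.norm_real, Real.norm_eq_abs]
    have q1 : (MO_G τ₁ - MO_G τ₀) / (1 - MO_G τ₀ * MO_G τ₁) ≤ 0 :=
      div_nonpos_of_nonpos_of_nonneg (by linarith [MO_mono h1a]) (hden _ h10).le
    have q2 : 0 ≤ (MO_G τ₂ - MO_G τ₀) / (1 - MO_G τ₀ * MO_G τ₂) :=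
      div_nonneg (by linarith [MO_mono h2a]) (hden _ h20).le
    rw [abs_of_nonpos q1] at n1
    rw [abs_of_nonneg q2] at n2
    rw [abs_sub_comm]
    refine le_trans ?_ (le_abs_self _)
    linarith
  have hsum : ‖mob 1 (MO_G τ₀ * ζ) (MO_G τ₁ * ζ) - mob 1 (MO_G τ₀ * ζ) (MO_G τ₂ * ζ)‖ ≤
      4 * Real.exp (-d) + (6 * (d + 1) + |C|) * (4 * A * Real.exp (-d)) + 4 * Real.exp (-d) := by
    have h8 : mob 1 (MO_G τ₀ * ζ) (MO_G τ₁ * ζ) - mob 1 (MO_G τ₀ * ζ) (MO_G τ₂ * ζ) =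
        (mob 1 (MO_G τ₀ * ζ) (MO_G τ₁ * ζ) - mob 1 (MO_G τ₀ * ζ) (q a)) +
        (mob 1 (MO_G τ₀ * ζ) (q a) - mob 1 (MO_G τ₀ * ζ) (q b)) +
        (mob 1 (MO_G τ₀ * ζ) (q b) - mob 1 (MO_G τ₀ * ζ) (MO_G τ₂ * ζ)) := by ring
    rw [h8]
    refine (norm_add_le _ _).trans (add_le_add ((norm_add_le _ _).trans (add_le_add h1e hmid)) ?_)
    rw [norm_sub_rev]
    exact h2e
  have hfin : 1 ≤ (8 + 4 * A * (6 * (d + 1) + |C|)) * Real.exp (-d) := by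
    have := hone.trans hsum
    linarith
  have hfin2 : Real.exp d ≤ 8 + 4 * A * (6 * (d + 1) + |C|) := by
    have h9 : Real.exp d * Real.exp (-d) = 1 := by rw [← Real.exp_add]; simp
    have h10 := mul_le_mul_of_nonneg_left hfin (Real.exp_pos d).le
    have h11 : Real.exp d * ((8 + 4 * A * (6 * (d + 1) + |C|)) * Real.exp (-d)) =
        (8 + 4 * A * (6 * (d + 1) + |C|)) * (Real.exp d * Real.exp (-d)) := by ring
    rw [h11, h9] at h10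
    linarith
  have hCn := abs_nonneg C
  have f1 : d ^ 2 ≤ 16 + 8 * A * (6 * (d + 1) + |C|) := by nlinarith
  have f2 : 8 * A * (6 * (d + 1) + |C|) ≤ 8 * A * ((12 + |C|) * d) := by
    apply mul_le_mul_of_nonneg_left _ (by positivity)
    nlinarith
  have f3 : d ^ 2 ≤ (16 + 8 * A * (12 + |C|)) * d := by nlinarith
  have f4 : (16 + 8 * A * (12 + |C|)) * d < d * d := mul_lt_mul_of_pos_right hbig (by linarith)
  nlinarith

theorem morse (C : ℝ) : ∃ R : ℝ, ∀ (n : ℕ) (q : ℕ → ℂ), q 0 = 0 → (∀ i ≤ n, ‖q i‖ < 1) →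
    (∀ i < n, hd (q i) (q (i + 1)) ≤ C) →
    (∀ i ≤ n, ∀ j ≤ n, i ≤ j → (j - i : ℝ) - C ≤ hd (q i) (q j)) →
    ∀ t : ℝ, 0 ≤ t → t ≤ 1 → ∃ i ≤ n, hd (t * q n) (q i) ≤ R := by
  obtain ⟨R, hRd⟩ : ∃ R, R = 16 + 8 * Real.exp (C / 2) * (12 + |C|) := ⟨_, rfl⟩
  refine ⟨R + 3, fun n q hq0 hq hC hqq t ht0 ht1 => ?_⟩
  obtain ⟨ζ, hζ, hy⟩ : ∃ ζ : ℂ, ‖ζ‖ = 1 ∧ (‖q n‖ * ζ : ℂ) = q n := by
    by_cases h : q n = 0
    · exact ⟨1, norm_one, by rw [h]; simp⟩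
    · have h1 : ‖q n‖ ≠ 0 := norm_ne_zero_iff.2 h
      refine ⟨q n / ‖q n‖, ?_, ?_⟩
      · rw [norm_div, Complex.norm_real, norm_norm, div_self h1]
      · rw [mul_div_cancel₀]
        exact_mod_cast h1
  have hy1 := hq n le_rfl
  have hn0 := norm_nonneg (q n)
  obtain ⟨ℓ, hℓ⟩ : ∃ ℓ, ℓ = Real.log ((1 + ‖q n‖) / (1 - ‖q n‖)) := ⟨_, rfl⟩
  have hℓG : MO_G ℓ = ‖q n‖ := by rw [hℓ]; exact MO_GF hn0 hy1
  have hγℓ : (MO_G ℓ * ζ : ℂ) = q n := by rw [hℓG]; exact hy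
  have hγ0 : (MO_G 0 * ζ : ℂ) = q 0 := by rw [hq0, MO_G]; simp
  have key : ∀ τ ∈ Icc (0:ℝ) ℓ, ∃ i ≤ n, hd (MO_G τ * ζ) (q i) ≤ R + 3 := by
    by_contra hcon
    push Not at hcon
    obtain ⟨τ', hτ', hbig⟩ := hcon
    have hS : R + 3 ∈ {d : ℝ | ∃ τ ∈ Icc (0:ℝ) ℓ, ∀ i ≤ n, d ≤ hd (MO_G τ * ζ) (q i)} :=
      ⟨τ', hτ', fun i hi => (hbig i hi).le⟩
    obtain ⟨S, hSd⟩ : ∃ S : Set ℝ, S = {d : ℝ | ∃ τ ∈ Icc (0:ℝ) ℓ, ∀ i ≤ n,
      d ≤ hd (MO_G τ * ζ) (q i)} := ⟨_, rfl⟩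
    rw [← hSd] at hS
    have hSb : BddAbove S := by
      refine ⟨ℓ, ?_⟩
      rw [hSd]
      rintro d ⟨τ, hτ, h⟩
      have h2 := h 0 (Nat.zero_le _)
      rw [hd_symm, ← hγ0, MO_hd hζ le_rfl hτ.1] at h2
      linarith [hτ.2]
    obtain ⟨d, hdS, hd1⟩ := exists_lt_of_lt_csSup ⟨_, hS⟩
      (show max (sSup S - 1) (R + 2) < sSup S from
        max_lt (by linarith) (lt_of_lt_of_le (by linarith) (le_csSup hSb hS)))
    have hd2 : R + 2 < d := (le_max_right _ _).trans_lt hd1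
    have hd3 : sSup S - 1 < d := (le_max_left _ _).trans_lt hd1
    rw [hSd] at hdS
    obtain ⟨τ₀, hτ₀, hfar⟩ := hdS
    refine MO_main hq hC hqq hζ hγ0 hγℓ hτ₀ hfar ?_ (by rw [← hRd]; linarith)
    intro τ hτ
    by_contra hc
    push Not at hc
    have h5 : d + 1 ∈ S := by
      rw [hSd]
      exact ⟨τ, hτ, fun i hi => (hc i hi).le⟩
    have := le_csSup hSb h5
    linarith
  have hu0 : 0 ≤ t * ‖q n‖ := by positivity
  have hu1 : t * ‖q n‖ ≤ ‖q n‖ := mul_le_of_le_one_left hn0 ht1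
  have hu2 : t * ‖q n‖ < 1 := hu1.trans_lt hy1
  obtain ⟨i, hi, h6⟩ := key (Real.log ((1 + t * ‖q n‖) / (1 - t * ‖q n‖))) ⟨by
      apply Real.log_nonneg
      rw [le_div_iff₀ (by linarith)]
      linarith, by
      rw [hℓ]
      apply Real.log_le_log
      · have : 0 < 1 - t * ‖q n‖ := by linarith
        positivity
      · exact div_le_div₀ (by linarith) (by linarith) (by linarith) (by linarith)⟩
  rw [MO_GF hu0 hu2] at h6
  refine ⟨i, hi, ?_⟩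
  have h7 : (t * q n : ℂ) = ((t * ‖q n‖ : ℝ) : ℂ) * ζ := by
    rw [← hy, norm_mul, hζ]
    push_cast
    simp
    ring
  rw [h7]
  exact h6

end CV
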