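import Pool.Agent.H12.CV.Defs

/-!
TA (planar topology).  `zor`: `F = X \ U` with `X` open, `U` open (in `ℂ`); let `C = connectedComponentIn (X \ U) x` be compact, `C ⊆ V` open.
Choose an open `V'` with `C ⊆ V'`, `closure V'` compact and contained in `V ∩ X` (`exists_open_between_and_isCompact_closure`).  `K₀ = closure V' \ U` is compact.  The
component of `x` in `K₀` is `C` (it is connected in `X \ U`, and `C ⊆ V' \ U`).  In a compact Hausdorff space (the subtype `K₀`) the component is the
intersection of the clopen sets containing `x` (`connectedComponent_eq_iInter_isClopen`); the compact set `K₀ \ V'` is disjoint from it, so by compactness (finite intersections of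
clopen sets are clopen) there is a clopen subset `Q` of `K₀` with `x ∈ Q`, `C ⊆ Q ⊆ V'`.  `Q` and `K₀ \ Q` are disjoint compact sets: there is an open `O` with
`Q ⊆ O`, `closure O ⊆ V'`, `closure O ∩ (K₀ \ Q) = ∅` (normality).  A point `y` of `frontier O` is in `closure O ⊆ V' ⊆ X`; if `y ∉ U` then `y ∈ K₀`, so `y ∈ Q ⊆ O`, contradiction.
`comp_sub`: a preconnected set meeting `O` and not meeting `frontier O` is contained in `O` (`IsPreconnected.subset_or_subset...`; `O` open, `(closure O)ᶜ` open).
`comp_closed`: the component `C_y` of a point `y` in `X \ U`: if `C_y ⊆ O` with `closure O ⊆ X` compact then `closure C_y ⊆ X \ U` (`U` open) is connected and contains `y`, so it is `C_y`: compact.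
`comp_touch`: `U` nonempty, `C` compact component: `C` meets `closure U`.  Otherwise `zor` with `V = (closure U)ᶜ` gives `O`, nonempty open with `frontier O ⊆ U ∩ (closure U)ᶜ = ∅`, so `O` is clopen,
`O = univ`, contradiction to `U` nonempty, `O ⊆ closure O ⊆ V`.
`comp_same`: two components with a common point are equal (`connectedComponentIn_eq`).
-/

namespace CV

open Metric Set Filter Topology

theorem zor {X U V : Set ℂ} (hX : IsOpen X) (hU : IsOpen U) {x : ℂ} (hx : x ∈ X \ U)
    (hC : IsCompact (connectedComponentIn (X \ U) x)) (hV : IsOpen V)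
    (hCV : connectedComponentIn (X \ U) x ⊆ V) :
    ∃ O : Set ℂ, IsOpen O ∧ connectedComponentIn (X \ U) x ⊆ O ∧ IsCompact (closure O) ∧
      closure O ⊆ V ∩ X ∧ frontier O ⊆ U := by
  set C := connectedComponentIn (X \ U) x with hCdef
  have hCXU : C ⊆ X \ U := connectedComponentIn_subset _ _
  have hxC : x ∈ C := mem_connectedComponentIn hx
  have hCp : IsPreconnected C := isPreconnected_connectedComponentIn
  obtain ⟨V', hV'o, hCV', hV'cl, hV'c⟩ := exists_open_between_and_isCompact_closure hC
    (hV.inter hX) (fun y hy => ⟨hCV hy, (hCXU hy).1⟩)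
  set K₀ : Set ℂ := closure V' \ U with hK₀
  have hK₀c : IsCompact K₀ := hV'c.diff hU
  have hCK : C ⊆ K₀ := fun y hy => ⟨subset_closure (hCV' hy), (hCXU hy).2⟩
  have hKXU : K₀ ⊆ X \ U := fun y hy => ⟨(hV'cl hy.1).2, hy.2⟩
  have hxK : x ∈ K₀ := hCK hxC
  have hcs : CompactSpace K₀ := isCompact_iff_compactSpace.mp hK₀c
  have hcomp : connectedComponentIn K₀ x ⊆ C :=
    isPreconnected_connectedComponentIn.subset_connectedComponentIn
      (mem_connectedComponentIn hxK) ((connectedComponentIn_subset _ _).trans hKXU)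
  have hcomp' : C ⊆ connectedComponentIn K₀ x := hCp.subset_connectedComponentIn hxC hCK
  have himg : connectedComponentIn K₀ x = Subtype.val '' connectedComponent (⟨x, hxK⟩ : K₀) :=
    connectedComponentIn_eq_image hxK
  -- a clopen set
  obtain ⟨Q, hQcl, hxQ, hQV⟩ : ∃ Q : Set K₀, IsClopen Q ∧
      connectedComponent (⟨x, hxK⟩ : K₀) ⊆ Q ∧ Q ⊆ Subtype.val ⁻¹' V' := by
    have hne : Nonempty {s : Set K₀ // IsClopen s ∧ (⟨x, hxK⟩ : K₀) ∈ s} :=
      ⟨⟨univ, isClopen_univ, mem_univ _⟩⟩
    obtain ⟨i, hi⟩ := exists_subset_nhds_of_compactSpace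
      (V := fun s : {s : Set K₀ // IsClopen s ∧ (⟨x, hxK⟩ : K₀) ∈ s} => s.1)
      (U := Subtype.val ⁻¹' V') (by
        rintro ⟨s, hs, hs'⟩ ⟨t, ht, ht'⟩
        exact ⟨⟨s ∩ t, hs.inter ht, hs', ht'⟩, inter_subset_left, inter_subset_right⟩)
      (fun i => i.2.1.isClosed) (by
        intro y hy
        rw [← connectedComponent_eq_iInter_isClopen] at hy
        refine (hV'o.preimage continuous_subtype_val).mem_nhds ?_
        have h1 : y.1 ∈ connectedComponentIn K₀ x := by
          rw [himg]; exact ⟨y, hy, rfl⟩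
        exact hCV' (hcomp h1))
    exact ⟨i.1, i.2.1, i.2.1.connectedComponent_subset i.2.2, hi⟩
  have hQc : IsCompact (Subtype.val '' Q) :=
    (hQcl.isClosed.isCompact).image continuous_subtype_val
  have hRc : IsCompact (Subtype.val '' Qᶜ) :=
    (hQcl.compl.isClosed.isCompact).image continuous_subtype_val
  obtain ⟨O, hO, hQO, hOcl, hOc⟩ := exists_open_between_and_isCompact_closure hQc
    (hV'o.inter hRc.isClosed.isOpen_compl) (by
      rintro _ ⟨y, hy, rfl⟩
      refine ⟨hQV hy, ?_⟩
      rintro ⟨z, hz, hzy⟩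
      exact hz (by rwa [Subtype.ext hzy]))
  refine ⟨O, hO, ?_, hOc, ?_, ?_⟩
  · refine hcomp'.trans ?_
    rw [himg]
    exact (image_mono hxQ).trans hQO
  · exact fun y hy => hV'cl (subset_closure (hOcl hy).1)
  · intro y hy
    by_contra hyU
    have h1 := hOcl hy.1
    have h2 : y ∈ K₀ := ⟨subset_closure h1.1, hyU⟩
    have h3 : (⟨y, h2⟩ : K₀) ∈ Q := by
      by_contra h4
      exact h1.2 ⟨⟨y, h2⟩, h4, rfl⟩
    have h4 : y ∈ O := hQO ⟨⟨y, h2⟩, h3, rfl⟩
    have h5 := hy.2
    rw [hO.interior_eq] at h5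
    exact h5 h4

theorem comp_sub {O C : Set ℂ} (hO : IsOpen O) (hC : IsPreconnected C) (hCO : (C ∩ O).Nonempty)
    (hf : Disjoint C (frontier O)) : C ⊆ O := by
  refine IsPreconnected.subset_left_of_subset_union (v := (closure O)ᶜ) hO
    isClosed_closure.isOpen_compl ?_ ?_ hCO hC
  · exact Set.disjoint_left.mpr fun y h1 h2 => h2 (subset_closure h1)
  · intro y hy
    by_cases h : y ∈ O
    · exact Or.inl h
    · refine Or.inr fun h2 => Set.disjoint_left.mp hf hy ⟨h2, ?_⟩
      rwa [hO.interior_eq]

theorem comp_cpt {X U O : Set ℂ} (hX : IsOpen X) (hU : IsOpen U) {y : ℂ} (hy : y ∈ X \ U)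
    (hO : IsOpen O) (hyO : y ∈ O) (hc : IsCompact (closure O)) (hOX : closure O ⊆ X)
    (hf : frontier O ⊆ U) : IsCompact (connectedComponentIn (X \ U) y) ∧
      connectedComponentIn (X \ U) y ⊆ O := by
  have _ := hX
  set C := connectedComponentIn (X \ U) y with hCdef
  have hCXU : C ⊆ X \ U := connectedComponentIn_subset _ _
  have hyC : y ∈ C := mem_connectedComponentIn hy
  have hCp : IsPreconnected C := isPreconnected_connectedComponentIn
  have hCO : C ⊆ O := comp_sub hO hCp ⟨y, hyC, hyO⟩
    (Set.disjoint_left.mpr fun z h1 h2 => (hCXU h1).2 (hf h2))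
  have hclO : closure C ⊆ closure O := closure_mono hCO
  have hclU : closure C ⊆ Uᶜ :=
    closure_minimal (fun z hz => (hCXU hz).2) hU.isClosed_compl
  have hclC : closure C ⊆ C := hCp.closure.subset_connectedComponentIn (subset_closure hyC)
    (fun z hz => ⟨hOX (hclO hz), hclU hz⟩)
  have hclosed : IsClosed C := isClosed_of_closure_subset hclC
  exact ⟨hc.of_isClosed_subset hclosed (subset_closure.trans hclO), hCO⟩

theorem comp_touch {X U : Set ℂ} (hX : IsOpen X) (hU : IsOpen U) (hUn : U.Nonempty) {x : ℂ}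
    (hx : x ∈ X \ U) (hC : IsCompact (connectedComponentIn (X \ U) x)) :
    (connectedComponentIn (X \ U) x ∩ closure U).Nonempty := by
  by_contra hcon
  rw [Set.not_nonempty_iff_eq_empty] at hcon
  obtain ⟨O, hO, hCO, hOc, hOV, hfr⟩ := zor hX hU hx hC isClosed_closure.isOpen_compl
    (V := (closure U)ᶜ) (fun y hy h => by
      have : y ∈ connectedComponentIn (X \ U) x ∩ closure U := ⟨hy, h⟩
      rw [hcon] at this
      exact this)
  have hfe : frontier O = ∅ := by
    rw [Set.eq_empty_iff_forall_notMem]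
    intro y hy
    exact (hOV hy.1).1 (subset_closure (hfr hy))
  have hclopen : IsClopen O := isClopen_iff_frontier_eq_empty.mpr hfe
  have hxO : x ∈ O := hCO (mem_connectedComponentIn hx)
  have hOu : O = univ := hclopen.eq_univ ⟨x, hxO⟩
  obtain ⟨u, hu⟩ := hUn
  have h1 : u ∈ closure O := by rw [hOu]; exact subset_closure (mem_univ _)
  exact (hOV h1).1 (subset_closure hu)

theorem comp_same {F : Set ℂ} {x y z : ℂ} (hx : z ∈ connectedComponentIn F x)
    (hy : z ∈ connectedComponentIn F y) : connectedComponentIn F x = connectedComponentIn F y :=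
  (connectedComponentIn_eq hx).trans (connectedComponentIn_eq hy).symm

end CV
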