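import Pool.Agent.H12.CV.TA

/-!
TB (the filled set).  General `X` open connected, not compact, `U ⊆ X` open connected.
`fil_isOpen`: a point of `U` is interior; let `x ∈ X \ U` with compact component; `zor` with `V = univ` gives `O`; by `comp_cpt` every point of `O` is in `fil X U` (or in `U`).
`fil_isConnected`: for `x ∈ fil X U \ U` with component `C`, `comp_touch` gives `y ∈ C ∩ closure U`; `U ∪ {y}` (between `U` and `closure U`) and `C` are connected with the common point `y`, so `U ∪ C` is connected,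
contained in `fil X U` (all points of `C` have the same component `C`); so `fil X U` is a union of connected sets containing `U`.
`fil_comp`: a component `C` of `X \ U` is either contained in `fil X U` or disjoint from it (all its points have the same component).
`fil_front`: let `y ∈ X`, `y ∈ closure (fil X U)`, `y ∉ fil X U`.  Then `y ∈ closure U`: otherwise there is a ball `B` about `y` contained in `X \ U` (X open); it contains a point `w` of `fil X U`, not in `U`; the ball is connected so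
`y` and `w` have the same component in `X \ U`: `y ∈ fil X U`.
`fil_map`: `h` is a homeomorphism of `X` (inverse `hi`), `h '' U = U'`: `h` maps `X \ U` onto `X \ U'`, components onto components (`connectedComponentIn` of `h x`: images of preconnected sets are preconnected, both directions), compact onto compact.
-/

namespace CV

open Metric Set Filter Topology

theorem fil_sub {X U : Set ℂ} : fil X U ⊆ X := fun _ hx => hx.1

theorem sub_fil {X U : Set ℂ} (h : U ⊆ X) : U ⊆ fil X U := fun _ hx => ⟨h hx, Or.inl hx⟩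

theorem TB_iff {X U : Set ℂ} {x : ℂ} (hx : x ∈ X \ U) :
    x ∈ fil X U ↔ IsCompact (connectedComponentIn (X \ U) x) :=
  ⟨fun h => h.2.resolve_left hx.2, fun h => ⟨hx.1, Or.inr h⟩⟩

theorem fil_isOpen {X U : Set ℂ} (hX : IsOpen X) (hU : IsOpen U) (hUX : U ⊆ X) :
    IsOpen (fil X U) := by
  rw [isOpen_iff_mem_nhds]
  intro x hx
  by_cases hxU : x ∈ U
  · exact Filter.mem_of_superset (hU.mem_nhds hxU) (sub_fil hUX)
  · have hx' : x ∈ X \ U := ⟨hx.1, hxU⟩
    obtain ⟨O, hO, hCO, hOc, hOX, hf⟩ := zor hX hU hx' ((TB_iff hx').1 hx) isOpen_univ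
      (subset_univ _)
    refine Filter.mem_of_superset (hO.mem_nhds (hCO (mem_connectedComponentIn hx'))) ?_
    intro y hy
    have hyX : y ∈ X := (hOX (subset_closure hy)).2
    by_cases hyU : y ∈ U
    · exact ⟨hyX, Or.inl hyU⟩
    · exact ⟨hyX, Or.inr (comp_cpt hX hU ⟨hyX, hyU⟩ hO hy hOc (fun z hz => (hOX hz).2) hf).1⟩

theorem fil_comp {X U : Set ℂ} {x y : ℂ} (hx : x ∈ X \ U) (hy : y ∈ connectedComponentIn (X \ U) x) :
    y ∈ fil X U ↔ x ∈ fil X U := by
  have hyX : y ∈ X \ U := connectedComponentIn_subset _ _ hy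
  rw [TB_iff hx, TB_iff hyX, connectedComponentIn_eq hy]

theorem fil_isConnected {X U : Set ℂ} (hX : IsOpen X) (hU : IsOpen U) (hUc : IsConnected U)
    (hUX : U ⊆ X) : IsConnected (fil X U) := by
  obtain ⟨u, hu⟩ := hUc.nonempty
  refine ⟨⟨u, sub_fil hUX hu⟩, ?_⟩
  refine isPreconnected_of_forall u ?_
  intro y hy
  by_cases hyU : y ∈ U
  · exact ⟨U, sub_fil hUX, hu, hyU, hUc.isPreconnected⟩
  · have hy' : y ∈ X \ U := ⟨hy.1, hyU⟩
    have hC := (TB_iff hy').1 hy
    obtain ⟨z, hzC, hzU⟩ := comp_touch hX hU hUc.nonempty hy' hC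
    refine ⟨U ∪ connectedComponentIn (X \ U) y, ?_, Or.inl hu,
      Or.inr (mem_connectedComponentIn hy'), ?_⟩
    · refine union_subset (sub_fil hUX) fun w hw => ?_
      exact (fil_comp hy' hw).2 hy
    · have h1 : IsPreconnected (U ∪ {z}) := by
        refine hUc.isPreconnected.subset_closure subset_union_left ?_
        refine union_subset subset_closure ?_
        rintro w rfl
        exact hzU
      have h2 : U ∪ connectedComponentIn (X \ U) y
          = (U ∪ {z}) ∪ connectedComponentIn (X \ U) y := by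
        rw [union_assoc]
        congr 1
        exact (union_eq_self_of_subset_left (singleton_subset_iff.2 hzC)).symm
      rw [h2]
      exact h1.union z (Or.inr rfl) hzC isPreconnected_connectedComponentIn

/-- a connected subset of `X \ U` meeting the filled set is contained in an island -/
theorem fil_pre {X U C : Set ℂ} (hC : IsPreconnected C) (hCX : C ⊆ X \ U) {x : ℂ} (hxC : x ∈ C)
    (hx : x ∈ fil X U) : Island X U (connectedComponentIn (X \ U) x) ∧
      C ⊆ connectedComponentIn (X \ U) x ∧ C ⊆ fil X U := by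
  have hx' := hCX hxC
  have h1 := hC.subset_connectedComponentIn hxC hCX
  refine ⟨⟨(TB_iff hx').1 hx, x, hx', rfl⟩, h1, fun y hy => ?_⟩
  exact (fil_comp hx' (h1 hy)).2 hx

theorem fil_front {X U : Set ℂ} (hX : IsOpen X) {y : ℂ} (hy : y ∈ X)
    (hyc : y ∈ closure (fil X U)) (hyn : y ∉ fil X U) : y ∈ closure U := by
  by_contra hyU
  have hopen : IsOpen (X ∩ (closure U)ᶜ) := hX.inter isClosed_closure.isOpen_compl
  obtain ⟨ε, hε, hb⟩ := Metric.isOpen_iff.1 hopen y ⟨hy, hyU⟩
  obtain ⟨w, hw, hwb⟩ := Metric.mem_closure_iff.1 hyc ε hε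
  have hsub : ball y ε ⊆ X \ U := fun z hz => ⟨(hb hz).1, fun h => (hb hz).2 (subset_closure h)⟩
  have hwb' : w ∈ ball y ε := by rw [mem_ball, dist_comm]; exact hwb
  have h1 := fil_pre (convex_ball y ε).isPreconnected hsub hwb' hw
  exact hyn (h1.2.2 (mem_ball_self hε))

theorem TB_img {F F' : Set ℂ} {f : ℂ → ℂ} (hc : ContinuousOn f F) (hm : MapsTo f F F') {x : ℂ}
    (hx : x ∈ F) : f '' connectedComponentIn F x ⊆ connectedComponentIn F' (f x) := by
  refine (isPreconnected_connectedComponentIn.image f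
    (hc.mono (connectedComponentIn_subset F x))).subset_connectedComponentIn
    ⟨x, mem_connectedComponentIn hx, rfl⟩ ?_
  rintro _ ⟨y, hy, rfl⟩
  exact hm (connectedComponentIn_subset F x hy)

theorem TB_eq {F F' : Set ℂ} {f g : ℂ → ℂ} (hc : ContinuousOn f F) (hm : MapsTo f F F')
    (hc' : ContinuousOn g F') (hm' : MapsTo g F' F) (h1 : ∀ x ∈ F, g (f x) = x)
    (h2 : ∀ x ∈ F', f (g x) = x) {x : ℂ} (hx : x ∈ F) :
    f '' connectedComponentIn F x = connectedComponentIn F' (f x) := by
  refine Subset.antisymm (TB_img hc hm hx) ?_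
  intro y hy
  have h3 := TB_img hc' hm' (hm hx)
  rw [h1 x hx] at h3
  exact ⟨g y, h3 ⟨y, hy, rfl⟩, h2 y (connectedComponentIn_subset _ _ hy)⟩

theorem fil_map {X U U' : Set ℂ} {h hi : ℂ → ℂ} (hUX : U ⊆ X) (hc : ContinuousOn h X)
    (hic : ContinuousOn hi X)
    (hm : MapsTo h X X) (him : MapsTo hi X X) (h1 : ∀ x ∈ X, hi (h x) = x)
    (h2 : ∀ x ∈ X, h (hi x) = x) (hU : h '' U = U') : h '' fil X U = fil X U' ∧
      ∀ Y, Island X U Y → Island X U' (h '' Y) := by
  have hF : MapsTo h (X \ U) (X \ U') := by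
    rintro x ⟨hx, hxU⟩
    refine ⟨hm hx, ?_⟩
    rw [← hU]
    rintro ⟨u, hu, he⟩
    apply hxU
    rw [← h1 x hx, ← he, h1 u (hUX hu)]
    exact hu
  have hF' : MapsTo hi (X \ U') (X \ U) := by
    rintro y ⟨hy, hyU⟩
    refine ⟨him hy, fun hu => hyU ?_⟩
    rw [← hU, ← h2 y hy]
    exact ⟨hi y, hu, rfl⟩
  have key : ∀ x ∈ X \ U, h '' connectedComponentIn (X \ U) x = connectedComponentIn (X \ U') (h x) :=
    fun x hx => TB_eq (hc.mono sdiff_subset) hF (hic.mono sdiff_subset) hF'
      (fun x hx => h1 x hx.1) (fun x hx => h2 x hx.1) hx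
  have key' : ∀ x ∈ X \ U', hi '' connectedComponentIn (X \ U') x
      = connectedComponentIn (X \ U) (hi x) :=
    fun x hx => TB_eq (hic.mono sdiff_subset) hF' (hc.mono sdiff_subset) hF
      (fun x hx => h2 x hx.1) (fun x hx => h1 x hx.1) hx
  have hsubX : ∀ x, connectedComponentIn (X \ U) x ⊆ X :=
    fun x => (connectedComponentIn_subset _ _).trans sdiff_subset
  have hsubX' : ∀ x, connectedComponentIn (X \ U') x ⊆ X :=
    fun x => (connectedComponentIn_subset _ _).trans sdiff_subset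
  refine ⟨?_, ?_⟩
  · apply Subset.antisymm
    · rintro _ ⟨x, hx, rfl⟩
      by_cases hxU : x ∈ U
      · refine ⟨hm hx.1, Or.inl ?_⟩
        rw [← hU]
        exact ⟨x, hxU, rfl⟩
      · have hx' : x ∈ X \ U := ⟨hx.1, hxU⟩
        refine (TB_iff (hF hx')).2 ?_
        rw [← key x hx']
        exact ((TB_iff hx').1 hx).image_of_continuousOn (hc.mono (hsubX x))
    · intro y hy
      by_cases hyU : y ∈ U'
      · rw [← hU] at hyU
        obtain ⟨u, hu, rfl⟩ := hyU
        exact ⟨u, sub_fil hUX hu, rfl⟩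
      · have hy' : y ∈ X \ U' := ⟨hy.1, hyU⟩
        refine ⟨hi y, (TB_iff (hF' hy')).2 ?_, h2 y hy.1⟩
        rw [← key' y hy']
        exact ((TB_iff hy').1 hy).image_of_continuousOn (hic.mono (hsubX' y))
  · rintro Y ⟨hYc, x, hx, rfl⟩
    exact ⟨hYc.image_of_continuousOn (hc.mono (hsubX x)), h x, hF hx, key x hx⟩

/-- islands are connected, contained in the filled set, disjoint from `U`, and equal or disjoint -/
theorem Island.basic {X U Y : Set ℂ} (h : Island X U Y) : IsConnected Y ∧ Y ⊆ X \ U ∧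
    Y ⊆ fil X U ∧ ∀ Y', Island X U Y' → (Y ∩ Y').Nonempty → Y = Y' := by
  obtain ⟨hYc, x, hx, rfl⟩ := h
  refine ⟨isConnected_connectedComponentIn_iff.2 hx, connectedComponentIn_subset _ _, ?_, ?_⟩
  · intro y hy
    exact (fil_comp hx hy).2 ((TB_iff hx).2 hYc)
  · rintro Y' ⟨-, x', hx', rfl⟩ ⟨z, hz, hz'⟩
    exact comp_same hz hz'

/-- small neighbourhoods of islands with frontier in `U` -/
theorem Island.nhd {X U Y V : Set ℂ} (hX : IsOpen X) (hU : IsOpen U) (h : Island X U Y)
    (hV : IsOpen V) (hYV : Y ⊆ V) : ∃ O : Set ℂ, IsOpen O ∧ Y ⊆ O ∧ IsCompact (closure O) ∧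
      closure O ⊆ V ∩ X ∧ frontier O ⊆ U := by
  obtain ⟨hYc, x, hx, rfl⟩ := h
  exact zor hX hU hx hYc hV hYV

end CV
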