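import Pool.Agent.H12.CV.FU
import Pool.Agent.H12.TN.FF
import Pool.Agent.H12.TN.DI
import Pool.Agent.H12.TN.FE

/-!
UA (the group on `X = disc`).  `exists_fuchs0`: `A c = mob (u c) (b c)` everywhere (`D.hX`; the first alternative is excluded by `hX`, `univ ≠ ball 0 1`); `one`, `mul` on the closed disc by continuity from the open disc; `fin`: `proper` for `closedBall 0 r` (`A c 0` has norm `‖b c‖`);
`free`; `hyp`: `classify` and `disc_gap`.  Cocompact: `Deck.coc` (`C ⊆ ball 0 1` compact is contained in a `closedBall 0 ρ`).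
`sub_nonel`: `elem (F₀.sub N)`: trivial: `F.Nonel` gives `g ≠ 1`; cyclic: all elements of `N` are powers of `κ ≠ 1`; let `AR κ P Q` for `F` (`exists_AR`); a nontrivial power fixes exactly `P, Q` (`AR.pow`, `AR.inv`), so two nontrivial elements `g, h` of
`F.Nonel` would have the common fixed point `P`: contradiction.
`seg_away`, `seg_uc`: (UC) for radial segments ending at orbit points.  `seg_away`: as `ray_away` in TN/DI: choose `s < 1` with `1 - s² < ‖1 - s conj ξ x‖²` for all `x` in the orbit of `0` (the half planes shrink to `ξ ∉ lim`, and the orbit stays away from `ξ`);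
`bis` with `b = act g⁻¹ 0`, `a = act g⁻¹ (s ξ)`, `r₀ = 0`, `r₁ = ‖act c 0‖` (the end points `act g 0`, `act g (act c 0)` are in the orbit) shows that no `act g (r • act c 0)`, `0 ≤ r ≤ 1`, is in the half plane, a neighbourhood of `ξ`.
`seg_uc`: otherwise there are `c_n`, `t_n ∈ [0,1]` with `1 - 1/(n+1) ≤ ‖act g (t_n act c_n 0)‖` for all `g`; `dirichlet_seq` gives `ξ`, a limit of points `act (g n) (t act c 0)`, with `r ≤ ‖act h (r ξ)‖` for all `h`, `r`; `ξ ∈ lim` by `seg_away`; contradiction to (UC) for `r` close to one.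
-/

namespace CV

open Metric Set Filter Topology Function DS TN

section
variable {Γ : Type} [Group Γ] (F : Fuchs Γ)

theorem seg_away {ξ : ℂ} (hξ : ‖ξ‖ = 1) (h : ξ ∉ F.lim) :
    ∃ δ > 0, ∀ g c, ∀ t : ℝ, 0 ≤ t → t ≤ 1 → δ ≤ dist (F.act g (t * F.act c 0)) ξ := by
  -- distance to the closure of the orbit
  have hcl : ξ ∉ closure (range fun g => F.act g 0) := fun hc => h ⟨hξ, hc⟩
  obtain ⟨d0, hd0, hball⟩ := Metric.isOpen_iff.1 isClosed_closure.isOpen_compl ξ hcl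
  set d : ℝ := min d0 1 with hd
  have hdp : 0 < d := lt_min hd0 one_pos
  have hd1 : d ≤ 1 := min_le_right _ _
  have hfar : ∀ x ∈ closure (range fun g => F.act g 0), d ≤ ‖ξ - x‖ := by
    intro x hx
    by_contra hcon
    push Not at hcon
    refine hball (mem_ball_iff_norm.2 ?_) hx
    rw [norm_sub_rev]
    exact lt_of_lt_of_le hcon (min_le_left _ _)
  have horb : ∀ g, d ≤ ‖ξ - F.act g 0‖ := fun g => hfar _ (subset_closure ⟨g, rfl⟩)
  set ε : ℝ := d ^ 2 / 16 with hε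
  have hεp : 0 < ε := by positivity
  have hεd : ε ≤ d / 16 := by
    have : d ^ 2 ≤ d := by nlinarith
    rw [hε]
    linarith
  set s : ℝ := 1 - ε with hs
  have hs0 : 0 < s := by rw [hs]; linarith
  have hs1 : s < 1 := by rw [hs]; linarith
  set a : ℂ := (s : ℂ) * ξ with ha
  have han : ‖a‖ = s := by
    rw [ha, norm_mul, hξ, mul_one, Complex.norm_real, Real.norm_of_nonneg hs0.le]
  have hξξ : (starRingEnd ℂ) ξ * ξ = 1 := by
    rw [mul_comm, Complex.mul_conj, Complex.normSq_eq_norm_sq, hξ]; norm_num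
  -- far points are outside the half plane
  have hout : ∀ x : ℂ, ‖x‖ ≤ 1 → d ≤ ‖ξ - x‖ → 1 - ‖a‖ ^ 2 < ‖1 - (starRingEnd ℂ) a * x‖ ^ 2 := by
    intro x hx hdx
    have e1 : 1 - (starRingEnd ℂ) a * x =
        (starRingEnd ℂ) ξ * (ξ - x) + (ε : ℂ) * ((starRingEnd ℂ) ξ * x) := by
      rw [ha, map_mul, Complex.conj_ofReal, mul_sub, hξξ, hs]
      push_cast
      ring
    have h1 : ‖(starRingEnd ℂ) ξ * (ξ - x)‖ ≤
        ‖1 - (starRingEnd ℂ) a * x‖ + ‖(ε : ℂ) * ((starRingEnd ℂ) ξ * x)‖ := by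
      have e2 : (starRingEnd ℂ) ξ * (ξ - x) = (1 - (starRingEnd ℂ) a * x) -
          (ε : ℂ) * ((starRingEnd ℂ) ξ * x) := by rw [e1]; ring
      rw [e2]
      exact norm_sub_le _ _
    rw [norm_mul, norm_mul, norm_mul, RCLike.norm_conj, hξ, one_mul, one_mul, Complex.norm_real,
      Real.norm_of_nonneg hεp.le] at h1
    have h2 : ε * ‖x‖ ≤ ε := mul_le_of_le_one_right hεp.le hx
    have h3 : 15 / 16 * d ≤ ‖1 - (starRingEnd ℂ) a * x‖ := by linarith
    have h4 : (15 / 16 * d) ^ 2 ≤ ‖1 - (starRingEnd ℂ) a * x‖ ^ 2 :=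
      pow_le_pow_left₀ (by positivity) h3 2
    have h5 : 1 - ‖a‖ ^ 2 < (15 / 16 * d) ^ 2 := by
      rw [han, hs]
      have e3 : 1 - (1 - ε) ^ 2 = 2 * ε - ε ^ 2 := by ring
      rw [e3, hε]
      nlinarith [sq_nonneg (d ^ 2 / 16), pow_pos hdp 2]
    linarith
  -- the centre `ξ` is in the half plane
  have hcont : Continuous (fun x : ℂ => ‖1 - (starRingEnd ℂ) a * x‖ ^ 2) := by fun_prop
  have hin : ‖1 - (starRingEnd ℂ) a * ξ‖ ^ 2 < 1 - ‖a‖ ^ 2 := by
    have e1 : 1 - (starRingEnd ℂ) a * ξ = (ε : ℂ) := by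
      rw [ha, map_mul, Complex.conj_ofReal, mul_assoc, hξξ, hs]
      push_cast
      ring
    rw [e1, Complex.norm_real, Real.norm_of_nonneg hεp.le, han, hs]
    nlinarith
  obtain ⟨δ, hδ, hδ'⟩ := Metric.isOpen_iff.1 (isOpen_lt hcont continuous_const) ξ hin
  refine ⟨δ, hδ, fun g c t ht0 ht1 => ?_⟩
  by_contra hcon
  push Not at hcon
  have hbad : ‖1 - (starRingEnd ℂ) a * F.act g (t * F.act c 0)‖ ^ 2 < 1 - ‖a‖ ^ 2 :=
    hδ' (mem_ball.2 hcon)
  have ha1 : ‖a‖ < 1 := by rw [han]; exact hs1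
  have h00 : ‖(0 : ℂ)‖ < 1 := by simp
  have hc1 : ‖F.act c 0‖ < 1 := act_lt F c h00
  -- the two end points
  have hE0 : 1 - ‖a‖ ^ 2 < ‖1 - (starRingEnd ℂ) a * F.act g 0‖ ^ 2 :=
    hout _ (act_lt F g h00).le (horb g)
  have hE1 : 1 - ‖a‖ ^ 2 < ‖1 - (starRingEnd ℂ) a * F.act g (F.act c 0)‖ ^ 2 := by
    refine hout _ (act_lt F g hc1).le ?_
    rw [← act_mul F g c h00.le]
    exact horb _
  by_cases h0 : F.act c 0 = 0
  · rw [h0, mul_zero] at hbad
    linarith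
  set r₁ : ℝ := ‖F.act c 0‖ with hr₁
  have hr₁0 : 0 < r₁ := norm_pos_iff.2 h0
  set ζ : ℂ := ((r₁ : ℝ) : ℂ)⁻¹ * F.act c 0 with hζd
  have hζ1 : ‖ζ‖ = 1 := by
    rw [hζd, norm_mul, norm_inv, Complex.norm_real, Real.norm_of_nonneg hr₁0.le, ← hr₁,
      inv_mul_cancel₀ hr₁0.ne']
  have hr₁c : ((r₁ : ℝ) : ℂ) ≠ 0 := Complex.ofReal_ne_zero.2 hr₁0.ne'
  have hζr : ((r₁ : ℝ) : ℂ) * ζ = F.act c 0 := by
    rw [hζd, ← mul_assoc, mul_inv_cancel₀ hr₁c, one_mul]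
  have hζt : (((t * r₁ : ℝ)) : ℂ) * ζ = t * F.act c 0 := by
    rw [← hζr]
    push_cast
    ring
  have hn : ∀ t : ℝ, 0 ≤ t → ‖(t : ℂ) * ζ‖ = t := by
    intro t ht
    rw [norm_mul, hζ1, mul_one, Complex.norm_real, Real.norm_of_nonneg ht]
  have htr : t * r₁ ≤ r₁ := mul_le_of_le_one_left hr₁0.le ht1
  have htr0 : 0 ≤ t * r₁ := mul_nonneg ht0 hr₁0.le
  have hQ1 := (DI_closer F g (a := a) (z := (r₁ : ℂ) * ζ) ha1
    (by rw [hn r₁ hr₁0.le]; exact hc1)).1 (by rw [hζr]; exact hE1.le)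
  have hQ0 := (DI_closer F g (a := a) (z := ((0 : ℝ) : ℂ) * ζ) ha1 (by simp)).1 (by
    have : ((0 : ℝ) : ℂ) * ζ = 0 := by simp
    rw [this]
    exact hE0.le)
  have hQ := bis hζ1 le_rfl htr0 htr hc1.le hQ0 hQ1
  have := (DI_closer F g (a := a) (z := ((t * r₁ : ℝ) : ℂ) * ζ) ha1
    (by rw [hn _ htr0]; exact lt_of_le_of_lt htr hc1)).2 hQ
  rw [hζt] at this
  linarith

theorem seg_uc (hU : F.UC) : ∃ ρ : ℝ, ρ < 1 ∧ ∀ c, ∀ t : ℝ, 0 ≤ t → t ≤ 1 →
    ∃ g, ‖F.act g (t * F.act c 0)‖ ≤ ρ := by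
  by_contra hcon
  push Not at hcon
  choose c t ht0 ht1 hρ using fun n : ℕ => hcon (1 - 1 / ((n : ℝ) + 1)) (by
    have : (0 : ℝ) < 1 / ((n : ℝ) + 1) := by positivity
    linarith)
  have h00 : ‖(0 : ℂ)‖ < 1 := by simp
  have hn : ∀ n, ‖((t n : ℝ) : ℂ) * F.act (c n) 0‖ < 1 := by
    intro n
    rw [norm_mul, Complex.norm_real, Real.norm_of_nonneg (ht0 n)]
    have h1 := act_lt F (c n) h00
    calc t n * ‖F.act (c n) 0‖ ≤ 1 * ‖F.act (c n) 0‖ :=
          mul_le_mul_of_nonneg_right (ht1 n) (norm_nonneg _)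
      _ < 1 := by rwa [one_mul]
  obtain ⟨φ, hφ, g, ξ, hξ, hlim, hray⟩ := dirichlet_seq F
    (x := fun n => ((t n : ℝ) : ℂ) * F.act (c n) 0) hn (by
      intro ρ hρ1
      have h1 : Tendsto (fun n : ℕ => 1 - 1 / ((n : ℝ) + 1)) atTop (𝓝 (1 - 0)) :=
        tendsto_const_nhds.sub tendsto_one_div_add_atTop_nhds_zero_nat
      rw [sub_zero] at h1
      filter_upwards [h1.eventually (lt_mem_nhds hρ1)] with n hn k
      exact (hn.trans (hρ n k)).le)
  have hξlim : ξ ∈ F.lim := by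
    by_contra hcon
    obtain ⟨δ, hδ, hfar⟩ := seg_away F hξ hcon
    have h1 := hlim.eventually (ball_mem_nhds ξ hδ)
    obtain ⟨n, hn1⟩ := h1.exists
    have h2 := hfar (g n) (c (φ n)) (t (φ n)) (ht0 _) (ht1 _)
    have h3 : dist (F.act (g n) ((t (φ n) : ℂ) * F.act (c (φ n)) 0)) ξ < δ := hn1
    linarith
  obtain ⟨ρ, hρ1, hUC⟩ := hU
  have hm : max ρ 0 < 1 := max_lt hρ1 one_pos
  obtain ⟨r, hr, hr1⟩ := exists_between hm
  have hr0 : 0 ≤ r := (le_max_right _ _).trans hr.le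
  obtain ⟨k, hk⟩ := hUC ξ hξlim r hr0 hr1
  have h4 := hray k r hr0 hr1
  have h5 : ρ < r := lt_of_le_of_lt (le_max_left _ _) hr
  linarith

end

variable {S : Type} [MetricSpace S] [CompactSpace S] {X : Set ℂ} {Γ : Type} [Group Γ]
  {A : Γ → ℂ → ℂ} {p : ℂ → S} {N : Subgroup Γ} {ψ v : ℂ → ℂ} {F : Fuchs N}

theorem exists_fuchs0 (D : Deck X A p) (hX : X = ball 0 1) :
    ∃ F₀ : Fuchs Γ, (∀ c x, F₀.act c x = A c x) ∧ F₀.UC := by
  choose u b hu hb hA using FU_mob D hX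
  have hmem : ∀ x, x ∈ X ↔ ‖x‖ < 1 := fun x => by rw [hX, mem_ball_zero_iff]
  have hfree : ∀ c : Γ, c ≠ 1 → ∀ x ∈ ball (0:ℂ) 1, mob (u c) (b c) x ≠ x := by
    intro c hc x hx
    rw [← hA]
    exact D.free c hc x (by rw [hX]; exact hx)
  refine ⟨⟨u, b, hu, hb, ?_, ?_, ?_, hfree, ?_⟩, fun c x => (hA c x).symm, ?_⟩
  · -- one
    refine FU_ext (mob_cont (hb 1)) continuousOn_id fun x hx => ?_
    rw [← hA 1 x]
    exact D.one x (by rw [hX]; exact hx)
  · -- mul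
    intro c d
    refine FU_ext (mob_cont (hb _)) ((mob_cont (hb c)).comp (mob_cont (hb d)) ?_) fun x hx => ?_
    · intro x hx
      rw [mem_closedBall_zero_iff] at hx ⊢
      exact mob_closedBall (hu d) (hb d) hx
    · show mob (u (c * d)) (b (c * d)) x = mob (u c) (b c) (mob (u d) (b d) x)
      rw [← hA, ← hA, ← hA]
      exact D.mul c d x (by rw [hX]; exact hx)
  · -- fin
    intro r hr
    have hKX : closedBall (0:ℂ) (max r 0) ⊆ X := by
      rw [hX]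
      exact closedBall_subset_ball (max_lt hr one_pos)
    refine (D.proper _ hKX (isCompact_closedBall _ _)).subset ?_
    intro c hc
    refine ⟨0, ?_, ?_⟩
    · rw [mem_closedBall_zero_iff, norm_zero]
      exact le_max_right _ _
    · rw [mem_closedBall_zero_iff, hA c 0]
      have h1 : ‖mob (u c) (b c) 0‖ = ‖b c‖ := by
        unfold mob
        rw [mul_zero, sub_zero, div_one, zero_sub, norm_mul, hu, one_mul, norm_neg]
      rw [h1]
      exact (hc : ‖b c‖ ≤ r).trans (le_max_left _ _)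
  · -- hyp
    intro c hc
    rcases classify (hu c) (hb c) (hfree c hc) with h | ⟨P, hP, hb0, h2, h3⟩
    · exact h
    · exfalso
      obtain ⟨c₀, hc₀, hgap⟩ := disc_gap D hX
      obtain ⟨z, hz, hlt⟩ := h3 c₀ hc₀
      have h6 := hgap c hc z hz
      rw [hA] at h6
      linarith
  · -- UC
    obtain ⟨C, hCX, hC, hcov⟩ := D.coc
    have hCne : C.Nonempty := by
      obtain ⟨d, hd⟩ := hcov 0 ((hmem 0).2 (by simp))
      exact ⟨_, hd⟩
    obtain ⟨x₀, hx₀, hmax⟩ := hC.exists_isMaxOn hCne continuous_norm.continuousOn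
    have hρ : ‖x₀‖ < 1 := (hmem _).1 (hCX hx₀)
    refine ⟨‖x₀‖, hρ, fun ξ hξ r hr0 hr1 => ?_⟩
    have hx : (r : ℂ) * ξ ∈ X := by
      rw [hmem, norm_mul, Complex.norm_real, Real.norm_of_nonneg hr0, hξ.1, mul_one]
      exact hr1
    obtain ⟨g, hg⟩ := hcov _ hx
    refine ⟨g, ?_⟩
    have h1 : ‖A g (r * ξ)‖ ≤ ‖x₀‖ := hmax hg
    rw [hA] at h1
    exact h1

theorem sub_nonel {F₀ : Fuchs Γ} (hN : F.Nonel) : (F₀.sub N).Nonel := by
  obtain ⟨g, h, hg, hh, hgh⟩ := hN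
  rcases elem (F₀.sub N) with h1 | ⟨κ, P₀, Q₀, hκ, hz⟩ | h1
  · exact absurd (h1 g) hg
  · exfalso
    have hκ1 : κ ≠ 1 := AR.ne_one hκ
    obtain ⟨P, Q, hPQ⟩ := exists_AR F hκ1
    have hall : ∀ c : N, F.act c P = P := by
      intro c
      obtain ⟨n, rfl⟩ := Subgroup.mem_zpowers_iff.1 (hz c)
      have h2 : κ ∈ FD_st F P hPQ.np.le := (FD_mem hPQ.np.le).2 hPQ.fp
      exact (FD_mem hPQ.np.le).1 (Subgroup.zpow_mem _ h2 n)
    exact hgh P hPQ.np (hall g) (hall h)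
  · exact h1

end CV
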