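import Pool.Agent.H12.CV.UA

/-!
UB (unlinked limit sets; (4.1) of the note).  `W` open connected subset of the disc, invariant under `act z`, `z ∈ N`.
`ray_path`: `z ∈ N`, `AR z a a'`, `x₀ ∈ W`: `W` is path connected (`IsOpen.isConnected_iff_isPathConnected`); let `γ : [0,1] → W` be a path from `x₀` to `act z x₀`.  Define `f 1 = a` and `f t = act (z^n) (γ s)` for `t = 1 - 1/(n + 1 + s)`, `0 ≤ s ≤ 1`, i.e.
`τ = 1/(1-t) - 1`, `n = ⌊τ⌋`, `s = fract τ`.  Continuous for `t < 1` (the values at `s = 1` and the next `s = 0` agree: `act (z^n) (act z x₀) = act (z^(n+1)) x₀`); continuous at `1` by `AR.unif` (`γ` has compact image in the open disc, so at positive distance from `a'`).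
`two_path`: join two such paths.
`unlinked`: `ell a a' x = Im ((x - a) conj (a' - a))`.  Suppose `a, a' ∈ lim (sub N)`, `b₀, b₀' ∈ lim (sub N)`, `b = act c b₀`, `b' = act c b₀'` and `ell a a' b * ell a a' b' < 0`.  This is an open condition, so by `TN.near` (for `F₀.sub N`) we may replace `a, a', b₀, b₀'` by attracting
fixed points of elements of `N`.  `two_path` gives `f` from `a` to `a'` with interior in `W`, and `h` from `b₀` to `b₀'`, `act c ∘ h` from `b` to `b'` with interior in `act c '' W`.  The points `a, b, a', b'` are distinct and alternate on the circle, so `Cross.cross` (H77/ISO/Cross: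
`D = closedBall 0 1`, supporting half planes `na = a`, `nb = -b` etc.; the four sign conditions say that `a, b, a', b'` is a convex quadrilateral in this orientation; otherwise exchange `b` and `b'`) gives `s, t` with `f s = act c (h t)`.  If this point is in the open disc, it is in
`W ∩ act c '' W = ∅`; otherwise it is on the circle and `s ∈ {0,1}`, `t ∈ {0,1}`, so one of `a, a'` is one of `b, b'`, but `ell a a' b ≠ 0`: contradiction.
The sign conditions: for `a, b, a', b'` on the circle, `Im ((a - b') conj (a - b))` etc.: `a, b, a', b'` in counterclockwise order: `b` and `b'` on different sides of the line `a a'`; for three points of the circle the sign of `Im ((y - x) conj (z - x))`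
determines the cyclic order; use the identity `Im ((y - x) conj (z - x)) = ± 4 sin sin sin /2` or the product formula: for unit numbers `(y - x) conj (z - x) = (y - x)(x - z)/(x z)`... A clean way: `ell a a' b * ell a a' b' < 0` means that the chords `[a, a']` and `[b, b']` meet in an interior point, and
convexity of the disc gives the four signs: with `o` the intersection point, `a = o + α e`, `a' = o - α' e`, `b = o + β e'`, `b' = o - β' e'`, all `α, α', β, β' > 0`, and `σ = Im (e conj e') ≠ 0`; each of the four expressions is a positive combination of `σ` (or of `-σ`):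
`Im ((a - b') conj (a - b)) = Im ((α e + β' e') conj (α e - β e')) = - α β Im (e conj e') + α β' Im (e' conj e) = - α (β + β') σ`, and the same sign for the others.
`same_side`: `a₁, a₂, a₃` distinct points of `lim (sub N)`, `c ∉ N`.  For `x` on the circle, not one of the `a_i`, `x` is on the side opposite to the third point for exactly one of the three lines (it is not in the open triangle; see TN/RG).  `lim (sub N)` is perfect and infinite, so choose `b₁ ∈ act c '' lim`,
`b₁ ∉ {a_i}`, say `ell a₁ a₂ b₁ * ell a₁ a₂ a₃ < 0`.  Let `S = {x | ‖x‖ = 1, ell a₁ a₂ x * ell a₁ a₂ a₃ < 0}`, an open arc (the circle intersected with an open half plane `Re (x conj n) > k`, `‖n‖ = 1`: the image of the interval `|φ| < arccos k` under `φ ↦ n e^(iφ)`), preconnected, not containing the `a_i`.  By `unlinked` all `b ∈ act c '' lim`, `b ∉ {a₁, a₂, a₃}`, satisfy `ell a₁ a₂ b * ell a₁ a₂ b₁ ≥ 0`, and `ell a₁ a₂ b ≠ 0`, so `b ∈ S`.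
As `act c '' lim` is perfect, every point of it is a limit of such `b`.
(This file: `ray_path`, `two_path`.)
-/

namespace CV

open Metric Set Filter Topology Function DS TN

/-- an affine function vanishing on the line through `a` and `a'` -/
noncomputable def ell (a a' x : ℂ) : ℝ := ((x - a) * (starRingEnd ℂ) (a' - a)).im

variable {Γ : Type} [Group Γ] {F₀ : Fuchs Γ} {N : Subgroup Γ} {W : Set ℂ}

theorem UB_pow {z : Γ} (hz : F₀.act z '' W = W) (hWb : W ⊆ ball 0 1) (n : ℕ) {x : ℂ}
    (hx : x ∈ W) : F₀.act (z ^ n) x ∈ W := by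
  have h1 : ∀ y ∈ W, ‖y‖ ≤ 1 := fun y hy => (mem_ball_zero_iff.1 (hWb hy)).le
  induction n with
  | zero => rwa [pow_zero, act_one F₀ (h1 x hx)]
  | succ n ih =>
    rw [pow_succ', act_mul F₀ _ _ (h1 x hx)]
    have h2 : F₀.act z (F₀.act (z ^ n) x) ∈ F₀.act z '' W := ⟨_, ih, rfl⟩
    rwa [hz] at h2

/-- the infinite concatenation of the translates of a path from `x₀` to `act z x₀` -/
theorem UB_G {z : Γ} {x₀ : ℂ} {γ : ℝ → ℂ} (hx₀ : ‖x₀‖ ≤ 1) (hγ : Continuous γ)
    (hγb : ∀ t, ‖γ t‖ ≤ 1) (h0 : γ 0 = x₀) (h1 : γ 1 = F₀.act z x₀) :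
    ContinuousOn (fun τ : ℝ => F₀.act (z ^ ⌊τ⌋₊) (γ (τ - ⌊τ⌋₊))) (Ici 0) := by
  have hpiece : ∀ n : ℕ, ContinuousOn (fun τ : ℝ => F₀.act (z ^ ⌊τ⌋₊) (γ (τ - ⌊τ⌋₊)))
      (Icc (n : ℝ) (n + 1)) := by
    intro n
    have hc : ContinuousOn (fun τ : ℝ => F₀.act (z ^ n) (γ (τ - n))) (Icc (n : ℝ) (n + 1)) := by
      refine ContinuousOn.comp (act_cont F₀ (z ^ n)) (t := closedBall 0 1)
        (by fun_prop) ?_
      intro τ _
      simpa using hγb _
    refine hc.congr ?_
    intro τ hτ
    rcases lt_or_eq_of_le hτ.2 with h | h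
    · have : ⌊τ⌋₊ = n := by
        rw [Nat.floor_eq_iff (le_trans (Nat.cast_nonneg n) hτ.1)]
        exact ⟨hτ.1, h⟩
      simp only [this]
    · have h5 : ⌊(n : ℝ) + 1⌋₊ = n + 1 := by
        have : ((n : ℝ) + 1) = ((n + 1 : ℕ) : ℝ) := by push_cast; ring
        rw [this, Nat.floor_natCast]
      subst h
      simp only [h5]
      push_cast
      rw [sub_self, h0, add_sub_cancel_left, h1, pow_succ, act_mul F₀ _ _ hx₀]
  have hall : ∀ n : ℕ, ContinuousOn (fun τ : ℝ => F₀.act (z ^ ⌊τ⌋₊) (γ (τ - ⌊τ⌋₊)))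
      (Icc (0 : ℝ) (n + 1)) := by
    intro n
    induction n with
    | zero => simpa using hpiece 0
    | succ n ih =>
      have h2 := hpiece (n + 1)
      have h3 := ih.union_of_isClosed h2 isClosed_Icc isClosed_Icc
      refine h3.mono ?_
      intro τ hτ
      rcases le_total τ (n + 1) with h | h
      · exact Or.inl ⟨hτ.1, h⟩
      · refine Or.inr ⟨?_, hτ.2⟩
        push_cast
        exact h
  intro τ hτ
  have h2 : τ < (⌊τ⌋₊ : ℝ) + 1 := Nat.lt_floor_add_one τ
  have h3 := hall ⌊τ⌋₊ τ ⟨hτ, h2.le⟩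
  refine h3.mono_of_mem_nhdsWithin ?_
  rw [mem_nhdsWithin_iff_exists_mem_nhds_inter]
  exact ⟨Iio ((⌊τ⌋₊ : ℝ) + 1), Iio_mem_nhds h2, fun y hy => ⟨hy.2, (le_of_lt hy.1)⟩⟩

theorem ray_path (hW : IsOpen W) (hWc : IsConnected W) (hWb : W ⊆ ball 0 1)
    {z : Γ} (hz : F₀.act z '' W = W) {a a' : ℂ} (h : F₀.AR z a a') {x₀ : ℂ} (hx₀ : x₀ ∈ W) :
    ∃ f : ℝ → ℂ, ContinuousOn f (Icc 0 1) ∧ f 0 = x₀ ∧ f 1 = a ∧ ∀ t, 0 ≤ t → t < 1 → f t ∈ W := by
  classical
  have hb1 : ∀ y ∈ W, ‖y‖ < 1 := fun y hy => mem_ball_zero_iff.1 (hWb hy)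
  have hzx : F₀.act z x₀ ∈ W := by
    have h2 : F₀.act z x₀ ∈ F₀.act z '' W := ⟨_, hx₀, rfl⟩
    rwa [hz] at h2
  have hj := ((hW.isConnected_iff_isPathConnected).1 hWc).joinedIn x₀ hx₀ _ hzx
  set P := hj.somePath with hP
  have hPm : ∀ t, P t ∈ W := hj.somePath_mem
  set γ : ℝ → ℂ := ⇑P.extend with hγ
  have hγc : Continuous γ := P.continuous_extend
  have hγm : ∀ t, γ t ∈ W := by
    intro t
    exact hPm (projIcc 0 1 zero_le_one t)
  have hγ0 : γ 0 = x₀ := P.extend_zero
  have hγ1 : γ 1 = F₀.act z x₀ := P.extend_one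
  have hG := UB_G (F₀ := F₀) (z := z) (hb1 x₀ hx₀).le hγc (fun t => (hb1 _ (hγm t)).le) hγ0 hγ1
  set G : ℝ → ℂ := fun τ : ℝ => F₀.act (z ^ ⌊τ⌋₊) (γ (τ - ⌊τ⌋₊)) with hGdef
  have hGW : ∀ τ, G τ ∈ W := fun τ => UB_pow hz hWb _ (hγm _)
  refine ⟨fun t => if t < 1 then G (1 / (1 - t) - 1) else a, ?_, ?_, ?_, ?_⟩
  · intro t ht
    rcases lt_or_eq_of_le ht.2 with h1 | h1
    · -- continuity before `1`
      have hin : 0 ≤ 1 / (1 - t) - 1 := by
        have : 0 < 1 - t := by linarith
        rw [sub_nonneg, le_div_iff₀ this]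
        linarith [ht.1]
      have hc1 : ContinuousWithinAt (fun t : ℝ => G (1 / (1 - t) - 1)) (Icc 0 1 ∩ Iio 1) t := by
        refine ContinuousWithinAt.comp (t := Ici 0) (f := fun t : ℝ => 1 / (1 - t) - 1) (g := G)
          (hG _ hin) ?_ ?_
        · have h2 : (1 - t) ≠ 0 := by
            have : 0 < 1 - t := by linarith
            exact this.ne'
          have h3 : ContinuousAt (fun t : ℝ => 1 / (1 - t) - 1) t :=
            ((continuousAt_const).div (by fun_prop) h2).sub continuousAt_const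
          exact h3.continuousWithinAt
        · rintro y ⟨hy1, hy2⟩
          have : 0 < 1 - y := by
            have : y < 1 := hy2
            linarith
          show (0 : ℝ) ≤ 1 / (1 - y) - 1
          rw [sub_nonneg, le_div_iff₀ this]
          linarith [hy1.1]
      have hc2 : ContinuousWithinAt (fun t : ℝ => if t < 1 then G (1 / (1 - t) - 1) else a)
          (Icc 0 1 ∩ Iio 1) t := by
        refine hc1.congr ?_ ?_
        · rintro y ⟨_, hy2⟩
          exact if_pos hy2
        · exact if_pos h1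
      refine hc2.mono_of_mem_nhdsWithin ?_
      exact inter_mem_nhdsWithin _ (Iio_mem_nhds h1)
    · subst h1
      -- continuity at `1`
      have hK : IsCompact (γ '' Icc 0 1) := isCompact_Icc.image hγc
      have ha' : a' ∉ γ '' Icc 0 1 := by
        rintro ⟨s, _, hs⟩
        have := hb1 _ (hγm s)
        rw [hs, h.nq] at this
        exact lt_irrefl _ this
      obtain ⟨η, hη, hηd⟩ : ∃ η > 0, ∀ x ∈ γ '' Icc 0 1, η ≤ dist x a' := by
        have hne : (γ '' Icc (0:ℝ) 1).Nonempty := ⟨γ 0, 0, by simp, rfl⟩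
        refine ⟨infDist a' (γ '' Icc 0 1), ?_, ?_⟩
        · exact (hK.isClosed.notMem_iff_infDist_pos hne).1 ha'
        · intro x hx
          rw [dist_comm]
          exact infDist_le_dist_of_mem hx
      rw [Metric.continuousWithinAt_iff]
      intro ε hε
      obtain ⟨n₀, hn₀⟩ := eventually_atTop.1 (AR.unif h hη hε)
      refine ⟨1 / ((n₀ : ℝ) + 1), by positivity, ?_⟩
      intro t ht htd
      simp only [lt_irrefl, if_false]
      split_ifs with h1
      · have hpos : 0 < 1 - t := by linarith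
        have h2 : 1 - t < 1 / ((n₀ : ℝ) + 1) := by
          rw [Real.dist_eq, abs_sub_comm, abs_of_pos hpos] at htd
          exact htd
        have h3 : (n₀ : ℝ) ≤ 1 / (1 - t) - 1 := by
          have hp : (0:ℝ) < (n₀ : ℝ) + 1 := by positivity
          rw [le_sub_iff_add_le, le_div_iff₀ hpos]
          rw [lt_div_iff₀ hp] at h2
          nlinarith
        set τ := 1 / (1 - t) - 1 with hτ
        have hτ0 : 0 ≤ τ := le_trans (Nat.cast_nonneg _) h3
        have h4 : n₀ ≤ ⌊τ⌋₊ := Nat.le_floor h3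
        refine hn₀ _ h4 _ ?_ ?_
        · rw [mem_closedBall_zero_iff]
          exact (hb1 _ (hγm _)).le
        · refine hηd _ ⟨τ - ⌊τ⌋₊, ⟨?_, ?_⟩, rfl⟩
          · linarith [Nat.floor_le hτ0]
          · linarith [Nat.lt_floor_add_one τ]
      · rw [dist_self]; exact hε
  · simp only [zero_lt_one, if_true, sub_zero, div_one, sub_self]
    simp only [hGdef, Nat.floor_zero, pow_zero, Nat.cast_zero, sub_zero, hγ0]
    exact act_one F₀ (hb1 _ hx₀).le
  · simp
  · intro t _ h1
    simp only [h1, if_true]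
    exact hGW _

theorem two_path (hW : IsOpen W) (hWc : IsConnected W) (hWb : W ⊆ ball 0 1)
    {z z' : Γ} (hz : F₀.act z '' W = W) (hz' : F₀.act z' '' W = W) {a a' b b' : ℂ}
    (h : F₀.AR z a a') (h' : F₀.AR z' b b') :
    ∃ f : unitInterval → ℂ, Continuous f ∧ f 0 = a ∧ f 1 = b ∧
      ∀ t, t ≠ 0 → t ≠ 1 → f t ∈ W := by
  classical
  obtain ⟨x₀, hx₀⟩ := hWc.nonempty
  obtain ⟨f, hf, hf0, hf1, hfW⟩ := ray_path hW hWc hWb hz h hx₀
  obtain ⟨g, hg, hg0, hg1, hgW⟩ := ray_path hW hWc hWb hz' h' hx₀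
  set fe : ℝ → ℂ := fun t => f (projIcc (0:ℝ) 1 zero_le_one t) with hfe
  set ge : ℝ → ℂ := fun t => g (projIcc (0:ℝ) 1 zero_le_one t) with hge
  have hfec : Continuous fe :=
    hf.comp_continuous (continuous_subtype_val.comp continuous_projIcc)
      (fun t => (projIcc (0:ℝ) 1 zero_le_one t).2)
  have hgec : Continuous ge :=
    hg.comp_continuous (continuous_subtype_val.comp continuous_projIcc)
      (fun t => (projIcc (0:ℝ) 1 zero_le_one t).2)
  have hfe1 : ∀ t : ℝ, t ∈ Icc (0:ℝ) 1 → fe t = f t := by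
    intro t ht
    simp only [hfe, projIcc_of_mem zero_le_one ht]
  have hge1 : ∀ t : ℝ, t ∈ Icc (0:ℝ) 1 → ge t = g t := by
    intro t ht
    simp only [hge, projIcc_of_mem zero_le_one ht]
  refine ⟨fun t => if (t : ℝ) ≤ 1 / 2 then fe (1 - 2 * t) else ge (2 * t - 1), ?_, ?_, ?_, ?_⟩
  · refine Continuous.if_le (by fun_prop) (by fun_prop) (by fun_prop) (by fun_prop) ?_
    intro t ht
    rw [ht]
    norm_num
    rw [hfe1 0 (by simp), hge1 0 (by simp), hf0, hg0]
  · norm_num
    rw [hfe1 1 (by simp), hf1]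
  · norm_num
    rw [hge1 1 (by simp), hg1]
  · intro t ht0 ht1
    have h0 : 0 < (t : ℝ) := unitInterval.pos_iff_ne_zero.2 ht0
    have h1 : (t : ℝ) < 1 := unitInterval.lt_one_iff_ne_one.2 ht1
    simp only
    split_ifs with h2
    · rw [hfe1 _ ⟨by linarith, by linarith⟩]
      exact hfW _ (by linarith) (by linarith)
    · push Not at h2
      rw [hge1 _ ⟨by linarith, by linarith⟩]
      exact hgW _ (by linarith) (by linarith)

end CV
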