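import Pool.Agent.H12.CV.UB
import Pool.Agent.H77.ISO.Cross

/-!
UB (unlinked limit sets; (4.1) of the note).  `W` open connected subset of the disc, invariant under `act z`, `z ∈ N`.
`ray_path`: `z ∈ N`, `AR z a a'`, `x₀ ∈ W`: `W` is path connected (`IsOpen.isConnected_iff_isPathConnected`); let `γ : [0,1] → W` be a path from `x₀` to `act z x₀`.  Define `f 1 = a` and `f t = act (z^n) (γ s)` for `t = 1 - 1/(n + 1 + s)`, `0 ≤ s ≤ 1`, i.e.
`τ = 1/(1-t) - 1`, `n = ⌊τ⌋`, `s = fract τ`.  Continuous for `t < 1` (the values at `s = 1` and the next `s = 0` agree: `act (z^n) (act z x₀) = act (z^(n+1)) x₀`); continuous at `1` by `AR.unif` (`γ` has compact image in the open disc, so at positive distance from `a'`).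
`two_path`: join two such paths.
`unlinked`: `ell a a' x = Im ((x - a) conj (a' - a))`.  Suppose `a, a' ∈ lim (sub N)`, `b₀, b₀' ∈ lim (sub N)`, `b = act c b₀`, `b' = act c b₀'` and `ell a a' b * ell a a' b' < 0`.  This is an open condition, so by `TN.near` (for `F₀.sub N`) we may replace `a, a', b₀, b₀'` by attracting
fixed points of elements of `N`.  `two_path` gives `f` from `a` to `a'` with interior in `W`, and `h` from `b₀` to `b₀'`, `act c ∘ h` from `b` to `b'` with interior in `act c '' W`.  The points `a, b, a', b'` are distinct and alternate on the circle, so `Cross.cross` (H77/ISO/Cross: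
`D = closedBall 0 1`, supporting half planes `na = a`, `nb = -b` etc.; the four sign conditions say that `a, b, a', b'` is a convex quadrilateral in this orientation; otherwise exchange `b` and `b'`) gives `s, t` with `f s = act c (h t)`.  If this point is in the open disc, it is in
`W ∩ act c '' W = ∅`; otherwise it is on the circle and `s ∈ {0,1}`, `t ∈ {0,1}`, so one of `a, a'` is one of `b, b'`, but `ell a a' b ≠ 0`: contradiction.
The sign conditions: for `a, b, a', b'` on the circle, `Im ((a - b') conj (a - b))` etc.: `a, b, a', b'` in counterclockwise order: `b` and `b'` on different sides of the line `a a'`; for three points of the circle the sign of `Im ((y - x) conj (z - x))`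
determines the cyclic order; use the identity `Im ((y - x) conj (z - x)) = ± 4 sin sin sin /2` or the product formula: for unit numbers `(y - x) conj (z - x) = (y - x)(x - z)/(x z)`... A clean way: `ell a a' b * ell a a' b' < 0` means that the chords `[a, a']` and `[b, b']` meet in an interior point, and
convexity of the disc gives the four signs: with `o` the intersection point, `a = o + α e`, `a' = o - α' e`, `b = o + β e'`, `b' = o - β' e'`, all `α, α', β, β' > 0`, and `σ = Im (e conj e') ≠ 0`; each of the four expressions is a positive combination of `σ` (or of `-σ`):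
`Im ((a - b') conj (a - b)) = Im ((α e + β' e') conj (α e - β e')) = - α β Im (e conj e') + α β' Im (e' conj e) = - α (β + β') σ`, and the same sign for the others.
`same_side`: `a₁, a₂, a₃` distinct points of `lim (sub N)`, `c ∉ N`.  For `x` on the circle, not one of the `a_i`, `x` is on the side opposite to the third point for exactly one of the three lines (it is not in the open triangle; see TN/RG).  `lim (sub N)` is perfect and infinite, so choose `b₁ ∈ act c '' lim`,
`b₁ ∉ {a_i}`, say `ell a₁ a₂ b₁ * ell a₁ a₂ a₃ < 0`.  Let `S = {x | ‖x‖ = 1, ell a₁ a₂ x * ell a₁ a₂ a₃ < 0}`, an open arc (the circle intersected with an open half plane `Re (x conj n) > k`, `‖n‖ = 1`: the image of the interval `|φ| < arccos k` under `φ ↦ n e^(iφ)`), preconnected, not containing the `a_i`.  By `unlinked` all `b ∈ act c '' lim`, `b ∉ {a₁, a₂, a₃}`, satisfy `ell a₁ a₂ b * ell a₁ a₂ b₁ ≥ 0`, and `ell a₁ a₂ b ≠ 0`, so `b ∈ S`.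
As `act c '' lim` is perfect, every point of it is a limit of such `b`.
(This file: `unlinked`.)
-/

namespace CV

open Metric Set Filter Topology Function DS TN

theorem UC_ofI {x y z : ℂ} (hx : ‖x‖ = 1) (hy : ‖y‖ = 1) (hz : ‖z‖ = 1) :
    ((((y - x) * (starRingEnd ℂ) (z - x)).im : ℝ) : ℂ) * (2 * Complex.I) =
      (y - x) * (x - z) * (y - z) / (x * y * z) := by
  have hx0 : x ≠ 0 := norm_ne_zero_iff.1 (by rw [hx]; exact one_ne_zero)
  have hy0 : y ≠ 0 := norm_ne_zero_iff.1 (by rw [hy]; exact one_ne_zero)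
  have hz0 : z ≠ 0 := norm_ne_zero_iff.1 (by rw [hz]; exact one_ne_zero)
  have cx : (starRingEnd ℂ) x = x⁻¹ := (Complex.inv_eq_conj hx).symm
  have cy : (starRingEnd ℂ) y = y⁻¹ := (Complex.inv_eq_conj hy).symm
  have cz : (starRingEnd ℂ) z = z⁻¹ := (Complex.inv_eq_conj hz).symm
  have h := Complex.sub_conj ((y - x) * (starRingEnd ℂ) (z - x))
  have h2 : ((((y - x) * (starRingEnd ℂ) (z - x)).im : ℝ) : ℂ) * (2 * Complex.I) =
      (2 * ((y - x) * (starRingEnd ℂ) (z - x)).im : ℝ) * Complex.I := by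
    push_cast; ring
  rw [h2, ← h]
  rw [map_mul, Complex.conj_conj, map_sub, map_sub, cx, cy, cz]
  field_simp
  ring

theorem UC_ell (a a' x : ℂ) : ell a a' x = ((x - a) * (starRingEnd ℂ) (a' - a)).im := rfl

/-- the product formula -/
theorem UC_prod {a a' b d : ℂ} (ha : ‖a‖ = 1) (ha' : ‖a'‖ = 1) (hb : ‖b‖ = 1) (hd : ‖d‖ = 1) :
    ell a b d * ell a' d b * ‖a - a'‖ ^ 2 = - (ell a a' d * ell a a' b) * ‖d - b‖ ^ 2 := by
  have ha0 : a ≠ 0 := norm_ne_zero_iff.1 (by rw [ha]; exact one_ne_zero)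
  have ha0' : a' ≠ 0 := norm_ne_zero_iff.1 (by rw [ha']; exact one_ne_zero)
  have hb0 : b ≠ 0 := norm_ne_zero_iff.1 (by rw [hb]; exact one_ne_zero)
  have hd0 : d ≠ 0 := norm_ne_zero_iff.1 (by rw [hd]; exact one_ne_zero)
  have hsq : ∀ {x y : ℂ}, ‖x‖ = 1 → ‖y‖ = 1 → ((‖x - y‖ ^ 2 : ℝ) : ℂ) = - (x - y) ^ 2 / (x * y) := by
    intro x y hx hy
    have hx0 : x ≠ 0 := norm_ne_zero_iff.1 (by rw [hx]; exact one_ne_zero)
    have hy0 : y ≠ 0 := norm_ne_zero_iff.1 (by rw [hy]; exact one_ne_zero)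
    rw [← Complex.normSq_eq_norm_sq, ← Complex.mul_conj, map_sub,
      ← Complex.inv_eq_conj hx, ← Complex.inv_eq_conj hy]
    field_simp
    ring
  have e1 := UC_ofI ha hd hb
  have e2 := UC_ofI ha' hb hd
  have e3 := UC_ofI ha hd ha'
  have e4 := UC_ofI ha hb ha'
  rw [← UC_ell] at e1 e2 e3 e4
  have key : ((ell a b d * ell a' d b * ‖a - a'‖ ^ 2 : ℝ) : ℂ) * (2 * Complex.I) ^ 2 =
      ((- (ell a a' d * ell a a' b) * ‖d - b‖ ^ 2 : ℝ) : ℂ) * (2 * Complex.I) ^ 2 := by
    have l1 : ((ell a b d * ell a' d b * ‖a - a'‖ ^ 2 : ℝ) : ℂ) * (2 * Complex.I) ^ 2 =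
        (((ell a b d : ℝ) : ℂ) * (2 * Complex.I)) * (((ell a' d b : ℝ) : ℂ) * (2 * Complex.I)) *
          ((‖a - a'‖ ^ 2 : ℝ) : ℂ) := by push_cast; ring
    have l2 : ((- (ell a a' d * ell a a' b) * ‖d - b‖ ^ 2 : ℝ) : ℂ) * (2 * Complex.I) ^ 2 =
        - ((((ell a a' d : ℝ) : ℂ) * (2 * Complex.I)) * (((ell a a' b : ℝ) : ℂ) * (2 * Complex.I)) *
          ((‖d - b‖ ^ 2 : ℝ) : ℂ)) := by push_cast; ring
    rw [l1, l2, e1, e2, e3, e4, hsq ha ha', hsq hd hb]
    field_simp
    ring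
  have h2I : (2 * Complex.I) ^ 2 ≠ 0 := by
    apply pow_ne_zero
    exact mul_ne_zero two_ne_zero Complex.I_ne_zero
  exact_mod_cast mul_right_cancel₀ h2I key

theorem UC_cross0 {a a' b d : ℂ} (ha : ‖a‖ = 1) (ha' : ‖a'‖ = 1) (hb : ‖b‖ = 1) (hd : ‖d‖ = 1)
    {f g : unitInterval → ℂ} (hf : Continuous f) (hg : Continuous g)
    (hfD : ∀ s, f s ∈ closedBall (0 : ℂ) 1) (hgD : ∀ s, g s ∈ closedBall (0 : ℂ) 1)
    (f0 : f 0 = a) (f1 : f 1 = a') (g0 : g 0 = b) (g1 : g 1 = d)
    (h1 : 0 < ell a a' d) (h2 : ell a a' b < 0) : ∃ s t, f s = g t := by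
  have hne : b ≠ d := by rintro rfl; linarith
  have hne' : a ≠ a' := by rintro rfl; simp [ell] at h1
  have hp := UC_prod ha ha' hb hd
  have hpos : 0 < ell a b d * ell a' d b := by
    have q1 : 0 < ‖a - a'‖ ^ 2 := by
      have := norm_pos_iff.2 (sub_ne_zero.2 hne'); positivity
    have q2 : 0 < ‖d - b‖ ^ 2 := by
      have := norm_pos_iff.2 (sub_ne_zero.2 hne.symm); positivity
    have q3 : 0 < - (ell a a' d * ell a a' b) := by nlinarith
    have q4 : 0 < ell a b d * ell a' d b * ‖a - a'‖ ^ 2 := by rw [hp]; positivity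
    exact pos_of_mul_pos_left q4 q1.le
  have hsum : ell a b d + ell a' d b = ell a a' d - ell a a' b := by
    simp only [ell, Complex.mul_im, Complex.conj_re, Complex.conj_im, Complex.sub_re,
      Complex.sub_im, map_sub]
    ring
  have hs : 0 < ell a b d ∧ 0 < ell a' d b := by
    rcases lt_or_ge 0 (ell a b d) with h | h
    · exact ⟨h, (mul_pos_iff_of_pos_left h).1 hpos⟩
    · exfalso
      have : ell a' d b < 0 := by
        by_contra hcon
        push Not at hcon
        have := mul_nonpos_of_nonpos_of_nonneg h hcon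
        linarith
      linarith
  have supp : ∀ {x : ℂ}, ‖x‖ = 1 → ∀ y ∈ closedBall (0 : ℂ) 1, 0 ≤ ((x - y) / x).re ∧
      0 ≤ ((y - x) / (-x)).re := by
    intro x hx y hy
    have hx0 : x ≠ 0 := norm_ne_zero_iff.1 (by rw [hx]; exact one_ne_zero)
    have e1 : (x - y) / x = 1 - y / x := by field_simp
    have e2 : (y - x) / (-x) = 1 - y / x := by field_simp; ring
    have e3 : (y / x).re ≤ 1 := by
      refine (Complex.re_le_norm _).trans ?_
      rw [norm_div, hx, div_one]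
      exact mem_closedBall_zero_iff.1 hy
    rw [e1, e2]
    simp only [Complex.sub_re, Complex.one_re]
    constructor <;> linarith
  have nz : ∀ {x : ℂ}, ‖x‖ = 1 → x ≠ 0 := fun {x} hx =>
    norm_ne_zero_iff.1 (by rw [hx]; exact one_ne_zero)
  refine Pool.Agent.H77.ISO.cross (na := a) (nb := -b) (nc := a') (nd := -d) hf hg hfD hgD f0 f1 g0 g1
    (nz ha) (neg_ne_zero.2 (nz hb)) (nz ha') (neg_ne_zero.2 (nz hd))
    (fun y hy => (supp ha y hy).1) (fun y hy => (supp hb y hy).2)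
    (fun y hy => (supp ha' y hy).1) (fun y hy => (supp hd y hy).2) ?_ ?_ ?_ ?_
  · have : ((a - d) * (starRingEnd ℂ) (a - b)).im = ell a b d := by
      simp only [ell, Complex.mul_im, Complex.conj_re, Complex.conj_im, Complex.sub_re,
        Complex.sub_im, map_sub]
      ring
    rw [this]; exact hs.1
  · have : ((a' - d) * (starRingEnd ℂ) (a - d)).im = ell a a' d := by
      simp only [ell, Complex.mul_im, Complex.conj_re, Complex.conj_im, Complex.sub_re,
        Complex.sub_im, map_sub]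
      ring
    rw [this]; exact h1
  · have : ((a' - b) * (starRingEnd ℂ) (a' - d)).im = ell a' d b := by
      simp only [ell, Complex.mul_im, Complex.conj_re, Complex.conj_im, Complex.sub_re,
        Complex.sub_im, map_sub]
      ring
    rw [this]; exact hs.2
  · have : ((a - b) * (starRingEnd ℂ) (a' - b)).im = - ell a a' b := by
      simp only [ell, Complex.mul_im, Complex.conj_re, Complex.conj_im, Complex.sub_re,
        Complex.sub_im, map_sub]
      ring
    rw [this]; linarith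

theorem UC_cross {a a' b d : ℂ} (ha : ‖a‖ = 1) (ha' : ‖a'‖ = 1) (hb : ‖b‖ = 1) (hd : ‖d‖ = 1)
    {f g : unitInterval → ℂ} (hf : Continuous f) (hg : Continuous g)
    (hfD : ∀ s, f s ∈ closedBall (0 : ℂ) 1) (hgD : ∀ s, g s ∈ closedBall (0 : ℂ) 1)
    (f0 : f 0 = a) (f1 : f 1 = a') (g0 : g 0 = b) (g1 : g 1 = d)
    (h : ell a a' b * ell a a' d < 0) : ∃ s t, f s = g t := by
  rcases mul_neg_iff.1 h with ⟨h1, h2⟩ | ⟨h1, h2⟩
  · obtain ⟨s, t, hst⟩ := UC_cross0 ha ha' hd hb hf (hg.comp unitInterval.continuous_symm)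
      hfD (fun s => hgD _) f0 f1 (by simp [g1]) (by simp [g0]) h1 h2
    exact ⟨s, _, hst⟩
  · exact UC_cross0 ha ha' hb hd hf hg hfD hgD f0 f1 g0 g1 h2 h1

variable {Γ : Type} [Group Γ] {F₀ : Fuchs Γ} {N : Subgroup Γ} {W : Set ℂ}

theorem UC_seq (F : Fuchs Γ) (hN : F.Nonel) {ξ : ℂ} (hξ : ξ ∈ F.lim) :
    ∃ (g : ℕ → Γ) (p q : ℕ → ℂ), (∀ n, F.AR (g n) (p n) (q n)) ∧ Tendsto p atTop (𝓝 ξ) := by
  have key : ∀ n : ℕ, ∃ g p q, F.AR g p q ∧ dist p ξ < 1 / ((n : ℝ) + 1) := fun n => by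
    obtain ⟨g, p, q, h, hp, -⟩ := near F hN hξ (ε := 1 / ((n : ℝ) + 1)) (by positivity)
    exact ⟨g, p, q, h, hp⟩
  choose g p q h hp using key
  refine ⟨g, p, q, h, ?_⟩
  rw [tendsto_iff_dist_tendsto_zero]
  exact squeeze_zero (fun n => dist_nonneg) (fun n => (hp n).le)
    tendsto_one_div_add_atTop_nhds_zero_nat

theorem unlinked (hW : IsOpen W) (hWc : IsConnected W) (hWb : W ⊆ ball 0 1)
    (hinv : ∀ z ∈ N, F₀.act z '' W = W) (hN : (F₀.sub N).Nonel) {c : Γ}
    (hc : Disjoint (F₀.act c '' W) W) {a a' b b' : ℂ} (ha : a ∈ (F₀.sub N).lim)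
    (ha' : a' ∈ (F₀.sub N).lim) (hb : b ∈ (F₀.sub N).lim) (hb' : b' ∈ (F₀.sub N).lim) :
    0 ≤ ell a a' (F₀.act c b) * ell a a' (F₀.act c b') := by
  by_contra hcon
  push Not at hcon
  obtain ⟨g1, p1, q1, h1, t1⟩ := UC_seq (F₀.sub N) hN ha
  obtain ⟨g2, p2, q2, h2, t2⟩ := UC_seq (F₀.sub N) hN ha'
  obtain ⟨g3, p3, q3, h3, t3⟩ := UC_seq (F₀.sub N) hN hb
  obtain ⟨g4, p4, q4, h4, t4⟩ := UC_seq (F₀.sub N) hN hb'
  have hact : ∀ (p : ℕ → ℂ) (x : ℂ), (∀ n, ‖p n‖ = 1) → ‖x‖ = 1 → Tendsto p atTop (𝓝 x) →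
      Tendsto (fun n => F₀.act c (p n)) atTop (𝓝 (F₀.act c x)) := by
    intro p x hp hx ht
    refine ((act_cont F₀ c) x (mem_closedBall_zero_iff.2 hx.le)).tendsto.comp ?_
    rw [tendsto_nhdsWithin_iff]
    exact ⟨ht, Eventually.of_forall fun n => mem_closedBall_zero_iff.2 (hp n).le⟩
  have t3' := hact p3 b (fun n => (h3 n).np) (lim_sphere _ hb) t3
  have t4' := hact p4 b' (fun n => (h4 n).np) (lim_sphere _ hb') t4
  have hell : ∀ (x : ℕ → ℂ) (y : ℂ), Tendsto x atTop (𝓝 y) →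
      Tendsto (fun n => ell (p1 n) (p2 n) (x n)) atTop (𝓝 (ell a a' y)) := by
    intro x y hx
    unfold ell
    have e1 : Tendsto (fun n => (x n - p1 n) * (starRingEnd ℂ) (p2 n - p1 n)) atTop
        (𝓝 ((y - a) * (starRingEnd ℂ) (a' - a))) :=
      (hx.sub t1).mul ((Complex.continuous_conj.tendsto _).comp (t2.sub t1))
    exact (Complex.continuous_im.tendsto _).comp e1
  have hT := (hell _ _ t3').mul (hell _ _ t4')
  obtain ⟨n, hn⟩ := (hT.eventually (gt_mem_nhds hcon)).exists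
  have A1 := (AR_sub F₀ N (g1 n) _ _).1 (h1 n)
  have A2 := (AR_sub F₀ N (g2 n) _ _).1 (h2 n)
  have A3 := (AR_sub F₀ N (g3 n) _ _).1 (h3 n)
  have A4 := (AR_sub F₀ N (g4 n) _ _).1 (h4 n)
  obtain ⟨f, hf, f0, f1, hfW⟩ := two_path hW hWc hWb (hinv _ (g1 n).2) (hinv _ (g2 n).2) A1 A2
  obtain ⟨h, hh, e0, e1, hhW⟩ := two_path hW hWc hWb (hinv _ (g3 n).2) (hinv _ (g4 n).2) A3 A4
  have hD : ∀ (k : unitInterval → ℂ) (x y : ℂ), ‖x‖ = 1 → ‖y‖ = 1 → k 0 = x → k 1 = y →
      (∀ t, t ≠ 0 → t ≠ 1 → k t ∈ W) → ∀ s, k s ∈ closedBall (0 : ℂ) 1 := by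
    intro k x y hx hy k0 k1 hk s
    by_cases s0 : s = 0
    · rw [s0, k0]; exact mem_closedBall_zero_iff.2 hx.le
    by_cases s1 : s = 1
    · rw [s1, k1]; exact mem_closedBall_zero_iff.2 hy.le
    exact ball_subset_closedBall (hWb (hk s s0 s1))
  have hfD := hD f _ _ A1.np A2.np f0 f1 hfW
  have hhD := hD h _ _ A3.np A4.np e0 e1 hhW
  have hg : Continuous (fun t => F₀.act c (h t)) := (act_cont F₀ c).comp_continuous hh hhD
  have hgD : ∀ s, F₀.act c (h s) ∈ closedBall (0 : ℂ) 1 := fun s =>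
    mem_closedBall_zero_iff.2 (act_le F₀ c (mem_closedBall_zero_iff.1 (hhD s)))
  obtain ⟨s, t, hst⟩ := UC_cross A1.np A2.np (act_eq F₀ c A3.np) (act_eq F₀ c A4.np) hf hg hfD hgD
    f0 f1 (by simp only [e0]) (by simp only [e1]) hn
  by_cases ht : t ≠ 0 ∧ t ≠ 1
  · have hlt : ‖F₀.act c (h t)‖ < 1 := act_lt F₀ c (mem_ball_zero_iff.1 (hWb (hhW t ht.1 ht.2)))
    rw [← hst] at hlt
    have s0 : s ≠ 0 := by
      rintro rfl; rw [f0, A1.np] at hlt; exact lt_irrefl _ hlt
    have s1 : s ≠ 1 := by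
      rintro rfl; rw [f1, A2.np] at hlt; exact lt_irrefl _ hlt
    exact Set.disjoint_left.1 hc ⟨h t, hhW t ht.1 ht.2, rfl⟩ (hst ▸ hfW s s0 s1)
  · have h01 : F₀.act c (h t) = F₀.act c (p3 n) ∨ F₀.act c (h t) = F₀.act c (p4 n) := by
      by_cases t0 : t = 0
      · left; rw [t0, e0]
      · right
        have : t = 1 := by
          by_contra t1'
          exact ht ⟨t0, t1'⟩
        rw [this, e1]
    have hn1 : ‖F₀.act c (h t)‖ = 1 := by
      rcases h01 with e | e
      · rw [e]; exact act_eq F₀ c A3.np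
      · rw [e]; exact act_eq F₀ c A4.np
    have hs : f s = p1 n ∨ f s = p2 n := by
      by_cases s0 : s = 0
      · left; rw [s0, f0]
      by_cases s1 : s = 1
      · right; rw [s1, f1]
      exfalso
      have := mem_ball_zero_iff.1 (hWb (hfW s s0 s1))
      rw [hst, hn1] at this
      exact lt_irrefl _ this
    have hz : ell (p1 n) (p2 n) (f s) = 0 := by
      rcases hs with e | e
      · rw [e]; simp [ell]
      · rw [e, ell, Complex.mul_conj]; exact Complex.ofReal_im _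
    rw [hst] at hz
    rcases h01 with e | e
    · rw [e] at hz; rw [hz, zero_mul] at hn; exact lt_irrefl _ hn
    · rw [e] at hz; rw [hz, mul_zero] at hn; exact lt_irrefl _ hn

end CV
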