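import Pool.Agent.H12.CV.UC
import Pool.Agent.H12.TN.FF
import Pool.Agent.H12.TN.RG

/-!
UB (unlinked limit sets; (4.1) of the note).  `W` open connected subset of the disc, invariant under `act z`, `z ∈ N`.
`ray_path`: `z ∈ N`, `AR z a a'`, `x₀ ∈ W`: `W` is path connected (`IsOpen.isConnected_iff_isPathConnected`); let `γ : [0,1] → W` be a path from `x₀` to `act z x₀`.  Define `f 1 = a` and `f t = act (z^n) (γ s)` for `t = 1 - 1/(n + 1 + s)`, `0 ≤ s ≤ 1`, i.e.
`τ = 1/(1-t) - 1`, `n = ⌊τ⌋`, `s = fract τ`.  Continuous for `t < 1` (the values at `s = 1` and the next `s = 0` agree: `act (z^n) (act z x₀) = act (z^(n+1)) x₀`); continuous at `1` by `AR.unif` (`γ` has compact image in the open disc, so at positive distance from `a'`).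
`two_path`: join two such paths.
`unlinked`: `ell a a' x = Im ((x - a) conj (a' - a))`.  Suppose `a, a' ∈ lim (sub N)`, `b₀, b₀' ∈ lim (sub N)`, `b = act c b₀`, `b' = act c b₀'` and `ell a a' b * ell a a' b' < 0`.  This is an open condition, so by `TN.near` (for `F₀.sub N`) we may replace `a, a', b₀, b₀'` by attracting
fixed points of elements of `N`.  `two_path` gives `f` from `a` to `a'` with interior in `W`, and `h` from `b₀` to `b₀'`, `act c ∘ h` from `b` to `b'` with interior in `act c '' W`.  The points `a, b, a', b'` are distinct and alternate on the circle, so `Cross.cross` (H77/ISO/Cross: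
`D = closedBall 0 1`, supporting half planes `na = a`, `nb = -b` etc.; the four sign conditions say that `a, b, a', b'` is a convex quadrilateral in this orientation; otherwise exchange `b` and `b'`) gives `s, t` with `f s = act c (h t)`.  If this point is in the open disc, it is in
`W ∩ act c '' W = ∅`; otherwise it is on the circle and `s ∈ {0,1}`, `t ∈ {0,1}`, so one of `a, a'` is one of `b, b'`, but `ell a a' b ≠ 0`: contradiction.
The sign conditions: for `a, b, a', b'` on the circle, `Im ((a - b') conj (a - b))` etc.: `a, b, a', b'` in counterclockwise order: `b` and `b'` on different sides of the line `a a'`; for three points of the circle the sign of `Im ((y - x) conj (z - x))`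
determines the cyclic order; use the identity `Im ((y - x) conj (z - x)) = ± 4 sin sin sin /2` or the product formula: for unit numbers `(y - x) conj (z - x) = (y - x)(x - z)/(x z)`... A clean way: `ell a a' b * ell a a' b' < 0` means that the chords `[a, a']` and `[b, b']` meet in an interior point, and
convexity of the disc gives the four signs: with `o` the intersection point, `a = o + α e`, `a' = o - α' e`, `b = o + β e'`, `b' = o - β' e'`, all `α, α', β, β' > 0`, and `σ = Im (e conj e') ≠ 0`; each of the four expressions is a positive combination of `σ` (or of `-σ`):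
`Im ((a - b') conj (a - b)) = Im ((α e + β' e') conj (α e - β e')) = - α β Im (e conj e') + α β' Im (e' conj e) = - α (β + β') σ`, and the same sign for the others.
`same_side`: `a₁, a₂, a₃` distinct points of `lim (sub N)`, `c ∉ N`.  For `x` on the circle, not one of the `a_i`, `x` is on the side opposite to the third point for exactly one of the three lines (it is not in the open triangle; see TN/RG).  `lim (sub N)` is perfect and infinite, so choose `b₁ ∈ act c '' lim`,
`b₁ ∉ {a_i}`, say `ell a₁ a₂ b₁ * ell a₁ a₂ a₃ < 0`.  Let `S = {x | ‖x‖ = 1, ell a₁ a₂ x * ell a₁ a₂ a₃ < 0}`, an open arc (the circle intersected with an open half plane `Re (x conj n) > k`, `‖n‖ = 1`: the image of the interval `|φ| < arccos k` under `φ ↦ n e^(iφ)`), preconnected, not containing the `a_i`.  By `unlinked` all `b ∈ act c '' lim`, `b ∉ {a₁, a₂, a₃}`, satisfy `ell a₁ a₂ b * ell a₁ a₂ b₁ ≥ 0`, and `ell a₁ a₂ b ≠ 0`, so `b ∈ S`.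
As `act c '' lim` is perfect, every point of it is a limit of such `b`.
(This file: `same_side`.)
-/

namespace CV

open Metric Set Filter Topology Function DS TN

theorem UE_ell (a a' x : ℂ) : ell a a' x = RG_ell a a' x := rfl

/-- a point of the circle is not in the open triangle -/
theorem UE_tri {a b c s : ℂ} (ha' : ‖a‖ = 1) (hb' : ‖b‖ = 1) (hc' : ‖c‖ = 1) (hs' : ‖s‖ = 1)
    (hab : a ≠ b) (hbc : b ≠ c) (hca : c ≠ a) (hsa : s ≠ a) (hsb : s ≠ b) (hsc : s ≠ c) :
    ell b c s * ell b c a < 0 ∨ ell c a s * ell c a b < 0 ∨ ell a b s * ell a b c < 0 := by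
  by_contra hcon
  push Not at hcon
  obtain ⟨k1, k2, k3⟩ := hcon
  simp only [UE_ell] at k1 k2 k3
  have e1 : RG_ell c a b = RG_ell b c a := by rw [RG_ell_eq, RG_ell_eq]; ring
  have e2 : RG_ell a b c = RG_ell b c a := by rw [RG_ell_eq, RG_ell_eq]; ring
  rw [e1] at k2
  rw [e2] at k3
  have ha0 : RG_ell b c a ≠ 0 := by
    intro h
    rcases RG_zero hb' hc' ha' hbc h with h | h
    · exact hab h
    · exact hca h.symm
  have n1 : RG_ell b c s ≠ 0 := by
    intro h
    rcases RG_zero hb' hc' hs' hbc h with h | h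
    · exact hsb h
    · exact hsc h
  have k1' : 0 < RG_ell b c s * RG_ell b c a := lt_of_le_of_ne k1 (mul_ne_zero n1 ha0).symm
  have hs := RG_nsq hs'
  have ha := RG_nsq ha'
  have hb := RG_nsq hb'
  have hc := RG_nsq hc'
  have da := RG_dpos hsa.symm
  have db := RG_dpos hsb.symm
  have dc := RG_dpos hsc.symm
  have fa : 0 < 1 - (a.re * s.re + a.im * s.im) := by nlinarith
  have fb : 0 < 1 - (b.re * s.re + b.im * s.im) := by nlinarith
  have fc : 0 < 1 - (c.re * s.re + c.im * s.im) := by nlinarith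
  have key : (RG_ell b c s * RG_ell b c a) * (1 - (a.re * s.re + a.im * s.im))
      + (RG_ell c a s * RG_ell b c a) * (1 - (b.re * s.re + b.im * s.im))
      + (RG_ell a b s * RG_ell b c a) * (1 - (c.re * s.re + c.im * s.im)) = 0 := by
    have e4 : RG_ell b c s + RG_ell c a s + RG_ell a b s = RG_ell b c a := by
      simp only [RG_ell_eq]; ring
    have e5 : RG_ell b c s * a.re + RG_ell c a s * b.re + RG_ell a b s * c.re
        = RG_ell b c a * s.re := by
      simp only [RG_ell_eq]; ring
    have e6 : RG_ell b c s * a.im + RG_ell c a s * b.im + RG_ell a b s * c.im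
        = RG_ell b c a * s.im := by
      simp only [RG_ell_eq]; ring
    linear_combination RG_ell b c a * e4 - RG_ell b c a * s.re * e5 - RG_ell b c a * s.im * e6
      - RG_ell b c a ^ 2 * hs
  have p1 := mul_pos k1' fa
  have p2 := mul_nonneg k2 fb.le
  have p3 := mul_nonneg k3 fc.le
  linarith

/-- the part of the circle in an open half plane is preconnected -/
theorem UE_arc (w : ℂ) (κ : ℝ) :
    IsPreconnected {x : ℂ | ‖x‖ = 1 ∧ κ < (x * (starRingEnd ℂ) w).re} := by
  set α : ℝ := Complex.arg w with hα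
  have hw : (‖w‖ : ℂ) * Complex.exp (α * Complex.I) = w := Complex.norm_mul_exp_arg_mul_I w
  have hval : ∀ t : ℝ, (Complex.exp (((α + t : ℝ) : ℂ) * Complex.I) * (starRingEnd ℂ) w).re =
      ‖w‖ * Real.cos t := by
    intro t
    have h1 : (starRingEnd ℂ) w = (‖w‖ : ℂ) * Complex.exp (-(α * Complex.I)) := by
      conv_lhs => rw [← hw]
      rw [map_mul, Complex.conj_ofReal, ← Complex.exp_conj, map_mul, Complex.conj_ofReal,
        Complex.conj_I, mul_neg]
    have h2 : Complex.exp (((α + t : ℝ) : ℂ) * Complex.I) * (starRingEnd ℂ) w =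
        (‖w‖ : ℂ) * Complex.exp ((t : ℂ) * Complex.I) := by
      rw [h1]
      rw [mul_left_comm, ← Complex.exp_add]
      congr 2
      push_cast
      ring
    rw [h2, Complex.re_ofReal_mul, Complex.exp_ofReal_mul_I_re]
  have himg : {x : ℂ | ‖x‖ = 1 ∧ κ < (x * (starRingEnd ℂ) w).re} =
      (fun t : ℝ => Complex.exp (((α + t : ℝ) : ℂ) * Complex.I)) ''
        {t : ℝ | t ∈ Icc (-Real.pi) Real.pi ∧ κ < ‖w‖ * Real.cos t} := by
    ext x
    constructor
    · rintro ⟨hx1, hx2⟩
      set y : ℂ := x * Complex.exp (-(α * Complex.I)) with hy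
      have hyn : ‖y‖ = 1 := by
        rw [hy, norm_mul, hx1, one_mul, Complex.norm_exp]
        simp
      have h3 : Complex.exp ((Complex.arg y : ℂ) * Complex.I) = y := by
        have := Complex.norm_mul_exp_arg_mul_I y
        rwa [hyn, Complex.ofReal_one, one_mul] at this
      have h4 : Complex.exp (((α + Complex.arg y : ℝ) : ℂ) * Complex.I) = x := by
        push_cast
        rw [add_mul, Complex.exp_add, h3, hy, mul_left_comm, ← Complex.exp_add,
          add_neg_cancel, Complex.exp_zero, mul_one]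
      refine ⟨Complex.arg y, ⟨⟨(Complex.neg_pi_lt_arg y).le, Complex.arg_le_pi y⟩, ?_⟩, h4⟩
      rw [← hval, h4]
      exact hx2
    · rintro ⟨t, ⟨_, ht2⟩, rfl⟩
      refine ⟨Complex.norm_exp_ofReal_mul_I _, ?_⟩
      rw [hval]
      exact ht2
  rw [himg]
  refine IsPreconnected.image ?_ _ (by fun_prop)
  apply Set.OrdConnected.isPreconnected
  refine ⟨?_⟩
  rintro s ⟨hs1, hs2⟩ t ⟨ht1, ht2⟩ u ⟨hu1, hu2⟩
  refine ⟨⟨hs1.1.trans hu1, hu2.trans ht1.2⟩, ?_⟩
  have hnn := norm_nonneg w
  have habs : |u| ≤ |s| ∨ |u| ≤ |t| := by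
    rcases le_total 0 u with h | h
    · right
      rw [abs_of_nonneg h, abs_of_nonneg (h.trans hu2)]
      exact hu2
    · left
      rw [abs_of_nonpos h, abs_of_nonpos (hu1.trans h)]
      linarith
  rcases habs with h | h
  · have h5 : Real.cos |s| ≤ Real.cos |u| :=
      Real.cos_le_cos_of_nonneg_of_le_pi (abs_nonneg _) (abs_le.2 hs1) h
    rw [Real.cos_abs, Real.cos_abs] at h5
    exact hs2.trans_le (mul_le_mul_of_nonneg_left h5 hnn)
  · have h5 : Real.cos |t| ≤ Real.cos |u| :=
      Real.cos_le_cos_of_nonneg_of_le_pi (abs_nonneg _) (abs_le.2 ht1) h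
    rw [Real.cos_abs, Real.cos_abs] at h5
    exact ht2.trans_le (mul_le_mul_of_nonneg_left h5 hnn)

theorem UE_arc_ell (p q : ℂ) (k : ℝ) :
    IsPreconnected {x : ℂ | ‖x‖ = 1 ∧ ell p q x * k < 0} := by
  have h := UE_arc (-(k : ℂ) * Complex.I * (q - p))
    (-k * (p.im * (q.re - p.re) - p.re * (q.im - p.im)))
  have heq : {x : ℂ | ‖x‖ = 1 ∧ ell p q x * k < 0} =
      {x : ℂ | ‖x‖ = 1 ∧ (-k * (p.im * (q.re - p.re) - p.re * (q.im - p.im))) <
        (x * (starRingEnd ℂ) (-(k : ℂ) * Complex.I * (q - p))).re} := by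
    ext x
    simp only [mem_setOf_eq]
    have e1 : (x * (starRingEnd ℂ) (-(k : ℂ) * Complex.I * (q - p))).re =
        -k * (x.im * (q.re - p.re) - x.re * (q.im - p.im)) := by
      simp only [map_mul, map_neg, map_sub, Complex.conj_ofReal, Complex.conj_I, Complex.mul_re,
        Complex.mul_im, Complex.neg_re, Complex.neg_im, Complex.sub_re, Complex.sub_im,
        Complex.conj_re, Complex.conj_im, Complex.ofReal_re, Complex.ofReal_im, Complex.I_re,
        Complex.I_im]
      ring
    have e2 : ell p q x = (x.im - p.im) * (q.re - p.re) - (x.re - p.re) * (q.im - p.im) :=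
      RG_ell_eq p q x
    rw [e1, e2]
    constructor
    · rintro ⟨h1, h2⟩
      exact ⟨h1, by linarith⟩
    · rintro ⟨h1, h2⟩
      exact ⟨h1, by linarith⟩
  rw [heq]
  exact h

variable {Γ : Type} [Group Γ] {F₀ : Fuchs Γ} {N : Subgroup Γ} {W : Set ℂ}

theorem UE_core (hW : IsOpen W) (hWc : IsConnected W) (hWb : W ⊆ ball 0 1)
    (hinv : ∀ z ∈ N, F₀.act z '' W = W) (hN : (F₀.sub N).Nonel) {c : Γ}
    (hc : Disjoint (F₀.act c '' W) W) {p q r : ℂ} (hp : p ∈ (F₀.sub N).lim)
    (hq : q ∈ (F₀.sub N).lim) (hpq : p ≠ q) {b₁ : ℂ}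
    (hb₁ : b₁ ∈ (F₀.sub N).lim) (hneg : ell p q (F₀.act c b₁) * ell p q r < 0) :
    ∃ S : Set ℂ, IsPreconnected S ∧ S ⊆ sphere 0 1 ∧ p ∉ S ∧ q ∉ S ∧ r ∉ S ∧
      ∀ b ∈ (F₀.sub N).lim, F₀.act c b ∈ closure S := by
  have np := lim_sphere (F₀.sub N) hp
  have nq := lim_sphere (F₀.sub N) hq
  set S : Set ℂ := {x : ℂ | ‖x‖ = 1 ∧ ell p q x * ell p q r < 0} with hS
  have hin : ∀ b ∈ (F₀.sub N).lim, F₀.act c b ≠ p → F₀.act c b ≠ q → F₀.act c b ∈ S := by
    intro b hb hbp hbq
    have nb := lim_sphere (F₀.sub N) hb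
    have nab := act_eq F₀ c nb
    refine ⟨nab, ?_⟩
    have h1 := unlinked hW hWc hWb hinv hN hc hp hq hb hb₁
    have h2 : ell p q (F₀.act c b) ≠ 0 := by
      intro h
      rcases RG_zero np nq nab hpq h with h | h
      · exact hbp h
      · exact hbq h
    set A := ell p q (F₀.act c b) with hA
    set B := ell p q (F₀.act c b₁) with hB
    set k := ell p q r with hk
    have hB0 : B ≠ 0 := by
      intro h
      rw [h, zero_mul] at hneg
      exact lt_irrefl _ hneg
    have h3 : 0 < A * B := lt_of_le_of_ne h1 (mul_ne_zero h2 hB0).symm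
    have h4 : (A * k) * (B * B) < 0 := by
      have h5 : (A * B) * (B * k) < 0 := mul_neg_of_pos_of_neg h3 hneg
      have h6 : (A * k) * (B * B) = (A * B) * (B * k) := by ring
      rw [h6]
      exact h5
    by_contra hcon
    push Not at hcon
    have h7 : 0 ≤ (A * k) * (B * B) := mul_nonneg hcon (mul_self_nonneg B)
    linarith
  refine ⟨S, UE_arc_ell p q (ell p q r), fun x hx => by simpa using hx.1, ?_, ?_, ?_, ?_⟩
  · rintro ⟨_, h⟩
    have : ell p q p = 0 := by simp [ell]
    rw [this, zero_mul] at h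
    exact lt_irrefl _ h
  · rintro ⟨_, h⟩
    have : ell p q q = 0 := by
      rw [UE_ell, RG_ell_eq]
      ring
    rw [this, zero_mul] at h
    exact lt_irrefl _ h
  · rintro ⟨_, h⟩
    exact absurd (mul_self_nonneg (ell p q r)) (not_le.2 h)
  · intro b hb
    have nb := lim_sphere (F₀.sub N) hb
    have hbC : b ∈ closedBall (0:ℂ) 1 := by simp [nb]
    rw [Metric.mem_closure_iff]
    intro ε hε
    have hpq0 : 0 < dist p q := dist_pos.2 hpq
    obtain ⟨δ, hδ, hδc⟩ := (Metric.continuousWithinAt_iff.1 (act_cont F₀ c b hbC))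
      (min ε (dist p q)) (lt_min hε hpq0)
    obtain ⟨η, hη, hηb, hηd⟩ := perfect (F₀.sub N) hN hb hδ
    have nη := lim_sphere (F₀.sub N) hη
    have hηC : η ∈ closedBall (0:ℂ) 1 := by simp [nη]
    have h1 := hδc hηC hηd
    rw [lt_min_iff] at h1
    have hne : F₀.act c η ≠ F₀.act c b := fun h => hηb (act_inj F₀ c hηC hbC h)
    by_cases hbp : F₀.act c b = p
    · refine ⟨F₀.act c η, hin η hη (fun h => hne (h.trans hbp.symm)) (fun h => ?_), ?_⟩
      · have h2 := h1.2
        rw [h, hbp, dist_comm] at h2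
        exact lt_irrefl _ h2
      · rw [dist_comm]
        exact h1.1
    · by_cases hbq : F₀.act c b = q
      · refine ⟨F₀.act c η, hin η hη (fun h => ?_) (fun h => hne (h.trans hbq.symm)), ?_⟩
        · have h2 := h1.2
          rw [h, hbq] at h2
          exact lt_irrefl _ h2
        · rw [dist_comm]
          exact h1.1
      · exact ⟨F₀.act c b, hin b hb hbp hbq, by rwa [dist_self]⟩

theorem same_side (hW : IsOpen W) (hWc : IsConnected W) (hWb : W ⊆ ball 0 1)
    (hinv : ∀ z ∈ N, F₀.act z '' W = W) (hN : (F₀.sub N).Nonel) {c : Γ}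
    (hc : Disjoint (F₀.act c '' W) W) {a : Fin 3 → ℂ} (ha : ∀ i, a i ∈ (F₀.sub N).lim)
    (hd : ∀ i j, i ≠ j → a i ≠ a j) :
    ∃ S : Set ℂ, IsPreconnected S ∧ S ⊆ sphere 0 1 ∧ (∀ i, a i ∉ S) ∧
      ∀ b ∈ (F₀.sub N).lim, F₀.act c b ∈ closure S := by
  have na : ∀ i, ‖a i‖ = 1 := fun i => lim_sphere (F₀.sub N) (ha i)
  -- a point of the image of the limit set different from the `a i`
  have hex : ∃ b₁ ∈ (F₀.sub N).lim, ∀ i, F₀.act c b₁ ≠ a i := by
    by_contra hcon
    push Not at hcon
    have hfin : (F₀.act c '' (F₀.sub N).lim).Finite := by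
      refine (Set.finite_range a).subset ?_
      rintro _ ⟨b, hb, rfl⟩
      obtain ⟨i, hi⟩ := hcon b hb
      exact ⟨i, hi.symm⟩
    have hinj : InjOn (F₀.act c) (F₀.sub N).lim := (act_inj F₀ c).mono fun x hx => by
      simp [lim_sphere (F₀.sub N) hx]
    exact lim_infinite (F₀.sub N) hN (Set.Finite.of_finite_image hfin hinj)
  obtain ⟨b₁, hb₁, hb₁a⟩ := hex
  have nb₁ := act_eq F₀ c (lim_sphere (F₀.sub N) hb₁)
  rcases UE_tri (na 0) (na 1) (na 2) nb₁ (hd 0 1 (by decide)) (hd 1 2 (by decide))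
    (hd 2 0 (by decide)) (hb₁a 0) (hb₁a 1) (hb₁a 2) with h | h | h
  · obtain ⟨S, h1, h2, h3, h4, h5, h6⟩ :=
      UE_core hW hWc hWb hinv hN hc (ha 1) (ha 2) (hd 1 2 (by decide)) hb₁ h
    refine ⟨S, h1, h2, fun i => ?_, h6⟩
    fin_cases i
    · exact h5
    · exact h3
    · exact h4
  · obtain ⟨S, h1, h2, h3, h4, h5, h6⟩ :=
      UE_core hW hWc hWb hinv hN hc (ha 2) (ha 0) (hd 2 0 (by decide)) hb₁ h
    refine ⟨S, h1, h2, fun i => ?_, h6⟩
    fin_cases i
    · exact h4
    · exact h5
    · exact h3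
  · obtain ⟨S, h1, h2, h3, h4, h5, h6⟩ :=
      UE_core hW hWc hWb hinv hN hc (ha 0) (ha 1) (hd 0 1 (by decide)) hb₁ h
    refine ⟨S, h1, h2, fun i => ?_, h6⟩
    fin_cases i
    · exact h3
    · exact h4
    · exact h5


end CV
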