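import Pool.Agent.H12.CV.UE
import Pool.Agent.H12.TN.RG
import Pool.Agent.H12.TN.TCs

/-!
UF (quasiconvexity; (4.2) of the note): the subgroup `N` has (UC) on the disc `X`.
Suppose not: `TN.not_UC (F₀.sub N)` gives `ξ ∈ Λ = (F₀.sub N).lim` with `r ≤ ‖act z (r ξ)‖` for all `z ∈ N`, `0 ≤ r < 1`.  `Λ` is perfect: choose `ζ k ∈ Λ`, `ζ k → ξ`, `ζ k ≠ ξ`, and `ω ∈ Λ`, `ω ≠ ξ`, `ω ≠ ζ k` for all `k`.  `F₀.TC` (`tc_of_uc`; `Λ ⊆ F₀.lim`) gives `ε > 0` and `d k` such that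
`act (d k)` makes `(ξ, ζ k, ω)` `ε`-separated.  `b k = F₀.b (d k)`.  By `act_dist`: `ε ≤ (1-‖b‖²) ‖ξ - ζ‖/(‖1 - conj b ξ‖ ‖1 - conj b ζ‖)` and the same for `(ξ, ω)`, `(ζ, ω)`.
(1) `‖1 - conj b ξ‖ ‖1 - conj b ζ k‖ ≤ (1-‖b‖²) ‖ξ - ζ k‖/ε → 0`, and `‖1 - conj b x‖ ≥ 1 - ‖b‖` gives `‖b k‖ → 1`; every limit point `β` of `b k` has `‖β‖ = 1` and `‖1 - conj β ξ‖² = 0`, so `b k → ξ`.  Then `‖1 - conj (b k) ω‖ ≥ ‖ξ - ω‖/2` for large `k` and the `(ξ, ω)` inequality gives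
`‖1 - conj (b k) ξ‖ ≤ C (1 - ‖b k‖²)`.
(2) put `r k = ‖b k‖`.  `pd (r k ξ) (b k) ≤ ρ' < 1`: `1 - pd² = (1 - r²)²/‖1 - conj b (r ξ)‖²` and `‖1 - conj b (r ξ)‖ ≤ ‖1 - conj b ξ‖ + (1 - r) ≤ (C + 1)(1 - r²)`, so `1 - pd² ≥ 1/(C+1)²`.
(3) pass to a subsequence such that for `l < k`: `r k > s (‖b l‖)`, where `s` is the bound of `norm_le_of_pd` for `‖x‖ ≤ ‖b l‖`, `pd ≤ ρ'`.  Then for `l < k`, `z = (d l)⁻¹ d k` is not in `N`: `pd (act z (r k ξ)) (b l) = pd (act (d k) (r k ξ)) 0 = pd (r k ξ) (b k) ≤ ρ'` (`b l = act (d l)⁻¹ 0`), so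
`‖act z (r k ξ)‖ ≤ s (‖b l‖) < r k`, contradiction to the property of `ξ`.  So `(d j)⁻¹ d k ∉ N` for all `j ≠ k` (inverses).
(4) `TN.triples` for `u j = act (d j) (ξ, ζ j, ω)`: for `j ≠ k`, `c = (d j)⁻¹ d k`, `same_side` for `a = (ξ, ζ j, ω)` gives `S`; take `act (d j) '' S`: preconnected, `u j i ∉` it (injectivity), and `u k i = act (d j) (act c (a' i))` is in `act (d j) '' closure S ⊆ closure (act (d j) '' S)`.
-/

namespace CV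

open Metric Set Filter Topology Function DS TN

variable {Γ : Type} [Group Γ] {F₀ : Fuchs Γ} {N : Subgroup Γ} {W : Set ℂ}

theorem UF_dist (F₀ : Fuchs Γ) (d : Γ) {x y : ℂ} (hx : ‖x‖ = 1) (hy : ‖y‖ = 1) {ε : ℝ}
    (h : ε ≤ dist (F₀.act d x) (F₀.act d y)) :
    ε * (‖x - F₀.b d‖ * ‖y - F₀.b d‖) ≤ (1 - ‖F₀.b d‖ ^ 2) * dist x y := by
  rw [act_dist F₀ d hx.le hy.le, FD_den hx, FD_den hy] at h
  have hb := F₀.hb d
  have h1 : 0 < ‖x - F₀.b d‖ := by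
    rw [norm_pos_iff, sub_ne_zero]
    rintro h
    rw [← h, hx] at hb
    exact lt_irrefl _ hb
  have h2 : 0 < ‖y - F₀.b d‖ := by
    rw [norm_pos_iff, sub_ne_zero]
    rintro h
    rw [← h, hy] at hb
    exact lt_irrefl _ hb
  rwa [le_div_iff₀ (mul_pos h1 h2)] at h

theorem UF_sq (F₀ : Fuchs Γ) (d : Γ) {x y : ℂ} (hx : ‖x‖ = 1) (hy : ‖y‖ = 1) {ε : ℝ} (hε : 0 < ε)
    (h : ε ≤ dist (F₀.act d x) (F₀.act d y)) :
    ‖x - F₀.b d‖ ^ 2 ≤ (2 + 1 / ε) * dist y x := by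
  have h1 := UF_dist F₀ d hx hy h
  have hb := F₀.hb d
  have hδ : 0 ≤ dist y x := dist_nonneg
  rw [dist_comm x y] at h1
  have h2 : ‖x - F₀.b d‖ ≤ dist y x + ‖y - F₀.b d‖ := by
    rw [dist_comm y x, dist_eq_norm]
    calc ‖x - F₀.b d‖ = ‖(x - y) + (y - F₀.b d)‖ := by congr 1; ring
      _ ≤ _ := norm_add_le _ _
  have h3 : ‖x - F₀.b d‖ ≤ 2 := by
    have := norm_sub_le x (F₀.b d)
    linarith
  have h0 : 0 ≤ ‖x - F₀.b d‖ := norm_nonneg _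
  have h4 : (1 - ‖F₀.b d‖ ^ 2) * dist y x ≤ dist y x := by
    nlinarith [mul_nonneg (sq_nonneg ‖F₀.b d‖) hδ]
  have h5 : ε * (‖x - F₀.b d‖ * (‖x - F₀.b d‖ - dist y x)) ≤ dist y x := by
    refine le_trans ?_ (h1.trans h4)
    have : ‖x - F₀.b d‖ - dist y x ≤ ‖y - F₀.b d‖ := by linarith
    gcongr
  have h6 : ‖x - F₀.b d‖ * dist y x ≤ 2 * dist y x := mul_le_mul_of_nonneg_right h3 hδ
  have h7 : ε * ‖x - F₀.b d‖ ^ 2 ≤ ε * ((2 + 1 / ε) * dist y x) := by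
    have e1 : ε * ((2 + 1 / ε) * dist y x) = 2 * ε * dist y x + dist y x := by
      field_simp
    rw [e1]
    nlinarith [mul_le_mul_of_nonneg_left h6 hε.le]
  exact le_of_mul_le_mul_left h7 hε

theorem UF_lin (F₀ : Fuchs Γ) (d : Γ) {x y : ℂ} (hx : ‖x‖ = 1) (hy : ‖y‖ = 1) {ε : ℝ} (hε : 0 < ε)
    (h : ε ≤ dist (F₀.act d x) (F₀.act d y)) (h' : ‖x - F₀.b d‖ ≤ dist y x / 2) (hne : y ≠ x) :
    ‖x - F₀.b d‖ ≤ 4 / (ε * dist y x) * (1 - ‖F₀.b d‖ ^ 2) := by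
  have h1 := UF_dist F₀ d hx hy h
  have hb := F₀.hb d
  have hδ : 0 < dist y x := dist_pos.2 hne
  have h2 : dist y x ≤ ‖y - F₀.b d‖ + ‖x - F₀.b d‖ := by
    rw [dist_eq_norm]
    calc ‖y - x‖ = ‖(y - F₀.b d) - (x - F₀.b d)‖ := by congr 1; ring
      _ ≤ _ := norm_sub_le _ _
  have h3 : dist y x / 2 ≤ ‖y - F₀.b d‖ := by linarith
  have h4 : dist x y ≤ 2 := by
    have := norm_sub_le x y
    rw [dist_eq_norm]
    linarith
  have hb2 : 0 ≤ 1 - ‖F₀.b d‖ ^ 2 := by nlinarith [norm_nonneg (F₀.b d)]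
  have h5 : ε * (‖x - F₀.b d‖ * (dist y x / 2)) ≤ (1 - ‖F₀.b d‖ ^ 2) * 2 := by
    calc _ ≤ ε * (‖x - F₀.b d‖ * ‖y - F₀.b d‖) := by gcongr
      _ ≤ _ := h1
      _ ≤ _ := by gcongr
  rw [div_mul_eq_mul_div, le_div_iff₀ (mul_pos hε hδ)]
  linarith

theorem UF_pd {b ξ : ℂ} (hb : ‖b‖ < 1) (hξ : ‖ξ‖ = 1) {C : ℝ} (hC : 0 ≤ C)
    (h : ‖ξ - b‖ ≤ C * (1 - ‖b‖ ^ 2)) : pd b (‖b‖ * ξ) ≤ Real.sqrt (1 - 1 / (C + 1) ^ 2) := by
  have hx : ‖((‖b‖ : ℝ) : ℂ) * ξ‖ = ‖b‖ := by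
    rw [norm_mul, hξ, mul_one, Complex.norm_real, norm_norm]
  have h1 := mob_norm (u := 1) (b := b) (x := ((‖b‖ : ℝ) : ℂ) * ξ) norm_one hb (by rw [hx]; exact hb.le)
  rw [← MB_pd_eq, hx] at h1
  have h0 := norm_nonneg b
  have hd : ‖1 - (starRingEnd ℂ) b * (((‖b‖ : ℝ) : ℂ) * ξ)‖ ≤ (C + 1) * (1 - ‖b‖ ^ 2) := by
    have e1 : 1 - (starRingEnd ℂ) b * (((‖b‖ : ℝ) : ℂ) * ξ) = (1 - (starRingEnd ℂ) b * ξ) +
        (starRingEnd ℂ) b * (((1 - ‖b‖ : ℝ) : ℂ) * ξ) := by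
      push_cast
      ring
    rw [e1]
    refine (norm_add_le _ _).trans ?_
    rw [FD_den hξ, norm_mul, RCLike.norm_conj, norm_mul, hξ, mul_one, Complex.norm_real,
      Real.norm_of_nonneg (by linarith)]
    nlinarith
  have hdp : 0 < ‖1 - (starRingEnd ℂ) b * (((‖b‖ : ℝ) : ℂ) * ξ)‖ :=
    norm_pos_iff.2 (den_ne hb (by rw [hx]; exact hb.le))
  have hb2 : 0 < 1 - ‖b‖ ^ 2 := by nlinarith
  have h2 : 1 / (C + 1) ^ 2 ≤ 1 - pd b (((‖b‖ : ℝ) : ℂ) * ξ) ^ 2 := by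
    rw [h1, div_le_div_iff₀ (by positivity) (by positivity), one_mul]
    have := pow_le_pow_left₀ hdp.le hd 2
    calc _ ≤ ((C + 1) * (1 - ‖b‖ ^ 2)) ^ 2 := this
      _ = _ := by ring
  apply Real.le_sqrt_of_sq_le
  linarith

theorem sub_uc (hU : F₀.UC) (hW : IsOpen W) (hWc : IsConnected W) (hWb : W ⊆ ball 0 1)
    (hinv : ∀ z ∈ N, F₀.act z '' W = W) (hN : (F₀.sub N).Nonel)
    (hc : ∀ c, c ∉ N → Disjoint (F₀.act c '' W) W) : (F₀.sub N).UC := by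
  by_contra hnot
  obtain ⟨ξ, hξ, hmin⟩ := not_UC (F₀.sub N) hnot
  have hξ1 : ‖ξ‖ = 1 := hξ.1
  obtain ⟨ω, hω, hωξ, -⟩ := perfect (F₀.sub N) hN hξ (ε := 3) (by norm_num)
  have hω1 : ‖ω‖ = 1 := hω.1
  have hD : 0 < dist ω ξ := dist_pos.2 hωξ
  have hz : ∀ k : ℕ, ∃ ζ ∈ (F₀.sub N).lim, ζ ≠ ξ ∧ ζ ≠ ω ∧ dist ζ ξ < 1 / ((k : ℝ) + 1) := by
    intro k
    obtain ⟨ζ, h1, h2, h3⟩ := perfect (F₀.sub N) hN hξ (ε := min (1 / ((k : ℝ) + 1)) (dist ω ξ))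
      (lt_min (by positivity) hD)
    refine ⟨ζ, h1, h2, ?_, h3.trans_le (min_le_left _ _)⟩
    rintro rfl
    exact absurd (h3.trans_le (min_le_right _ _)) (lt_irrefl _)
  choose ζ hζ hζξ hζω hζd using hz
  obtain ⟨ε, hε, HT⟩ := tc_of_uc F₀ hU
  have hd := fun k => HT ξ (sub_lim F₀ N hξ) (ζ k) (sub_lim F₀ N (hζ k)) ω (sub_lim F₀ N hω)
    (Ne.symm (hζξ k)) (hζω k) (Ne.symm hωξ)
  choose d hd1 hd2 hd3 using hd
  -- convergence of the points `b (d k)`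
  have hδ : Tendsto (fun k => dist (ζ k) ξ) atTop (𝓝 0) :=
    squeeze_zero (fun _ => dist_nonneg) (fun k => (hζd k).le) tendsto_one_div_add_atTop_nhds_zero_nat
  have hsq : Tendsto (fun k => ‖ξ - F₀.b (d k)‖ ^ 2) atTop (𝓝 0) := by
    have h1 := hδ.const_mul (2 + 1 / ε)
    rw [mul_zero] at h1
    exact squeeze_zero (fun _ => by positivity)
      (fun k => UF_sq F₀ (d k) hξ1 (hζ k).1 hε (hd1 k)) h1
  have hX : Tendsto (fun k => ‖ξ - F₀.b (d k)‖) atTop (𝓝 0) := by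
    have h1 := (Real.continuous_sqrt.tendsto 0).comp hsq
    rw [Real.sqrt_zero] at h1
    refine h1.congr fun k => ?_
    simp only [Function.comp, Real.sqrt_sq (norm_nonneg _)]
  have hbn : Tendsto (fun k => ‖F₀.b (d k)‖) atTop (𝓝 1) := by
    have h1 : Tendsto (fun k => F₀.b (d k)) atTop (𝓝 ξ) := by
      rw [tendsto_iff_dist_tendsto_zero]
      refine hX.congr fun k => ?_
      rw [dist_comm, dist_eq_norm]
    have h2 := h1.norm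
    rwa [hξ1] at h2
  set C : ℝ := 4 / (ε * dist ω ξ) with hCdef
  have hC : 0 ≤ C := by positivity
  set ρ : ℝ := Real.sqrt (1 - 1 / (C + 1) ^ 2) with hρdef
  have hρ : ρ < 1 := by
    rw [hρdef, Real.sqrt_lt' one_pos]
    have : 0 < 1 / (C + 1) ^ 2 := by positivity
    linarith
  have hpdev : ∀ᶠ k in atTop, pd (F₀.b (d k)) (‖F₀.b (d k)‖ * ξ) ≤ ρ := by
    have h1 : ∀ᶠ k in atTop, ‖ξ - F₀.b (d k)‖ < dist ω ξ / 2 :=
      hX.eventually (gt_mem_nhds (by positivity))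
    filter_upwards [h1] with k hk
    exact UF_pd (F₀.hb _) hξ1 hC (UF_lin F₀ (d k) hξ1 hω1 hε (hd3 k) hk.le hωξ)
  have hs : ∀ l : ℕ, ∃ s : ℝ, s < 1 ∧ ∀ x y : ℂ, ‖x‖ ≤ ‖F₀.b (d l)‖ → ‖y‖ < 1 → pd x y ≤ ρ →
      ‖y‖ ≤ s := fun l => norm_le_of_pd (F₀.hb (d l)) hρ
  choose s hs1 hs2 using hs
  obtain ⟨f, hf1, hf2⟩ := exists_seq_of_forall_finset_exists
    (fun k => pd (F₀.b (d k)) (‖F₀.b (d k)‖ * ξ) ≤ ρ) (fun l k => s l < ‖F₀.b (d k)‖) (by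
      intro t _
      have h1 : ∀ᶠ k in atTop, ∀ x ∈ t, s x < ‖F₀.b (d k)‖ := by
        rw [Filter.eventually_all_finset]
        intro x _
        exact hbn.eventually (lt_mem_nhds (hs1 x))
      obtain ⟨k, hk⟩ := (hpdev.and h1).exists
      exact ⟨k, hk.1, hk.2⟩)
  have hlt : ∀ l k, l < k → (d (f l))⁻¹ * d (f k) ∉ N := by
    intro l k hlk hmem
    set b := F₀.b (d (f k)) with hb
    have hb1 : ‖b‖ < 1 := F₀.hb _
    have hx1 : ‖((‖b‖ : ℝ) : ℂ) * ξ‖ = ‖b‖ := by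
      rw [norm_mul, hξ1, mul_one, Complex.norm_real, norm_norm]
    have hx : ‖((‖b‖ : ℝ) : ℂ) * ξ‖ < 1 := by rw [hx1]; exact hb1
    have h1 := hmin ⟨_, hmem⟩ ‖b‖ (norm_nonneg _) hb1
    rw [sub_act] at h1
    simp only at h1
    have h2 : pd (F₀.b (d (f l))) (F₀.act ((d (f l))⁻¹ * d (f k)) (‖b‖ * ξ)) ≤ ρ := by
      rw [b_eq F₀ (d (f l)), act_mul F₀ _ _ hx.le, act_pd F₀ _ (by simp) (act_lt F₀ _ hx)]
      have e0 : F₀.act (d (f k)) b = 0 := by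
        rw [hb, b_eq F₀, act_act_inv F₀ _ (by simp)]
      rw [← e0, act_pd F₀ _ hb1.le hx]
      exact hf1 k
    have h3 := hs2 (f l) _ _ le_rfl (act_lt F₀ _ hx) h2
    exact absurd (h1.trans h3) (not_le.2 (hf2 l k hlk))
  have hne : ∀ j k, j ≠ k → (d (f j))⁻¹ * d (f k) ∉ N := by
    intro j k hjk
    rcases lt_or_gt_of_ne hjk with h | h
    · exact hlt j k h
    · intro hmem
      apply hlt k j h
      have := N.inv_mem hmem
      rwa [mul_inv_rev, inv_inv] at this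
  let a : ℕ → Fin 3 → ℂ := fun j => ![ξ, ζ (f j), ω]
  have ha : ∀ j i, a j i ∈ (F₀.sub N).lim := by
    intro j i
    fin_cases i
    · exact hξ
    · exact hζ _
    · exact hω
  have had : ∀ j i i', i ≠ i' → a j i ≠ a j i' := by
    intro j i i' hi
    fin_cases i <;> fin_cases i'
    · exact absurd rfl hi
    · exact Ne.symm (hζξ _)
    · exact Ne.symm hωξ
    · exact hζξ _
    · exact absurd rfl hi
    · exact hζω _
    · exact hωξ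
    · exact Ne.symm (hζω _)
    · exact absurd rfl hi
  refine triples hε (u := fun j i => F₀.act (d (f j)) (a j i)) ?_ ?_ ?_
  · intro j i
    exact act_eq F₀ _ (ha j i).1
  · intro j i i' hi
    fin_cases i <;> fin_cases i'
    · exact absurd rfl hi
    · exact hd1 _
    · exact hd3 _
    · show ε ≤ dist (F₀.act (d (f j)) (ζ (f j))) (F₀.act (d (f j)) ξ)
      rw [dist_comm]
      exact hd1 _
    · exact absurd rfl hi
    · exact hd2 _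
    · show ε ≤ dist (F₀.act (d (f j)) ω) (F₀.act (d (f j)) ξ)
      rw [dist_comm]
      exact hd3 _
    · show ε ≤ dist (F₀.act (d (f j)) ω) (F₀.act (d (f j)) (ζ (f j)))
      rw [dist_comm]
      exact hd2 _
    · exact absurd rfl hi
  · intro j k hjk
    obtain ⟨S, hS1, hS2, hS3, hS4⟩ := same_side hW hWc hWb hinv hN (hc _ (hne j k hjk)) (ha j) (had j)
    have hSb : closure S ⊆ closedBall 0 1 :=
      closure_minimal (hS2.trans sphere_subset_closedBall) isClosed_closedBall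
    have hSb' : S ⊆ closedBall 0 1 := subset_closure.trans hSb
    refine ⟨F₀.act (d (f j)) '' S, hS1.image _ ((act_cont F₀ _).mono hSb'), ?_, ?_, ?_⟩
    · rintro _ ⟨x, hx, rfl⟩
      have := hS2 hx
      rw [mem_sphere_zero_iff_norm] at this ⊢
      exact act_eq F₀ _ this
    · rintro i ⟨x, hx, hxe⟩
      have hi : a j i ∈ closedBall (0:ℂ) 1 := by
        rw [mem_closedBall_zero_iff]
        exact (ha j i).1.le
      have := act_inj F₀ _ (hSb' hx) hi hxe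
      rw [this] at hx
      exact hS3 i hx
    · intro i
      have h1 := hS4 _ (ha k i)
      have h2 : F₀.act (d (f k)) (a k i) =
          F₀.act (d (f j)) (F₀.act ((d (f j))⁻¹ * d (f k)) (a k i)) := by
        rw [← act_mul F₀ _ _ (ha k i).1.le, mul_inv_cancel_left]
      show F₀.act (d (f k)) (a k i) ∈ _
      rw [h2]
      exact ((act_cont F₀ (d (f j))).mono hSb).image_closure ⟨_, h1, rfl⟩

end CV
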