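import Pool.Agent.H12.CV.UF
import Pool.Agent.H12.CV.MO

/-!
UG (chains; (4.3) of the note).  `F : Fuchs N` acts on the disc `D'`, `F₁ : Fuchs N` on the disc `X`, `ψ : D' → X` holomorphic and equivariant; `F₁.UC`.  Claim: `F.UC`.
`chain`: there are `C` and for each `c : N` a chain `c_0 = 1, .., c_n = c` in `N` with `hd (F.act c_i 0) (F.act c_(i+1) 0) ≤ C` and `hd (F.act c_i 0) (F.act c_j 0) ≥ |i - j| - C`.
Proof.  `seg_uc F₁` gives `ρ₁`, `R₁` (`hd_of_norm`).  Let `y = F₁.act c 0`, `ℓ = hd y 0`, `n = ⌈ℓ⌉`, and `x_i` the point of the segment `[0, y]` with `hd x_i 0 = min i ℓ` (`i ≤ n`; `x_i = t_i y`); `hd x_i x_j = |min i ℓ - min j ℓ|` (`hd_radial`).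
Choose `c_i` with `hd (F₁.act c_i⁻¹ x_i) 0 ≤ R₁`, i.e. `hd x_i (F₁.act c_i 0) ≤ R₁`, and `c_0 = 1`, `c_n = c` (`x_0 = 0`, `x_n = y`).  So `hd (F₁.act c_i 0) (F₁.act c_(i+1) 0) ≤ 2 R₁ + 1`, i.e. `hd (F₁.act (c_i⁻¹ c_(i+1)) 0) 0 ≤ 2 R₁ + 1`: `c_i⁻¹ c_(i+1)` is in a finite set `B` (`hd_ball`, `F₁.fin`),
independent of `c`; `C' = max over B of hd (F.act b 0) 0`.  Lower bound: `hd (F.act c_i 0) (F.act c_j 0) ≥ hd (ψ ..) (ψ ..) = hd (F₁.act c_i p₀) (F₁.act c_j p₀)` (`hd_schwarz`, `p₀ = ψ 0`) `≥ hd (F₁.act c_i 0) (F₁.act c_j 0) - 2 hd p₀ 0 ≥ |i - j| - 1 - 2 R₁ - 2 hd p₀ 0`.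
`uc_cover`: `morse` for `q_i = F.act c_i 0` gives `R`: for every `c` and `t ∈ [0,1]` there is `i` with `hd (t F.act c 0) (F.act c_i 0) ≤ R`, i.e. `‖F.act c_i⁻¹ (t F.act c 0)‖ ≤ ρ` (`hd_ball`).  Let `ξ ∈ F.lim`, `0 ≤ r < 1`: `ξ = lim F.act (g k) 0`, `‖F.act (g k) 0‖ → 1`; for large `k`, `r ≤ ‖F.act (g k) 0‖` and
`y_k = r F.act (g k) 0 / ‖F.act (g k) 0‖` is of the form `t F.act (g k) 0`; so `‖F.act (h k) y_k‖ ≤ ρ` for some `h k`; `‖y_k‖ = r` so `h k` is in a finite set (`TN.proper`); a constant subsequence `h`, `y_k → r ξ`: `‖F.act h (r ξ)‖ ≤ ρ`.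
`nonel_uc`: `exists_fuchs0`, `sub_nonel`, `sub_uc` with `W = fil X U` (`fil_open`, `fil_conn`, `fil_inv`, `fil_disj`), `uc_cover` with `F₁ = F₀.sub N`.
-/

namespace CV

open Metric Set Filter Topology Function DS TN

section
variable {N : Type} [Group N] (F : Fuchs N)

theorem UG_hd_act (g : N) {x y : ℂ} (hx : ‖x‖ < 1) (hy : ‖y‖ < 1) :
    hd (F.act g x) (F.act g y) = hd x y :=
  hd_mob (F.hu g) (F.hb g) hx hy

theorem UG_zero (g : N) : ‖F.act g 0‖ < 1 := act_lt F g (by simp)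

/-- moving the first point to the origin -/
theorem UG_move (g : N) {x : ℂ} (hx : ‖x‖ < 1) :
    hd (F.act g⁻¹ x) 0 = hd x (F.act g 0) := by
  have h1 := UG_hd_act F g (x := F.act g⁻¹ x) (y := 0) (act_lt F _ hx) (by simp)
  rw [act_act_inv F g hx.le] at h1
  exact h1.symm

theorem UG_move2 (g h : N) : hd (F.act g 0) (F.act h 0) = hd (F.act (g⁻¹ * h) 0) 0 := by
  rw [act_mul F _ _ (by simp), UG_move F g (UG_zero F h), hd_symm]

/-- the elements that move the origin by a bounded amount form a finite set -/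
theorem UG_fin (R : ℝ) : {g : N | hd (F.act g 0) 0 ≤ R}.Finite := by
  obtain ⟨ρ, hρ, H⟩ := hd_ball R
  refine (F.fin ρ hρ).subset fun g hg => ?_
  have h1 := H (F.act g 0) (UG_zero F g) hg
  rwa [norm_act_zero] at h1

end

/-- `log ((1 + r) / (1 - r))` -/
noncomputable def UG_L (r : ℝ) : ℝ := Real.log ((1 + r) / (1 - r))

/-- its inverse -/
noncomputable def UG_r (s : ℝ) : ℝ := (Real.exp s - 1) / (Real.exp s + 1)

theorem UG_r_lt (s : ℝ) : UG_r s < 1 := by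
  unfold UG_r
  rw [div_lt_one (by positivity)]
  linarith

theorem UG_r_nonneg {s : ℝ} (hs : 0 ≤ s) : 0 ≤ UG_r s := by
  unfold UG_r
  have := Real.one_le_exp hs
  exact div_nonneg (by linarith) (by positivity)

theorem UG_r_mono {s t : ℝ} (h : s ≤ t) : UG_r s ≤ UG_r t := by
  unfold UG_r
  rw [div_le_div_iff₀ (by positivity) (by positivity)]
  have := Real.exp_le_exp.2 h
  nlinarith [Real.exp_pos s, Real.exp_pos t]

theorem UG_L_r (s : ℝ) : UG_L (UG_r s) = s := by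
  unfold UG_L UG_r
  have h0 : Real.exp s + 1 ≠ 0 := by positivity
  have h1 : (1 + (Real.exp s - 1) / (Real.exp s + 1)) / (1 - (Real.exp s - 1) / (Real.exp s + 1)) =
      Real.exp s := by
    field_simp
    ring
  rw [h1, Real.log_exp]

theorem UG_r_L {r : ℝ} (h0 : 0 ≤ r) (h1 : r < 1) : UG_r (UG_L r) = r := by
  unfold UG_L UG_r
  have h2 : (0:ℝ) < (1 + r) / (1 - r) := div_pos (by linarith) (by linarith)
  rw [Real.exp_log h2]
  have h3 : (1 - r) ≠ 0 := by linarith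
  field_simp
  ring

theorem UG_L_nonneg {r : ℝ} (h0 : 0 ≤ r) (h1 : r < 1) : 0 ≤ UG_L r := by
  unfold UG_L
  apply Real.log_nonneg
  rw [le_div_iff₀ (by linarith)]
  linarith

/-- the chain -/
theorem UG_chain {N : Type} [Group N] (F₁ F : Fuchs N) (hU : F₁.UC) {ψ : ℂ → ℂ}
    (hψ : DifferentiableOn ℂ ψ (ball 0 1)) (m : MapsTo ψ (ball 0 1) (ball 0 1))
    (he : ∀ c, ∀ z ∈ ball (0:ℂ) 1, ψ (F.act c z) = F₁.act c (ψ z)) :
    ∃ C : ℝ, ∀ c : N, ∃ (n : ℕ) (q : ℕ → N), q 0 = 1 ∧ q n = c ∧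
      (∀ i < n, hd (F.act (q i) 0) (F.act (q (i + 1)) 0) ≤ C) ∧
      (∀ i ≤ n, ∀ j ≤ n, i ≤ j → (j - i : ℝ) - C ≤ hd (F.act (q i) 0) (F.act (q j) 0)) := by
  obtain ⟨ρ₁, hρ₁, H₁⟩ := seg_uc F₁ hU
  obtain ⟨R₀, hR₀⟩ := hd_of_norm hρ₁
  obtain ⟨R₁, hR₁0, hR₁⟩ : ∃ R₁ : ℝ, 0 ≤ R₁ ∧ ∀ x : ℂ, ‖x‖ ≤ ρ₁ → hd x 0 ≤ R₁ :=
    ⟨max R₀ 0, le_max_right _ _, fun x hx => (hR₀ x hx).trans (le_max_left _ _)⟩
  -- the finite set and the bound
  have hfin := UG_fin F₁ (2 * R₁ + 1)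
  obtain ⟨C', hC'⟩ : ∃ C' : ℝ, ∀ g : N, hd (F₁.act g 0) 0 ≤ 2 * R₁ + 1 → hd (F.act g 0) 0 ≤ C' := by
    obtain ⟨C', hC'⟩ := (hfin.image fun g => hd (F.act g 0) 0).bddAbove
    exact ⟨C', fun g hg => hC' ⟨g, hg, rfl⟩⟩
  have hp₀ : ‖ψ 0‖ < 1 := by
    have := m (x := 0) (by simp)
    simpa using this
  have hp : 0 ≤ hd (ψ 0) 0 := hd_nonneg hp₀ (by simp)
  refine ⟨max C' (1 + 2 * R₁ + 2 * hd (ψ 0) 0), fun c => ?_⟩
  have hy1 : ‖F₁.act c 0‖ < 1 := UG_zero F₁ c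
  by_cases hy0 : F₁.act c 0 = 0
  · -- trivial chain
    have hc : c = 1 := by
      by_contra hc
      exact F₁.free c hc 0 (by simp) hy0
    refine ⟨0, fun _ => 1, rfl, hc.symm, fun i hi => absurd hi (Nat.not_lt_zero i), ?_⟩
    intro i hi j hj _
    have hi0 : i = 0 := Nat.le_zero.1 hi
    have hj0 : j = 0 := Nat.le_zero.1 hj
    subst hi0 hj0
    rw [hd_self]
    have h2 : (1 + 2 * R₁ + 2 * hd (ψ 0) 0) ≤ max C' (1 + 2 * R₁ + 2 * hd (ψ 0) 0) := le_max_right _ _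
    have h3 : ((0:ℕ) - (0:ℕ) : ℝ) = 0 := by simp
    rw [h3]
    linarith
  set y := F₁.act c 0 with hy
  have hyn : 0 < ‖y‖ := norm_pos_iff.2 hy0
  set ℓ : ℝ := UG_L ‖y‖ with hℓ
  have hℓ0 : 0 ≤ ℓ := UG_L_nonneg hyn.le hy1
  have hrℓ : UG_r ℓ = ‖y‖ := UG_r_L hyn.le hy1
  have hℓpos : 0 < ℓ := by
    rcases hℓ0.lt_or_eq with h | h
    · exact h
    · exfalso
      rw [← h] at hrℓ
      have : UG_r 0 = 0 := by unfold UG_r; simp
      rw [this] at hrℓ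
      linarith
  set n : ℕ := ⌈ℓ⌉₊ with hn
  have hn1 : ℓ ≤ n := Nat.le_ceil ℓ
  have hn2 : (n : ℝ) < ℓ + 1 := Nat.ceil_lt_add_one hℓ0
  have hnpos : 0 < n := Nat.ceil_pos.2 hℓpos
  -- the points of the segment
  set ζ : ℂ := y / (‖y‖ : ℂ) with hζ
  have hyc : (‖y‖ : ℂ) ≠ 0 := by exact_mod_cast hyn.ne'
  have hζ1 : ‖ζ‖ = 1 := by
    rw [hζ, norm_div, Complex.norm_real, norm_norm, div_self hyn.ne']
  set r : ℕ → ℝ := fun i => UG_r (min (i : ℝ) ℓ) with hr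
  have hr0 : ∀ i, 0 ≤ r i := fun i => UG_r_nonneg (le_min (Nat.cast_nonneg _) hℓ0)
  have hr1 : ∀ i, r i < 1 := fun i => UG_r_lt _
  have hry : ∀ i, r i ≤ ‖y‖ := fun i => by
    rw [← hrℓ]
    exact UG_r_mono (min_le_right _ _)
  set x : ℕ → ℂ := fun i => (r i : ℂ) * ζ with hx
  have hxn : ∀ i, ‖x i‖ < 1 := fun i => by
    rw [hx]
    simp only
    rw [norm_mul, hζ1, mul_one, Complex.norm_real, Real.norm_of_nonneg (hr0 i)]
    exact hr1 i
  have hdx : ∀ i j : ℕ, i ≤ j → hd (x i) (x j) = min (j : ℝ) ℓ - min (i : ℝ) ℓ := by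
    intro i j hij
    have hmono : r i ≤ r j := UG_r_mono (min_le_min_right _ (Nat.cast_le.2 hij))
    have h1 := hd_radial hζ1 (hr0 i) hmono (hr1 j)
    have h2 : Real.log ((1 + r j) / (1 - r j)) = min (j : ℝ) ℓ := UG_L_r _
    have h3 : Real.log ((1 + r i) / (1 - r i)) = min (i : ℝ) ℓ := UG_L_r _
    rw [h2, h3] at h1
    exact h1
  have hseg : ∀ i, ∃ t : ℝ, 0 ≤ t ∧ t ≤ 1 ∧ x i = t * F₁.act c 0 := by
    intro i
    refine ⟨r i / ‖y‖, div_nonneg (hr0 i) hyn.le, (div_le_one hyn).2 (hry i), ?_⟩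
    change (r i : ℂ) * ζ = ((r i / ‖y‖ : ℝ) : ℂ) * y
    rw [hζ]
    push_cast
    ring
  -- the group elements
  have hch : ∀ i, ∃ g : N, hd (x i) (F₁.act g 0) ≤ R₁ := by
    intro i
    obtain ⟨t, ht0, ht1, hxt⟩ := hseg i
    obtain ⟨g, hg⟩ := H₁ c t ht0 ht1
    refine ⟨g⁻¹, ?_⟩
    have h1 := UG_move F₁ g⁻¹ (hxn i)
    rw [inv_inv] at h1
    rw [← h1, hxt]
    exact hR₁ _ hg
  choose g₀ hg₀ using hch
  set q : ℕ → N := fun i => if i = 0 then 1 else if i = n then c else g₀ i with hq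
  have hq0 : q 0 = 1 := by simp [hq]
  have hqn : q n = c := by
    simp [hq, hnpos.ne']
  have hqx : ∀ i, hd (x i) (F₁.act (q i) 0) ≤ R₁ := by
    intro i
    by_cases h0 : i = 0
    · subst h0
      rw [hq0]
      have h1 : x 0 = 0 := by
        have : r 0 = 0 := by
          simp only [hr, Nat.cast_zero, min_eq_left hℓ0]
          unfold UG_r
          simp
        simp [hx, this]
      rw [h1, act_one F₁ (by simp), hd_self]
      exact hR₁0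
    · by_cases h1 : i = n
      · rw [h1, hqn]
        have h2 : x n = F₁.act c 0 := by
          have h3 : r n = ‖y‖ := by
            simp only [hr, min_eq_right hn1]
            exact hrℓ
          change (r n : ℂ) * ζ = y
          rw [h3, hζ, mul_div_cancel₀ _ hyc]
        rw [h2, hd_self]
        exact hR₁0
      · have : q i = g₀ i := by simp [hq, h0, h1]
        rw [this]
        exact hg₀ i
  have hF₁q : ∀ i, ‖F₁.act (q i) 0‖ < 1 := fun i => UG_zero F₁ _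
  refine ⟨n, q, hq0, hqn, ?_, ?_⟩
  · intro i hi
    refine le_trans ?_ (le_max_left _ _)
    rw [UG_move2]
    apply hC'
    rw [← UG_move2]
    have h1 := hd_tri (hF₁q i) (hxn i) (hF₁q (i + 1))
    have h2 := hd_tri (hxn i) (hxn (i + 1)) (hF₁q (i + 1))
    have h3 := hdx i (i + 1) (Nat.le_succ i)
    have h4 : min ((i + 1 : ℕ) : ℝ) ℓ - min (i : ℝ) ℓ ≤ 1 := by
      push_cast
      have : min ((i : ℝ) + 1) ℓ ≤ min (i : ℝ) ℓ + 1 := by
        rw [← min_add_add_right]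
        exact min_le_min_left _ (by linarith)
      linarith
    have h5 := hqx i
    have h6 := hqx (i + 1)
    rw [hd_symm] at h5
    linarith
  · intro i hi j hj hij
    have h1 : hd (ψ (F.act (q i) 0)) (ψ (F.act (q j) 0)) ≤ hd (F.act (q i) 0) (F.act (q j) 0) :=
      hd_schwarz hψ m (by simpa using UG_zero F (q i)) (by simpa using UG_zero F (q j))
    rw [he _ 0 (by simp), he _ 0 (by simp)] at h1
    have hpi : ‖F₁.act (q i) (ψ 0)‖ < 1 := act_lt F₁ _ hp₀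
    have hpj : ‖F₁.act (q j) (ψ 0)‖ < 1 := act_lt F₁ _ hp₀
    -- compare with the orbit of `0`
    have h2 : hd (F₁.act (q i) 0) (F₁.act (q j) 0) ≤
        hd (F₁.act (q i) (ψ 0)) (F₁.act (q j) (ψ 0)) + 2 * hd (ψ 0) 0 := by
      have e1 := hd_tri (hF₁q i) hpi (hF₁q j)
      have e2 := hd_tri hpi hpj (hF₁q j)
      have e3 : hd (F₁.act (q i) 0) (F₁.act (q i) (ψ 0)) = hd (ψ 0) 0 := by
        rw [UG_hd_act F₁ _ (by simp) hp₀, hd_symm]
      have e4 : hd (F₁.act (q j) (ψ 0)) (F₁.act (q j) 0) = hd (ψ 0) 0 :=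
        UG_hd_act F₁ _ hp₀ (by simp)
      linarith
    have h3 : hd (x i) (x j) ≤ hd (F₁.act (q i) 0) (F₁.act (q j) 0) + 2 * R₁ := by
      have e1 := hd_tri (hxn i) (hF₁q i) (hxn j)
      have e2 := hd_tri (hF₁q i) (hF₁q j) (hxn j)
      have e3 := hqx i
      have e4 := hqx j
      rw [hd_symm] at e4
      linarith
    have h4 : (j - i : ℝ) - 1 ≤ hd (x i) (x j) := by
      rw [hdx i j hij]
      have e1 : (j : ℝ) - 1 ≤ min (j : ℝ) ℓ := by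
        refine le_min (by linarith) ?_
        have : (j : ℝ) ≤ n := Nat.cast_le.2 hj
        linarith
      have e2 : min (i : ℝ) ℓ ≤ i := min_le_left _ _
      linarith
    have h5 : (1 + 2 * R₁ + 2 * hd (ψ 0) 0) ≤ max C' (1 + 2 * R₁ + 2 * hd (ψ 0) 0) :=
      le_max_right _ _
    linarith

theorem uc_cover {N : Type} [Group N] (F₁ F : Fuchs N) (hU : F₁.UC) {ψ : ℂ → ℂ}
    (hψ : DifferentiableOn ℂ ψ (ball 0 1)) (m : MapsTo ψ (ball 0 1) (ball 0 1))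
    (he : ∀ c, ∀ z ∈ ball (0:ℂ) 1, ψ (F.act c z) = F₁.act c (ψ z)) : F.UC := by
  obtain ⟨C, hC⟩ := UG_chain F₁ F hU hψ m he
  obtain ⟨R, hR⟩ := morse C
  obtain ⟨ρ, hρ, H⟩ := hd_ball R
  -- segments to orbit points
  have hseg : ∀ c : N, ∀ t : ℝ, 0 ≤ t → t ≤ 1 → ∃ g, ‖F.act g (t * F.act c 0)‖ ≤ ρ := by
    intro c t ht0 ht1
    obtain ⟨n, q, hq0, hqn, h1, h2⟩ := hC c
    obtain ⟨i, hi, h3⟩ := hR n (fun i => F.act (q i) 0)
      (by simp only [hq0]; exact act_one F (by simp)) (fun i _ => UG_zero F _) h1 h2 t ht0 ht1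
    simp only [hqn] at h3
    refine ⟨(q i)⁻¹, ?_⟩
    have hx : ‖(t : ℂ) * F.act c 0‖ < 1 := by
      rw [norm_mul, Complex.norm_real, Real.norm_of_nonneg ht0]
      calc t * ‖F.act c 0‖ ≤ 1 * ‖F.act c 0‖ := mul_le_mul_of_nonneg_right ht1 (norm_nonneg _)
        _ < 1 := by rw [one_mul]; exact UG_zero F c
    apply H _ (act_lt F _ hx)
    rw [UG_move F _ hx]
    exact h3
  refine ⟨ρ, hρ, fun ξ hξ r hr0 hr1 => ?_⟩
  -- the finite set
  have hr' : max r ρ < 1 := max_lt hr1 hρ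
  have hfin := proper F hr'
  set T := {g : N | ∃ x : ℂ, ‖x‖ ≤ max r ρ ∧ ‖F.act g x‖ ≤ max r ρ} with hT
  set K : Set ℂ := ⋃ g ∈ T, {x | x ∈ closedBall (0:ℂ) 1 ∧ F.act g x ∈ closedBall (0:ℂ) ρ} with hK
  have hKc : IsClosed K := by
    refine hfin.isClosed_biUnion fun g _ => ?_
    exact (act_cont F g).preimage_isClosed_of_isClosed isClosed_closedBall isClosed_closedBall
  obtain ⟨hξ1, hξc⟩ := hξ
  obtain ⟨w, hw, hwlim⟩ := mem_closure_iff_seq_limit.1 hξc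
  choose g hg using hw
  have hnorm : Tendsto (fun k => ‖w k‖) atTop (𝓝 1) := by
    have := hwlim.norm
    rwa [hξ1] at this
  have hev : ∀ᶠ k in atTop, max r (1 / 2) < ‖w k‖ :=
    hnorm.eventually_const_lt (max_lt hr1 (by norm_num))
  have hlim : Tendsto (fun k => ((r / ‖w k‖ : ℝ) : ℂ) * w k) atTop (𝓝 ((r : ℂ) * ξ)) := by
    have h1 : Tendsto (fun k => (r / ‖w k‖ : ℝ)) atTop (𝓝 (r / 1)) :=
      tendsto_const_nhds.div hnorm one_ne_zero
    rw [div_one] at h1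
    exact ((Complex.continuous_ofReal.tendsto r).comp h1).mul hwlim
  have hmem : ∀ᶠ k in atTop, ((r / ‖w k‖ : ℝ) : ℂ) * w k ∈ K := by
    filter_upwards [hev] with k hk
    have hk1 : r < ‖w k‖ := lt_of_le_of_lt (le_max_left _ _) hk
    have hk2 : (0:ℝ) < ‖w k‖ := lt_of_lt_of_le (by norm_num) ((le_max_right r (1/2)).trans hk.le)
    have ht0 : 0 ≤ r / ‖w k‖ := div_nonneg hr0 hk2.le
    have ht1 : r / ‖w k‖ ≤ 1 := (div_le_one hk2).2 hk1.le
    obtain ⟨h, hh⟩ := hseg (g k) (r / ‖w k‖) ht0 ht1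
    have hgk : F.act (g k) 0 = w k := hg k
    rw [hgk] at hh
    have hn : ‖((r / ‖w k‖ : ℝ) : ℂ) * w k‖ = r := by
      rw [norm_mul, Complex.norm_real, Real.norm_of_nonneg ht0, div_mul_cancel₀ _ hk2.ne']
    rw [hK]
    simp only [mem_iUnion, mem_setOf_eq, exists_prop]
    refine ⟨h, ⟨_, ?_, hh.trans (le_max_right _ _)⟩, ?_, ?_⟩
    · rw [hn]
      exact le_max_left _ _
    · rw [mem_closedBall_zero_iff, hn]
      exact hr1.le
    · rw [mem_closedBall_zero_iff]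
      exact hh
  have hfinal : (r : ℂ) * ξ ∈ K := hKc.mem_of_tendsto hlim hmem
  rw [hK] at hfinal
  simp only [mem_iUnion, mem_setOf_eq, exists_prop] at hfinal
  obtain ⟨h, -, -, hh⟩ := hfinal
  exact ⟨h, by simpa using hh⟩

end CV
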